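import Pool.Agent.NH56.HY.Stm

/-!
# HY-NDG: the trace form of the commutant is nondegenerate
-/

set_option autoImplicit false

namespace Pool.Agent.NH56.HY

open Matrix Polynomial Filter Topology NumberField IsDedekindDomain

namespace NDG

/-- the coordinate matrix -/
noncomputable def crd {ι F K : Type} [Field F] [CharZero F] (b : Module.Basis K ℚ F) (k : K)
    (B : Matrix ι ι F) : Matrix ι ι ℚ := fun i j => b.repr (B i j) k

theorem crd_mul {ι F K : Type} [Fintype ι] [DecidableEq ι] [Field F] [CharZero F]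
    (b : Module.Basis K ℚ F) (k : K) (B : Matrix ι ι F) (g : Matrix ι ι ℚ) :
    crd b k (B * g.map (algebraMap ℚ F)) = crd b k B * g := by
  ext i j
  simp only [crd, Matrix.mul_apply, Matrix.map_apply]
  rw [map_sum, Finsupp.finset_sum_apply]
  refine Finset.sum_congr rfl fun l _ => ?_
  rw [mul_comm, ← Algebra.smul_def, map_smul, Finsupp.smul_apply, smul_eq_mul, mul_comm]

theorem crd_mul' {ι F K : Type} [Fintype ι] [DecidableEq ι] [Field F] [CharZero F]
    (b : Module.Basis K ℚ F) (k : K) (B : Matrix ι ι F) (g : Matrix ι ι ℚ) :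
    crd b k (g.map (algebraMap ℚ F) * B) = g * crd b k B := by
  ext i j
  simp only [crd, Matrix.mul_apply, Matrix.map_apply]
  rw [map_sum, Finsupp.finset_sum_apply]
  refine Finset.sum_congr rfl fun l _ => ?_
  rw [← Algebra.smul_def, map_smul, Finsupp.smul_apply, smul_eq_mul]

theorem H_map {ι : Type} [Fintype ι] [DecidableEq ι] (X : Coh ι) (F : Type) [Field F] [CharZero F] :
    X.H F = (X.H ℚ).map (algebraMap ℚ F) := by
  ext i j
  by_cases h : i = j
  · subst h
    simp [Coh.H]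
  · simp [Coh.H, h]

theorem hid {ι : Type} (f : ℚ →+* ℚ) (M : Matrix ι ι ℚ) : M.map f = M := by
  rw [Subsingleton.elim f (RingHom.id ℚ)]
  ext i j
  rfl

theorem crd_com {ι : Type} [Fintype ι] [DecidableEq ι] (X : Coh ι) {F K : Type} [Field F] [CharZero F]
    (b : Module.Basis K ℚ F) (k : K) (B : Matrix ι ι F) (h : X.Com F B) : X.Com ℚ (crd b k B) := by
  refine ⟨fun x => ?_, ?_⟩
  · rw [hid, ← crd_mul, ← crd_mul', h.1 x]
  · rw [← crd_mul, ← crd_mul', ← H_map, h.2]

theorem span_crd {ι : Type} [Fintype ι] [DecidableEq ι] {F K : Type} [Field F] [CharZero F]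
    (b : Module.Basis K ℚ F) (B : Matrix ι ι F) :
    ∃ s : Finset K, B = ∑ k ∈ s, b k • (crd b k B).map (algebraMap ℚ F) := by
  classical
  refine ⟨Finset.univ.biUnion fun p : ι × ι => (b.repr (B p.1 p.2)).support, ?_⟩
  ext i j
  rw [Matrix.sum_apply]
  have h1 : B i j = ∑ k ∈ (b.repr (B i j)).support, b.repr (B i j) k • b k := by
    conv_lhs => rw [← b.linearCombination_repr (B i j)]
    rfl
  rw [h1]
  have h2 : (b.repr (B i j)).support ⊆
      Finset.univ.biUnion fun p : ι × ι => (b.repr (B p.1 p.2)).support := by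
    intro k hk
    rw [Finset.mem_biUnion]
    exact ⟨(i, j), Finset.mem_univ _, hk⟩
  rw [Finset.sum_subset h2]
  · refine Finset.sum_congr rfl fun k _ => ?_
    rw [Matrix.smul_apply, Matrix.map_apply, smul_eq_mul, mul_comm, ← Algebra.smul_def]
    rfl
  · intro k _ hk
    rw [Finsupp.notMem_support_iff] at hk
    rw [hk, zero_smul]

/-- nondegeneracy over the rational numbers -/
theorem nondeg {ι : Type} [Fintype ι] [DecidableEq ι] (G : Set (Matrix ι ι ℚ))
    (hss : ∀ W : Submodule ℚ (ι → ℚ), (∀ g ∈ G, ∀ w ∈ W, g *ᵥ w ∈ W) →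
      ∃ W' : Submodule ℚ (ι → ℚ), (∀ g ∈ G, ∀ w ∈ W', g *ᵥ w ∈ W') ∧ IsCompl W W')
    (B : Matrix ι ι ℚ) (hB : ∀ g ∈ G, B * g = g * B)
    (h0 : ∀ B' : Matrix ι ι ℚ, (∀ g ∈ G, B' * g = g * B') → (B * B').trace = 0) : B = 0 := by
  classical
  by_contra hne
  obtain ⟨W', hW', hc⟩ := hss (LinearMap.ker (Matrix.toLin' B)) (by
    intro g hg w hw
    rw [LinearMap.mem_ker, Matrix.toLin'_apply] at hw ⊢
    rw [Matrix.mulVec_mulVec, hB g hg, ← Matrix.mulVec_mulVec, hw, Matrix.mulVec_zero])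
  obtain ⟨U, hU, hcU⟩ := hss (LinearMap.range (Matrix.toLin' B)) (by
    rintro g hg _ ⟨w, rfl⟩
    refine ⟨g *ᵥ w, ?_⟩
    rw [Matrix.toLin'_apply, Matrix.toLin'_apply, Matrix.mulVec_mulVec, hB g hg,
      ← Matrix.mulVec_mulVec])
  -- the inverse of `B` on `W'`
  let e0 : W' →ₗ[ℚ] (ι → ℚ) := (Matrix.toLin' B).comp W'.subtype
  have he0 : Function.Injective e0 := by
    rw [← LinearMap.ker_eq_bot, LinearMap.ker_eq_bot']
    intro w hw
    have h1 : (w : ι → ℚ) ∈ LinearMap.ker (Matrix.toLin' B) := hw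
    have h2 : (w : ι → ℚ) ∈ LinearMap.ker (Matrix.toLin' B) ⊓ W' := ⟨h1, w.2⟩
    rw [hc.inf_eq_bot, Submodule.mem_bot] at h2
    exact Subtype.ext h2
  have hsurj : ∀ y ∈ LinearMap.range (Matrix.toLin' B), ∃ w : W', e0 w = y := by
    rintro _ ⟨v, rfl⟩
    have hv : v ∈ LinearMap.ker (Matrix.toLin' B) ⊔ W' := by rw [hc.sup_eq_top]; trivial
    obtain ⟨a, ha, w, hw, rfl⟩ := Submodule.mem_sup.1 hv
    refine ⟨⟨w, hw⟩, ?_⟩
    change Matrix.toLin' B w = _
    rw [map_add, LinearMap.mem_ker.1 ha, zero_add]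
  obtain ⟨l, hl⟩ := e0.exists_leftInverse_of_injective (LinearMap.ker_eq_bot.2 he0)
  have hl' : ∀ w : W', l (e0 w) = w := fun w => LinearMap.congr_fun hl w
  let pr : (ι → ℚ) →ₗ[ℚ] (ι → ℚ) :=
    (LinearMap.range (Matrix.toLin' B)).subtype.comp
      (Submodule.linearProjOfIsCompl _ _ hcU)
  have hpr1 : ∀ y ∈ LinearMap.range (Matrix.toLin' B), pr y = y := by
    intro y hy
    exact congrArg Subtype.val (Submodule.linearProjOfIsCompl_apply_left hcU ⟨y, hy⟩)
  have hpr2 : ∀ u ∈ U, pr u = 0 := by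
    intro u hu
    exact congrArg Subtype.val ((Submodule.linearProjOfIsCompl_apply_eq_zero_iff hcU).2 hu)
  let f : (ι → ℚ) →ₗ[ℚ] (ι → ℚ) := W'.subtype.comp (l.comp pr)
  have hf : ∀ (w : W') (u : ι → ℚ), u ∈ U → f (e0 w + u) = w := by
    intro w u hu
    change ((l (pr (e0 w + u)) : W') : ι → ℚ) = w
    rw [map_add, hpr2 u hu, add_zero, hpr1 (e0 w) ⟨w, rfl⟩, hl']
  have hdec : ∀ v : ι → ℚ, ∃ (w : W') (u : ι → ℚ), u ∈ U ∧ v = e0 w + u := by
    intro v
    have hv : v ∈ LinearMap.range (Matrix.toLin' B) ⊔ U := by rw [hcU.sup_eq_top]; trivial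
    obtain ⟨a, ha, u, hu, rfl⟩ := Submodule.mem_sup.1 hv
    obtain ⟨w, rfl⟩ := hsurj a ha
    exact ⟨w, u, hu, rfl⟩
  have hcom : ∀ g ∈ G, LinearMap.toMatrix' f * g = g * LinearMap.toMatrix' f := by
    intro g hg
    apply Matrix.toLin'.injective
    apply LinearMap.ext
    intro v
    rw [Matrix.toLin'_mul, Matrix.toLin'_mul, Matrix.toLin'_toMatrix']
    change f (Matrix.toLin' g v) = Matrix.toLin' g (f v)
    rw [Matrix.toLin'_apply, Matrix.toLin'_apply]
    obtain ⟨w, u, hu, rfl⟩ := hdec v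
    rw [hf w u hu]
    have h1 : g *ᵥ (e0 w + u) = e0 ⟨g *ᵥ (w : ι → ℚ), hW' g hg w w.2⟩ + g *ᵥ u := by
      rw [Matrix.mulVec_add]
      congr 1
      change g *ᵥ (Matrix.toLin' B w) = Matrix.toLin' B (g *ᵥ (w : ι → ℚ))
      rw [Matrix.toLin'_apply, Matrix.toLin'_apply, Matrix.mulVec_mulVec, Matrix.mulVec_mulVec,
        hB g hg]
    rw [h1, hf _ _ (hU g hg u hu)]
  have h1 := h0 _ hcom
  have hproj : LinearMap.IsProj (LinearMap.range (Matrix.toLin' B)) ((Matrix.toLin' B).comp f) := by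
    refine ⟨fun x => ⟨f x, rfl⟩, fun x hx => ?_⟩
    obtain ⟨w, rfl⟩ := hsurj x hx
    have h2 := hf w 0 U.zero_mem
    rw [add_zero] at h2
    rw [LinearMap.comp_apply, h2]
    rfl
  have h3 := hproj.trace
  have h4 : (B * LinearMap.toMatrix' f).trace =
      LinearMap.trace ℚ (ι → ℚ) ((Matrix.toLin' B).comp f) := by
    rw [← Matrix.trace_toLin'_eq]
    congr 1
    rw [Matrix.toLin'_mul, Matrix.toLin'_toMatrix']
  rw [h1, h3] at h4
  have h5 : Module.finrank ℚ (LinearMap.range (Matrix.toLin' B)) = 0 := by exact_mod_cast h4.symm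
  rw [Submodule.finrank_eq_zero, LinearMap.range_eq_bot] at h5
  exact hne (Matrix.toLin'.injective (by rw [h5, map_zero]))

end NDG

theorem t_NDG : S_NDG := by
  intro ι _ _ X hX F _ _ B hB
  let b := Module.Basis.ofVectorSpace ℚ F
  obtain ⟨s, hs⟩ := NDG.span_crd b B
  refine ⟨?_, ?_⟩
  · rw [hs]
    refine Submodule.sum_mem _ fun k _ => Submodule.smul_mem _ _ (Submodule.subset_span ?_)
    exact ⟨_, NDG.crd_com X b k B hB, rfl⟩
  · intro h
    have h1 : ∀ k, NDG.crd b k B = 0 := by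
      intro k
      have hck := NDG.crd_com X b k B hB
      refine NDG.nondeg ({g | (∃ x, g = X.δ x) ∨ g = X.H ℚ}) ?_ (NDG.crd b k B) ?_ ?_
      · intro W hW
        obtain ⟨W', h1, h2, h3⟩ := hX.semisimple W (fun x w hw => hW _ (Or.inl ⟨x, rfl⟩) w hw)
          (fun w hw => hW _ (Or.inr rfl) w hw)
        refine ⟨W', ?_, h3⟩
        rintro g (⟨x, rfl⟩ | rfl) w hw
        · exact h1 x w hw
        · exact h2 w hw
      · rintro g (⟨x, rfl⟩ | rfl)
        · have := hck.1 x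
          rwa [NDG.hid] at this
        · exact hck.2
      · intro B' hB'
        have h2 : X.Com ℚ B' := by
          refine ⟨fun x => ?_, hB' _ (Or.inr rfl)⟩
          rw [NDG.hid]
          exact hB' _ (Or.inl ⟨x, rfl⟩)
        have h3 := h B' h2
        have h4 : (NDG.crd b k (B * B'.map (algebraMap ℚ F))).trace =
            b.repr (B * B'.map (algebraMap ℚ F)).trace k := by
          simp only [Matrix.trace, Matrix.diag, NDG.crd]
          rw [map_sum, Finsupp.finset_sum_apply]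
        rw [NDG.crd_mul, h3, map_zero, Finsupp.zero_apply] at h4
        exact h4
    rw [hs]
    refine Finset.sum_eq_zero fun k _ => ?_
    rw [h1 k]
    ext i j
    simp

end Pool.Agent.NH56.HY
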