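import Pool.Agent.NH56.HY.Stm

/-!
Project HY (helper56), part TAN, first file: linear algebra. Written by helper28.
-/

set_option autoImplicit false

namespace Pool.Agent.NH56.HY

open Matrix Polynomial Filter Topology

namespace Tan

variable {ι : Type} [Fintype ι] [DecidableEq ι]

theorem map_mul_aux {F Ω : Type} [Field F] [Field Ω] (f : F →+* Ω) (A B : Matrix ι ι F) :
    (A * B).map f = A.map f * B.map f := Matrix.map_mul

theorem H_map (X : Coh ι) {F Ω : Type} [Field F] [CharZero F] [Field Ω] [CharZero Ω]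
    [Algebra F Ω] : (X.H F).map (algebraMap F Ω) = X.H Ω := by
  unfold Coh.H
  rw [Matrix.diagonal_map (map_zero _)]
  congr 1
  funext a
  simp

theorem map_map_aux {F Ω : Type} [Field F] [CharZero F] [Field Ω] [CharZero Ω]
    [Algebra F Ω] {m : Type} (A : Matrix m m ℚ) :
    (A.map (algebraMap ℚ F)).map (algebraMap F Ω) = A.map (algebraMap ℚ Ω) := by
  ext i j
  simp

theorem com_map (X : Coh ι) {F Ω : Type} [Field F] [CharZero F] [Field Ω] [CharZero Ω]
    [Algebra F Ω] {B : Matrix ι ι F} (h : X.Com F B) : X.Com Ω (B.map (algebraMap F Ω)) := by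
  refine ⟨fun x => ?_, ?_⟩
  · have h1 := congrArg (fun M : Matrix ι ι F => M.map (algebraMap F Ω)) (h.1 x)
    simp only [map_mul_aux, map_map_aux] at h1
    exact h1
  · have h1 := congrArg (fun M : Matrix ι ι F => M.map (algebraMap F Ω)) h.2
    simp only [map_mul_aux, H_map] at h1
    exact h1

theorem sum_ind {Ω : Type} [Field Ω] [DecidableEq Ω] (s : Multiset Ω) (z : Ω) :
    (s.map fun a => if a = z then (1 : Ω) else 0).sum = (s.count z : Ω) := by
  induction s using Multiset.induction_on with
  | empty => simp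
  | cons a s ih =>
    rw [Multiset.map_cons, Multiset.sum_cons, ih, Multiset.count_cons]
    by_cases h : a = z
    · rw [if_pos h, if_pos h.symm]
      push_cast
      ring
    · rw [if_neg h, if_neg (fun h' => h h'.symm)]
      push_cast
      ring

theorem to_pow {Ω : Type} [Field Ω] (C : Matrix ι ι Ω) (a : Ω) (k : ℕ) (x : ι → Ω) :
    ((Matrix.toLinAlgEquiv' C - algebraMap Ω (Module.End Ω (ι → Ω)) a) ^ k) x =
      ((C - a • (1 : Matrix ι ι Ω)) ^ k) *ᵥ x := by
  have h1 : Matrix.toLinAlgEquiv' C - algebraMap Ω (Module.End Ω (ι → Ω)) a =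
      Matrix.toLinAlgEquiv' (C - a • (1 : Matrix ι ι Ω)) := by
    rw [map_sub, map_smul, map_one, Algebra.algebraMap_eq_smul_one]
  rw [h1, ← map_pow, Matrix.toLinAlgEquiv'_apply]

/-- the generalized eigenspace of `z` contains the image of the projector -/
theorem pow_proj {Ω : Type} [Field Ω] [IsAlgClosed Ω] [DecidableEq Ω] (C N : Matrix ι ι Ω) (z : Ω)
    (hN : IsFn (fun a => if a = z then (1 : Ω) else 0) C N) :
    ∃ d : ℕ, (C - z • (1 : Matrix ι ι Ω)) ^ d * N = 0 := by
  set f : Module.End Ω (ι → Ω) := Matrix.toLinAlgEquiv' C with hf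
  have h1 : ⨆ μ : Ω, f.maxGenEigenspace μ = ⊤ := Module.End.iSup_maxGenEigenspace_eq_top f
  have h2 : (⊤ : Submodule Ω (ι → Ω)) ≤
      (f.maxGenEigenspace z).comap (Matrix.toLin' N) := by
    rw [← h1]
    apply iSup_le
    intro a x hx
    rw [Submodule.mem_comap]
    obtain ⟨k, hk⟩ := (Module.End.mem_maxGenEigenspace f a x).1 hx
    rw [← Algebra.algebraMap_eq_smul_one, hf, to_pow] at hk
    have h3 := hN a k x hk
    rw [Matrix.toLin'_apply, h3]
    by_cases ha : a = z
    · subst ha
      dsimp only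
      rw [if_pos rfl, one_smul]
      exact hx
    · dsimp only
      rw [if_neg ha, zero_smul]
      exact zero_mem _
  refine ⟨Module.finrank Ω (ι → Ω), ?_⟩
  apply Matrix.toLin'.injective
  apply LinearMap.ext
  intro x
  have h3 := h2 (Submodule.mem_top : x ∈ ⊤)
  rw [Submodule.mem_comap, Module.End.maxGenEigenspace_eq_genEigenspace_finrank,
    Module.End.mem_genEigenspace_nat, LinearMap.mem_ker, ← Algebra.algebraMap_eq_smul_one, hf,
    to_pow] at h3
  rw [Matrix.toLin'_apply, ← Matrix.mulVec_mulVec, map_zero, LinearMap.zero_apply]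
  rw [Matrix.toLin'_apply] at h3
  exact h3

theorem lin (hFUN : S_FUN) (hNDG : S_NDG) (X : Coh ι) (hX : IsHyperKahler X)
    (F Ω : Type) [Field F] [CharZero F] [Field Ω] [CharZero Ω] [IsAlgClosed Ω] [Algebra F Ω]
    (C : Matrix ι ι F) (hC : X.Com F C) (hcomm : ∀ B, X.Com F B → C * B = B * C)
    (htr : ∀ e : Matrix ι ι Ω, X.Com Ω e → e * e = e →
      (C.map (algebraMap F Ω) * e).trace = 0) : C = 0 := by
  classical
  set C' : Matrix ι ι Ω := C.map (algebraMap F Ω) with hC'
  have hCom' : X.Com Ω C' := com_map X hC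
  have hroot : ∀ z, z ∈ C'.charpoly.roots → z = 0 := by
    intro z hz
    obtain ⟨⟨N, hN⟩, h0⟩ := hFUN Ω ι (fun a => if a = z then (1 : Ω) else 0) C'
    obtain ⟨h1, h2, _, _⟩ := h0 N hN
    have hNN : IsFn (fun a => if a = z then (1 : Ω) else 0) C' (N * N) := by
      intro a k x hx
      rw [← Matrix.mulVec_mulVec, hN a k x hx, Matrix.mulVec_smul, hN a k x hx, smul_smul]
      congr 1
      dsimp only
      split_ifs <;> simp
    have hid : N * N = N := by
      have h3 := h1 ι C' (N * N) 1 hNN (by rw [one_mul, mul_one])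
      rw [one_mul, mul_one] at h3
      exact h3.symm
    have hcm : ∀ B : Matrix ι ι Ω, B * C' = C' * B → B * N = N * B := fun B hB =>
      h1 ι C' N B hN hB
    have hCN : X.Com Ω N :=
      ⟨fun x => (hcm _ (hCom'.1 x).symm).symm, (hcm _ hCom'.2.symm).symm⟩
    have h3 := htr N hCN hid
    obtain ⟨d, hd⟩ := pow_proj C' N z hN
    have hCN' : C' * N = N * C' := hcm C' rfl
    have hcomm2 : Commute (C' - z • (1 : Matrix ι ι Ω)) N := by
      unfold Commute SemiconjBy
      rw [sub_mul, mul_sub, hCN', smul_mul_assoc, mul_smul_comm, one_mul, mul_one]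
    have hnil : IsNilpotent ((C' - z • (1 : Matrix ι ι Ω)) * N) := by
      refine ⟨d + 1, ?_⟩
      rw [hcomm2.mul_pow, pow_succ' (C' - z • (1 : Matrix ι ι Ω)) d, pow_succ' N d, mul_assoc,
        ← mul_assoc _ N, hd, zero_mul, mul_zero]
    have h4 := (Matrix.isNilpotent_trace_of_isNilpotent hnil).eq_zero
    rw [sub_mul, Matrix.trace_sub, h3, zero_sub, neg_eq_zero, smul_mul_assoc, one_mul,
      Matrix.trace_smul, h2, sum_ind, smul_eq_mul, mul_eq_zero] at h4
    rcases h4 with h4 | h4
    · exact h4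
    · exfalso
      have h5 : 0 < C'.charpoly.roots.count z := Multiset.count_pos.2 hz
      rw [Nat.cast_eq_zero] at h4
      omega
  have hnil' : IsNilpotent C' := by
    refine ⟨Multiset.card C'.charpoly.roots, ?_⟩
    have h1 : C'.charpoly.roots = Multiset.replicate (Multiset.card C'.charpoly.roots) 0 :=
      Multiset.eq_replicate.2 ⟨rfl, hroot⟩
    have h2 : C'.charpoly = (C'.charpoly.roots.map fun a => (Polynomial.X : Polynomial Ω) - Polynomial.C a).prod :=
      (IsAlgClosed.splits C'.charpoly).eq_prod_roots_of_monic (Matrix.charpoly_monic C')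
    have h3 : C'.charpoly = (Polynomial.X : Polynomial Ω) ^ Multiset.card C'.charpoly.roots := by
      conv_lhs => rw [h2, h1]
      rw [Multiset.map_replicate, Multiset.prod_replicate, map_zero, sub_zero]
    have h4 := Matrix.aeval_self_charpoly C'
    rw [h3, map_pow, aeval_X] at h4
    exact h4
  have hnilC : IsNilpotent C := by
    obtain ⟨k, hk⟩ := hnil'
    refine ⟨k, ?_⟩
    have h1 : (C ^ k).map (algebraMap F Ω) = (0 : Matrix ι ι F).map (algebraMap F Ω) := by
      have h2 : (C ^ k).map (algebraMap F Ω) = C' ^ k := by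
        rw [hC']
        exact map_pow (algebraMap F Ω).mapMatrix C k
      rw [h2, hk]
      ext i j
      simp
    exact Matrix.map_injective (algebraMap F Ω).injective h1
  apply (hNDG ι X hX F C hC).2
  intro B' hB'
  have h1 : X.Com F (B'.map (algebraMap ℚ F)) := com_map X hB'
  have h2 : Commute C (B'.map (algebraMap ℚ F)) := hcomm _ h1
  exact (Matrix.isNilpotent_trace_of_isNilpotent (h2.isNilpotent_mul_right hnilC)).eq_zero

end Tan

end Pool.Agent.NH56.HY
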