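import Pool.Agent.NH56.HY.Stm

/-!
# The first half of the theorem, for one variety: assembly
-/

set_option autoImplicit false

namespace Pool.Agent.NH56.HY

open Matrix Polynomial Filter Topology NumberField IsDedekindDomain

section near

variable {ℓ : ℕ} [Fact ℓ.Prime]

/-- the sup norm bound for a product -/
theorem near_mul_entry {n : Type} [Fintype n] [DecidableEq n] {r : ℝ} (hr : 0 ≤ r) (hr1 : r ≤ 1)
    {A B : Matrix n n ℚ_[ℓ]} (hA : ∀ i j, ‖(A - 1) i j‖ ≤ r) (hB : ∀ i j, ‖(B - 1) i j‖ ≤ r) :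
    ∀ i j, ‖(A * B - 1) i j‖ ≤ r := by
  intro i j
  have h1 : A * B - 1 = (A - 1) * (B - 1) + (A - 1) + (B - 1) := by noncomm_ring
  rw [h1]
  simp only [Matrix.add_apply]
  refine (IsUltrametricDist.norm_add_le_max _ _).trans (max_le ((IsUltrametricDist.norm_add_le_max _ _).trans
    (max_le ?_ (hA i j))) (hB i j))
  rw [Matrix.mul_apply]
  refine IsUltrametricDist.norm_sum_le_of_forall_le_of_nonneg hr fun k _ => ?_
  rw [norm_mul]
  calc ‖(A - 1) i k‖ * ‖(B - 1) k j‖ ≤ r * 1 :=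
        mul_le_mul (hA i k) ((hB k j).trans hr1) (norm_nonneg _) hr
    _ = r := mul_one r

theorem near_inv_entry {n : Type} [Fintype n] [DecidableEq n] {r : ℝ} (hr : 0 ≤ r) (hr1 : r < 1)
    {A B : Matrix n n ℚ_[ℓ]} (hAB : B * A = 1) (hA : ∀ i j, ‖(A - 1) i j‖ ≤ r) :
    ∀ i j, ‖(B - 1) i j‖ ≤ r := by
  classical
  -- let `m` be the maximum of the norms of the entries of `B - 1`
  have h1 : B - 1 = -((B - 1) * (A - 1)) - (A - 1) := by
    have : (B - 1) * (A - 1) = B * A - B - A + 1 := by noncomm_ring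
    rw [this, hAB]
    noncomm_ring
  rcases isEmpty_or_nonempty n with hn | hn
  · intro i; exact (hn.false i).elim
  obtain ⟨⟨a, b⟩, hab⟩ := Finite.exists_max fun x : n × n => ‖(B - 1) x.1 x.2‖
  have hmax : ∀ i j, ‖(B - 1) i j‖ ≤ ‖(B - 1) a b‖ := fun i j => hab (i, j)
  have hm0 : 0 ≤ ‖(B - 1) a b‖ := norm_nonneg _
  have hprod : ‖((B - 1) * (A - 1)) a b‖ ≤ ‖(B - 1) a b‖ * r := by
    rw [Matrix.mul_apply]
    refine IsUltrametricDist.norm_sum_le_of_forall_le_of_nonneg (by positivity) fun k _ => ?_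
    rw [norm_mul]
    exact mul_le_mul (hmax a k) (hA k b) (norm_nonneg _) hm0
  have h2 : ‖(B - 1) a b‖ ≤ max (‖(B - 1) a b‖ * r) r := by
    have h3 : (B - 1) a b = -(((B - 1) * (A - 1)) a b) + -((A - 1) a b) := by
      have h4 : (B - 1) a b = (-((B - 1) * (A - 1)) - (A - 1)) a b := congrFun (congrFun h1 a) b
      rw [h4, Matrix.sub_apply, Matrix.neg_apply, sub_eq_add_neg]
    calc ‖(B - 1) a b‖ = ‖-(((B - 1) * (A - 1)) a b) + -((A - 1) a b)‖ := congrArg norm h3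
      _ ≤ max ‖-(((B - 1) * (A - 1)) a b)‖ ‖-((A - 1) a b)‖ :=
        IsUltrametricDist.norm_add_le_max _ _
      _ ≤ _ := max_le_max (by rw [norm_neg]; exact hprod) (by rw [norm_neg]; exact hA a b)
  have h4 : ‖(B - 1) a b‖ ≤ r := by
    rcases le_max_iff.1 h2 with h | h
    · by_contra hc
      push Not at hc
      have hpos : 0 < ‖(B - 1) a b‖ := hr.trans_lt hc
      nlinarith
    · exact h
  intro i j
  exact (hmax i j).trans h4

end near

theorem ell_sq_inv {ℓ : ℕ} [hℓ : Fact ℓ.Prime] : 0 ≤ ((ℓ : ℝ) ^ 2)⁻¹ ∧ ((ℓ : ℝ) ^ 2)⁻¹ < 1 ∧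
    0 < ((ℓ : ℝ) ^ 2)⁻¹ := by
  have h2 : (2 : ℝ) ≤ ℓ := by exact_mod_cast hℓ.out.two_le
  have h3 : (1 : ℝ) < (ℓ : ℝ) ^ 2 := by nlinarith
  have h4 : (0 : ℝ) < ((ℓ : ℝ) ^ 2)⁻¹ := by positivity
  exact ⟨h4.le, inv_lt_one_of_one_lt₀ h3, h4⟩

/-- the elements close to `1` form an open subgroup -/
theorem near_subgroup {K : Type} [Field K] {ℓ : ℕ} [Fact ℓ.Prime] {n : Type} [Fintype n]
    [DecidableEq n] (χ : GK K →* ℚ_[ℓ]) (ρ : GK K →* Matrix n n ℚ_[ℓ]) (hχ : Continuous χ)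
    (hρ : Continuous ρ) : ∃ U : Subgroup (GK K), IsOpen (U : Set (GK K)) ∧
      (U : Set (GK K)) = Near χ ρ := by
  obtain ⟨h0, h1, h2⟩ := ell_sq_inv (ℓ := ℓ)
  refine ⟨{ carrier := Near χ ρ, mul_mem' := ?_, one_mem' := ?_, inv_mem' := ?_ }, ?_, rfl⟩
  · rintro a b ⟨ha, ha'⟩ ⟨hb, hb'⟩
    refine ⟨?_, ?_⟩
    · rw [map_mul]
      exact near_mul_entry h0 h1.le ha hb
    · rw [map_mul]
      have e : χ a * χ b - 1 = (χ a - 1) * (χ b - 1) + (χ a - 1) + (χ b - 1) := by ring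
      rw [e]
      refine (IsUltrametricDist.norm_add_le_max _ _).trans (max_le ((IsUltrametricDist.norm_add_le_max _ _).trans
        (max_le ?_ ha')) hb')
      rw [norm_mul]
      calc ‖χ a - 1‖ * ‖χ b - 1‖ ≤ ((ℓ : ℝ) ^ 2)⁻¹ * 1 :=
            mul_le_mul ha' (hb'.trans h1.le) (norm_nonneg _) h0
        _ = _ := mul_one _
  · refine ⟨fun i j => ?_, ?_⟩
    · rw [map_one, sub_self]; simp
    · rw [map_one, sub_self]; simp
  · rintro a ⟨ha, ha'⟩
    refine ⟨?_, ?_⟩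
    · exact near_inv_entry h0 h1 (by rw [← map_mul, inv_mul_cancel, map_one]) ha
    · have e : χ a⁻¹ * χ a = 1 := by rw [← map_mul, inv_mul_cancel, map_one]
      have e2 : χ a⁻¹ - 1 = -(χ a⁻¹ * (χ a - 1)) := by
        rw [mul_sub, e, mul_one]; ring
      have ha1 : ‖χ a‖ = 1 := by
        have : χ a = 1 + (χ a - 1) := by ring
        rw [this]
        have h3 : ‖χ a - 1‖ < ‖(1 : ℚ_[ℓ])‖ := by rw [norm_one]; exact ha'.trans_lt h1
        rw [add_comm, IsUltrametricDist.norm_add_eq_max_of_norm_ne_norm h3.ne, max_eq_right h3.le,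
          norm_one]
      have ha2 : ‖χ a⁻¹‖ = 1 := by
        have h3 := congrArg norm e
        rwa [norm_mul, ha1, mul_one, norm_one] at h3
      rw [e2, norm_neg, norm_mul, ha2, one_mul]
      exact ha'
  · show IsOpen (Near χ ρ)
    -- the complement is closed under small changes: use balls
    have hball : IsClopen {x : ℚ_[ℓ] | ‖x‖ ≤ ((ℓ : ℝ) ^ 2)⁻¹} := by
      have : {x : ℚ_[ℓ] | ‖x‖ ≤ ((ℓ : ℝ) ^ 2)⁻¹} = Metric.closedBall 0 ((ℓ : ℝ) ^ 2)⁻¹ := by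
        ext x; simp
      rw [this]
      exact IsUltrametricDist.isClopen_closedBall _ h2.ne'
    have e : Near χ ρ = (⋂ i, ⋂ j, {g | ‖(ρ g - 1) i j‖ ≤ ((ℓ : ℝ) ^ 2)⁻¹}) ∩
        {g | ‖χ g - 1‖ ≤ ((ℓ : ℝ) ^ 2)⁻¹} := by
      ext g
      simp [Near]
    rw [e]
    refine IsOpen.inter (isOpen_iInter_of_finite fun i => isOpen_iInter_of_finite fun j => ?_) ?_
    · have hc : Continuous fun g => (ρ g - 1) i j :=
        ((continuous_apply_apply i j).comp (hρ.sub continuous_const))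
      exact hball.isOpen.preimage hc
    · exact hball.isOpen.preimage (hχ.sub continuous_const)

/-- the part of degree two of a graded representation -/
def blkHom {Γ ι F : Type} [Group Γ] [Field F] [Fintype ι] [DecidableEq ι] (deg : ι → ℕ) (j : ℕ)
    (ρ : Γ →* Matrix ι ι F) (h : ∀ g, IsGraded deg (ρ g)) :
    Γ →* Matrix {a // deg a = j} {a // deg a = j} F where
  toFun g := blk deg j (ρ g)
  map_one' := by
    rw [map_one]
    ext a b
    simp [blk, Matrix.one_apply, Subtype.ext_iff]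
  map_mul' g g' := by
    rw [map_mul]
    ext a b
    simp only [blk, Matrix.submatrix_apply, Matrix.mul_apply]
    have hs : ∑ c : ι, ρ g a.1 c * ρ g' c b.1 =
        ∑ c ∈ Finset.univ.filter (fun c => deg c = j), ρ g a.1 c * ρ g' c b.1 := by
      rw [Finset.sum_filter]
      refine Finset.sum_congr rfl fun c _ => ?_
      split_ifs with hc
      · rfl
      · rw [h g a.1 c (by rw [a.2]; exact fun h' => hc h'.symm), zero_mul]
    rw [hs]
    exact (Finset.sum_subtype (Finset.univ.filter fun c => deg c = j) (by simp)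
      (fun c => ρ g a.1 c * ρ g' c b.1))

theorem continuous_blk {Γ ι : Type} [TopologicalSpace Γ] {ℓ : ℕ} [Fact ℓ.Prime] (deg : ι → ℕ)
    (j : ℕ) (f : Γ → Matrix ι ι ℚ_[ℓ]) (hf : Continuous f) : Continuous fun g => blk deg j (f g) :=
  hf.matrix_submatrix _ _

theorem t_LAA (hORD : S_ORD) (hUNI : S_UNI) (hCOM : S_COM) (hTAN : S_TAN) : S_LAA := by
  intro K _ _ ℓ _ ι _ _ X S χ Pol ρ hcft hX hρ hnu Z hZ
  obtain ⟨U, hUo, hU⟩ := near_subgroup χ ρ hρ.continuous.2 hρ.continuous.1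
  have hdense : ∀ V : Set (GK K), IsOpen V → V.Nonempty → V ⊆ U → ∃ p : ℕ, p.Prime ∧ p ∉ S ∧
      ∃ v : HeightOneSpectrum (𝓞 K), Ideal.absNorm v.asIdeal = p ∧
      (∃ σ : GK K, IsFrobenius v σ ∧ σ⁻¹ ∈ V) ∧
      ¬ (p : ℤ) ∣ (Pol v 2).coeff (Fintype.card {a // X.deg a = 2} - 1) := by
    intro V hVo hVn hVU
    refine hORD K ℓ {a // X.deg a = 2} S χ (blkHom X.deg 2 ρ hρ.graded) (fun v => Pol v 2)
      hρ.continuous.2 (continuous_blk X.deg 2 ρ hρ.continuous.1) (by have := hX.betti; omega)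
      ?_ hnu V hVo hVn ?_
    · intro p hp hpS v hv
      haveI : Fact p.Prime := ⟨hp⟩
      refine ⟨(hρ.weil p hpS v hv 2).1, (hρ.weil p hpS v hv 2).2, fun σ hσ => ?_⟩
      exact ⟨(hρ.frobenius p hpS v hv σ hσ).1, (hρ.frobenius p hpS v hv σ hσ).2 2⟩
    · intro g hg
      have hg' : g ∈ Near χ ρ := by rw [← hU]; exact hVU hg
      refine ⟨fun i j => ?_, hg'.2⟩
      have := hg'.1 i.1 j.1
      convert this using 2
      simp only [blkHom, blk, MonoidHom.coe_mk, OneHom.coe_mk, Matrix.sub_apply,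
        Matrix.submatrix_apply, Matrix.one_apply, Subtype.ext_iff]
  have hcomm := hCOM K ℓ ι X S χ Pol ρ hcft hX hρ U hUo (by
    intro V hVo hVn hVU
    obtain ⟨p, hp, hpS, v, hv, ⟨σ, hσ, hσV⟩, hord⟩ := hdense V hVo hVn hVU
    haveI : Fact p.Prime := ⟨hp⟩
    refine ⟨σ⁻¹, hσV, ?_⟩
    have h := (hUNI K ℓ ι X S χ Pol ρ hX hρ p hpS v hv σ hσ hord (by rw [← hU]; exact hVU hσV)).1
    rw [inv_inv]
    exact h)
  exact hTAN K ℓ ι X S χ Pol ρ hX hρ U hUo hcomm (by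
    intro V hVo hVn hVU
    obtain ⟨p, hp, hpS, v, hv, ⟨σ, hσ, hσV⟩, hord⟩ := hdense V hVo hVn hVU
    haveI : Fact p.Prime := ⟨hp⟩
    exact ⟨σ⁻¹, hσV, (hUNI K ℓ ι X S χ Pol ρ hX hρ p hpS v hv σ hσ hord
      (by rw [← hU]; exact hVU hσV)).2⟩) Z hZ

end Pool.Agent.NH56.HY
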