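import Pool.Agent.NH56.HY.Stm

/-! HY-TRN: transport of a Frobenius element to the complex numbers. -/

set_option autoImplicit false

namespace Pool.Agent.NH56.HY

open Matrix Polynomial Filter Topology NumberField IsDedekindDomain

namespace Trn78

theorem blk_map {ι F G : Type} (deg : ι → ℕ) (j : ℕ) (M : Matrix ι ι F) (c : F → G) :
    blk deg j (M.map c) = (blk deg j M).map c := rfl

theorem mapsm {n F G : Type} [Field F] [Field G] (c : F →+* G) (r : F) (A : Matrix n n F) :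
    (r • A).map c = c r • A.map c := by
  ext i j
  change c (r * A i j) = c r * c (A i j)
  exact map_mul c _ _

section

variable {ι : Type} [Fintype ι] [DecidableEq ι] (X : Coh ι)

theorem qF_map {F G : Type} [Field F] [CharZero F] [Field G] [CharZero G] (c : F →+* G) :
    (X.qF F).map c = X.qF G := by
  ext i j
  change c (algebraMap ℚ F (X.q i j)) = algebraMap ℚ G (X.q i j)
  rw [eq_ratCast (algebraMap ℚ F), eq_ratCast (algebraMap ℚ G), map_ratCast]

theorem δF_map {F G : Type} [Field F] [CharZero F] [Field G] [CharZero G] (c : F →+* G)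
    (x : Matrix {a // X.deg a = 2} {a // X.deg a = 2} F) :
    (X.δF F x).map c = X.δF G (x.map c) := by
  ext i j
  unfold Coh.δF
  simp only [Matrix.map_apply, Matrix.sum_apply, Matrix.smul_apply, smul_eq_mul, map_sum,
    map_mul]
  refine Finset.sum_congr rfl fun a _ => Finset.sum_congr rfl fun b _ => ?_
  rw [eq_ratCast (algebraMap ℚ F), eq_ratCast (algebraMap ℚ G), map_ratCast]

/-- the projection to the skew matrices, over the rational numbers -/
noncomputable def AQ (y : Matrix {a // X.deg a = 2} {a // X.deg a = 2} ℚ) :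
    Matrix {a // X.deg a = 2} {a // X.deg a = 2} ℚ :=
  (1 / 2 : ℚ) • (y - X.q⁻¹ * yᵀ * X.q)

/-- the projection to the skew matrices -/
noncomputable def AC : Matrix {a // X.deg a = 2} {a // X.deg a = 2} ℂ →ₗ[ℂ]
    Matrix {a // X.deg a = 2} {a // X.deg a = 2} ℂ where
  toFun y := (1 / 2 : ℂ) • (y - (X.q⁻¹).map (algebraMap ℚ ℂ) * yᵀ * X.qF ℂ)
  map_add' y z := by
    rw [transpose_add, mul_add, add_mul, ← smul_add]
    congr 1
    abel
  map_smul' r y := by
    rw [transpose_smul, Matrix.mul_smul, Matrix.smul_mul, ← smul_sub, smul_comm]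
    rfl

theorem AQ_skew (hX : IsHyperKahler X) (y : Matrix {a // X.deg a = 2} {a // X.deg a = 2} ℚ) :
    (AQ X y)ᵀ * X.q + X.q * AQ X y = 0 := by
  have hdet : IsUnit X.q.det := isUnit_iff_ne_zero.2 hX.nondeg
  have hs := hX.symm
  have hi : (X.q⁻¹)ᵀ = X.q⁻¹ := by
    rw [Matrix.transpose_nonsing_inv, hs]
  unfold AQ
  rw [transpose_smul, transpose_sub, transpose_mul, transpose_mul, transpose_transpose, hs, hi,
    Matrix.smul_mul, Matrix.mul_smul, ← smul_add]
  have h1 : (yᵀ - X.q * (y * X.q⁻¹)) * X.q = yᵀ * X.q - X.q * y := by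
    rw [sub_mul, mul_assoc X.q, mul_assoc y, Matrix.nonsing_inv_mul _ hdet, mul_one]
  have h2 : X.q * (y - X.q⁻¹ * yᵀ * X.q) = X.q * y - yᵀ * X.q := by
    rw [mul_sub, mul_assoc (X.q⁻¹), ← mul_assoc X.q, Matrix.mul_nonsing_inv _ hdet, one_mul]
  rw [h1, h2]
  rw [sub_add_sub_cancel, sub_self, smul_zero]

theorem AC_map (y : Matrix {a // X.deg a = 2} {a // X.deg a = 2} ℚ) :
    AC X (y.map (algebraMap ℚ ℂ)) = (AQ X y).map (algebraMap ℚ ℂ) := by
  change (1 / 2 : ℂ) • (y.map (algebraMap ℚ ℂ) -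
    (X.q⁻¹).map (algebraMap ℚ ℂ) * (y.map (algebraMap ℚ ℂ))ᵀ * X.qF ℂ) = _
  unfold AQ Coh.qF
  rw [mapsm, Matrix.map_sub _ (fun a b => map_sub (algebraMap ℚ ℂ) a b), Matrix.map_mul,
    Matrix.map_mul, transpose_map]
  congr 1
  rw [map_div₀, map_one, map_ofNat]

theorem AC_skew (hX : IsHyperKahler X) {x : Matrix {a // X.deg a = 2} {a // X.deg a = 2} ℂ}
    (hx : X.IsSkew ℂ x) : AC X x = x := by
  have hdet : IsUnit X.q.det := isUnit_iff_ne_zero.2 hX.nondeg
  change (1 / 2 : ℂ) • (x - (X.q⁻¹).map (algebraMap ℚ ℂ) * xᵀ * X.qF ℂ) = x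
  have h1 : xᵀ * X.qF ℂ = -(X.qF ℂ * x) := eq_neg_of_add_eq_zero_left hx
  have h2 : (X.q⁻¹).map (algebraMap ℚ ℂ) * X.qF ℂ = 1 := by
    unfold Coh.qF
    rw [← Matrix.map_mul, Matrix.nonsing_inv_mul _ hdet]
    exact Matrix.map_one _ (map_zero _) (map_one _)
  rw [mul_assoc, h1, mul_neg, ← mul_assoc, h2, one_mul, sub_neg_eq_add, ← two_smul ℂ x,
    smul_smul]
  norm_num

theorem single_map (a b : {a // X.deg a = 2}) :
    (Matrix.single a b (1 : ℚ)).map (algebraMap ℚ ℂ) = Matrix.single a b (1 : ℂ) := by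
  ext i j
  rw [Matrix.map_apply]
  by_cases h : a = i ∧ b = j
  · obtain ⟨rfl, rfl⟩ := h
    rw [Matrix.single_apply_same, Matrix.single_apply_same, map_one]
  · rw [Matrix.single_apply_of_ne _ _ _ _ _ h, Matrix.single_apply_of_ne _ _ _ _ _ h, map_zero]

theorem equiv_all (hB : S_BAS) (hX : IsHyperKahler X) (T T' : Matrix ι ι ℂ)
    (B B' : Matrix {a // X.deg a = 2} {a // X.deg a = 2} ℂ)
    (h : ∀ y : Matrix {a // X.deg a = 2} {a // X.deg a = 2} ℚ, yᵀ * X.q + X.q * y = 0 →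
      T * X.δF ℂ (y.map (algebraMap ℚ ℂ)) * T' = X.δF ℂ (B * y.map (algebraMap ℚ ℂ) * B'))
    (x : Matrix {a // X.deg a = 2} {a // X.deg a = 2} ℂ) (hx : X.IsSkew ℂ x) :
    T * X.δF ℂ x * T' = X.δF ℂ (B * x * B') := by
  obtain ⟨ha, hs, -⟩ := hB ι X hX ℂ
  let L : Matrix {a // X.deg a = 2} {a // X.deg a = 2} ℂ →ₗ[ℂ] Matrix ι ι ℂ :=
    { toFun := fun x => T * X.δF ℂ x * T' - X.δF ℂ (B * x * B')
      map_add' := by
        intro y z
        rw [ha, mul_add, add_mul, mul_add, add_mul, ha]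
        abel
      map_smul' := by
        intro r y
        rw [hs, Matrix.mul_smul, Matrix.smul_mul, Matrix.mul_smul, Matrix.smul_mul, hs,
          ← smul_sub]
        rfl }
  have h0 : ∀ x, L (AC X x) = 0 := by
    intro x
    have h1 : ∀ a b, L (AC X (Matrix.single a b (x a b))) = 0 := by
      intro a b
      have h2 : Matrix.single a b (x a b) = x a b • Matrix.single a b (1 : ℂ) := by
        rw [Matrix.smul_single, smul_eq_mul, mul_one]
      rw [h2, map_smul, map_smul, ← single_map, AC_map]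
      have h3 := h _ (AQ_skew X hX (Matrix.single a b (1 : ℚ)))
      have h4 : L ((AQ X (Matrix.single a b (1 : ℚ))).map (algebraMap ℚ ℂ)) = 0 :=
        sub_eq_zero.2 h3
      rw [h4, smul_zero]
    rw [Matrix.matrix_eq_sum_single x, map_sum, map_sum]
    refine Finset.sum_eq_zero fun a _ => ?_
    rw [map_sum, map_sum]
    exact Finset.sum_eq_zero fun b _ => h1 a b
  have h5 := h0 x
  rw [AC_skew X hX hx] at h5
  exact sub_eq_zero.1 h5

theorem root_blk {T : Matrix ι ι ℂ} {deg : ι → ℕ} (hT : IsGraded deg T) {z : ℂ}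
    (hz : T.charpoly.IsRoot z) : ∃ j, (blk deg j T).charpoly.IsRoot z := by
  rw [Polynomial.IsRoot.def, Matrix.eval_charpoly, ← Matrix.exists_mulVec_eq_zero_iff] at hz
  obtain ⟨x, hx, hTx⟩ := hz
  obtain ⟨i, hi⟩ := Function.ne_iff.1 hx
  refine ⟨deg i, ?_⟩
  rw [Polynomial.IsRoot.def, Matrix.eval_charpoly, ← Matrix.exists_mulVec_eq_zero_iff]
  refine ⟨fun a => x a.1, ?_, ?_⟩
  · intro h
    exact hi (congrFun h ⟨i, rfl⟩)
  · rw [Matrix.sub_mulVec, sub_eq_zero, Matrix.scalar_apply,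
      ← Matrix.smul_one_eq_diagonal, Matrix.smul_mulVec, one_mulVec] at hTx ⊢
    funext a
    have h1 := congrFun hTx a.1
    change z * x a.1 = ∑ b : {b // deg b = deg i}, T a.1 b.1 * x b.1
    have h2 : z * x a.1 = ∑ b, T a.1 b * x b := h1
    rw [h2]
    have h3 : ∑ b : {b // deg b = deg i}, T a.1 b.1 * x b.1 =
        ∑ b ∈ Finset.univ.filter (fun b => deg b = deg i), T a.1 b * x b := by
      rw [← Finset.sum_subtype (Finset.univ.filter (fun b => deg b = deg i))
        (fun b => by simp) (fun b => T a.1 b * x b)]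
    rw [h3, Finset.sum_filter]
    refine Finset.sum_congr rfl fun b _ => ?_
    by_cases hb : deg b = deg i
    · rw [if_pos hb]
    · rw [if_neg hb, hT a.1 b (fun h => hb (h.symm.trans a.2)), zero_mul]

end

end Trn78

open Trn78 in
theorem t_TRN : S_BAS → S_ARI → S_TRN := by
  intro hB hA K _ _ ℓ _ ι _ _ X S χ Pol ρ hX hR p _ hp v hv σ hσ c s T T' hT hT'
  subst hT hT'
  have hmul : (ρ σ⁻¹).map c * (ρ σ).map c = 1 := by
    rw [← Matrix.map_mul, ← map_mul, inv_mul_cancel, map_one]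
    exact Matrix.map_one _ (map_zero _) (map_one _)
  have hgr : IsGraded X.deg ((ρ σ⁻¹).map c) := by
    intro a b hab
    rw [Matrix.map_apply, hR.graded σ⁻¹ a b hab, map_zero]
  obtain ⟨hχ, hch⟩ := hR.frobenius p hp v hv σ hσ
  have hch' : ∀ j, (blk X.deg j ((ρ σ⁻¹).map c)).charpoly =
      (Pol v j).map (Int.castRingHom ℂ) := by
    intro j
    rw [blk_map, Matrix.charpoly_map, hch j, Polynomial.map_map]
    congr 1
    exact Subsingleton.elim _ _
  refine ⟨hmul, hgr, ?_, ?_, hch', ?_⟩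
  · have h1 := congrArg (fun M => Matrix.map M c) (hR.similitude σ⁻¹)
    beta_reduce at h1
    rw [Matrix.map_mul, Matrix.map_mul, transpose_map, mapsm, qF_map, hχ, map_pow,
      map_natCast] at h1
    rw [blk_map]
    exact h1
  · refine equiv_all X hB hX _ _ _ _ ?_
    intro y hy
    have hy' : X.IsSkew ℚ_[ℓ] (y.map (algebraMap ℚ ℚ_[ℓ])) := by
      unfold Coh.IsSkew Coh.qF
      rw [← transpose_map, ← Matrix.map_mul, ← Matrix.map_mul,
        ← Matrix.map_add _ (fun a b => map_add (algebraMap ℚ ℚ_[ℓ]) a b), hy]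
      exact Matrix.map_zero _ (map_zero _)
    have h1 := congrArg (fun M => Matrix.map M c) (hR.equivariant σ⁻¹ _ hy')
    beta_reduce at h1
    have h2 : (y.map (algebraMap ℚ ℚ_[ℓ])).map c = y.map (algebraMap ℚ ℂ) := by
      ext i j
      change c (algebraMap ℚ ℚ_[ℓ] (y i j)) = algebraMap ℚ ℂ (y i j)
      rw [eq_ratCast (algebraMap ℚ ℚ_[ℓ]), eq_ratCast (algebraMap ℚ ℂ), map_ratCast]
    rw [Matrix.map_mul, Matrix.map_mul, δF_map, δF_map, Matrix.map_mul, Matrix.map_mul, h2,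
      inv_inv] at h1
    exact h1
  · intro z hz
    obtain ⟨j, hj⟩ := root_blk hgr hz
    rw [hch' j] at hj
    have hm := (hR.weil p hp v hv j).1
    have h1 : (Pol v j).map (Int.castRingHom ℂ) ≠ 0 := (hm.map _).ne_zero
    have h2 : z ∈ ((Pol v j).map (Int.castRingHom ℂ)).roots := (mem_roots h1).2 hj
    rw [hA.1 (Pol v j) ℂ s, Multiset.mem_map] at h2
    obtain ⟨a, ha, haz⟩ := h2
    refine ⟨j, a, ?_, haz⟩
    have h3 := (mem_roots'.1 ha).2
    rw [Polynomial.IsRoot.def, eval_map] at h3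
    rw [aeval_def]
    exact h3

end Pool.Agent.NH56.HY
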