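import Pool.Agent.NH56.HY.Stm

set_option autoImplicit false

namespace Pool.Agent.NH56.HY

open Matrix Polynomial

namespace Adj

variable {F : Type} [Field F] {n m : Type} [Fintype n] [DecidableEq n] [Fintype m] [DecidableEq m]

/-- induction on generalized eigenvectors of an endomorphism -/
lemma ind_end [IsAlgClosed F] {V : Type} [AddCommGroup V] [Module F V] [FiniteDimensional F V]
    (f : Module.End F V) (p : V → Prop) (h0 : p 0) (hadd : ∀ x y, p x → p y → p (x + y))
    (h : ∀ (a : F) (k : ℕ) (x : V), ((f - a • (1 : Module.End F V)) ^ k) x = 0 → p x) (x : V) :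
    p x := by
  have hx : x ∈ ⨆ μ, f.maxGenEigenspace μ := by
    rw [Module.End.iSup_maxGenEigenspace_eq_top]
    trivial
  refine Submodule.iSup_induction (motive := p) _ hx ?_ h0 hadd
  intro a y hy
  obtain ⟨k, hk⟩ := (Module.End.mem_maxGenEigenspace _ _ _).1 hy
  exact h a k y hk

lemma mulVecLin_sub_pow (T : Matrix n n F) (a : F) (k : ℕ) (x : n → F) :
    ((T.mulVecLin - a • (1 : Module.End F (n → F))) ^ k) x =
      ((T - a • (1 : Matrix n n F)) ^ k) *ᵥ x := by
  induction k generalizing x with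
  | zero => simp
  | succ k ih =>
    rw [pow_succ, pow_succ, Module.End.mul_apply, ih, ← Matrix.mulVec_mulVec]
    congr 1
    simp [Matrix.sub_mulVec, Matrix.smul_mulVec]

/-- induction on generalized eigenvectors of a matrix -/
lemma ind_mat [IsAlgClosed F] (T : Matrix n n F) (p : (n → F) → Prop) (h0 : p 0)
    (hadd : ∀ x y, p x → p y → p (x + y))
    (h : ∀ (a : F) (k : ℕ) (x : n → F), ((T - a • (1 : Matrix n n F)) ^ k) *ᵥ x = 0 → p x)
    (x : n → F) : p x := by
  refine ind_end T.mulVecLin p h0 hadd ?_ x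
  intro a k y hy
  rw [mulVecLin_sub_pow] at hy
  exact h a k y hy

lemma root_iff (T : Matrix n n F) (a : F) :
    T.charpoly.IsRoot a ↔ ∃ x, x ≠ 0 ∧ T *ᵥ x = a • x := by
  rw [Polynomial.IsRoot.def, Matrix.eval_charpoly, ← Matrix.exists_mulVec_eq_zero_iff]
  constructor
  · rintro ⟨v, hv, h⟩
    refine ⟨v, hv, ?_⟩
    rw [Matrix.sub_mulVec, sub_eq_zero] at h
    rw [← h]
    ext i
    simp [Matrix.scalar_apply, Matrix.mulVec_diagonal]
  · rintro ⟨v, hv, h⟩
    refine ⟨v, hv, ?_⟩
    rw [Matrix.sub_mulVec, h, sub_eq_zero]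
    ext i
    simp [Matrix.scalar_apply, Matrix.mulVec_diagonal]

/-- a nonzero generalized eigenvector belongs to a root of the characteristic polynomial -/
lemma root_of_gen (T : Matrix n n F) (a : F) (k : ℕ) (x : n → F)
    (h : ((T - a • (1 : Matrix n n F)) ^ k) *ᵥ x = 0) (hx : x ≠ 0) : T.charpoly.IsRoot a := by
  have h1 : ((T - a • (1 : Matrix n n F)) ^ k).det = 0 :=
    Matrix.exists_mulVec_eq_zero_iff.1 ⟨x, hx, h⟩
  rw [Matrix.det_pow] at h1
  have h2 : (T - a • (1 : Matrix n n F)).det = 0 := by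
    by_contra h3
    exact pow_ne_zero k h3 h1
  obtain ⟨v, hv, hv2⟩ := Matrix.exists_mulVec_eq_zero_iff.2 h2
  rw [root_iff]
  refine ⟨v, hv, ?_⟩
  rw [Matrix.sub_mulVec, Matrix.smul_mulVec, Matrix.one_mulVec, sub_eq_zero] at hv2
  exact hv2

lemma phi_one {A : F → Prop} {φ : F → F} (h : IsAdd A φ) : φ 1 = 0 := by
  have := h.map 1 1 h.one h.one
  rw [one_mul] at this
  simpa using this

lemma cj_apply (T T' B : Matrix n n F) : cj T T' B = T * B * T' := by
  simp [cj, Matrix.mul_assoc]

/-- the claim in (2) -/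
lemma claim {T T' : Matrix n n F} (hT : T' * T = 1) (t c : F) (s : ℕ) :
    ∀ (k l : ℕ), k + l = s → ∀ (B : Matrix n n F) (z : n → F),
    ((cj T T' - t • (1 : Module.End F (Matrix n n F))) ^ k) B = 0 →
    ((T - c • (1 : Matrix n n F)) ^ l) *ᵥ z = 0 →
    ((T - (t * c) • (1 : Matrix n n F)) ^ s) *ᵥ (B *ᵥ z) = 0 := by
  induction s with
  | zero =>
    intro k l hkl B z hB hz
    have hk : k = 0 := by omega
    subst hk
    have hB0 : B = 0 := by simpa using hB
    rw [hB0]
    simp
  | succ s ih =>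
    intro k l hkl B z hB hz
    rcases k with _ | k
    · have hB0 : B = 0 := by simpa using hB
      rw [hB0]
      simp
    rcases l with _ | l
    · have hz0 : z = 0 := by simpa using hz
      rw [hz0]
      simp
    have h1 : (T - (t * c) • (1 : Matrix n n F)) *ᵥ (B *ᵥ z) =
        ((cj T T' - t • (1 : Module.End F (Matrix n n F))) B) *ᵥ (T *ᵥ z) +
          t • (B *ᵥ ((T - c • (1 : Matrix n n F)) *ᵥ z)) := by
      have e1 : (cj T T' - t • (1 : Module.End F (Matrix n n F))) B = T * B * T' - t • B := by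
        simp [cj_apply]
      have e2 : (T * B * T') *ᵥ (T *ᵥ z) = T *ᵥ (B *ᵥ z) := by
        rw [Matrix.mulVec_mulVec, Matrix.mul_assoc, hT, Matrix.mul_one, Matrix.mulVec_mulVec]
      rw [e1, Matrix.sub_mulVec, Matrix.sub_mulVec, Matrix.sub_mulVec, e2, Matrix.smul_mulVec,
        Matrix.smul_mulVec, Matrix.smul_mulVec, Matrix.one_mulVec, Matrix.one_mulVec,
        Matrix.mulVec_sub, Matrix.mulVec_smul, smul_sub, smul_smul]
      abel
    rw [pow_succ, ← Matrix.mulVec_mulVec, h1, Matrix.mulVec_add, Matrix.mulVec_smul]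
    have h2 := ih k (l + 1) (by omega) ((cj T T' - t • (1 : Module.End F (Matrix n n F))) B) (T *ᵥ z)
      (by rw [pow_succ, Module.End.mul_apply] at hB; exact hB)
      (by
        have hc : (T - c • (1 : Matrix n n F)) ^ (l + 1) * T = T * (T - c • (1 : Matrix n n F)) ^ (l + 1) := by
          have : Commute T (T - c • (1 : Matrix n n F)) :=
            (Commute.refl T).sub_right ((Commute.one_right T).smul_right c)
          exact (this.pow_right (l + 1)).eq.symm
        rw [Matrix.mulVec_mulVec, hc, ← Matrix.mulVec_mulVec, hz, Matrix.mulVec_zero])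
    have h3 := ih (k + 1) l (by omega) B ((T - c • (1 : Matrix n n F)) *ᵥ z) hB
      (by rw [pow_succ, ← Matrix.mulVec_mulVec] at hz; exact hz)
    rw [h2, h3, smul_zero, add_zero]

/-- generalized eigenvectors of the conjugation -/
lemma key [IsAlgClosed F] {A : F → Prop} {φ : F → F} (hA : IsAdd A φ) {T T' N : Matrix n n F}
    (hT : T * T' = 1) (hroot : ∀ a, T.charpoly.IsRoot a → A a) (hN : IsFn φ T N) (t : F) (k : ℕ)
    (B : Matrix n n F) (hB : ((cj T T' - t • (1 : Module.End F (Matrix n n F))) ^ k) B = 0) :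
    (B ≠ 0 → A t) ∧ N * B - B * N = φ t • B := by
  have hT' : T' * T = 1 := mul_eq_one_comm.1 hT
  have h1 : ∀ (c : F) (l : ℕ) (z : n → F), ((T - c • (1 : Matrix n n F)) ^ l) *ᵥ z = 0 →
      ((T - (t * c) • (1 : Matrix n n F)) ^ (k + l)) *ᵥ (B *ᵥ z) = 0 :=
    fun c l z hz => claim hT' t c (k + l) k l rfl B z hB hz
  have h2 : ∀ (c : F) (l : ℕ) (z : n → F), ((T - c • (1 : Matrix n n F)) ^ l) *ᵥ z = 0 →
      B *ᵥ z ≠ 0 → A t ∧ φ (t * c) = φ t + φ c := by
    intro c l z hz hBz
    have hz0 : z ≠ 0 := by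
      rintro rfl
      exact hBz (Matrix.mulVec_zero _)
    have hc := hroot c (root_of_gen T c l z hz hz0)
    have htc := hroot (t * c) (root_of_gen T (t * c) (k + l) _ (h1 c l z hz) hBz)
    have hc0 := hA.ne c hc
    have ht : A t := by
      have := hA.mul _ _ htc (hA.inv c hc)
      rwa [mul_assoc, mul_inv_cancel₀ hc0, mul_one] at this
    exact ⟨ht, hA.map t c ht hc⟩
  constructor
  · intro hB0
    by_contra hAt
    apply hB0
    rw [Matrix.ext_iff_mulVec]
    intro x
    rw [Matrix.zero_mulVec]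
    refine ind_mat T (fun x => B *ᵥ x = 0) (Matrix.mulVec_zero _) (fun x y hx hy => ?_)
      (fun a l z hz => ?_) x
    · rw [Matrix.mulVec_add, hx, hy, add_zero]
    · by_contra hBz
      exact hAt (h2 a l z hz hBz).1
  · rw [Matrix.ext_iff_mulVec]
    intro x
    refine ind_mat T (fun x => (N * B - B * N) *ᵥ x = (φ t • B) *ᵥ x) ?_ (fun x y hx hy => ?_)
      (fun a l z hz => ?_) x
    · simp
    · rw [Matrix.mulVec_add, hx, hy, Matrix.mulVec_add]
    · have e1 : N *ᵥ (B *ᵥ z) = φ (t * a) • (B *ᵥ z) := hN _ _ _ (h1 a l z hz)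
      have e2 : N *ᵥ z = φ a • z := hN a l z hz
      rw [Matrix.sub_mulVec, ← Matrix.mulVec_mulVec, ← Matrix.mulVec_mulVec, e1, e2,
        Matrix.mulVec_smul, Matrix.smul_mulVec]
      by_cases hBz : B *ᵥ z = 0
      · rw [hBz]
        simp
      · rw [(h2 a l z hz hBz).2, add_smul]
        abel

/-- the claim in (3) -/
lemma claim3 {T q : Matrix n n F} {μ : F} (hq : Tᵀ * q * T = μ • q) (a b : F) (hab : a * b ≠ μ)
    (s : ℕ) : ∀ (k l : ℕ), k + l = s → ∀ (x y : n → F),
    ((T - a • (1 : Matrix n n F)) ^ k) *ᵥ x = 0 →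
    ((T - b • (1 : Matrix n n F)) ^ l) *ᵥ y = 0 → x ⬝ᵥ (q *ᵥ y) = 0 := by
  induction s with
  | zero =>
    intro k l hkl x y hx hy
    have hk : k = 0 := by omega
    subst hk
    have hx0 : x = 0 := by simpa using hx
    rw [hx0, zero_dotProduct]
  | succ s ih =>
    intro k l hkl x y hx hy
    rcases k with _ | k
    · have hx0 : x = 0 := by simpa using hx
      rw [hx0, zero_dotProduct]
    rcases l with _ | l
    · have hy0 : y = 0 := by simpa using hy
      rw [hy0, Matrix.mulVec_zero, dotProduct_zero]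
    have e1 : (T *ᵥ x) ⬝ᵥ (q *ᵥ (T *ᵥ y)) = μ * (x ⬝ᵥ (q *ᵥ y)) := by
      have : (T *ᵥ x) ⬝ᵥ (q *ᵥ (T *ᵥ y)) = x ⬝ᵥ ((Tᵀ * q * T) *ᵥ y) := by
        rw [Matrix.dotProduct_mulVec, Matrix.dotProduct_mulVec, Matrix.dotProduct_mulVec,
          ← Matrix.vecMul_vecMul, ← Matrix.vecMul_vecMul, Matrix.vecMul_transpose]
      rw [this, hq, Matrix.smul_mulVec, dotProduct_smul, smul_eq_mul]
    have e2 : ((T - a • (1 : Matrix n n F)) *ᵥ x) ⬝ᵥ (q *ᵥ (T *ᵥ y)) = 0 :=
      ih k (l + 1) (by omega) _ _ (by rw [pow_succ, ← Matrix.mulVec_mulVec] at hx; exact hx) (by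
        have hc : (T - b • (1 : Matrix n n F)) ^ (l + 1) * T = T * (T - b • (1 : Matrix n n F)) ^ (l + 1) := by
          have : Commute T (T - b • (1 : Matrix n n F)) :=
            (Commute.refl T).sub_right ((Commute.one_right T).smul_right b)
          exact (this.pow_right (l + 1)).eq.symm
        rw [Matrix.mulVec_mulVec, hc, ← Matrix.mulVec_mulVec, hy, Matrix.mulVec_zero])
    have e3 : x ⬝ᵥ (q *ᵥ ((T - b • (1 : Matrix n n F)) *ᵥ y)) = 0 :=
      ih (k + 1) l (by omega) _ _ hx (by rw [pow_succ, ← Matrix.mulVec_mulVec] at hy; exact hy)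
    rw [Matrix.sub_mulVec, Matrix.smul_mulVec, Matrix.one_mulVec, sub_dotProduct, e1,
      smul_dotProduct] at e2
    rw [Matrix.sub_mulVec, Matrix.smul_mulVec, Matrix.one_mulVec, Matrix.mulVec_sub,
      Matrix.mulVec_smul, dotProduct_sub, dotProduct_smul] at e3
    simp only [smul_eq_mul] at e2 e3
    have e4 : (μ - a * b) * (x ⬝ᵥ (q *ᵥ y)) = 0 := by
      linear_combination e2 + a * e3
    rcases mul_eq_zero.1 e4 with h | h
    · exact absurd (sub_eq_zero.1 h).symm hab
    · exact h

lemma multi {A : F → Prop} {φ : F → F} (hA : IsAdd A φ) (s : Multiset F) :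
    (∀ a ∈ s, A a) → A s.prod ∧ φ s.prod = (s.map φ).sum := by
  induction s using Multiset.induction_on with
  | empty =>
    intro _
    simp [hA.one, phi_one hA]
  | cons a s ih =>
    intro h
    obtain ⟨h1, h2⟩ := ih fun b hb => h b (Multiset.mem_cons_of_mem hb)
    have h3 := h a (Multiset.mem_cons_self a s)
    rw [Multiset.prod_cons, Multiset.map_cons, Multiset.sum_cons, ← h2]
    exact ⟨hA.mul _ _ h3 h1, hA.map _ _ h3 h1⟩

end Adj

open Adj in
theorem t_ADJ : S_FUN → S_ADJ := by
  intro hFUN F _ _ _ A φ hA n _ _ T T' N hT hroot hN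
  have hT' : T' * T = 1 := mul_eq_one_comm.1 hT
  refine ⟨?_, ?_, ?_, ?_⟩
  · intro t B hB hTB
    have h1 : ((cj T T' - t • (1 : Module.End F (Matrix n n F))) ^ 1) B = 0 := by
      simp only [pow_one, LinearMap.sub_apply, LinearMap.smul_apply, Module.End.one_apply,
        cj_apply]
      rw [hTB, Matrix.smul_mul, Matrix.mul_assoc, hT, Matrix.mul_one, sub_self]
    obtain ⟨h2, h3⟩ := key hA hT hroot hN t 1 B h1
    exact ⟨h2 hB, h3⟩
  · intro m _ _ T₂ T₂' N₂ d hT₂ hroot₂ hN₂ hd x
    have hpow : ∀ (t : F) (k : ℕ) (x : Matrix m m F),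
        ((cj T T' - t • (1 : Module.End F (Matrix n n F))) ^ k) (d x) =
          d (((cj T₂ T₂' - t • (1 : Module.End F (Matrix m m F))) ^ k) x) := by
      intro t k
      induction k with
      | zero => intro x; simp
      | succ k ih =>
        intro x
        rw [pow_succ, pow_succ, Module.End.mul_apply, Module.End.mul_apply, ← ih]
        congr 1
        simp [cj_apply, hd]
    refine ind_end (cj T₂ T₂') (fun x => N * d x - d x * N = d (N₂ * x - x * N₂)) ?_ ?_ ?_ x
    · simp
    · intro x y hx hy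
      have e : N₂ * (x + y) - (x + y) * N₂ = (N₂ * x - x * N₂) + (N₂ * y - y * N₂) := by
        rw [Matrix.mul_add, Matrix.add_mul]
        abel
      rw [e, map_add, map_add, ← hx, ← hy, Matrix.mul_add, Matrix.add_mul]
      abel
    · intro t k y hy
      have h1 := (key hA hT₂ hroot₂ hN₂ t k y hy).2
      have h2 := (key hA hT hroot hN t k (d y) (by rw [hpow, hy, map_zero])).2
      rw [h1, h2, map_smul]
  · intro q μ hq hμ
    have h1 : ∀ x y : n → F, (N *ᵥ x) ⬝ᵥ (q *ᵥ y) + x ⬝ᵥ (q *ᵥ (N *ᵥ y)) = φ μ * (x ⬝ᵥ (q *ᵥ y)) := by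
      intro x y
      refine ind_mat T (fun x => (N *ᵥ x) ⬝ᵥ (q *ᵥ y) + x ⬝ᵥ (q *ᵥ (N *ᵥ y)) =
        φ μ * (x ⬝ᵥ (q *ᵥ y))) ?_ ?_ ?_ x
      · simp
      · intro x1 x2 hx1 hx2
        rw [Matrix.mulVec_add, add_dotProduct, add_dotProduct, add_dotProduct]
        linear_combination hx1 + hx2
      · intro a k z hz
        refine ind_mat T (fun y => (N *ᵥ z) ⬝ᵥ (q *ᵥ y) + z ⬝ᵥ (q *ᵥ (N *ᵥ y)) =
          φ μ * (z ⬝ᵥ (q *ᵥ y))) ?_ ?_ ?_ y
        · simp
        · intro y1 y2 hy1 hy2
          simp only [Matrix.mulVec_add, dotProduct_add]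
          linear_combination hy1 + hy2
        · intro b l w hw
          rw [hN a k z hz, hN b l w hw, smul_dotProduct, Matrix.mulVec_smul, dotProduct_smul]
          simp only [smul_eq_mul]
          by_cases hzw : z ⬝ᵥ (q *ᵥ w) = 0
          · rw [hzw]
            ring
          · have hab : a * b = μ := by
              by_contra hab
              exact hzw (claim3 hq a b hab (k + l) k l rfl z w hz hw)
            have hz0 : z ≠ 0 := by
              rintro rfl
              exact hzw (zero_dotProduct _)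
            have hw0 : w ≠ 0 := by
              rintro rfl
              exact hzw (by simp)
            have ha := hroot a (root_of_gen T a k z hz hz0)
            have hb := hroot b (root_of_gen T b l w hw hw0)
            rw [← hab, hA.map a b ha hb]
            ring
    rw [Matrix.ext_iff_mulVec]
    intro y
    apply dotProduct_eq
    intro x
    have h2 := h1 x y
    rw [Matrix.add_mulVec, add_dotProduct, Matrix.smul_mulVec, smul_dotProduct, smul_eq_mul,
      ← Matrix.mulVec_mulVec, ← Matrix.mulVec_mulVec]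
    rw [dotProduct_comm, dotProduct_comm (q *ᵥ (N *ᵥ y)), dotProduct_comm (q *ᵥ y), ← h2]
    congr 1
    rw [Matrix.dotProduct_mulVec, Matrix.vecMul_transpose]
  · intro e he heT
    set R : Matrix n n F := T * e + (1 - e) with hR
    have heR : e * R = T * e := by
      rw [hR, Matrix.mul_add, ← Matrix.mul_assoc, heT, Matrix.mul_assoc, he, Matrix.mul_sub, he,
        Matrix.mul_one, sub_self, add_zero]
    have heR' : (1 - e) * R = 1 - e := by
      rw [Matrix.sub_mul, Matrix.one_mul, heR, hR]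
      abel
    have hrootR : ∀ r, R.charpoly.IsRoot r → A r := by
      intro r hr
      obtain ⟨x, hx, hx2⟩ := (root_iff R r).1 hr
      have h1 : T *ᵥ (e *ᵥ x) = r • (e *ᵥ x) := by
        rw [Matrix.mulVec_mulVec, ← heR, ← Matrix.mulVec_mulVec, hx2, Matrix.mulVec_smul]
      have h2 : (1 - e) *ᵥ x = r • ((1 - e) *ᵥ x) := by
        conv_lhs => rw [← heR', ← Matrix.mulVec_mulVec, hx2, Matrix.mulVec_smul]
      by_cases hex : e *ᵥ x = 0
      · have h3 : (1 - e) *ᵥ x = x := by
          rw [Matrix.sub_mulVec, Matrix.one_mulVec, hex, sub_zero]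
        rw [h3] at h2
        have h4 : r = 1 := by
          by_contra h5
          have h6 : (r - 1) • x = 0 := by
            rw [sub_smul, ← h2, one_smul, sub_self]
          rcases smul_eq_zero.1 h6 with h7 | h7
          · exact h5 (sub_eq_zero.1 h7)
          · exact hx h7
        rw [h4]
        exact hA.one
      · exact hroot r ((root_iff T r).2 ⟨_, hex, h1⟩)
    have hfn : IsFn φ R (N * e) := by
      intro a k x hx
      have h1 : ∀ k : ℕ, e * (R - a • (1 : Matrix n n F)) ^ k = (T - a • (1 : Matrix n n F)) ^ k * e := by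
        intro k
        have : SemiconjBy e (R - a • (1 : Matrix n n F)) (T - a • (1 : Matrix n n F)) := by
          unfold SemiconjBy
          rw [Matrix.mul_sub, Matrix.sub_mul, heR]
          simp
        exact (this.pow_right k).eq
      have h2 : ∀ k : ℕ, (1 - e) * (R - a • (1 : Matrix n n F)) ^ k = (1 - a) ^ k • (1 - e) := by
        intro k
        induction k with
        | zero => simp
        | succ k ih =>
          rw [pow_succ, ← Matrix.mul_assoc, ih, Matrix.smul_mul, Matrix.mul_sub, heR', pow_succ,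
            ← smul_smul]
          congr 1
          rw [sub_smul, one_smul]
          simp
      have h3 : N *ᵥ (e *ᵥ x) = φ a • (e *ᵥ x) := by
        apply hN a k
        rw [Matrix.mulVec_mulVec, ← h1, ← Matrix.mulVec_mulVec, hx, Matrix.mulVec_zero]
      have h4 : (1 - a) ^ k • ((1 - e) *ᵥ x) = 0 := by
        rw [← Matrix.smul_mulVec, ← h2, ← Matrix.mulVec_mulVec, hx, Matrix.mulVec_zero]
      rw [← Matrix.mulVec_mulVec, h3]
      rcases smul_eq_zero.1 h4 with h5 | h5
      · have h6 : a = 1 := (sub_eq_zero.1 (eq_zero_of_pow_eq_zero h5)).symm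
        rw [h6, phi_one hA, zero_smul, zero_smul]
      · rw [Matrix.sub_mulVec, Matrix.one_mulVec, sub_eq_zero] at h5
        rw [← h5]
    have htr := ((hFUN F n φ R).2 (N * e) hfn).2.1
    have hdet : R.det = R.charpoly.roots.prod := Matrix.det_eq_prod_roots_charpoly R
    rw [hdet, htr]
    apply multi hA
    intro a ha
    exact hrootR a (Polynomial.isRoot_of_mem_roots ha)

end Pool.Agent.NH56.HY
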