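import Pool.Agent.NH56.HY.Stm

/-!
# Base change of the action of Looijenga, Lunts and Verbitsky
-/

set_option autoImplicit false
set_option linter.unusedSectionVars false

namespace Pool.Agent.NH56.HY

open Matrix

namespace BasP

section mat

variable {κ : Type} [Fintype κ] [DecidableEq κ] {F : Type} [Field F] [CharZero F]

theorem map_smul_rat {m : Type} (c : ℚ) (r : Matrix m m ℚ) :
    (c • r).map (algebraMap ℚ F) = algebraMap ℚ F c • r.map (algebraMap ℚ F) := by
  ext i j
  rw [Matrix.map_apply, Matrix.smul_apply, Matrix.smul_apply, Matrix.map_apply, smul_eq_mul,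
    smul_eq_mul, map_mul]

theorem map_sub_rat {m : Type} (r s : Matrix m m ℚ) :
    (r - s).map (algebraMap ℚ F) = r.map (algebraMap ℚ F) - s.map (algebraMap ℚ F) :=
  Matrix.map_sub _ (map_sub _) _ _

theorem map_mul_rat {m : Type} [Fintype m] (r s : Matrix m m ℚ) :
    (r * s).map (algebraMap ℚ F) = r.map (algebraMap ℚ F) * s.map (algebraMap ℚ F) :=
  Matrix.map_mul

/-- the skew part of a matrix -/
noncomputable def pj (Q x : Matrix κ κ F) : Matrix κ κ F := (2 : F)⁻¹ • (x - Q⁻¹ * xᵀ * Q)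

theorem pj_add (Q x y : Matrix κ κ F) : pj Q (x + y) = pj Q x + pj Q y := by
  unfold pj
  rw [transpose_add, mul_add, add_mul, ← smul_add]
  congr 1
  abel

theorem pj_smul (Q : Matrix κ κ F) (c : F) (x : Matrix κ κ F) : pj Q (c • x) = c • pj Q x := by
  unfold pj
  rw [transpose_smul, mul_smul_comm, smul_mul_assoc, ← smul_sub, smul_comm]

theorem pj_zero (Q : Matrix κ κ F) : pj Q 0 = 0 := by
  unfold pj
  rw [transpose_zero, mul_zero, zero_mul, sub_zero, smul_zero]

theorem pj_skew {Q : Matrix κ κ F} (hQ : Qᵀ = Q) (hd : IsUnit Q.det) (x : Matrix κ κ F) :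
    (pj Q x)ᵀ * Q + Q * pj Q x = 0 := by
  unfold pj
  rw [transpose_smul, transpose_sub, transpose_mul, transpose_mul, transpose_transpose, hQ,
    transpose_nonsing_inv, hQ, smul_mul_assoc, mul_smul_comm, ← smul_add, sub_mul, mul_sub]
  have e1 : Q * (x * Q⁻¹) * Q = Q * x := by
    rw [mul_assoc, mul_assoc, nonsing_inv_mul _ hd, mul_one]
  have e2 : Q * (Q⁻¹ * xᵀ * Q) = xᵀ * Q := by
    rw [← mul_assoc, ← mul_assoc, mul_nonsing_inv _ hd, one_mul]
  rw [e1, e2, sub_add_sub_cancel, sub_self, smul_zero]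

theorem pj_of_skew {Q : Matrix κ κ F} (hd : IsUnit Q.det) {x : Matrix κ κ F}
    (hx : xᵀ * Q + Q * x = 0) : pj Q x = x := by
  unfold pj
  rw [mul_assoc, eq_neg_of_add_eq_zero_left hx, mul_neg, ← mul_assoc, nonsing_inv_mul _ hd, one_mul,
    sub_neg_eq_add, ← two_smul F x, smul_smul, inv_mul_cancel₀ two_ne_zero, one_smul]

theorem pj_of_sa {Q : Matrix κ κ F} (hd : IsUnit Q.det) {x : Matrix κ κ F}
    (hx : xᵀ * Q = Q * x) : pj Q x = 0 := by
  unfold pj
  rw [mul_assoc, hx, ← mul_assoc, nonsing_inv_mul _ hd, one_mul, sub_self, smul_zero]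

theorem sub_pj {Q : Matrix κ κ F} (hQ : Qᵀ = Q) (hd : IsUnit Q.det) (x : Matrix κ κ F) :
    (x - pj Q x)ᵀ * Q = Q * (x - pj Q x) := by
  have h1 : x - pj Q x = (2 : F)⁻¹ • (x + Q⁻¹ * xᵀ * Q) := by
    unfold pj
    have h2 : (2 : F) ≠ 0 := two_ne_zero
    match_scalars <;> field_simp <;> ring
  rw [h1, transpose_smul, transpose_add, transpose_mul, transpose_mul, transpose_transpose, hQ,
    transpose_nonsing_inv, hQ, smul_mul_assoc, mul_smul_comm, add_mul, mul_add]
  have e1 : Q * (x * Q⁻¹) * Q = Q * x := by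
    rw [mul_assoc, mul_assoc, nonsing_inv_mul _ hd, mul_one]
  have e2 : Q * (Q⁻¹ * xᵀ * Q) = xᵀ * Q := by
    rw [← mul_assoc, ← mul_assoc, mul_nonsing_inv _ hd, one_mul]
  rw [e1, e2, add_comm]

theorem map_inv_rat {q : Matrix κ κ ℚ} (hd : q.det ≠ 0) :
    (q.map (algebraMap ℚ F))⁻¹ = q⁻¹.map (algebraMap ℚ F) := by
  apply Matrix.inv_eq_right_inv
  rw [← map_mul_rat, mul_nonsing_inv _ (isUnit_iff_ne_zero.2 hd)]
  exact Matrix.map_one _ (map_zero _) (map_one _)

theorem det_map_ne {q : Matrix κ κ ℚ} (hd : q.det ≠ 0) :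
    IsUnit (q.map (algebraMap ℚ F)).det := by
  rw [isUnit_iff_ne_zero]
  have h1 : (q.map (algebraMap ℚ F)).det = algebraMap ℚ F q.det :=
    ((algebraMap ℚ F).map_det q).symm
  rw [h1]
  exact (map_ne_zero _).2 hd

theorem pj_map {q : Matrix κ κ ℚ} (hd : q.det ≠ 0) (r : Matrix κ κ ℚ) :
    (pj q r).map (algebraMap ℚ F) = pj (q.map (algebraMap ℚ F)) (r.map (algebraMap ℚ F)) := by
  unfold pj
  rw [map_smul_rat, map_sub_rat, map_mul_rat, map_mul_rat, map_inv_rat hd, transpose_map, map_inv₀,
    map_ofNat]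

theorem mem_span_range (x : Matrix κ κ F) : x ∈ Submodule.span F
    (Set.range fun r : Matrix κ κ ℚ => r.map (algebraMap ℚ F)) := by
  rw [matrix_eq_sum_single x]
  refine Submodule.sum_mem _ fun a _ => Submodule.sum_mem _ fun b _ => ?_
  have e : Matrix.single a b (x a b) =
      x a b • (Matrix.single a b (1 : ℚ)).map (algebraMap ℚ F) := by
    rw [Matrix.map_single, map_one, Matrix.smul_single, smul_eq_mul, mul_one]
  rw [e]
  exact Submodule.smul_mem _ _ (Submodule.subset_span ⟨_, rfl⟩)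

theorem pj_mem {q : Matrix κ κ ℚ} (hq : qᵀ = q) (hd : q.det ≠ 0) (x : Matrix κ κ F) :
    pj (q.map (algebraMap ℚ F)) x ∈ Submodule.span F
    ((fun r : Matrix κ κ ℚ => r.map (algebraMap ℚ F)) '' {r | rᵀ * q + q * r = 0}) := by
  have hx := mem_span_range x
  induction hx using Submodule.span_induction with
  | mem y hy =>
    obtain ⟨r, rfl⟩ := hy
    exact Submodule.subset_span ⟨pj q r, pj_skew hq (isUnit_iff_ne_zero.2 hd) r, pj_map hd r⟩
  | zero => rw [pj_zero]; exact Submodule.zero_mem _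
  | add a b _ _ ha hb => rw [pj_add]; exact Submodule.add_mem _ ha hb
  | smul c a _ ha => rw [pj_smul]; exact Submodule.smul_mem _ c ha

end mat

section coh

variable {ι : Type} [Fintype ι] [DecidableEq ι] (X : Coh ι) (F : Type) [Field F] [CharZero F]

/-- `δF` as a linear map -/
noncomputable def dl : Matrix {a // X.deg a = 2} {a // X.deg a = 2} F →ₗ[F] Matrix ι ι F where
  toFun := X.δF F
  map_add' x y := by
    unfold Coh.δF
    simp only [Matrix.add_apply, add_smul, Finset.sum_add_distrib]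
  map_smul' c x := by
    unfold Coh.δF
    simp only [Matrix.smul_apply, smul_eq_mul, mul_smul, Finset.smul_sum, RingHom.id_apply]

theorem dl_apply (x : Matrix {a // X.deg a = 2} {a // X.deg a = 2} F) : dl X F x = X.δF F x := rfl

theorem dl_map (r : Matrix {a // X.deg a = 2} {a // X.deg a = 2} ℚ) :
    dl X F (r.map (algebraMap ℚ F)) = (X.δ r).map (algebraMap ℚ F) := by
  have h : X.δ r = ∑ a, ∑ b, r a b • X.δ (Matrix.single a b 1) := by
    conv_lhs => rw [matrix_eq_sum_single r]
    rw [map_sum]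
    refine Finset.sum_congr rfl fun a _ => ?_
    rw [map_sum]
    refine Finset.sum_congr rfl fun b _ => ?_
    rw [← map_smul, Matrix.smul_single, smul_eq_mul, mul_one]
  rw [h, dl_apply]
  unfold Coh.δF
  ext i j
  rw [Matrix.map_apply, Matrix.sum_apply, Matrix.sum_apply, map_sum]
  refine Finset.sum_congr rfl fun a _ => ?_
  rw [Matrix.sum_apply, Matrix.sum_apply, map_sum]
  refine Finset.sum_congr rfl fun b _ => ?_
  rw [Matrix.smul_apply, Matrix.smul_apply, Matrix.map_apply, Matrix.map_apply, smul_eq_mul,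
    smul_eq_mul, map_mul]

variable {X F} (hX : IsHyperKahler X)

include hX

theorem qF_symm : (X.qF F)ᵀ = X.qF F := by
  unfold Coh.qF
  rw [← transpose_map, hX.symm]

theorem qF_det : IsUnit (X.qF F).det := det_map_ne hX.nondeg

theorem dl_pj (x : Matrix {a // X.deg a = 2} {a // X.deg a = 2} F) :
    dl X F (pj (X.qF F) x) = dl X F x := by
  have hx := mem_span_range x
  induction hx using Submodule.span_induction with
  | mem y hy =>
    obtain ⟨r, rfl⟩ := hy
    show dl X F (pj (X.q.map (algebraMap ℚ F)) (r.map (algebraMap ℚ F))) = _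
    rw [← pj_map hX.nondeg, dl_map, dl_map]
    congr 1
    have h1 := hX.convention (r - pj X.q r) (sub_pj hX.symm (isUnit_iff_ne_zero.2 hX.nondeg) r)
    rw [map_sub, sub_eq_zero] at h1
    exact h1.symm
  | zero => rw [pj_zero]
  | add a b _ _ ha hb => rw [pj_add, map_add, map_add, ha, hb]
  | smul c a _ ha => rw [pj_smul, map_smul, map_smul, ha]

theorem skew_mem {x : Matrix {a // X.deg a = 2} {a // X.deg a = 2} F} (hx : X.IsSkew F x) :
    x ∈ Submodule.span F ((fun r : Matrix {a // X.deg a = 2} {a // X.deg a = 2} ℚ =>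
      r.map (algebraMap ℚ F)) '' {r | rᵀ * X.q + X.q * r = 0}) := by
  rw [← pj_of_skew (qF_det hX) hx]
  exact pj_mem hX.symm hX.nondeg x

theorem brk {x y : Matrix {a // X.deg a = 2} {a // X.deg a = 2} F} (hx : X.IsSkew F x)
    (hy : X.IsSkew F y) : dl X F (x * y - y * x) = dl X F x * dl X F y - dl X F y * dl X F x := by
  have h1 := skew_mem hX hx
  have h2 := skew_mem hX hy
  clear hx hy
  induction h1 using Submodule.span_induction with
  | mem x hx =>
    obtain ⟨r, hr, rfl⟩ := hx
    induction h2 using Submodule.span_induction with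
    | mem y hy =>
      obtain ⟨s, hs, rfl⟩ := hy
      show dl X F (r.map (algebraMap ℚ F) * s.map (algebraMap ℚ F) -
        s.map (algebraMap ℚ F) * r.map (algebraMap ℚ F)) = dl X F (r.map (algebraMap ℚ F)) *
        dl X F (s.map (algebraMap ℚ F)) - dl X F (s.map (algebraMap ℚ F)) *
        dl X F (r.map (algebraMap ℚ F))
      rw [← map_mul_rat, ← map_mul_rat, ← map_sub_rat, dl_map, dl_map, dl_map,
        hX.bracket r s hr hs, map_sub_rat, map_mul_rat, map_mul_rat]
    | zero => rw [map_zero, mul_zero, zero_mul, sub_zero, mul_zero, zero_mul, sub_zero, map_zero]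
    | add a b _ _ ha hb =>
      rw [mul_add, add_mul, add_sub_add_comm, map_add, ha, hb, map_add, mul_add, add_mul]
      abel
    | smul c a _ ha =>
      rw [mul_smul_comm, smul_mul_assoc, ← smul_sub, map_smul, ha, map_smul, mul_smul_comm,
        smul_mul_assoc, smul_sub]
  | zero => rw [map_zero, mul_zero, zero_mul, sub_zero, mul_zero, zero_mul, sub_zero, map_zero]
  | add a b _ _ ha hb =>
    rw [mul_add, add_mul, add_sub_add_comm, map_add, ha, hb, map_add, mul_add, add_mul]
    abel
  | smul c a _ ha =>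
    rw [mul_smul_comm, smul_mul_assoc, ← smul_sub, map_smul, ha, map_smul, mul_smul_comm,
      smul_mul_assoc, smul_sub]

theorem trc {c : ℚ} (hc : ∀ x y : Matrix {a // X.deg a = 2} {a // X.deg a = 2} ℚ,
    xᵀ * X.q + X.q * x = 0 → yᵀ * X.q + X.q * y = 0 → (X.δ x * X.δ y).trace = c * (x * y).trace)
    {x y : Matrix {a // X.deg a = 2} {a // X.deg a = 2} F} (hx : X.IsSkew F x)
    (hy : X.IsSkew F y) : (dl X F x * dl X F y).trace = algebraMap ℚ F c * (x * y).trace := by
  have h1 := skew_mem hX hx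
  have h2 := skew_mem hX hy
  clear hx hy
  induction h1 using Submodule.span_induction with
  | mem x hx =>
    obtain ⟨r, hr, rfl⟩ := hx
    induction h2 using Submodule.span_induction with
    | mem y hy =>
      obtain ⟨s, hs, rfl⟩ := hy
      show (dl X F (r.map (algebraMap ℚ F)) * dl X F (s.map (algebraMap ℚ F))).trace =
        algebraMap ℚ F c * (r.map (algebraMap ℚ F) * s.map (algebraMap ℚ F)).trace
      have h3 : ∀ (m : Type) [Fintype m] [DecidableEq m] (z : Matrix m m ℚ),
          (z.map (algebraMap ℚ F)).trace = algebraMap ℚ F z.trace := fun m _ _ z =>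
        (AddMonoidHom.map_trace (algebraMap ℚ F).toAddMonoidHom z).symm
      rw [dl_map, dl_map, ← map_mul_rat, ← map_mul_rat, h3, h3, hc r s hr hs, map_mul]
    | zero => rw [map_zero, mul_zero, mul_zero, Matrix.trace_zero, Matrix.trace_zero, mul_zero]
    | add a b _ _ ha hb =>
      rw [map_add, mul_add, mul_add, Matrix.trace_add, Matrix.trace_add, ha, hb, mul_add]
    | smul c' a _ ha =>
      rw [map_smul, mul_smul_comm, mul_smul_comm, Matrix.trace_smul, Matrix.trace_smul, ha,
        smul_eq_mul, smul_eq_mul, mul_left_comm]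
  | zero => rw [map_zero, zero_mul, zero_mul, Matrix.trace_zero, Matrix.trace_zero, mul_zero]
  | add a b _ _ ha hb =>
    rw [map_add, add_mul, add_mul, Matrix.trace_add, Matrix.trace_add, ha, hb, mul_add]
  | smul c' a _ ha =>
    rw [map_smul, smul_mul_assoc, smul_mul_assoc, Matrix.trace_smul, Matrix.trace_smul, ha,
      smul_eq_mul, smul_eq_mul, mul_left_comm]

theorem ntr {x : Matrix {a // X.deg a = 2} {a // X.deg a = 2} F} (hx : X.IsSkew F x) :
    blk X.deg 2 (dl X F x) = x := by
  have h1 := skew_mem hX hx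
  clear hx
  induction h1 using Submodule.span_induction with
  | mem x hx =>
    obtain ⟨r, hr, rfl⟩ := hx
    show blk X.deg 2 (dl X F (r.map (algebraMap ℚ F))) = r.map (algebraMap ℚ F)
    rw [dl_map]
    have h2 : blk X.deg 2 ((X.δ r).map (algebraMap ℚ F)) =
        (blk X.deg 2 (X.δ r)).map (algebraMap ℚ F) := rfl
    rw [h2, hX.natural r hr]
  | zero => rw [map_zero]; rfl
  | add a b _ _ ha hb =>
    rw [map_add]
    have h2 : blk X.deg 2 (dl X F a + dl X F b) = blk X.deg 2 (dl X F a) + blk X.deg 2 (dl X F b) :=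
      rfl
    rw [h2, ha, hb]
  | smul c a _ ha =>
    rw [map_smul]
    have h2 : blk X.deg 2 (c • dl X F a) = c • blk X.deg 2 (dl X F a) := rfl
    rw [h2, ha]

end coh

end BasP

open BasP in
theorem t_BAS : S_BAS := by
  intro ι _ _ X hX F _ _
  refine ⟨fun x y => map_add (dl X F) x y, fun c x => map_smul (dl X F) c x, fun x => dl_map X F x,
    ?_, ?_, ?_, ?_, ?_, ?_⟩
  · intro x hx
    rw [← dl_apply, ← dl_pj hX, pj_of_sa (qF_det hX) hx, map_zero]
  · intro x
    exact ⟨pj (X.qF F) x, pj_skew (qF_symm hX) (qF_det hX) x, dl_pj hX x⟩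
  · intro x y hx
    have hsa := sub_pj (qF_symm hX) (qF_det hX) y
    set s := y - pj (X.qF F) y with hs
    have hys : y = pj (X.qF F) y + s := by rw [hs]; abel
    have hds : dl X F s = 0 := by
      rw [← dl_pj hX, pj_of_sa (qF_det hX) hsa, map_zero]
    have hsk : X.IsSkew F (pj (X.qF F) y) := pj_skew (qF_symm hX) (qF_det hX) y
    have hx' : xᵀ * X.qF F = -(X.qF F * x) := eq_neg_of_add_eq_zero_left hx
    have hbs : dl X F (x * s - s * x) = 0 := by
      rw [← dl_pj hX, pj_of_sa (qF_det hX), map_zero]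
      clear_value s
      have e2 : sᵀ * xᵀ * X.qF F = -(X.qF F * (s * x)) := by
        rw [mul_assoc, hx', mul_neg, ← mul_assoc, hsa, mul_assoc]
      have e3 : xᵀ * sᵀ * X.qF F = -(X.qF F * (x * s)) := by
        rw [mul_assoc, hsa, ← mul_assoc, hx', neg_mul, mul_assoc]
      rw [transpose_sub, transpose_mul, transpose_mul, sub_mul, e2, e3, mul_sub]
      abel
    rw [← dl_apply, ← dl_apply, ← dl_apply]
    have e1 : x * y - y * x = (x * pj (X.qF F) y - pj (X.qF F) y * x) + (x * s - s * x) := by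
      conv_lhs => rw [hys]
      rw [mul_add, add_mul]
      abel
    rw [e1, map_add, hbs, add_zero, brk hX hx hsk, dl_pj hX]
  · intro x
    intro a b hab
    unfold Coh.δF
    rw [Matrix.sum_apply]
    refine Finset.sum_eq_zero fun c _ => ?_
    rw [Matrix.sum_apply]
    refine Finset.sum_eq_zero fun d _ => ?_
    rw [Matrix.smul_apply, Matrix.map_apply, hX.graded _ a b hab, map_zero, smul_zero]
  · intro x hx
    exact ntr hX hx
  · obtain ⟨c, hc⟩ := hX.trace_form
    exact ⟨c, fun x y hx hy => trc hX hc hx hy⟩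

end Pool.Agent.NH56.HY
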