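import Pool.Agent.NH56.HY.Stm

/-!
# The rigidity lemma (RIG)
-/

set_option autoImplicit false

namespace Pool.Agent.NH56.HY

open Matrix Polynomial

namespace Rig

variable {n : Type} [Fintype n] [DecidableEq n]

theorem toLin_pow (Z : Matrix n n ℂ) (a : ℂ) (k : ℕ) (x : n → ℂ) :
    ((Matrix.toLin' Z - a • 1) ^ k) x = ((Z - a • (1 : Matrix n n ℂ)) ^ k) *ᵥ x := by
  have h : Matrix.toLin' Z - a • 1 = Matrix.toLin' (Z - a • (1 : Matrix n n ℂ)) := by
    rw [map_sub, map_smul, Matrix.toLin'_one]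
    rfl
  rw [h, ← Matrix.toLin'_pow, Matrix.toLin'_apply]

/-- the generalized eigenvectors span -/
theorem gen (Z : Matrix n n ℂ) (P : (n → ℂ) → Prop) (h0 : P 0)
    (hadd : ∀ x y, P x → P y → P (x + y))
    (h : ∀ (a : ℂ) (k : ℕ) (x : n → ℂ), ((Z - a • (1 : Matrix n n ℂ)) ^ k) *ᵥ x = 0 → P x)
    (x : n → ℂ) : P x := by
  have h1 : x ∈ ⨆ μ, Module.End.maxGenEigenspace (Matrix.toLin' Z) μ := by
    rw [Module.End.iSup_maxGenEigenspace_eq_top]
    trivial
  refine Submodule.iSup_induction (motive := P) _ h1 (fun μ y hy => ?_) h0 hadd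
  obtain ⟨k, hk⟩ := (Module.End.mem_maxGenEigenspace _ _ _).1 hy
  exact h μ k y (by rw [← toLin_pow]; exact hk)

theorem nil_of (A : Matrix n n ℂ) (h : ∀ x, ∃ k : ℕ, (A ^ k) *ᵥ x = 0) : IsNilpotent A := by
  have h1 : IsNilpotent (Matrix.toLin' A) := by
    rw [Module.End.isNilpotent_iff_of_finite]
    intro x
    obtain ⟨k, hk⟩ := h x
    exact ⟨k, by rw [← Matrix.toLin'_pow, Matrix.toLin'_apply]; exact hk⟩
  obtain ⟨k, hk⟩ := h1
  refine ⟨k, ?_⟩
  rw [← Matrix.toLin'_pow] at hk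
  exact (Matrix.toLin' (R := ℂ) (m := n) (n := n)).injective (by rw [hk, map_zero])

theorem trace_nil {A : Matrix n n ℂ} (h : IsNilpotent A) : A.trace = 0 :=
  (Matrix.isNilpotent_trace_of_isNilpotent h).eq_zero

/-- a stable subspace contains an eigenvector -/
theorem ev (A : Matrix n n ℂ) (W : Submodule ℂ (n → ℂ)) (hW : ∃ x ∈ W, x ≠ 0)
    (hA : ∀ x ∈ W, A *ᵥ x ∈ W) : ∃ r : ℂ, ∃ x ∈ W, x ≠ 0 ∧ A *ᵥ x = r • x := by
  obtain ⟨x0, hx0, hx0'⟩ := hW
  have : Nontrivial W := ⟨⟨⟨x0, hx0⟩, 0, fun h => hx0' (congrArg Subtype.val h)⟩⟩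
  obtain ⟨c, hc⟩ := Module.End.exists_eigenvalue ((Matrix.toLin' A).restrict (p := W) (q := W) hA)
  obtain ⟨v, hv⟩ := hc.exists_hasEigenvector
  refine ⟨c, v.1, v.2, fun h => hv.2 (Subtype.ext h), ?_⟩
  exact congrArg Subtype.val hv.apply_eq_smul

/-- the eigenvectors for a number -/
def eig (A : Matrix n n ℂ) (b : ℂ) : Submodule ℂ (n → ℂ) where
  carrier := {x | A *ᵥ x = b • x}
  zero_mem' := by
    show A *ᵥ 0 = b • 0
    rw [Matrix.mulVec_zero, smul_zero]
  add_mem' := by
    intro x y hx hy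
    show A *ᵥ (x + y) = b • (x + y)
    rw [Matrix.mulVec_add, smul_add]
    exact congrArg₂ _ hx hy
  smul_mem' := by
    intro c x hx
    show A *ᵥ (c • x) = b • c • x
    rw [Matrix.mulVec_smul, smul_comm]
    exact congrArg _ hx

omit [DecidableEq n] in
theorem mem_eig {A : Matrix n n ℂ} {b : ℂ} {x : n → ℂ} : x ∈ eig A b ↔ A *ᵥ x = b • x := Iff.rfl

omit [DecidableEq n] in
/-- a matrix which commutes preserves the eigenvectors -/
theorem eig_stable {A B : Matrix n n ℂ} (h : A * B = B * A) {b : ℂ} {x : n → ℂ} (hx : x ∈ eig A b) :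
    B *ᵥ x ∈ eig A b := by
  rw [mem_eig] at hx ⊢
  rw [Matrix.mulVec_mulVec, h, ← Matrix.mulVec_mulVec, hx, Matrix.mulVec_smul]

/-- the product of two commuting matrices with real eigenvalues has real eigenvalues -/
theorem real_prod {A B : Matrix n n ℂ} (h : A * B = B * A)
    (hA : ∀ (b : ℂ) (x : n → ℂ), x ≠ 0 → A *ᵥ x = b • x → b.im = 0)
    (hB : ∀ (b : ℂ) (x : n → ℂ), x ≠ 0 → B *ᵥ x = b • x → b.im = 0) : (A * B).trace.im = 0 := by
  rw [Matrix.trace_eq_sum_roots_charpoly]
  have h1 : ∀ b ∈ (A * B).charpoly.roots, b.im = 0 := by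
    intro b hb
    rw [Polynomial.mem_roots (Matrix.charpoly_monic _).ne_zero] at hb
    have h2 : Module.End.HasEigenvalue (Matrix.toLin' (A * B)) b := by
      rw [Module.End.hasEigenvalue_iff_isRoot_charpoly, Matrix.charpoly_toLin']
      exact hb
    obtain ⟨x, hx⟩ := h2.exists_hasEigenvector
    have hx1 : x ∈ eig (A * B) b := by
      rw [mem_eig, ← Matrix.toLin'_apply]
      exact hx.apply_eq_smul
    have cA : (A * B) * A = A * (A * B) := by rw [h, ← mul_assoc, h]
    have cB : (A * B) * B = B * (A * B) := by rw [h, mul_assoc, h]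
    obtain ⟨r, y, hy, hy0, hyr⟩ := ev A (eig (A * B) b) ⟨x, hx1, hx.2⟩ fun x hx => eig_stable cA hx
    obtain ⟨s, w, hw, hw0, hws⟩ := ev B (eig (A * B) b ⊓ eig A r) ⟨y, ⟨hy, hyr⟩, hy0⟩
      fun x hx => ⟨eig_stable cB hx.1, eig_stable h hx.2⟩
    have e1 : (A * B) *ᵥ w = b • w := hw.1
    have e2 : A *ᵥ w = r • w := hw.2
    have e3 : b • w = (s * r) • w := by
      rw [← e1, ← Matrix.mulVec_mulVec, hws, Matrix.mulVec_smul, e2, smul_smul]
    have e4 : b = s * r := smul_left_injective ℂ hw0 e3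
    rw [e4, Complex.mul_im, hA r w hw0 e2, hB s w hw0 hws]
    ring
  have h3 : ∀ m : Multiset ℂ, (∀ b ∈ m, b.im = 0) → m.sum.im = 0 := by
    intro m
    induction m using Multiset.induction_on with
    | empty => intro _; simp
    | cons a m ih =>
      intro hm
      rw [Multiset.sum_cons, Complex.add_im, hm a (Multiset.mem_cons_self _ _),
        ih fun b hb => hm b (Multiset.mem_cons_of_mem hb), add_zero]
  exact h3 _ h1

/-- two matrices which agree on the generalized eigenvectors -/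
theorem ext_gen (Z A B : Matrix n n ℂ)
    (h : ∀ (a : ℂ) (k : ℕ) (x : n → ℂ), ((Z - a • (1 : Matrix n n ℂ)) ^ k) *ᵥ x = 0 →
      A *ᵥ x = B *ᵥ x) : A = B := by
  have h1 : ∀ x, A *ᵥ x = B *ᵥ x := gen Z (fun x => A *ᵥ x = B *ᵥ x)
    (by rw [Matrix.mulVec_zero, Matrix.mulVec_zero])
    (fun x y hx hy => by rw [Matrix.mulVec_add, Matrix.mulVec_add, hx, hy]) h
  exact Matrix.mulVec_injective (funext h1)

/-- the difference of a matrix and its semisimple part is nilpotent -/
theorem nil_sub {Z S : Matrix n n ℂ} (hS : IsFn (fun a => a) Z S) : IsNilpotent (Z - S) := by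
  have key : ∀ (a : ℂ) (k : ℕ) (x : n → ℂ), ((Z - a • (1 : Matrix n n ℂ)) ^ k) *ᵥ x = 0 →
      ((Z - S) ^ k) *ᵥ x = 0 := by
    intro a k
    induction k with
    | zero => intro x hx; simpa using hx
    | succ k ih =>
      intro x hx
      have e1 : (Z - S) *ᵥ x = (Z - a • (1 : Matrix n n ℂ)) *ᵥ x := by
        rw [Matrix.sub_mulVec, Matrix.sub_mulVec, hS a (k + 1) x hx, Matrix.smul_mulVec,
          Matrix.one_mulVec]
      rw [pow_succ, ← Matrix.mulVec_mulVec, e1]
      apply ih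
      rw [Matrix.mulVec_mulVec, ← pow_succ]
      exact hx
  refine nil_of _ (gen Z _ ⟨0, by simp⟩ ?_ fun a k x hx => ⟨k, key a k x hx⟩)
  rintro x y ⟨k, hk⟩ ⟨l, hl⟩
  refine ⟨k + l, ?_⟩
  rw [Matrix.mulVec_add, pow_add]
  have e1 : ((Z - S) ^ k * (Z - S) ^ l) *ᵥ y = 0 := by
    rw [← Matrix.mulVec_mulVec, hl, Matrix.mulVec_zero]
  have e2 : ((Z - S) ^ k * (Z - S) ^ l) *ᵥ x = 0 := by
    rw [← pow_add, add_comm, pow_add, ← Matrix.mulVec_mulVec, hk, Matrix.mulVec_zero]
  rw [e1, e2, add_zero]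

theorem sum_zero {m : Multiset ℂ} {f : ℂ → ℝ} (hf : ∀ z ∈ m, 0 ≤ f z)
    (h : (m.map f).sum ≤ 0) : ∀ z ∈ m, f z = 0 := by
  induction m using Multiset.induction_on with
  | empty => intro z hz; exact absurd hz (Multiset.notMem_zero z)
  | cons a m ih =>
    rw [Multiset.map_cons, Multiset.sum_cons] at h
    have h1 : 0 ≤ (m.map f).sum := Multiset.sum_nonneg fun y hy => by
      obtain ⟨z, hz, rfl⟩ := Multiset.mem_map.1 hy
      exact hf z (Multiset.mem_cons_of_mem hz)
    have h2 := hf a (Multiset.mem_cons_self _ _)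
    intro z hz
    rcases Multiset.mem_cons.1 hz with rfl | hz
    · linarith
    · exact ih (fun z hz => hf z (Multiset.mem_cons_of_mem hz)) (by linarith) z hz

end Rig

open Rig in
/-- **RIG** -/
theorem t_RIG (hFUN : S_FUN) : S_RIG := by
  intro n _ _ G hnd Y Z T φ hZ hY hN hle
  set N := Y + Z with hNdef
  obtain ⟨-, hf⟩ := hFUN ℂ n (fun a => ((φ a : ℝ) : ℂ)) T
  obtain ⟨-, -, hN3, hN4⟩ := hf N hN
  obtain ⟨⟨S, hS⟩, hfS⟩ := hFUN ℂ n (fun a => a) Z
  obtain ⟨⟨M, hM⟩, hfM⟩ := hFUN ℂ n (fun a => ((a.im : ℝ) : ℂ)) Z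
  obtain ⟨hS1, -, hS3, -⟩ := hfS S hS
  obtain ⟨hM1, -, hM3, -⟩ := hfM M hM
  -- everything commutes
  have cS : ∀ g : Matrix n n ℂ, g * Z = Z * g → g * S = S * g := fun g hg =>
    hS1 n Z S g hS hg
  have cM : ∀ g : Matrix n n ℂ, g * Z = Z * g → g * M = M * g := fun g hg =>
    hM1 n Z M g hM hg
  have ES : ∀ g ∈ G, S * g = g * S := fun g hg => (cS g (hZ g hg).symm).symm
  have EM : ∀ g ∈ G, M * g = g * M := fun g hg => (cM g (hZ g hg).symm).symm
  have ZS : Z * S = S * Z := cS Z rfl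
  have ZM : Z * M = M * Z := cM Z rfl
  have MS : M * S = S * M := cS M ZM.symm
  have YM : M * Y = Y * M := (hY M EM).1
  have YZ : Z * Y = Y * Z := (hY Z hZ).1
  have nil := nil_sub hS
  have cNM : N * M = M * N := by
    rw [hNdef, add_mul, mul_add, YM, ZM]
  -- the eigenvalues of `N` and `M` are real
  have rN : ∀ (b : ℂ) (x : n → ℂ), x ≠ 0 → N *ᵥ x = b • x → b.im = 0 := by
    intro b x hx h
    obtain ⟨a, -, ha⟩ := hN3 b x hx h
    rw [← ha]
    exact Complex.ofReal_im _
  have rM : ∀ (b : ℂ) (x : n → ℂ), x ≠ 0 → M *ᵥ x = b • x → b.im = 0 := by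
    intro b x hx h
    obtain ⟨a, -, ha⟩ := hM3 b x hx h
    rw [← ha]
    exact Complex.ofReal_im _
  have t1 : (N * M).trace.im = 0 := real_prod cNM rN rM
  have t2 : (N * M).trace = (S * M).trace := by
    have e1 : N * M = Y * M + S * M + (Z - S) * M := by
      rw [hNdef]
      noncomm_ring
    have e2 : IsNilpotent ((Z - S) * M) := by
      refine Commute.isNilpotent_mul_right ?_ nil
      show (Z - S) * M = M * (Z - S)
      rw [sub_mul, mul_sub, ZM, MS]
    rw [e1, Matrix.trace_add, Matrix.trace_add, (hY M EM).2, trace_nil e2, zero_add, add_zero]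
  have fSM : IsFn (fun a : ℂ => a * ((a.im : ℝ) : ℂ)) Z (S * M) := by
    intro a k x hx
    rw [← Matrix.mulVec_mulVec, hM a k x hx, Matrix.mulVec_smul, hS a k x hx, smul_smul, mul_comm]
  have t3 : (S * M).trace = (Z.charpoly.roots.map fun a : ℂ => a * ((a.im : ℝ) : ℂ)).sum :=
    ((hFUN ℂ n (fun a => a * ((a.im : ℝ) : ℂ)) Z).2 _ fSM).2.1
  have im0 : ∀ z ∈ Z.charpoly.roots, z.im = 0 := by
    have h1 : ∀ m : Multiset ℂ, (m.map fun a : ℂ => a * ((a.im : ℝ) : ℂ)).sum.im =
        (m.map fun a : ℂ => a.im ^ 2).sum := by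
      intro m
      induction m using Multiset.induction_on with
      | empty => simp
      | cons a m ih =>
        rw [Multiset.map_cons, Multiset.map_cons, Multiset.sum_cons, Multiset.sum_cons,
          Complex.add_im, ih]
        congr 1
        rw [Complex.mul_im, Complex.ofReal_im, Complex.ofReal_re]
        ring
    have h2 : (Z.charpoly.roots.map fun a : ℂ => a.im ^ 2).sum ≤ 0 := by
      rw [← h1, ← t3, ← t2, t1]
    intro z hz
    have := sum_zero (fun z _ => sq_nonneg z.im) h2 z hz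
    exact pow_eq_zero_iff (two_ne_zero) |>.1 this
  -- the eigenvalues of `Z` are zero
  have fSS : IsFn (fun a : ℂ => a * a) Z (S * S) := by
    intro a k x hx
    rw [← Matrix.mulVec_mulVec, hS a k x hx, Matrix.mulVec_smul, hS a k x hx, smul_smul]
  have t4 : (S * S).trace = (Z.charpoly.roots.map fun a : ℂ => a * a).sum :=
    ((hFUN ℂ n (fun a => a * a) Z).2 _ fSS).2.1
  have t5 : (Z * Z).trace = (S * S).trace := by
    have e1 : Z * Z = S * S + (Z - S) * (Z + S) + (S * Z - Z * S) := by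
      noncomm_ring
    have e2 : IsNilpotent ((Z - S) * (Z + S)) := by
      refine Commute.isNilpotent_mul_right ?_ nil
      show (Z - S) * (Z + S) = (Z + S) * (Z - S)
      rw [sub_mul, mul_sub, mul_add, mul_add, add_mul, add_mul, ZS]
    rw [e1, Matrix.trace_add, Matrix.trace_add, trace_nil e2, ZS, sub_self, Matrix.trace_zero,
      add_zero, add_zero]
  have z0 : ∀ z ∈ Z.charpoly.roots, z = 0 := by
    have h1 : ∀ m : Multiset ℂ, (∀ z ∈ m, z.im = 0) → (m.map fun a : ℂ => a * a).sum.re =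
        (m.map fun a : ℂ => a.re ^ 2).sum := by
      intro m
      induction m using Multiset.induction_on with
      | empty => intro _; simp
      | cons a m ih =>
        intro hm
        rw [Multiset.map_cons, Multiset.map_cons, Multiset.sum_cons, Multiset.sum_cons,
          Complex.add_re, ih fun z hz => hm z (Multiset.mem_cons_of_mem hz)]
        congr 1
        rw [Complex.mul_re, hm a (Multiset.mem_cons_self _ _)]
        ring
    have h2 : (Z.charpoly.roots.map fun a : ℂ => a.re ^ 2).sum ≤ 0 := by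
      rw [← h1 _ im0, ← t4, ← t5]
      exact hle
    intro z hz
    have h3 := sum_zero (fun z _ => sq_nonneg z.re) h2 z hz
    have h4 : z.re = 0 := pow_eq_zero_iff (two_ne_zero) |>.1 h3
    exact Complex.ext h4 (im0 z hz)
  have S0 : S = 0 := by
    apply ext_gen Z
    intro a k x hx
    rw [Matrix.zero_mulVec]
    by_cases hx0 : x = 0
    · rw [hx0, Matrix.mulVec_zero]
    · have h1 := hS a k x hx
      obtain ⟨a', ha', ha''⟩ := hS3 a x hx0 h1
      have h2 : a' = 0 := z0 a' (by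
        rw [Polynomial.mem_roots (Matrix.charpoly_monic _).ne_zero]
        exact ha')
      have h3 : a = 0 := by
        rw [← ha'']
        exact h2
      rw [h1, h3]
      exact zero_smul _ _
  have nilZ : IsNilpotent Z := by
    rw [S0, sub_zero] at nil
    exact nil
  -- `N` commutes with the commutant
  have cN : ∀ B : Matrix n n ℂ, (∀ g ∈ G, B * g = g * B) → N * B = B * N := by
    intro B hB
    let C : ℕ → Matrix n n ℂ := fun m => Nat.rec B (fun _ D => Z * D - D * Z) m
    have C0 : C 0 = B := rfl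
    have CS : ∀ m, C (m + 1) = Z * C m - C m * Z := fun m => rfl
    have CE : ∀ m, ∀ g ∈ G, C m * g = g * C m := by
      intro m
      induction m with
      | zero => exact hB
      | succ m ih =>
        intro g hg
        rw [CS, sub_mul, mul_sub, mul_assoc, ih g hg, mul_assoc, hZ g hg, ← mul_assoc, ← mul_assoc,
          hZ g hg, ih g hg, mul_assoc, mul_assoc]
    have CN : ∀ m, C (m + 1) = N * C m - C m * N := by
      intro m
      rw [CS, hNdef, add_mul, mul_add, (hY (C m) (CE m)).1]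
      abel
    obtain ⟨m, hm⟩ : ∃ m, C m = 0 := by
      have h1 : ∀ m, C m = ((LinearMap.mulLeft ℂ Z - LinearMap.mulRight ℂ Z) ^ m) B := by
        intro m
        induction m with
        | zero => rfl
        | succ m ih =>
          rw [CS, pow_succ', Module.End.mul_apply, ← ih]
          rfl
      obtain ⟨m, hm⟩ := Commute.isNilpotent_sub (LinearMap.commute_mulLeft_right Z Z)
        ((LinearMap.isNilpotent_mulLeft_iff ℂ Z).2 nilZ)
        ((LinearMap.isNilpotent_mulRight_iff ℂ Z).2 nilZ)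
      refine ⟨m, ?_⟩
      rw [h1, hm]
      rfl
    apply ext_gen N
    intro r k x hx
    have hx1 := hN4 r k x hx
    have h2 : ∀ m, ((N - r • (1 : Matrix n n ℂ)) ^ m) *ᵥ (B *ᵥ x) = (C m) *ᵥ x := by
      intro m
      induction m with
      | zero =>
        rw [pow_zero, Matrix.one_mulVec, C0]
      | succ m ih =>
        rw [pow_succ', ← Matrix.mulVec_mulVec, ih, CN, Matrix.sub_mulVec, Matrix.sub_mulVec,
          Matrix.smul_mulVec, Matrix.one_mulVec, ← Matrix.mulVec_mulVec, ← Matrix.mulVec_mulVec,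
          hx1, Matrix.mulVec_smul]
    have h3 := hN4 r m (B *ᵥ x) (by rw [h2, hm, Matrix.zero_mulVec])
    rw [← Matrix.mulVec_mulVec, h3, ← Matrix.mulVec_mulVec, hx1, Matrix.mulVec_smul]
  apply hnd Z hZ
  intro B hB
  have h1 : Z * B = B * Z := by
    have h2 := cN B hB
    rw [hNdef, add_mul, mul_add, ← (hY B hB).1] at h2
    exact add_left_cancel h2
  exact trace_nil (Commute.isNilpotent_mul_right (show Commute Z B from h1) nilZ)

end Pool.Agent.NH56.HY
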