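import Pool.Agent.NH56.HY.Stm

/-!
# HY-FUN: functions of a matrix
-/

set_option autoImplicit false

namespace Pool.Agent.NH56.HY

open Matrix Module

namespace Fun

variable {F n : Type} [Field F] [Fintype n] [DecidableEq n]

theorem pow_vec (T : Matrix n n F) (a : F) (k : ℕ) (x : n → F) :
    ((T - a • (1 : Matrix n n F)) ^ k) *ᵥ x = ((toLin' T - a • (1 : End F (n → F))) ^ k) x := by
  have e : toLin' T - a • (1 : End F (n → F)) = toLin' (T - a • (1 : Matrix n n F)) := by
    rw [map_sub, map_smul, toLin'_one]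
    rfl
  rw [e, ← toLin'_pow, toLin'_apply]

theorem isFn_iff (φ : F → F) (T N : Matrix n n F) : IsFn φ T N ↔
    ∀ a, ∀ x ∈ End.maxGenEigenspace (toLin' T) a, N *ᵥ x = φ a • x := by
  constructor
  · intro h a x hx
    rw [End.mem_maxGenEigenspace] at hx
    obtain ⟨k, hk⟩ := hx
    exact h a k x (by rw [pow_vec]; exact hk)
  · intro h a k x hx
    exact h a x ((End.mem_maxGenEigenspace _ _ _).2 ⟨k, by rw [← pow_vec]; exact hx⟩)

/-- the generalized eigenspaces -/
abbrev V (T : Matrix n n F) (a : F) : Submodule F (n → F) := End.maxGenEigenspace (toLin' T) a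

variable [IsAlgClosed F]

theorem hInt [DecidableEq F] (T : Matrix n n F) : DirectSum.IsInternal (V T) :=
  DirectSum.isInternal_submodule_of_iSupIndep_of_iSup_eq_top
    (End.independent_maxGenEigenspace _) (End.iSup_maxGenEigenspace_eq_top _)

theorem span_ind (T : Matrix n n F) {P : (n → F) → Prop} (h0 : P 0)
    (hadd : ∀ x y, P x → P y → P (x + y)) (h : ∀ a, ∀ x ∈ V T a, P x) (x : n → F) : P x := by
  have hx : x ∈ ⨆ a, V T a := by
    rw [End.iSup_maxGenEigenspace_eq_top]
    exact Submodule.mem_top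
  exact Submodule.iSup_induction (V T) (motive := P) hx h h0 hadd

/-- the decomposition -/
noncomputable def e [DecidableEq F] (T : Matrix n n F) : (DirectSum F fun a => V T a) ≃ₗ[F] (n → F) :=
  LinearEquiv.ofBijective (DirectSum.coeLinearMap (V T)) (show Function.Bijective _ from hInt T)

theorem e_lof [DecidableEq F] (T : Matrix n n F) {a : F} (x : V T a) :
    e T (DirectSum.lof F F (fun a => V T a) a x) = x :=
  DirectSum.coeLinearMap_lof (V T) a x

theorem e_symm [DecidableEq F] (T : Matrix n n F) {a : F} {x : n → F} (hx : x ∈ V T a) :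
    (e T).symm x = DirectSum.lof F F (fun a => V T a) a ⟨x, hx⟩ := by
  rw [LinearEquiv.symm_apply_eq]
  exact (e_lof T (⟨x, hx⟩ : V T a)).symm

theorem exists_fn (φ : F → F) (T : Matrix n n F) : ∃ N, IsFn φ T N := by
  classical
  let g : (n → F) →ₗ[F] (n → F) :=
    (DirectSum.toModule F F (n → F) fun a => φ a • (V T a).subtype) ∘ₗ (e T).symm.toLinearMap
  refine ⟨LinearMap.toMatrix' g, ?_⟩
  rw [isFn_iff]
  intro a x hx
  rw [LinearMap.toMatrix'_mulVec]
  show (DirectSum.toModule F F (n → F) fun a => φ a • (V T a).subtype) ((e T).symm x) = _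
  rw [e_symm T hx, DirectSum.toModule_lof]
  rfl

/-- the projections -/
theorem exists_pr (T : Matrix n n F) : ∃ pr : F → (n → F) →ₗ[F] (n → F), (∀ a x, pr a x ∈ V T a) ∧
    (∀ a, ∀ x ∈ V T a, pr a x = x) ∧ (∀ a c, c ≠ a → ∀ x ∈ V T c, pr a x = 0) ∧
    ∀ x, (∀ a, pr a x = 0) → x = 0 := by
  classical
  refine ⟨fun a => (V T a).subtype ∘ₗ DirectSum.component F F (fun a => V T a) a ∘ₗ
    (e T).symm.toLinearMap, ?_, ?_, ?_, ?_⟩
  · intro a x
    exact (DirectSum.component F F (fun a => V T a) a ((e T).symm x)).2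
  · intro a x hx
    show ((DirectSum.component F F (fun a => V T a) a ((e T).symm x) : V T a) : n → F) = x
    rw [e_symm T hx, DirectSum.component.lof_self]
  · intro a c hc x hx
    show ((DirectSum.component F F (fun a => V T a) a ((e T).symm x) : V T a) : n → F) = 0
    rw [e_symm T hx, DirectSum.component.of, dif_neg hc]
    rfl
  · intro x hx
    have h0 : (e T).symm x = 0 := by
      refine DFinsupp.ext fun a => ?_
      apply Subtype.ext
      exact hx a
    rw [← (e T).apply_symm_apply x, h0, map_zero]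

/-- the components of `N x` -/
theorem comp {φ : F → F} {T N : Matrix n n F} (h : IsFn φ T N) {pr : F → (n → F) →ₗ[F] (n → F)}
    (h1 : ∀ a, ∀ x ∈ V T a, pr a x = x) (h2 : ∀ a c, c ≠ a → ∀ x ∈ V T c, pr a x = 0) (x : n → F)
    (a : F) : pr a (N *ᵥ x) = φ a • pr a x := by
  rw [isFn_iff] at h
  refine span_ind T (P := fun x => pr a (N *ᵥ x) = φ a • pr a x) ?_ ?_ ?_ x
  · rw [mulVec_zero, map_zero, smul_zero]
  · intro x y hx hy
    rw [mulVec_add, map_add, map_add, hx, hy, smul_add]
  · intro c x hx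
    rw [h c x hx, map_smul]
    by_cases hc : c = a
    · subst hc; rfl
    · rw [h2 a c hc x hx, smul_zero, smul_zero]

theorem comp_sub {φ : F → F} {T N : Matrix n n F} (h : IsFn φ T N)
    {pr : F → (n → F) →ₗ[F] (n → F)}
    (h1 : ∀ a, ∀ x ∈ V T a, pr a x = x) (h2 : ∀ a c, c ≠ a → ∀ x ∈ V T c, pr a x = 0) (b : F) (k : ℕ)
    (x : n → F) (a : F) :
    pr a (((N - b • (1 : Matrix n n F)) ^ k) *ᵥ x) = (φ a - b) ^ k • pr a x := by
  induction k generalizing x with
  | zero => rw [pow_zero, pow_zero, one_mulVec, one_smul]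
  | succ k ih =>
    rw [pow_succ, ← mulVec_mulVec, ih, sub_mulVec, smul_mulVec, one_mulVec, map_sub, map_smul,
      comp h h1 h2, ← sub_smul, smul_smul, pow_succ]

theorem diag {φ : F → F} {T N : Matrix n n F} (h : IsFn φ T N) (b : F) (k : ℕ) (x : n → F)
    (hx : ((N - b • (1 : Matrix n n F)) ^ k) *ᵥ x = 0) : N *ᵥ x = b • x := by
  obtain ⟨pr, -, h1, h2, h3⟩ := exists_pr T
  rw [← sub_eq_zero]
  apply h3
  intro a
  have h4 := comp_sub h h1 h2 b k x a
  rw [hx, map_zero] at h4
  rw [map_sub, map_smul, comp h h1 h2, ← sub_smul]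
  rcases smul_eq_zero.1 h4.symm with h5 | h5
  · rw [eq_zero_of_pow_eq_zero h5, zero_smul]
  · rw [h5, smul_zero]

theorem eigen {φ : F → F} {T N : Matrix n n F} (h : IsFn φ T N) (b : F) (x : n → F) (hx0 : x ≠ 0)
    (hx : N *ᵥ x = b • x) : ∃ a, T.charpoly.IsRoot a ∧ φ a = b := by
  obtain ⟨pr, h0, h1, h2, h3⟩ := exists_pr T
  obtain ⟨a, ha⟩ : ∃ a, pr a x ≠ 0 := by
    by_contra hcon
    push Not at hcon
    exact hx0 (h3 x hcon)
  refine ⟨a, ?_, ?_⟩
  · have h4 : V T a ≠ ⊥ := by
      intro h4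
      apply ha
      have h5 := h0 a x
      rw [h4, Submodule.mem_bot] at h5
      exact h5
    have h5 : 0 < Module.finrank F (V T a) := by
      rw [Module.finrank_pos_iff]
      exact (Submodule.nontrivial_iff_ne_bot).2 h4
    rw [LinearMap.finrank_maxGenEigenspace_eq, charpoly_toLin',
      Polynomial.rootMultiplicity_pos (charpoly_monic T).ne_zero] at h5
    exact h5
  · have h4 := comp h h1 h2 x a
    rw [hx, map_smul] at h4
    have h5 : (φ a - b) • pr a x = 0 := by
      rw [sub_smul, ← h4, sub_self]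
    rcases smul_eq_zero.1 h5 with h6 | h6
    · exact sub_eq_zero.1 h6
    · exact absurd h6 ha

theorem inter {φ : F → F} {T N : Matrix n n F} (h : IsFn φ T N) {m : Type} [Fintype m] [DecidableEq m]
    {T' N' : Matrix m m F} {M : Matrix m n F} (h' : IsFn φ T' N') (hM : M * T = T' * M) :
    M * N = N' * M := by
  have key : ∀ (a : F) (k : ℕ), M * (T - a • (1 : Matrix n n F)) ^ k =
      (T' - a • (1 : Matrix m m F)) ^ k * M := by
    intro a k
    induction k with
    | zero => rw [pow_zero, pow_zero, Matrix.mul_one, Matrix.one_mul]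
    | succ k ih =>
      rw [pow_succ, ← Matrix.mul_assoc, ih, Matrix.mul_assoc, Matrix.mul_sub, hM, Matrix.mul_smul,
        Matrix.mul_one, pow_succ, Matrix.mul_assoc]
      congr 1
      rw [Matrix.sub_mul, Matrix.smul_mul, Matrix.one_mul]
  have h2 : ∀ x, (M * N) *ᵥ x = (N' * M) *ᵥ x := by
    refine span_ind T ?_ ?_ ?_
    · rw [mulVec_zero, mulVec_zero]
    · intro x y hx hy
      rw [mulVec_add, mulVec_add, hx, hy]
    · intro a x hx
      rw [← mulVec_mulVec, ← mulVec_mulVec, (isFn_iff _ _ _).1 h a x hx, mulVec_smul]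
      rw [End.mem_maxGenEigenspace] at hx
      obtain ⟨k, hk⟩ := hx
      symm
      apply h' a k
      rw [mulVec_mulVec, ← key, ← mulVec_mulVec, pow_vec, hk, mulVec_zero]
  ext i j
  have := congrFun (h2 (Pi.single j 1)) i
  rwa [mulVec_single_one, mulVec_single_one] at this

theorem tr {φ : F → F} {T N : Matrix n n F} (h : IsFn φ T N) :
    N.trace = (T.charpoly.roots.map φ).sum := by
  classical
  rw [isFn_iff] at h
  have hfin : {a | V T a ≠ ⊥}.Finite := WellFoundedGT.finite_ne_bot_of_iSupIndep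
    (End.independent_maxGenEigenspace _)
  have hmaps : ∀ a, Set.MapsTo (toLin' N) (V T a) (V T a) := by
    intro a x hx
    rw [toLin'_apply, h a x hx]
    exact Submodule.smul_mem _ _ hx
  have h1 := LinearMap.trace_eq_sum_trace_restrict' (hInt T) hfin hmaps
  rw [← Matrix.trace_toLin'_eq] at *
  rw [h1, Finset.sum_multiset_map_count]
  have h2 : hfin.toFinset = T.charpoly.roots.toFinset := by
    ext a
    rw [Set.Finite.mem_toFinset, Set.mem_ofPred_eq, Multiset.mem_toFinset,
      Polynomial.mem_roots (charpoly_monic T).ne_zero,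
      ← Polynomial.rootMultiplicity_pos (charpoly_monic T).ne_zero, ← charpoly_toLin',
      ← LinearMap.finrank_maxGenEigenspace_eq, Module.finrank_pos_iff,
      Submodule.nontrivial_iff_ne_bot]
  rw [h2]
  refine Finset.sum_congr rfl fun a _ => ?_
  have h3 : (toLin' N).restrict (hmaps a) = φ a • (1 : End F (V T a)) := by
    refine LinearMap.ext fun x => ?_
    apply Subtype.ext
    show toLin' N (x : n → F) = φ a • (x : n → F)
    rw [toLin'_apply, h a x x.2]
  rw [h3, map_smul, LinearMap.trace_one, LinearMap.finrank_maxGenEigenspace_eq, charpoly_toLin',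
    Polynomial.count_roots, smul_eq_mul, nsmul_eq_mul, mul_comm]

end Fun

/-- **FUN** -/
theorem t_FUN : S_FUN := by
  intro F _ _ n _ _ φ T
  refine ⟨Fun.exists_fn φ T, fun N h => ⟨?_, Fun.tr h, Fun.eigen h, Fun.diag h⟩⟩
  intro m _ _ T' N' M h' hM
  exact Fun.inter h h' hM

end Pool.Agent.NH56.HY
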