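import Pool.Agent.NH56.HY.Stm

/-!
# HY-VAL: the operator of valuations of an ordinary Frobenius element comes from the Lie algebra

By helper89 (project HY of helper56).
-/

set_option autoImplicit false

namespace Pool.Agent.NH56.HY

open Matrix Polynomial Filter Topology NumberField IsDedekindDomain

namespace ValH89

section graded

variable {ι : Type} [Fintype ι] [DecidableEq ι] {F : Type} [Field F] {deg : ι → ℕ}

theorem blk_mul {M : Matrix ι ι F} (hM : IsGraded deg M) (M' : Matrix ι ι F) (j : ℕ) :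
    blk deg j (M * M') = blk deg j M * blk deg j M' := by
  ext a b
  unfold blk
  rw [Matrix.submatrix_apply, Matrix.mul_apply, Matrix.mul_apply]
  have h : ∀ c : ι, c ∉ (Finset.univ.filter fun c => deg c = j) → M a.1 c * M' c b.1 = 0 := by
    intro c hc
    rw [hM a.1 c, zero_mul]
    intro h
    apply hc
    rw [Finset.mem_filter]
    exact ⟨Finset.mem_univ _, by rw [← h]; exact a.2⟩
  rw [← Finset.sum_subset (Finset.subset_univ (Finset.univ.filter fun c => deg c = j))
    (fun c _ hc => h c hc)]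
  rw [Finset.sum_subtype (p := fun c => deg c = j) _ (by intro x; simp)]
  rfl

theorem blk_one (j : ℕ) : blk deg j (1 : Matrix ι ι F) = 1 := by
  ext a b
  unfold blk
  rw [Matrix.submatrix_apply, Matrix.one_apply, Matrix.one_apply]
  simp only [Subtype.ext_iff]

theorem blk_sub (M M' : Matrix ι ι F) (j : ℕ) :
    blk deg j (M - M') = blk deg j M - blk deg j M' := rfl

theorem blk_smul (c : F) (M : Matrix ι ι F) (j : ℕ) :
    blk deg j (c • M) = c • blk deg j M := rfl

theorem graded_one : IsGraded deg (1 : Matrix ι ι F) := by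
  intro a b h
  exact Matrix.one_apply_ne (fun h' => h (by rw [h']))

theorem graded_sub {M M' : Matrix ι ι F} (h : IsGraded deg M) (h' : IsGraded deg M') :
    IsGraded deg (M - M') := by
  intro a b hab
  rw [Matrix.sub_apply, h a b hab, h' a b hab, sub_zero]

theorem graded_smul (c : F) {M : Matrix ι ι F} (h : IsGraded deg M) : IsGraded deg (c • M) := by
  intro a b hab
  rw [Matrix.smul_apply, h a b hab, smul_zero]

theorem graded_mul {M M' : Matrix ι ι F} (h : IsGraded deg M) (h' : IsGraded deg M') :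
    IsGraded deg (M * M') := by
  intro a b hab
  rw [Matrix.mul_apply]
  refine Finset.sum_eq_zero fun c _ => ?_
  by_cases hc : deg a = deg c
  · rw [h' c b (by rw [← hc]; exact hab), mul_zero]
  · rw [h a c hc, zero_mul]

theorem graded_pow {M : Matrix ι ι F} (h : IsGraded deg M) (k : ℕ) : IsGraded deg (M ^ k) := by
  induction k with
  | zero => rw [pow_zero]; exact graded_one
  | succ k ih => rw [pow_succ]; exact graded_mul ih h

theorem blk_pow {M : Matrix ι ι F} (h : IsGraded deg M) (j k : ℕ) :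
    blk deg j (M ^ k) = (blk deg j M) ^ k := by
  induction k with
  | zero => rw [pow_zero, pow_zero, blk_one]
  | succ k ih => rw [pow_succ, pow_succ, blk_mul (graded_pow h k), ih]

theorem graded_iff [CharZero F] (M : Matrix ι ι F) :
    IsGraded deg M ↔ M * Matrix.diagonal (fun a => (deg a : F)) =
      Matrix.diagonal (fun a => (deg a : F)) * M := by
  constructor
  · intro h
    ext a b
    rw [Matrix.mul_diagonal, Matrix.diagonal_mul]
    by_cases hab : deg a = deg b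
    · rw [hab, mul_comm]
    · rw [h a b hab, zero_mul, mul_zero]
  · intro h a b hab
    have h1 := congrFun (congrFun h a) b
    rw [Matrix.mul_diagonal, Matrix.diagonal_mul] at h1
    have h2 : M a b * ((deg b : F) - (deg a : F)) = 0 := by
      rw [mul_sub, h1]; ring
    rcases mul_eq_zero.1 h2 with h3 | h3
    · exact h3
    · exfalso
      apply hab
      rw [sub_eq_zero] at h3
      exact_mod_cast h3.symm

theorem mulVec_blk {M : Matrix ι ι F} (h : IsGraded deg M) (x : ι → F) (j : ℕ)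
    (a : {a // deg a = j}) :
    (M *ᵥ x) a.1 = (blk deg j M *ᵥ (fun b : {a // deg a = j} => x b.1)) a := by
  unfold Matrix.mulVec dotProduct blk
  have h0 : ∀ c : ι, c ∉ (Finset.univ.filter fun c => deg c = j) → M a.1 c * x c = 0 := by
    intro c hc
    rw [h a.1 c, zero_mul]
    intro h
    apply hc
    rw [Finset.mem_filter]
    exact ⟨Finset.mem_univ _, by rw [← h]; exact a.2⟩
  rw [← Finset.sum_subset (Finset.subset_univ (Finset.univ.filter fun c => deg c = j))
    (fun c _ hc => h0 c hc)]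
  rw [Finset.sum_subtype (p := fun c => deg c = j) _ (by intro x; simp)]
  rfl

theorem trace_blk (M : Matrix ι ι F) :
    M.trace = ∑ j ∈ Finset.univ.image deg, (blk deg j M).trace := by
  unfold Matrix.trace
  rw [← Finset.sum_fiberwise_of_maps_to (s := Finset.univ) (t := Finset.univ.image deg) (g := deg)
    (fun i _ => Finset.mem_image_of_mem _ (Finset.mem_univ i))]
  refine Finset.sum_congr rfl fun j _ => ?_
  rw [Finset.sum_subtype (p := fun c => deg c = j) _ (by intro x; simp)]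
  rfl

/-- extension by zero -/
def ex (deg : ι → ℕ) (j : ℕ) (x : {a // deg a = j} → F) (i : ι) : F :=
  if h : deg i = j then x ⟨i, h⟩ else 0

theorem ex_val (j : ℕ) (x : {a // deg a = j} → F) (a : {a // deg a = j}) :
    ex deg j x a.1 = x a := by
  unfold ex
  rw [dif_pos a.2]

theorem mulVec_ex {M : Matrix ι ι F} (h : IsGraded deg M) (j : ℕ) (x : {a // deg a = j} → F) :
    M *ᵥ (ex deg j x) = ex deg j (blk deg j M *ᵥ x) := by
  funext i
  rw [mulVec_blk h (ex deg j x) (deg i) ⟨i, rfl⟩]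
  by_cases hi : deg i = j
  · subst hi
    unfold ex
    rw [dif_pos rfl]
    congr 1
    congr 1
    funext b
    rw [dif_pos b.2]
  · have e : (fun b : {a // deg a = deg i} => ex deg j x b.1) = 0 := by
      funext b
      unfold ex
      rw [dif_neg]
      · rfl
      · rw [b.2]; exact hi
    rw [e, Matrix.mulVec_zero]
    unfold ex
    rw [dif_neg hi]
    rfl

theorem ex_eq_zero {j : ℕ} {x : {a // deg a = j} → F} : ex deg j x = 0 ↔ x = 0 := by
  constructor
  · intro h
    funext a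
    rw [← ex_val (deg := deg) j x a, h]
    rfl
  · intro h
    funext i
    unfold ex
    rw [h]
    split_ifs <;> rfl

theorem ex_smul (j : ℕ) (c : F) (x : {a // deg a = j} → F) :
    ex deg j (c • x) = c • ex deg j x := by
  funext i
  unfold ex
  rw [Pi.smul_apply]
  split_ifs
  · rfl
  · rw [smul_zero]

theorem fn_blk {φ : F → F} {T N : Matrix ι ι F} (hT : IsGraded deg T) (hN : IsGraded deg N)
    (h : IsFn φ T N) (j : ℕ) : IsFn φ (blk deg j T) (blk deg j N) := by
  intro a k x hx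
  have hTa : IsGraded deg (T - a • (1 : Matrix ι ι F)) :=
    graded_sub hT (graded_smul a graded_one)
  have h1 : ((T - a • (1 : Matrix ι ι F)) ^ k) *ᵥ (ex deg j x) = 0 := by
    rw [mulVec_ex (graded_pow hTa k), blk_pow hTa, blk_sub, blk_smul, blk_one, ex_eq_zero]
    exact hx
  have h2 := h a k _ h1
  rw [mulVec_ex hN, ← ex_smul] at h2
  funext b
  have h3 := congrFun h2 b.1
  rwa [ex_val, ex_val] at h3

theorem root_blk {T : Matrix ι ι F} (hT : IsGraded deg T) (j : ℕ) {a : F}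
    (h : (blk deg j T).charpoly.IsRoot a) : T.charpoly.IsRoot a := by
  rw [Polynomial.IsRoot.def, Matrix.eval_charpoly] at h ⊢
  obtain ⟨v, hv0, hv⟩ := Matrix.exists_mulVec_eq_zero_iff.2 h
  rw [← Matrix.exists_mulVec_eq_zero_iff]
  refine ⟨ex deg j v, fun h0 => hv0 (ex_eq_zero.1 h0), ?_⟩
  have hs : ∀ (n : Type) [Fintype n] [DecidableEq n], Matrix.scalar n a = a • (1 : Matrix n n F) :=
    fun n _ _ => by ext i j; simp [Matrix.scalar_apply, Matrix.diagonal_apply, Matrix.one_apply]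
  have hg : IsGraded deg (Matrix.scalar ι a - T) := by
    rw [hs]
    exact graded_sub (graded_smul a graded_one) hT
  rw [mulVec_ex hg, ex_eq_zero, blk_sub, hs ι, blk_smul, blk_one, ← hs]
  exact hv

end graded

/-- the trace of the square of a matrix conjugate to a diagonal matrix -/
theorem trace_conj {n : Type} [Fintype n] [DecidableEq n] (P P' : Matrix n n ℂ) (h : P' * P = 1)
    (d : n → ℂ) : (P * diagonal d * P' * (P * diagonal d * P')).trace = ∑ a, d a ^ 2 := by
  have e : P * diagonal d * P' * (P * diagonal d * P') = P * (diagonal d * diagonal d * P') := by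
    calc P * diagonal d * P' * (P * diagonal d * P') =
        P * diagonal d * (P' * P) * (diagonal d * P') := by simp only [Matrix.mul_assoc]
      _ = _ := by rw [h, Matrix.mul_one]; simp only [Matrix.mul_assoc]
  rw [e, Matrix.trace_mul_comm, Matrix.mul_assoc, h, Matrix.mul_one, Matrix.diagonal_mul_diagonal,
    Matrix.trace_diagonal]
  exact Finset.sum_congr rfl fun a _ => (sq (d a)).symm

theorem sum_sq_shift (M : Multiset ℝ) (t : ℝ) : (M.map fun x => (x - t) ^ 2).sum =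
    (M.map fun x => x ^ 2).sum - 2 * t * M.sum + M.card * t ^ 2 := by
  induction M using Multiset.induction_on with
  | empty => simp
  | cons a s ih =>
    rw [Multiset.map_cons, Multiset.sum_cons, ih, Multiset.map_cons, Multiset.sum_cons,
      Multiset.sum_cons, Multiset.card_cons]
    push_cast
    ring

theorem cast_sum (M : Multiset ℂ) (f : ℂ → ℝ) :
    (M.map fun a => ((f a : ℝ) : ℂ)).sum = (((M.map f).sum : ℝ) : ℂ) := by
  induction M using Multiset.induction_on with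
  | empty => simp
  | cons a s ih =>
    rw [Multiset.map_cons, Multiset.sum_cons, ih, Multiset.map_cons, Multiset.sum_cons]
    push_cast
    ring

end ValH89

open ValH89 in
theorem t_VAL : S_FUN → S_ADJ → S_MAJ → S_BAS → S_PER → S_NDG → S_RIG → S_VAL := by
  intro hFUN hADJ hMAJ hBAS hPER hNDG hRIG
  intro ι _ _ X hX T T' N φ A μ hTT hgT hA hroots hAμ hφμ hq hequiv hLA h2 hN
  obtain ⟨hadd, hsmul, hmap, hself, -, hbr, hgr, hnat, c, htr⟩ := hBAS ι X hX ℂ
  have hHd : X.H ℂ = Matrix.diagonal fun a => (X.deg a : ℂ) := rfl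
  have hgH : ∀ {M : Matrix ι ι ℂ}, IsGraded X.deg M ↔ M * X.H ℂ = X.H ℂ * M :=
    fun {M} => graded_iff M
  have hgHH : IsGraded X.deg (X.H ℂ) := hgH.2 rfl
  -- inverse
  have hT'T : T' * T = 1 := mul_eq_one_comm.1 hTT
  have hgT' : IsGraded X.deg T' := by
    rw [hgH]
    have h1 := hgH.1 hgT
    calc T' * X.H ℂ = T' * (X.H ℂ * T) * T' := by
          rw [Matrix.mul_assoc, Matrix.mul_assoc, hTT, Matrix.mul_one]
      _ = T' * (T * X.H ℂ) * T' := by rw [h1]
      _ = X.H ℂ * T' := by rw [← Matrix.mul_assoc, hT'T, Matrix.one_mul]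
  -- `N` is graded
  obtain ⟨-, hFN⟩ := hFUN ℂ ι (fun a => ((φ a : ℝ) : ℂ)) T
  obtain ⟨hint, -, -, -⟩ := hFN N hN
  have hgN : IsGraded X.deg N := by
    rw [hgH]
    exact (hint ι T N (X.H ℂ) hN (hgH.1 hgT).symm).symm
  have hfj : ∀ j, IsFn (fun a => ((φ a : ℝ) : ℂ)) (blk X.deg j T) (blk X.deg j N) :=
    fun j => fn_blk hgT hgN hN j
  set T₂ := blk X.deg 2 T with hT₂
  set T₂' := blk X.deg 2 T' with hT₂'
  set N₂ := blk X.deg 2 N with hN₂
  set q := X.qF ℂ with hqdef
  have hTT₂ : T₂ * T₂' = 1 := by rw [hT₂, hT₂', ← blk_mul hgT, hTT, blk_one]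
  have hTT₂' : T₂' * T₂ = 1 := mul_eq_one_comm.1 hTT₂
  have hroots₂ : ∀ a, T₂.charpoly.IsRoot a → A a := fun a ha => hroots a (root_blk hgT 2 ha)
  -- (a)
  obtain ⟨-, -, hadj3, -⟩ := hADJ ℂ A _ hA _ T₂ T₂' N₂ hTT₂ hroots₂ (hfj 2)
  have hskN : N₂ᵀ * q + q * N₂ = (2 : ℂ) • q := by
    have h := hadj3 q μ hq hAμ
    rw [h, hφμ]
    norm_num
  set n' := N₂ - 1 with hn'
  have hskn : X.IsSkew ℂ n' := by
    unfold Coh.IsSkew
    rw [hn', Matrix.transpose_sub, Matrix.transpose_one, Matrix.sub_mul, Matrix.mul_sub,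
      Matrix.one_mul, Matrix.mul_one]
    have e : N₂ᵀ * X.qF ℂ - X.qF ℂ + (X.qF ℂ * N₂ - X.qF ℂ) =
        (N₂ᵀ * q + q * N₂) - (2 : ℂ) • q := by
      rw [two_smul, hqdef]; abel
    rw [e, hskN, sub_self]
  -- symmetry of the form
  have hqT : qᵀ = q := by
    rw [hqdef]
    unfold Coh.qF
    rw [← Matrix.transpose_map, hX.symm]
  have hqu : IsUnit q.det := by
    rw [hqdef]
    unfold Coh.qF
    rw [← RingHom.mapMatrix_apply, ← RingHom.map_det]
    exact (hX.nondeg.isUnit).map _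
  have hqq : q * q⁻¹ = 1 := Matrix.mul_nonsing_inv q hqu
  have hqq' : q⁻¹ * q = 1 := Matrix.nonsing_inv_mul q hqu
  -- (b)
  have hTq : T₂ᵀ * q = μ • (q * T₂') := by
    calc T₂ᵀ * q = T₂ᵀ * q * T₂ * T₂' := by
          rw [Matrix.mul_assoc (T₂ᵀ * q), hTT₂, Matrix.mul_one]
      _ = _ := by rw [hq, Matrix.smul_mul]
  have hqTt : q * T₂ = μ • (T₂'ᵀ * q) := by
    have h1 : T₂'ᵀ * T₂ᵀ = 1 := by rw [← Matrix.transpose_mul, hTT₂, Matrix.transpose_one]
    calc q * T₂ = T₂'ᵀ * T₂ᵀ * (q * T₂) := by rw [h1, Matrix.one_mul]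
      _ = T₂'ᵀ * (T₂ᵀ * q * T₂) := by simp only [Matrix.mul_assoc]
      _ = _ := by rw [hq, Matrix.mul_smul]
  have hall : ∀ x, T * X.δF ℂ x * T' = X.δF ℂ (T₂ * x * T₂') := by
    intro x
    set xs := q⁻¹ * xᵀ * q with hxs
    have e1 : xsᵀ * q = q * x := by
      rw [hxs, Matrix.transpose_mul, Matrix.transpose_mul, Matrix.transpose_transpose, hqT,
        Matrix.transpose_nonsing_inv, hqT]
      rw [Matrix.mul_assoc, Matrix.mul_assoc, hqq', Matrix.mul_one]
    have e2 : q * xs = xᵀ * q := by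
      rw [hxs, ← Matrix.mul_assoc, ← Matrix.mul_assoc, hqq, Matrix.one_mul]
    set y := (2 : ℂ)⁻¹ • (x - xs) with hy
    set z := (2 : ℂ)⁻¹ • (x + xs) with hz
    have hxyz : x = y + z := by
      rw [hy, hz, ← smul_add, sub_add_add_cancel, ← two_smul ℂ x, smul_smul]
      norm_num
    have hysk : X.IsSkew ℂ y := by
      unfold Coh.IsSkew
      rw [hy, Matrix.transpose_smul, Matrix.transpose_sub, Matrix.smul_mul, Matrix.mul_smul,
        Matrix.sub_mul, Matrix.mul_sub, ← hqdef, e1, e2, ← smul_add]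
      have : xᵀ * q - q * x + (q * x - xᵀ * q) = 0 := by abel
      rw [this, smul_zero]
    have hzsa : zᵀ * q = q * z := by
      rw [hz, Matrix.transpose_smul, Matrix.transpose_add, Matrix.smul_mul, Matrix.mul_smul,
        Matrix.add_mul, Matrix.mul_add, e1, e2, add_comm]
    have hTz : (T₂ * z * T₂')ᵀ * q = q * (T₂ * z * T₂') := by
      calc (T₂ * z * T₂')ᵀ * q = T₂'ᵀ * zᵀ * (T₂ᵀ * q) := by
            rw [Matrix.transpose_mul, Matrix.transpose_mul]
            simp only [Matrix.mul_assoc]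
        _ = T₂'ᵀ * (zᵀ * q) * (μ • T₂') := by
            rw [hTq]
            simp only [Matrix.mul_assoc, Matrix.mul_smul]
        _ = (μ • (T₂'ᵀ * q)) * z * T₂' := by
            rw [hzsa]
            simp only [Matrix.mul_assoc, Matrix.mul_smul, Matrix.smul_mul]
        _ = _ := by rw [← hqTt]; simp only [Matrix.mul_assoc]
    have hz0 : X.δF ℂ z = 0 := hself z hzsa
    have hTz0 : X.δF ℂ (T₂ * z * T₂') = 0 := hself _ hTz
    have h3 : X.δF ℂ x = X.δF ℂ y := by rw [hxyz, hadd, hz0, add_zero]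
    have h4 : X.δF ℂ (T₂ * x * T₂') = X.δF ℂ (T₂ * y * T₂') := by
      rw [hxyz, Matrix.mul_add, Matrix.add_mul, hadd, hTz0, add_zero]
    rw [h3, h4]
    exact hequiv y hysk
  let d : Matrix {a // X.deg a = 2} {a // X.deg a = 2} ℂ →ₗ[ℂ] Matrix ι ι ℂ :=
    { toFun := X.δF ℂ
      map_add' := hadd
      map_smul' := hsmul }
  obtain ⟨-, hadj2, -, -⟩ := hADJ ℂ A _ hA _ T T' N hTT hroots hN
  have hNd : ∀ x, N * X.δF ℂ x - X.δF ℂ x * N = X.δF ℂ (N₂ * x - x * N₂) :=
    fun x => hadj2 _ T₂ T₂' N₂ d hTT₂ hroots₂ (hfj 2) hall x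
  -- (c)
  have hnd : ∀ x, X.δF ℂ n' * X.δF ℂ x - X.δF ℂ x * X.δF ℂ n' = X.δF ℂ (N₂ * x - x * N₂) := by
    intro x
    rw [← hbr n' x hskn, hn', Matrix.sub_mul, Matrix.mul_sub, Matrix.one_mul, Matrix.mul_one]
    congr 1
    abel
  set Z := N - (2 : ℂ)⁻¹ • X.H ℂ - X.δF ℂ n' with hZ
  have hHx : ∀ x, X.H ℂ * X.δF ℂ x = X.δF ℂ x * X.H ℂ := fun x => (hgH.1 (hgr x)).symm
  have hZx : ∀ x, Z * X.δF ℂ x = X.δF ℂ x * Z := by
    intro x
    rw [hZ, Matrix.sub_mul, Matrix.sub_mul, Matrix.mul_sub, Matrix.mul_sub, Matrix.smul_mul,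
      Matrix.mul_smul, hHx]
    have h3 := hNd x
    have h4 := hnd x
    have h5 : N * X.δF ℂ x = X.δF ℂ (N₂ * x - x * N₂) + X.δF ℂ x * N := by rw [← h3]; abel
    have h6 : X.δF ℂ n' * X.δF ℂ x = X.δF ℂ (N₂ * x - x * N₂) + X.δF ℂ x * X.δF ℂ n' := by
      rw [← h4]; abel
    rw [h5, h6]
    abel
  have hgZ : IsGraded X.deg Z := graded_sub (graded_sub hgN (graded_smul _ hgHH)) (hgr n')
  have hCom : X.Com ℂ Z := by
    refine ⟨fun x => ?_, hgH.1 hgZ⟩
    rw [← hmap x]
    exact hZx _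
  -- (d)
  set N' := N - (2 : ℂ)⁻¹ • X.H ℂ with hN'
  have hNYZ : N' = X.δF ℂ n' + Z := by rw [hZ]; abel
  have hgN' : IsGraded X.deg N' := graded_sub hgN (graded_smul _ hgHH)
  have hperZ := hPER ι X hX ℂ Z hCom
  have htr1 : (N' * N').trace = (algebraMap ℚ ℂ c) * (n' * n').trace + (Z * Z).trace := by
    rw [hNYZ, Matrix.add_mul, Matrix.mul_add, Matrix.mul_add, Matrix.trace_add, Matrix.trace_add,
      Matrix.trace_add, htr n' n' hskn hskn, ← hperZ.1 n', hperZ.2 n']
    ring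
  -- (e)
  have hshift : ∀ (j : ℕ) (t : ℝ), IsFn (fun a => (((φ a - t) ^ 2 : ℝ) : ℂ)) (blk X.deg j T)
      ((blk X.deg j N - (t : ℂ) • 1) * (blk X.deg j N - (t : ℂ) • 1)) := by
    intro j t a k x hx
    have h3 := hfj j a k x hx
    have h4 : (blk X.deg j N - (t : ℂ) • (1 : Matrix _ _ ℂ)) *ᵥ x = (((φ a - t : ℝ)) : ℂ) • x := by
      rw [Matrix.sub_mulVec, h3, Matrix.smul_mulVec, Matrix.one_mulVec, ← sub_smul]
      push_cast
      rfl
    rw [← Matrix.mulVec_mulVec, h4, Matrix.mulVec_smul, h4, smul_smul]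
    congr 1
    push_cast
    ring
  have htrj : ∀ (j : ℕ) (t : ℝ),
      ((blk X.deg j N - (t : ℂ) • 1) * (blk X.deg j N - (t : ℂ) • 1)).trace =
      (((((blk X.deg j T).charpoly.roots.map fun a => (φ a - t) ^ 2).sum : ℝ)) : ℂ) := by
    intro j t
    obtain ⟨-, hF⟩ := hFUN ℂ _ (fun a => (((φ a - t) ^ 2 : ℝ) : ℂ)) (blk X.deg j T)
    obtain ⟨-, h3, -, -⟩ := hF _ (hshift j t)
    rw [h3, cast_sum]
  have htrn : (n' * n').trace = 2 := by
    have h3 := htrj 2 1
    rw [h2] at h3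
    have e : n' = blk X.deg 2 N - ((1 : ℝ) : ℂ) • 1 := by
      rw [hn', hN₂, Complex.ofReal_one, one_smul]
    rw [e, h3]
    norm_num
  -- (f)
  have hblkH : ∀ j, blk X.deg j (X.H ℂ) = (j : ℂ) • 1 := by
    intro j
    ext a b
    unfold blk
    rw [hHd, Matrix.submatrix_apply, Matrix.smul_apply, Matrix.one_apply, Matrix.diagonal_apply]
    by_cases hab : a = b
    · subst hab
      rw [if_pos rfl, if_pos rfl, a.2]
      simp
    · rw [if_neg hab, if_neg (fun h => hab (Subtype.ext h)), smul_zero]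
  have hblkN' : ∀ j, blk X.deg j N' = blk X.deg j N - (((j : ℝ) / 2 : ℝ) : ℂ) • 1 := by
    intro j
    rw [hN', blk_sub, blk_smul, hblkH, smul_smul]
    congr 2
    push_cast
    ring
  have htrN' : (N' * N').trace = (((∑ j ∈ Finset.univ.image X.deg,
      ((blk X.deg j T).charpoly.roots.map fun a => (φ a - (j : ℝ) / 2) ^ 2).sum : ℝ)) : ℂ) := by
    rw [trace_blk (deg := X.deg) (N' * N')]
    push_cast
    refine Finset.sum_congr rfl fun j _ => ?_
    rw [blk_mul hgN', hblkN', htrj j ((j : ℝ) / 2)]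
  have hle : ∀ j, ((blk X.deg j T).charpoly.roots.map fun a => (φ a - (j : ℝ) / 2) ^ 2).sum ≤
      ∑ a ∈ Finset.univ.filter (fun a => X.deg a = j), ((X.hdg a : ℝ) - (X.deg a : ℝ) / 2) ^ 2 := by
    intro j
    have h3 := hLA j
    have h4 := hMAJ _ _ h3
    obtain ⟨h5, h6, -⟩ := h3
    have h7 := sum_sq_shift ((blk X.deg j T).charpoly.roots.map φ) ((j : ℝ) / 2)
    have h8 := sum_sq_shift (X.hodge j) ((j : ℝ) / 2)
    rw [Multiset.map_map] at h7
    have h9 : ((blk X.deg j T).charpoly.roots.map fun a => (φ a - (j : ℝ) / 2) ^ 2).sum ≤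
        ((X.hodge j).map fun x => (x - (j : ℝ) / 2) ^ 2).sum := by
      have e1 : ((blk X.deg j T).charpoly.roots.map fun a => (φ a - (j : ℝ) / 2) ^ 2).sum =
        ((blk X.deg j T).charpoly.roots.map ((fun x => (x - (j : ℝ) / 2) ^ 2) ∘ φ)).sum := rfl
      rw [e1, h7, h8, h5, h6]
      linarith
    refine h9.trans (le_of_eq ?_)
    unfold Coh.hodge
    rw [Multiset.map_map]
    change ∑ a ∈ Finset.univ.filter (fun a => X.deg a = j), ((X.hdg a : ℝ) - (j : ℝ) / 2) ^ 2 = _
    refine Finset.sum_congr rfl fun a ha => ?_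
    rw [(Finset.mem_filter.1 ha).2]
  -- the Hodge operator
  have hPdet : IsUnit X.P.det := (Matrix.isUnit_iff_isUnit_det _).1 hX.basis.1
  have hPP : X.P * X.P⁻¹ = 1 := Matrix.mul_nonsing_inv _ hPdet
  have hPP' : X.P⁻¹ * X.P = 1 := Matrix.nonsing_inv_mul _ hPdet
  have hgP := hX.basis.2
  have hgP' : IsGraded X.deg X.P⁻¹ := by
    rw [hgH]
    have h1 := hgH.1 hgP
    calc X.P⁻¹ * X.H ℂ = X.P⁻¹ * (X.H ℂ * X.P) * X.P⁻¹ := by
          rw [Matrix.mul_assoc, Matrix.mul_assoc, hPP, Matrix.mul_one]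
      _ = X.P⁻¹ * (X.P * X.H ℂ) * X.P⁻¹ := by rw [h1]
      _ = X.H ℂ * X.P⁻¹ := by rw [← Matrix.mul_assoc, hPP', Matrix.one_mul]
  set D' := X.D - (2 : ℂ)⁻¹ • X.H ℂ with hD'
  have hD'd : D' = X.P * Matrix.diagonal (fun a => (((X.hdg a : ℝ) - (X.deg a : ℝ) / 2 : ℝ) : ℂ)) *
      X.P⁻¹ := by
    have e1 : X.H ℂ = X.P * X.H ℂ * X.P⁻¹ := by
      rw [hgH.1 hgP, Matrix.mul_assoc, hPP, Matrix.mul_one]
    have e2 : Matrix.diagonal (fun a => (((X.hdg a : ℝ) - (X.deg a : ℝ) / 2 : ℝ) : ℂ)) =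
        Matrix.diagonal (fun a => (X.hdg a : ℂ)) - (2 : ℂ)⁻¹ • X.H ℂ := by
      rw [hHd, ← Matrix.diagonal_smul, Matrix.diagonal_sub]
      congr 1
      funext a
      rw [Pi.smul_apply, smul_eq_mul]
      push_cast
      ring
    rw [e2, Matrix.mul_sub, Matrix.sub_mul, Matrix.mul_smul, Matrix.smul_mul, ← e1, hD']
    rfl
  have htrD : (D' * D').trace = (((∑ a, ((X.hdg a : ℝ) - (X.deg a : ℝ) / 2) ^ 2 : ℝ)) : ℂ) := by
    rw [hD'd, trace_conj X.P X.P⁻¹ hPP']
    push_cast
    rfl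
  obtain ⟨hsk, hver⟩ := hX.verbitsky
  have hD'v : D' = X.δF ℂ (blk X.deg 2 X.D - 1) := by
    rw [hD']
    nth_rewrite 1 [hver]
    abel
  have hd2 : blk X.deg 2 X.D - 1 = blk X.deg 2 X.P *
      Matrix.diagonal (fun a : {a // X.deg a = 2} => (((X.hdg a.1 : ℝ) - 1 : ℝ) : ℂ)) *
      blk X.deg 2 X.P⁻¹ := by
    have hgd : IsGraded X.deg (Matrix.diagonal (fun a => (X.hdg a : ℂ))) := by
      intro a b hab
      exact Matrix.diagonal_apply_ne _ (fun h => hab (by rw [h]))
    have e1 : blk X.deg 2 X.D = blk X.deg 2 X.P *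
        blk X.deg 2 (Matrix.diagonal (fun a => (X.hdg a : ℂ))) * blk X.deg 2 X.P⁻¹ := by
      unfold Coh.D
      rw [blk_mul (graded_mul hgP hgd), blk_mul hgP]
    have e2 : Matrix.diagonal (fun a : {a // X.deg a = 2} => (((X.hdg a.1 : ℝ) - 1 : ℝ) : ℂ)) =
        blk X.deg 2 (Matrix.diagonal (fun a => (X.hdg a : ℂ))) - 1 := by
      ext a b
      rw [Matrix.sub_apply]
      unfold blk
      rw [Matrix.submatrix_apply, Matrix.diagonal_apply, Matrix.diagonal_apply, Matrix.one_apply]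
      by_cases hab : a = b
      · subst hab
        rw [if_pos rfl, if_pos rfl, if_pos rfl]
        push_cast
        ring
      · rw [if_neg hab, if_neg hab, if_neg (fun h => hab (Subtype.ext h)), sub_zero]
    have e3 : blk X.deg 2 X.P * blk X.deg 2 X.P⁻¹ = 1 := by
      rw [← blk_mul hgP, hPP, blk_one]
    rw [e2, Matrix.mul_sub, Matrix.sub_mul, Matrix.mul_one, e3, ← e1]
  have htrd : ((blk X.deg 2 X.D - 1) * (blk X.deg 2 X.D - 1)).trace = 2 := by
    have e3 : blk X.deg 2 X.P⁻¹ * blk X.deg 2 X.P = 1 := by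
      rw [← blk_mul hgP', hPP', blk_one]
    rw [hd2, trace_conj _ _ e3]
    have h3 : ((X.hodge 2).map fun x => (x - 1) ^ 2).sum = 2 := by
      rw [hX.hodge_two]
      simp only [Multiset.map_cons, Multiset.sum_cons, Multiset.map_replicate,
        Multiset.sum_replicate]
      norm_num
    have h4 : ((X.hodge 2).map fun x => (x - 1) ^ 2).sum =
        ∑ a : {a // X.deg a = 2}, ((X.hdg a.1 : ℝ) - 1) ^ 2 := by
      unfold Coh.hodge
      rw [Multiset.map_map]
      change ∑ a ∈ Finset.univ.filter (fun a => X.deg a = 2), ((X.hdg a : ℝ) - 1) ^ 2 = _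
      rw [Finset.sum_subtype (p := fun c => X.deg c = 2) _ (by intro x; simp)]
    have h5 : (((∑ a : {a // X.deg a = 2}, ((X.hdg a.1 : ℝ) - 1) ^ 2 : ℝ)) : ℂ) = 2 := by
      rw [← h4, h3]
      norm_num
    rw [← h5]
    push_cast
    rfl
  have h2c : ((∑ a, ((X.hdg a : ℝ) - (X.deg a : ℝ) / 2) ^ 2 : ℝ)) = 2 * (c : ℝ) := by
    have h3 := htr _ _ hsk hsk
    rw [← hD'v, htrD, htrd] at h3
    have h4 : (algebraMap ℚ ℂ c) * 2 = ((2 * (c : ℝ) : ℝ) : ℂ) := by
      rw [eq_ratCast]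
      push_cast
      ring
    rw [h4] at h3
    exact_mod_cast h3
  -- (g)
  have hZZ : (Z * Z).trace.re ≤ 0 := by
    have h3 : (Z * Z).trace = (N' * N').trace - (algebraMap ℚ ℂ c) * 2 := by
      rw [htr1, htrn]; ring
    have h4 : (algebraMap ℚ ℂ c) * 2 = ((2 * (c : ℝ) : ℝ) : ℂ) := by
      rw [eq_ratCast]
      push_cast
      ring
    rw [h3, htrN', h4, ← Complex.ofReal_sub, Complex.ofReal_re, ← h2c, sub_nonpos]
    refine (Finset.sum_le_sum fun j _ => hle j).trans (le_of_eq ?_)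
    exact Finset.sum_fiberwise_of_maps_to (s := Finset.univ) (t := Finset.univ.image X.deg)
      (g := X.deg) (fun i _ => Finset.mem_image_of_mem _ (Finset.mem_univ i)) _
  -- rigidity
  have hreal : IsFn (fun a => ((a.re : ℝ) : ℂ)) N' (X.δF ℂ n' + Z) := by
    rw [← hNYZ]
    intro b k x hx
    funext i
    have hgNb : IsGraded X.deg (N' - b • (1 : Matrix ι ι ℂ)) :=
      graded_sub hgN' (graded_smul b graded_one)
    set j := X.deg i with hj
    set xj : {a // X.deg a = j} → ℂ := fun a => x a.1 with hxj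
    have h3 : ((blk X.deg j N - (b + (((j : ℝ) / 2 : ℝ) : ℂ)) • (1 : Matrix _ _ ℂ)) ^ k) *ᵥ xj = 0 := by
      have e : blk X.deg j N - (b + (((j : ℝ) / 2 : ℝ) : ℂ)) • (1 : Matrix _ _ ℂ) =
          blk X.deg j (N' - b • (1 : Matrix ι ι ℂ)) := by
        rw [blk_sub, blk_smul, blk_one, hblkN', add_smul]
        abel
      rw [e, ← blk_pow hgNb]
      funext a
      rw [hxj, ← mulVec_blk (graded_pow hgNb k), hx]
      rfl
    obtain ⟨-, hF⟩ := hFUN ℂ _ (fun a => ((φ a : ℝ) : ℂ)) (blk X.deg j T)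
    obtain ⟨-, -, h5, h6⟩ := hF _ (hfj j)
    have h7 := h6 _ k xj h3
    have h8 : (blk X.deg j N' *ᵥ xj) = b • xj := by
      rw [hblkN', Matrix.sub_mulVec, h7, Matrix.smul_mulVec, Matrix.one_mulVec, ← sub_smul]
      congr 1
      ring
    rw [mulVec_blk hgN' x j ⟨i, rfl⟩, h8, Pi.smul_apply, Pi.smul_apply]
    by_cases hx0 : xj = 0
    · have : x i = 0 := congrFun hx0 ⟨i, rfl⟩
      rw [hx0, this]
      simp
    · obtain ⟨a, -, ha⟩ := h5 _ xj hx0 h7
      have hb : b = ((b.re : ℝ) : ℂ) := by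
        have h9 : b = (((φ a - (j : ℝ) / 2 : ℝ)) : ℂ) := by
          have h10 : ((φ a : ℝ) : ℂ) = b + (((j : ℝ) / 2 : ℝ) : ℂ) := ha
          push_cast at h10 ⊢
          rw [h10]; ring
        rw [h9, Complex.ofReal_re]
      show b • xj ⟨i, rfl⟩ = ((b.re : ℝ) : ℂ) • x i
      rw [← hb]
  have hfin := hRIG ι ((Set.range fun x => (X.δ x).map (algebraMap ℚ ℂ)) ∪ {X.H ℂ})
    (by
      intro B hB hBB
      have hCB : X.Com ℂ B := ⟨fun x => hB _ (Or.inl ⟨x, rfl⟩), hB _ (Or.inr rfl)⟩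
      refine (hNDG ι X hX ℂ B hCB).2 fun B' hB' => ?_
      apply hBB
      have hHm : (X.H ℚ).map (algebraMap ℚ ℂ) = X.H ℂ := by
        unfold Coh.H
        rw [Matrix.diagonal_map (map_zero _)]
        congr 1
      rintro g (⟨x, rfl⟩ | hg)
      · have h3 := hB'.1 x
        have e : (X.δ x).map (@algebraMap ℚ ℚ _ _ DivisionRing.toRatAlgebra) = X.δ x := by
          ext a b
          simp only [Matrix.map_apply, eq_ratCast, Rat.cast_id]
        rw [e] at h3
        have h4 := congrArg (fun M : Matrix ι ι ℚ => M.map (algebraMap ℚ ℂ)) h3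
        simpa [Matrix.map_mul] using h4
      · rw [Set.mem_singleton_iff] at hg
        rw [hg, ← hHm]
        have h4 := congrArg (fun M : Matrix ι ι ℚ => M.map (algebraMap ℚ ℂ)) hB'.2
        simpa [Matrix.map_mul] using h4)
    (X.δF ℂ n') Z N' (fun a => a.re)
    (by
      rintro g (⟨x, rfl⟩ | hg)
      · exact hCom.1 x
      · rw [Set.mem_singleton_iff] at hg
        rw [hg]
        exact hCom.2)
    (by
      intro B hB
      have hCB : X.Com ℂ B := ⟨fun x => hB _ (Or.inl ⟨x, rfl⟩), hB _ (Or.inr rfl)⟩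
      have h3 := hPER ι X hX ℂ B hCB
      exact ⟨(h3.1 n').symm, h3.2 n'⟩)
    hreal hZZ
  rw [hfin, add_zero] at hNYZ
  rw [← hNYZ, hN']
  abel

end Pool.Agent.NH56.HY
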