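import Pool.Agent.NH56.HY.Def

/-!
# The Mumford-Tate conjecture for the full cohomology of hyper-Kähler varieties: statements of the parts
-/

set_option autoImplicit false

namespace Pool.Agent.NH56.HY

open Matrix Polynomial Filter Topology NumberField IsDedekindDomain

/-! ### Notions used in the proof -/

/-- `N` is the function `φ` of the matrix `T`: it acts as `φ a` on the generalized eigenspace of `T` for
the eigenvalue `a` -/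
def IsFn {F n : Type} [Field F] [Fintype n] [DecidableEq n] (φ : F → F) (T N : Matrix n n F) : Prop :=
  ∀ (a : F) (k : ℕ) (x : n → F), ((T - a • (1 : Matrix n n F)) ^ k) *ᵥ x = 0 → N *ᵥ x = φ a • x

/-- `φ` is additive on the group of the numbers `x` with `A x` -/
structure IsAdd {F : Type} [Field F] (A : F → Prop) (φ : F → F) : Prop where
  one : A 1
  mul : ∀ x y, A x → A y → A (x * y)
  inv : ∀ x, A x → A x⁻¹
  ne : ∀ x, A x → x ≠ 0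
  map : ∀ x y, A x → A y → φ (x * y) = φ x + φ y

/-- conjugation `B ↦ M * B * M'` (with `M'` the inverse of `M`) as a linear map on matrices -/
def cj {F n : Type} [Field F] [Fintype n] [DecidableEq n] (M M' : Matrix n n F) :
    Module.End F (Matrix n n F) :=
  (LinearMap.mulLeft F M).comp (LinearMap.mulRight F M')

/-- the function of a complex number `z` which is `u a` if `z = s a` (and `0` if there is no `a`) -/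
noncomputable def lg (s : AlgebraicClosure ℚ →+* ℂ) (u : AlgebraicClosure ℚ → ℝ) (z : ℂ) : ℝ :=
  open scoped Classical in if h : ∃ a, s a = z then u h.choose else 0

/-- `z` is the image of a nonzero algebraic number -/
def Al (s : AlgebraicClosure ℚ →+* ℂ) (z : ℂ) : Prop := ∃ a, a ≠ 0 ∧ s a = z

namespace Coh

variable {ι : Type} [Fintype ι] [DecidableEq ι] (X : Coh ι) (F : Type) [Field F] [CharZero F]

/-- `B` commutes with the action of `so(q)` and preserves the degree -/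
def Com (B : Matrix ι ι F) : Prop :=
  (∀ x, B * (X.δ x).map (algebraMap ℚ F) = (X.δ x).map (algebraMap ℚ F) * B) ∧
    B * X.H F = X.H F * B

/-- the action of the Lie algebra `gso(q)`: the scalar `1` acts as half of the degree -/
noncomputable def δt (x : Matrix {a // X.deg a = 2} {a // X.deg a = 2} F) : Matrix ι ι F :=
  X.δF F x + (x.trace / (2 * (Fintype.card {a // X.deg a = 2} : F))) • X.H F

end Coh

/-- the elements of the Galois group which are close to `1` -/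
def Near {Γ : Type} [Group Γ] {ℓ : ℕ} [Fact ℓ.Prime] {n : Type} [Fintype n] [DecidableEq n]
    (χ : Γ →* ℚ_[ℓ]) (ρ : Γ →* Matrix n n ℚ_[ℓ]) : Set Γ :=
  {g | (∀ i j, ‖(ρ g - 1) i j‖ ≤ ((ℓ : ℝ) ^ 2)⁻¹) ∧ ‖χ g - 1‖ ≤ ((ℓ : ℝ) ^ 2)⁻¹}

/-- no open subgroup acts by products of scalars `χ` and unipotent matrices -/
def NonUnip {K : Type} [Field K] {ℓ : ℕ} [Fact ℓ.Prime] {n : Type} [Fintype n] [DecidableEq n]
    (χ : GK K →* ℚ_[ℓ]) (ρ : GK K → Matrix n n ℚ_[ℓ]) : Prop :=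
  ∀ W : Subgroup (GK K), IsOpen (W : Set (GK K)) →
    ∃ g ∈ W, ¬ IsNilpotent (ρ g - χ g • (1 : Matrix n n ℚ_[ℓ]))

/-! ### Linear algebra -/

/-- **FUN**: functions of matrices -/
def S_FUN : Prop := ∀ (F : Type) [Field F] [IsAlgClosed F] (n : Type) [Fintype n] [DecidableEq n]
  (φ : F → F) (T : Matrix n n F),
  (∃ N, IsFn φ T N) ∧
  ∀ N, IsFn φ T N →
    (∀ (m : Type) [Fintype m] [DecidableEq m] (T' N' : Matrix m m F) (M : Matrix m n F),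
      IsFn φ T' N' → M * T = T' * M → M * N = N' * M) ∧
    N.trace = (T.charpoly.roots.map φ).sum ∧
    (∀ (b : F) (x : n → F), x ≠ 0 → N *ᵥ x = b • x → ∃ a, T.charpoly.IsRoot a ∧ φ a = b) ∧
    (∀ (b : F) (k : ℕ) (x : n → F), ((N - b • (1 : Matrix n n F)) ^ k) *ᵥ x = 0 → N *ᵥ x = b • x)

/-- **ADJ**: additive functions and conjugation -/
def S_ADJ : Prop := ∀ (F : Type) [Field F] [IsAlgClosed F] [CharZero F] (A : F → Prop) (φ : F → F),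
  IsAdd A φ → ∀ (n : Type) [Fintype n] [DecidableEq n] (T T' N : Matrix n n F),
  T * T' = 1 → (∀ a, T.charpoly.IsRoot a → A a) → IsFn φ T N →
  (∀ (t : F) (B : Matrix n n F), B ≠ 0 → T * B = t • (B * T) → A t ∧ N * B - B * N = φ t • B) ∧
  (∀ (m : Type) [Fintype m] [DecidableEq m] (T₂ T₂' N₂ : Matrix m m F)
    (d : Matrix m m F →ₗ[F] Matrix n n F), T₂ * T₂' = 1 → (∀ a, T₂.charpoly.IsRoot a → A a) →
    IsFn φ T₂ N₂ → (∀ x, T * d x * T' = d (T₂ * x * T₂')) →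
    ∀ x, N * d x - d x * N = d (N₂ * x - x * N₂)) ∧
  (∀ (q : Matrix n n F) (μ : F), Tᵀ * q * T = μ • q → A μ → Nᵀ * q + q * N = φ μ • q) ∧
  (∀ e : Matrix n n F, e * e = e → e * T = T * e →
    A (T * e + (1 - e)).det ∧ φ (T * e + (1 - e)).det = (N * e).trace)

/-- **MAJ**: convexity -/
def S_MAJ : Prop := ∀ N H : Multiset ℝ, LiesAbove N H →
  (N.map fun x => x ^ 2).sum ≤ (H.map fun x => x ^ 2).sum

/-- **BAS**: the action `δF` over a field -/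
def S_BAS : Prop := ∀ (ι : Type) [Fintype ι] [DecidableEq ι] (X : Coh ι), IsHyperKahler X →
  ∀ (F : Type) [Field F] [CharZero F],
  (∀ x y, X.δF F (x + y) = X.δF F x + X.δF F y) ∧
  (∀ (c : F) x, X.δF F (c • x) = c • X.δF F x) ∧
  (∀ x, X.δF F (x.map (algebraMap ℚ F)) = (X.δ x).map (algebraMap ℚ F)) ∧
  (∀ x, xᵀ * X.qF F = X.qF F * x → X.δF F x = 0) ∧
  (∀ x, ∃ y, X.IsSkew F y ∧ X.δF F y = X.δF F x) ∧
  (∀ x y, X.IsSkew F x → X.δF F (x * y - y * x) = X.δF F x * X.δF F y - X.δF F y * X.δF F x) ∧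
  (∀ x, IsGraded X.deg (X.δF F x)) ∧
  (∀ x, X.IsSkew F x → blk X.deg 2 (X.δF F x) = x) ∧
  (∃ c : ℚ, ∀ x y, X.IsSkew F x → X.IsSkew F y →
    (X.δF F x * X.δF F y).trace = algebraMap ℚ F c * (x * y).trace)

/-- **PER**: the Lie algebra `so(q)` is perfect -/
def S_PER : Prop := ∀ (ι : Type) [Fintype ι] [DecidableEq ι] (X : Coh ι), IsHyperKahler X →
  ∀ (F : Type) [Field F] [CharZero F] (B : Matrix ι ι F), X.Com F B →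
  (∀ x, X.δF F x * B = B * X.δF F x) ∧ ∀ x, (X.δF F x * B).trace = 0

/-- **NDG**: the trace form of the commutant is nondegenerate -/
def S_NDG : Prop := ∀ (ι : Type) [Fintype ι] [DecidableEq ι] (X : Coh ι), IsHyperKahler X →
  ∀ (F : Type) [Field F] [CharZero F] (B : Matrix ι ι F), X.Com F B →
  B ∈ Submodule.span F ((fun B' : Matrix ι ι ℚ => B'.map (algebraMap ℚ F)) '' {B' | X.Com ℚ B'}) ∧
  ((∀ B' : Matrix ι ι ℚ, X.Com ℚ B' → (B * B'.map (algebraMap ℚ F)).trace = 0) → B = 0)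

/-- **RIG**: rigidity. `E` is the commutant of the set `G`. -/
def S_RIG : Prop := ∀ (n : Type) [Fintype n] [DecidableEq n] (G : Set (Matrix n n ℂ)),
  (∀ B : Matrix n n ℂ, (∀ g ∈ G, B * g = g * B) →
    (∀ B' : Matrix n n ℂ, (∀ g ∈ G, B' * g = g * B') → (B * B').trace = 0) → B = 0) →
  ∀ (Y Z T : Matrix n n ℂ) (φ : ℂ → ℝ), (∀ g ∈ G, Z * g = g * Z) →
  (∀ B : Matrix n n ℂ, (∀ g ∈ G, B * g = g * B) → B * Y = Y * B ∧ (Y * B).trace = 0) →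
  IsFn (fun a => ((φ a : ℝ) : ℂ)) T (Y + Z) → (Z * Z).trace.re ≤ 0 → Z = 0

/-- **VAL**: the operator of valuations of a Frobenius element comes from the Lie algebra -/
def S_VAL : Prop := ∀ (ι : Type) [Fintype ι] [DecidableEq ι] (X : Coh ι), IsHyperKahler X →
  ∀ (T T' N : Matrix ι ι ℂ) (φ : ℂ → ℝ) (A : ℂ → Prop) (μ : ℂ), T * T' = 1 → IsGraded X.deg T →
  IsAdd A (fun a => ((φ a : ℝ) : ℂ)) → (∀ a, T.charpoly.IsRoot a → A a) → A μ → φ μ = 2 →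
  (blk X.deg 2 T)ᵀ * X.qF ℂ * blk X.deg 2 T = μ • X.qF ℂ →
  (∀ x, X.IsSkew ℂ x → T * X.δF ℂ x * T' = X.δF ℂ (blk X.deg 2 T * x * blk X.deg 2 T')) →
  (∀ j, LiesAbove ((blk X.deg j T).charpoly.roots.map φ) (X.hodge j)) →
  ((blk X.deg 2 T).charpoly.roots.map fun a => (φ a - 1) ^ 2).sum = 2 →
  IsFn (fun a => ((φ a : ℝ) : ℂ)) T N →
  N = (2 : ℂ)⁻¹ • X.H ℂ + X.δF ℂ (blk X.deg 2 N - 1)

/-! ### Arithmetic of algebraic numbers -/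

/-- **KRO**: Kronecker's theorem -/
def S_KRO : Prop := ∀ t : AlgebraicClosure ℚ, (∀ τ : AlgebraicClosure ℚ →+* ℂ, ‖τ t‖ = 1) →
  (∀ (p : ℕ) [Fact p.Prime] (σ : AlgebraicClosure ℚ →+* PadicAlgCl p), ‖σ t‖ = 1) →
  ∃ n : ℕ, 0 < n ∧ t ^ n = 1

/-- **ARI**: roots of Frobenius polynomials -/
def S_ARI : Prop :=
  (∀ (P : ℤ[X]) (F : Type) [Field F] [IsAlgClosed F] [CharZero F] (s : AlgebraicClosure ℚ →+* F),
    (P.map (Int.castRingHom F)).roots =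
      (P.map (Int.castRingHom (AlgebraicClosure ℚ))).roots.map s) ∧
  (∀ (P : ℤ[X]) (p j : ℕ) [Fact p.Prime], P.Monic →
    (∀ z : ℂ, aeval z P = 0 → ‖z‖ ^ 2 = (p : ℝ) ^ j) → ∀ a : AlgebraicClosure ℚ, aeval a P = 0 →
    a ≠ 0 ∧ (∀ τ : AlgebraicClosure ℚ →+* ℂ, ‖τ a‖ ^ 2 = (p : ℝ) ^ j) ∧
      ∀ (p' : ℕ) [Fact p'.Prime] (σ : AlgebraicClosure ℚ →+* PadicAlgCl p'), p' ≠ p → ‖σ a‖ = 1)

/-- **NWT**: the Newton polygon in degree two at the ordinary places -/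
def S_NWT : Prop := ∀ (P : ℤ[X]) (p b : ℕ) [Fact p.Prime], 3 ≤ b → P.Monic → P.natDegree = b →
  (∀ z : ℂ, aeval z P = 0 → ‖z‖ ^ 2 = (p : ℝ) ^ 2) →
  LiesAbove (newton p P) (0 ::ₘ 2 ::ₘ Multiset.replicate (b - 2) 1) →
  ¬ (p : ℤ) ∣ P.coeff (b - 1) →
  ((newton p P).map fun x => (x - 1) ^ 2).sum = 2

/-- **NR1**: numbers close to `1` -/
def S_NR1 : Prop := ∀ (ℓ : ℕ) [Fact ℓ.Prime],
  (∀ x : PadicAlgCl ℓ, ‖x - 1‖ ≤ ((ℓ : ℝ) ^ 2)⁻¹ → ∀ n : ℕ, 0 < n → x ^ n = 1 → x = 1) ∧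
  (∀ x y : PadicAlgCl ℓ, ‖x - 1‖ ≤ ((ℓ : ℝ) ^ 2)⁻¹ → ‖y - 1‖ ≤ ((ℓ : ℝ) ^ 2)⁻¹ →
    ‖x * y - 1‖ ≤ ((ℓ : ℝ) ^ 2)⁻¹ ∧ ‖x⁻¹ - 1‖ ≤ ((ℓ : ℝ) ^ 2)⁻¹) ∧
  (∀ (n : Type) [Fintype n] [DecidableEq n] (M : Matrix n n (PadicAlgCl ℓ)),
    (∀ i j, ‖(M - 1) i j‖ ≤ ((ℓ : ℝ) ^ 2)⁻¹) →
    (∀ a, M.charpoly.IsRoot a → ‖a - 1‖ ≤ ((ℓ : ℝ) ^ 2)⁻¹) ∧
    ∀ e : Matrix n n (PadicAlgCl ℓ), e * e = e → e * M = M * e →
      ‖(M * e + (1 - e)).det - 1‖ ≤ ((ℓ : ℝ) ^ 2)⁻¹)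

/-- **LOG**: the logarithm of a matrix close to `1` -/
def S_LOG : Prop := ∀ (ℓ : ℕ) [Fact ℓ.Prime] (n : Type) [Fintype n] [DecidableEq n]
  (A : Matrix n n ℚ_[ℓ]) (r : ℝ), r ≤ ((ℓ : ℝ) ^ 2)⁻¹ → (∀ i j, ‖(A - 1) i j‖ ≤ r) →
  ∃ L : Matrix n n ℚ_[ℓ],
    Tendsto (fun k : ℕ => ((ℓ : ℚ_[ℓ]) ^ k)⁻¹ • (A ^ (ℓ ^ k) - 1)) atTop (𝓝 L) ∧
    (∀ i j, ‖(L - (A - 1)) i j‖ ≤ 2 * r ^ 2) ∧ ∀ B, L * B = B * L → A * B = B * A

/-! ### Frobenius elements -/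

/-- **TRN**: transport of a Frobenius element to the complex numbers -/
def S_TRN : Prop := ∀ (K : Type) [Field K] [NumberField K] (ℓ : ℕ) [Fact ℓ.Prime] (ι : Type)
  [Fintype ι] [DecidableEq ι] (X : Coh ι) (S : Finset ℕ) (χ : GK K →* ℚ_[ℓ])
  (Pol : HeightOneSpectrum (𝓞 K) → ℕ → ℤ[X]) (ρ : GK K →* Matrix ι ι ℚ_[ℓ]),
  IsHyperKahler X → IsRealization X S χ Pol ρ → ∀ (p : ℕ) [Fact p.Prime], p ∉ S →
  ∀ v, Ideal.absNorm v.asIdeal = p → ∀ σ : GK K, IsFrobenius v σ →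
  ∀ (c : ℚ_[ℓ] →+* ℂ) (s : AlgebraicClosure ℚ →+* ℂ) (T T' : Matrix ι ι ℂ),
  T = (ρ σ⁻¹).map c → T' = (ρ σ).map c →
  T * T' = 1 ∧ IsGraded X.deg T ∧
  (blk X.deg 2 T)ᵀ * X.qF ℂ * blk X.deg 2 T = ((p : ℂ) ^ 2) • X.qF ℂ ∧
  (∀ x, X.IsSkew ℂ x → T * X.δF ℂ x * T' = X.δF ℂ (blk X.deg 2 T * x * blk X.deg 2 T')) ∧
  (∀ j, (blk X.deg j T).charpoly = (Pol v j).map (Int.castRingHom ℂ)) ∧
  (∀ z, T.charpoly.IsRoot z → ∃ (j : ℕ) (a : AlgebraicClosure ℚ), aeval a (Pol v j) = 0 ∧ s a = z)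

/-- **PHI**: consequences of VAL for an ordinary Frobenius element -/
def S_PHI : Prop := ∀ (K : Type) [Field K] [NumberField K] (ℓ : ℕ) [Fact ℓ.Prime] (ι : Type)
  [Fintype ι] [DecidableEq ι] (X : Coh ι) (S : Finset ℕ) (χ : GK K →* ℚ_[ℓ])
  (Pol : HeightOneSpectrum (𝓞 K) → ℕ → ℤ[X]) (ρ : GK K →* Matrix ι ι ℚ_[ℓ]),
  IsHyperKahler X → IsRealization X S χ Pol ρ → ∀ (p : ℕ) [Fact p.Prime], p ∉ S →
  ∀ v, Ideal.absNorm v.asIdeal = p → ∀ σ : GK K, IsFrobenius v σ →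
  ¬ (p : ℤ) ∣ (Pol v 2).coeff (Fintype.card {a // X.deg a = 2} - 1) →
  ∀ (c : ℚ_[ℓ] →+* ℂ) (s : AlgebraicClosure ℚ →+* ℂ) (π : AlgebraicClosure ℚ →+* PadicAlgCl p)
    (T : Matrix ι ι ℂ) (φ : ℂ → ℝ), T = (ρ σ⁻¹).map c → φ = lg s (fun a => -Real.logb p ‖π a‖) →
  (∀ (t : ℂ) (B : Matrix ι ι ℂ), X.Com ℂ B → B ≠ 0 → T * B = t • (B * T) → φ t = 0) ∧
  (∀ e : Matrix ι ι ℂ, X.Com ℂ e → e * e = e → e * T = T * e →
    ((2 * φ (T * e + (1 - e)).det : ℝ) : ℂ) = (X.H ℂ * e).trace)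

/-- **EIG**: eigenvalues of an ordinary Frobenius element on the commutant -/
def S_EIG : Prop := ∀ (K : Type) [Field K] [NumberField K] (ℓ : ℕ) [Fact ℓ.Prime] (ι : Type)
  [Fintype ι] [DecidableEq ι] (X : Coh ι) (S : Finset ℕ) (χ : GK K →* ℚ_[ℓ])
  (Pol : HeightOneSpectrum (𝓞 K) → ℕ → ℤ[X]) (ρ : GK K →* Matrix ι ι ℚ_[ℓ]),
  IsHyperKahler X → IsRealization X S χ Pol ρ → ∀ (p : ℕ) [Fact p.Prime], p ∉ S →
  ∀ v, Ideal.absNorm v.asIdeal = p → ∀ σ : GK K, IsFrobenius v σ →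
  ¬ (p : ℤ) ∣ (Pol v 2).coeff (Fintype.card {a // X.deg a = 2} - 1) →
  ∀ M : Matrix ι ι (PadicAlgCl ℓ), M = (ρ σ⁻¹).map (algebraMap ℚ_[ℓ] (PadicAlgCl ℓ)) →
  ∀ (t : PadicAlgCl ℓ) (B : Matrix ι ι (PadicAlgCl ℓ)), X.Com (PadicAlgCl ℓ) B → B ≠ 0 →
    M * B = t • (B * M) → ∃ n : ℕ, 0 < n ∧ t ^ n = 1

/-- **DET**: determinants of an ordinary Frobenius element on the images of idempotents -/
def S_DET : Prop := ∀ (K : Type) [Field K] [NumberField K] (ℓ : ℕ) [Fact ℓ.Prime] (ι : Type)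
  [Fintype ι] [DecidableEq ι] (X : Coh ι) (S : Finset ℕ) (χ : GK K →* ℚ_[ℓ])
  (Pol : HeightOneSpectrum (𝓞 K) → ℕ → ℤ[X]) (ρ : GK K →* Matrix ι ι ℚ_[ℓ]),
  IsHyperKahler X → IsRealization X S χ Pol ρ → ∀ (p : ℕ) [Fact p.Prime], p ∉ S →
  ∀ v, Ideal.absNorm v.asIdeal = p → ∀ σ : GK K, IsFrobenius v σ →
  ¬ (p : ℤ) ∣ (Pol v 2).coeff (Fintype.card {a // X.deg a = 2} - 1) →
  ∀ M : Matrix ι ι (PadicAlgCl ℓ), M = (ρ σ⁻¹).map (algebraMap ℚ_[ℓ] (PadicAlgCl ℓ)) →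
  ∀ (e : Matrix ι ι (PadicAlgCl ℓ)) (m : ℕ), X.Com (PadicAlgCl ℓ) e → e * e = e → e * M = M * e →
    (X.H (PadicAlgCl ℓ) * e).trace = m →
    ∃ n : ℕ, 0 < n ∧ ((M * e + (1 - e)).det ^ 2) ^ n = ((p : PadicAlgCl ℓ) ^ m) ^ n

/-- **DG1**: Chebotarev's theorem for places of degree one -/
def S_DG1 : Prop := ∀ (K : Type) [Field K] [NumberField K] (U : Set (GK K)), IsOpen U →
  U.Nonempty → ∀ S : Finset ℕ, ∃ p : ℕ, p.Prime ∧ p ∉ S ∧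
    ∃ v : HeightOneSpectrum (𝓞 K), Ideal.absNorm v.asIdeal = p ∧
      ∃ σ : GK K, IsFrobenius v σ ∧ σ⁻¹ ∈ U

/-- **ORD**: ordinary Frobenius elements are dense -/
def S_ORD : Prop := ∀ (K : Type) [Field K] [NumberField K] (ℓ : ℕ) [Fact ℓ.Prime] (n : Type)
  [Fintype n] [DecidableEq n] (S : Finset ℕ) (χ : GK K →* ℚ_[ℓ]) (ρ : GK K →* Matrix n n ℚ_[ℓ])
  (P : HeightOneSpectrum (𝓞 K) → ℤ[X]), Continuous χ → Continuous ρ → 0 < Fintype.card n →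
  (∀ p : ℕ, p.Prime → p ∉ S → ∀ v, Ideal.absNorm v.asIdeal = p →
    (P v).Monic ∧ (∀ z : ℂ, aeval z (P v) = 0 → ‖z‖ ^ 2 = (p : ℝ) ^ 2) ∧
    ∀ σ : GK K, IsFrobenius v σ → χ σ⁻¹ = p ∧ (ρ σ⁻¹).charpoly = (P v).map (Int.castRingHom ℚ_[ℓ])) →
  NonUnip χ ρ → ∀ U : Set (GK K), IsOpen U → U.Nonempty → U ⊆ Near χ ρ →
  ∃ p : ℕ, p.Prime ∧ p ∉ S ∧ ∃ v : HeightOneSpectrum (𝓞 K), Ideal.absNorm v.asIdeal = p ∧
    (∃ σ : GK K, IsFrobenius v σ ∧ σ⁻¹ ∈ U) ∧ ¬ (p : ℤ) ∣ (P v).coeff (Fintype.card n - 1)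

/-! ### The Galois image -/

/-- **UNI**: consequences for the Frobenius elements close to `1` -/
def S_UNI : Prop := ∀ (K : Type) [Field K] [NumberField K] (ℓ : ℕ) [Fact ℓ.Prime] (ι : Type)
  [Fintype ι] [DecidableEq ι] (X : Coh ι) (S : Finset ℕ) (χ : GK K →* ℚ_[ℓ])
  (Pol : HeightOneSpectrum (𝓞 K) → ℕ → ℤ[X]) (ρ : GK K →* Matrix ι ι ℚ_[ℓ]),
  IsHyperKahler X → IsRealization X S χ Pol ρ → ∀ (p : ℕ) [Fact p.Prime], p ∉ S →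
  ∀ v, Ideal.absNorm v.asIdeal = p → ∀ σ : GK K, IsFrobenius v σ →
  ¬ (p : ℤ) ∣ (Pol v 2).coeff (Fintype.card {a // X.deg a = 2} - 1) → σ⁻¹ ∈ Near χ ρ →
  (∀ B : Matrix ι ι ℚ_[ℓ], X.Com ℚ_[ℓ] B →
    ((cj (ρ σ⁻¹) (ρ σ) - 1) ^ (Fintype.card ι ^ 2)) B = 0) ∧
  ∀ M : Matrix ι ι (PadicAlgCl ℓ), M = (ρ σ⁻¹).map (algebraMap ℚ_[ℓ] (PadicAlgCl ℓ)) →
  ∀ (e : Matrix ι ι (PadicAlgCl ℓ)) (m : ℕ), X.Com (PadicAlgCl ℓ) e → e * e = e → e * M = M * e →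
    (X.H (PadicAlgCl ℓ) * e).trace = m →
    (M * e + (1 - e)).det ^ 2 = algebraMap ℚ_[ℓ] (PadicAlgCl ℓ) (χ σ⁻¹) ^ m

/-- **COM**: an open subgroup commutes with the commutant (theorems of Kolchin and Sen, class field
theory) -/
def S_COM : Prop := ∀ (K : Type) [Field K] [NumberField K] (ℓ : ℕ) [Fact ℓ.Prime] (ι : Type)
  [Fintype ι] [DecidableEq ι] (X : Coh ι) (S : Finset ℕ) (χ : GK K →* ℚ_[ℓ])
  (Pol : HeightOneSpectrum (𝓞 K) → ℕ → ℤ[X]) (ρ : GK K →* Matrix ι ι ℚ_[ℓ]),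
  ClassFieldTheory K ℓ → IsHyperKahler X → IsRealization X S χ Pol ρ →
  ∀ U : Subgroup (GK K), IsOpen (U : Set (GK K)) →
  (∀ V : Set (GK K), IsOpen V → V.Nonempty → V ⊆ U → ∃ g ∈ V, ∀ B : Matrix ι ι ℚ_[ℓ],
    X.Com ℚ_[ℓ] B → ((cj (ρ g) (ρ g⁻¹) - 1) ^ (Fintype.card ι ^ 2)) B = 0) →
  ∀ g ∈ U, ∀ B : Matrix ι ι ℚ_[ℓ], X.Com ℚ_[ℓ] B → ρ g * B = B * ρ g

/-- **TAN**: tangent vectors -/
def S_TAN : Prop := ∀ (K : Type) [Field K] [NumberField K] (ℓ : ℕ) [Fact ℓ.Prime] (ι : Type)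
  [Fintype ι] [DecidableEq ι] (X : Coh ι) (S : Finset ℕ) (χ : GK K →* ℚ_[ℓ])
  (Pol : HeightOneSpectrum (𝓞 K) → ℕ → ℤ[X]) (ρ : GK K →* Matrix ι ι ℚ_[ℓ]),
  IsHyperKahler X → IsRealization X S χ Pol ρ →
  ∀ U : Subgroup (GK K), IsOpen (U : Set (GK K)) →
  (∀ g ∈ U, ∀ B : Matrix ι ι ℚ_[ℓ], X.Com ℚ_[ℓ] B → ρ g * B = B * ρ g) →
  (∀ V : Set (GK K), IsOpen V → V.Nonempty → V ⊆ U → ∃ g ∈ V,
    ∀ M : Matrix ι ι (PadicAlgCl ℓ), M = (ρ g).map (algebraMap ℚ_[ℓ] (PadicAlgCl ℓ)) →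
    ∀ (e : Matrix ι ι (PadicAlgCl ℓ)) (m : ℕ), X.Com (PadicAlgCl ℓ) e → e * e = e →
      e * M = M * e → (X.H (PadicAlgCl ℓ) * e).trace = m →
      (M * e + (1 - e)).det ^ 2 = algebraMap ℚ_[ℓ] (PadicAlgCl ℓ) (χ g) ^ m) →
  ∀ Z ∈ LieImage ρ Set.univ, Z = X.δt ℚ_[ℓ] (blk X.deg 2 Z)

/-- **LAA**: the first half of the theorem, for one variety -/
def S_LAA : Prop := ∀ (K : Type) [Field K] [NumberField K] (ℓ : ℕ) [Fact ℓ.Prime] (ι : Type)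
  [Fintype ι] [DecidableEq ι] (X : Coh ι) (S : Finset ℕ) (χ : GK K →* ℚ_[ℓ])
  (Pol : HeightOneSpectrum (𝓞 K) → ℕ → ℤ[X]) (ρ : GK K →* Matrix ι ι ℚ_[ℓ]),
  ClassFieldTheory K ℓ → IsHyperKahler X → IsRealization X S χ Pol ρ →
  NonUnip χ (fun g => blk X.deg 2 (ρ g)) →
  ∀ Z ∈ LieImage ρ Set.univ, Z = X.δt ℚ_[ℓ] (blk X.deg 2 Z)

/-- **CNV**: from one variety to finitely many, and the converse inclusion -/
def S_CNV : Prop := ∀ (K : Type) [Field K] [NumberField K] (ℓ : ℕ) [Fact ℓ.Prime] (I : Type)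
  [Fintype I] [DecidableEq I] (ι : I → Type) [∀ i, Fintype (ι i)] [∀ i, DecidableEq (ι i)]
  (X : ∀ i, Coh (ι i)) (ρ : ∀ i, GK K →* Matrix (ι i) (ι i) ℚ_[ℓ]),
  (∀ i, IsHyperKahler (X i)) → (∀ i, Continuous (ρ i)) → (∀ i g, IsGraded (X i).deg (ρ i g)) →
  (∀ i, ∀ Z ∈ LieImage (ρ i) Set.univ, Z = (X i).δt ℚ_[ℓ] (blk (X i).deg 2 Z)) →
  ∀ Z, Z ∈ LieImage (fun g => blockDiagonal' fun i => ρ i g) Set.univ ↔
    ∃ Y : ∀ i, Matrix {a // (X i).deg a = 2} {a // (X i).deg a = 2} ℚ_[ℓ],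
      blockDiagonal' Y ∈ LieImage (fun g => blockDiagonal' fun i => blk (X i).deg 2 (ρ i g)) Set.univ ∧
      Z = blockDiagonal' fun i => (X i).δt ℚ_[ℓ] (Y i)

/-- **MTL**: the Lie algebra of the Mumford-Tate group -/
def S_MTL : Prop := ∀ (I : Type) [Fintype I] [DecidableEq I] (ι : I → Type) [∀ i, Fintype (ι i)]
  [∀ i, DecidableEq (ι i)] (X : ∀ i, Coh (ι i)), (∀ i, IsHyperKahler (X i)) →
  ∀ Z, Z ∈ mtLie (blockDiagonal' fun i => (X i).D) ↔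
    ∃ Y : ∀ i, Matrix {a // (X i).deg a = 2} {a // (X i).deg a = 2} ℚ,
      blockDiagonal' Y ∈ mtLie (blockDiagonal' fun i => blk (X i).deg 2 (X i).D) ∧
      Z = blockDiagonal' fun i => (X i).δt ℚ (Y i)

/-- **MTD**: the defining properties of the Lie algebra of the Mumford-Tate group -/
def S_MTD : Prop := ∀ (n : Type) [Fintype n] [DecidableEq n] (D : Matrix n n ℂ),
  (∀ x ∈ mtLie D, ∀ y ∈ mtLie D, x * y - y * x ∈ mtLie D) ∧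
  D ∈ Submodule.span ℂ ((fun x : Matrix n n ℚ => x.map (algebraMap ℚ ℂ)) '' (mtLie D))

/-- **NSC**: the representation in degree two is not unipotent -/
def S_NSC : Prop := ∀ (K : Type) [Field K] [NumberField K] (ℓ : ℕ) [Fact ℓ.Prime] (I : Type)
  [Fintype I] [DecidableEq I] (ι : I → Type) [∀ i, Fintype (ι i)] [∀ i, DecidableEq (ι i)]
  (X : ∀ i, Coh (ι i)) (S : Finset ℕ) (χ : GK K →* ℚ_[ℓ])
  (Pol : I → HeightOneSpectrum (𝓞 K) → ℕ → ℤ[X])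
  (ρ : ∀ i, GK K →* Matrix (ι i) (ι i) ℚ_[ℓ]), (∀ i, IsHyperKahler (X i)) →
  (∀ i, IsRealization (X i) S χ (Pol i) (ρ i)) →
  MumfordTate (blockDiagonal' fun i => blk (X i).deg 2 (X i).D)
    (fun g => blockDiagonal' fun i => blk (X i).deg 2 (ρ i g)) →
  ∀ i, NonUnip χ (fun g => blk (X i).deg 2 (ρ i g))

/-- **FIN**: the theorem -/
def S_FIN : Prop := ∀ (K : Type) [Field K] [NumberField K] (ℓ : ℕ) [Fact ℓ.Prime] (I : Type)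
  [Fintype I] [DecidableEq I] (ι : I → Type) [∀ i, Fintype (ι i)] [∀ i, DecidableEq (ι i)]
  (X : ∀ i, Coh (ι i)) (S : Finset ℕ) (χ : GK K →* ℚ_[ℓ])
  (Pol : I → HeightOneSpectrum (𝓞 K) → ℕ → ℤ[X])
  (ρ : ∀ i, GK K →* Matrix (ι i) (ι i) ℚ_[ℓ]), ClassFieldTheory K ℓ → (∀ i, IsHyperKahler (X i)) →
  (∀ i, IsRealization (X i) S χ (Pol i) (ρ i)) →
  MumfordTate (blockDiagonal' fun i => blk (X i).deg 2 (X i).D)
    (fun g => blockDiagonal' fun i => blk (X i).deg 2 (ρ i g)) →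
  MumfordTate (blockDiagonal' fun i => (X i).D) (fun g => blockDiagonal' fun i => ρ i g)

end Pool.Agent.NH56.HY
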