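import Pool.Agent.NH56.HY.Stm
import Pool.Agent.W528.Ord.Dens
import Pool.Agent.W401.Cheb.Frob

/-!
# DG1: Chebotarev's theorem for the places of degree one
-/

set_option autoImplicit false

namespace Pool.Agent.NH56.HY

namespace Dg1

open Filter Topology NumberField IsDedekindDomain
open Pool.Agent.W401.Cheb (dens IsFrob)
open Pool.Agent.W528.Ord (dens_mono dens_nonneg dens_or dens_not_prime)

theorem dens_finite {K : Type} [Field K] [NumberField K] (P : HeightOneSpectrum (𝓞 K) → Prop)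
    (hf : {v | P v}.Finite) : Tendsto (dens P) atTop (𝓝 0) := by
  refine squeeze_zero (fun N => dens_nonneg _ _) (fun N => ?_)
    (Pool.Agent.W352.ChAbs.const_div_pi ({v | P v}.ncard : ℝ))
  unfold dens
  apply div_le_div_of_nonneg_right _ (Nat.cast_nonneg _)
  have : {v : HeightOneSpectrum (𝓞 K) | Ideal.absNorm v.asIdeal ≤ N ∧ P v} ⊆ {v | P v} :=
    fun v hv => hv.2
  exact_mod_cast Set.ncard_le_ncard this hf

theorem finite_norm_mem {K : Type} [Field K] [NumberField K] (S : Finset ℕ) :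
    {v : HeightOneSpectrum (𝓞 K) | Ideal.absNorm v.asIdeal ∈ S}.Finite := by
  refine (Pool.Agent.W352.ChAbs.finite_le (K := K) (S.sup id)).subset ?_
  intro v hv
  exact Finset.le_sup (f := id) hv

theorem frob_core (K : Type) [Field K] [NumberField K] (O : Set (Pool.Agent.W401.Cheb.GK K))
    (hO : IsOpen O) (hne : O.Nonempty) (S : Finset ℕ) :
    ∃ v : HeightOneSpectrum (𝓞 K), ((Ideal.absNorm v.asIdeal).Prime ∧ Ideal.absNorm v.asIdeal ∉ S) ∧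
      ∃ σ : Pool.Agent.W401.Cheb.GK K, IsFrob v σ ∧ σ⁻¹ ∈ O := by
  classical
  obtain ⟨σ₀, hσ₀⟩ := hne
  set τ₀ : Pool.Agent.W401.Cheb.GK K := σ₀⁻¹ with hτ₀
  have hW : IsOpen {g : Pool.Agent.W401.Cheb.GK K | (τ₀ * g)⁻¹ ∈ O} :=
    hO.preimage (by fun_prop)
  have h1W : (1 : Pool.Agent.W401.Cheb.GK K) ∈ {g : Pool.Agent.W401.Cheb.GK K | (τ₀ * g)⁻¹ ∈ O} := by
    simp [hτ₀, hσ₀]
  obtain ⟨U, hU⟩ := ProfiniteGrp.exist_openNormalSubgroup_sub_open_nhds_of_one hW h1W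
  have hUo : IsOpen (U.toSubgroup : Set (Pool.Agent.W401.Cheb.GK K)) := U.isOpen'
  haveI : U.toSubgroup.Normal := U.isNormal'
  set C : Set (Pool.Agent.W401.Cheb.GK K) :=
    {τ | ∃ ρ, ∃ u ∈ U.toSubgroup, ρ⁻¹ * τ * ρ = τ₀ * u} with hC
  have key := Pool.Agent.W528.Ord.chebK K U.toSubgroup hUo C ?_ ?_
  rotate_left
  · rintro τ ⟨ρ, u, hu, h⟩ κ
    refine ⟨κ * ρ, u, hu, ?_⟩
    rw [← h]
    group
  · rintro τ ⟨ρ, u, hu, h⟩ w hw
    refine ⟨ρ, u * (ρ⁻¹ * w * ρ), U.toSubgroup.mul_mem hu ?_, ?_⟩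
    · have := Subgroup.Normal.conj_mem (inferInstance : U.toSubgroup.Normal) w hw ρ⁻¹
      simpa using this
    · calc ρ⁻¹ * (τ * w) * ρ = (ρ⁻¹ * τ * ρ) * (ρ⁻¹ * w * ρ) := by group
        _ = τ₀ * (u * (ρ⁻¹ * w * ρ)) := by rw [h, mul_assoc]
  by_contra hcon
  push Not at hcon
  have hsub : ∀ v : HeightOneSpectrum (𝓞 K), (∃ σ ∈ C, IsFrob v σ) →
      (¬ (Ideal.absNorm v.asIdeal).Prime ∨ Ideal.absNorm v.asIdeal ∈ S) := by
    rintro v ⟨σ, ⟨ρ, u, hu, h⟩, hσ⟩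
    by_contra hv
    push Not at hv
    have h1 := (Pool.Agent.W401.Frob.main K).2.2 v σ ρ⁻¹ hσ
    rw [inv_inv, h] at h1
    exact hcon v hv _ h1 (hU hu)
  have h3 : Tendsto (dens fun v : HeightOneSpectrum (𝓞 K) =>
      (¬ (Ideal.absNorm v.asIdeal).Prime ∨ Ideal.absNorm v.asIdeal ∈ S)) atTop (𝓝 0) := by
    have h1 := (dens_not_prime (K := K)).add (dens_finite _ (finite_norm_mem (K := K) S))
    rw [add_zero] at h1
    exact squeeze_zero (fun N => dens_nonneg _ _) (fun N => dens_or _ _ N) h1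
  have h4 := le_of_tendsto_of_tendsto' key h3 (fun N => dens_mono hsub N)
  have hfin : Finite (Pool.Agent.W401.Cheb.GK K ⧸ U.toSubgroup) :=
    Subgroup.quotient_finite_of_isOpen _ hUo
  have h5 : 0 < ((QuotientGroup.mk : Pool.Agent.W401.Cheb.GK K →
      Pool.Agent.W401.Cheb.GK K ⧸ U.toSubgroup) '' C).ncard := by
    rw [Set.ncard_pos (Set.toFinite _)]
    exact ⟨_, τ₀, ⟨1, 1, U.toSubgroup.one_mem, by simp⟩, rfl⟩
  have h6 : 0 < Nat.card (Pool.Agent.W401.Cheb.GK K ⧸ U.toSubgroup) := Nat.card_pos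
  have h7 : (0 : ℝ) < (((QuotientGroup.mk : Pool.Agent.W401.Cheb.GK K →
      Pool.Agent.W401.Cheb.GK K ⧸ U.toSubgroup) '' C).ncard : ℝ) /
      (Nat.card (Pool.Agent.W401.Cheb.GK K ⧸ U.toSubgroup) : ℝ) := by positivity
  exact absurd h4 (not_le.2 h7)

end Dg1

theorem t_DG1 : S_DG1 := by
  intro K _ _ U hU hne S
  obtain ⟨v, ⟨hp, hS⟩, σ, hσ, h⟩ := Dg1.frob_core K U hU hne S
  exact ⟨_, hp, hS, v, rfl, σ, hσ, h⟩

end Pool.Agent.NH56.HY
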