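import Mathlib

/-!
# Traces of powers and unipotent matrices

Linear algebra for the density of the ordinary Frobenius elements. The first section follows
`Pool.Agent.NH36.Fs.Eig`.
-/

set_option autoImplicit false
set_option linter.unusedSectionVars false

namespace Pool.Agent.NH56.HY.OrdA

open Polynomial

section trace

variable {ι : Type*} [Fintype ι] [DecidableEq ι] {K : Type*} [Field K] [IsAlgClosed K]

lemma charpoly_prod (A : Matrix ι ι K) : A.charpoly = (A.charpoly.roots.map fun a => X - C a).prod :=
  (IsAlgClosed.splits A.charpoly).eq_prod_roots_of_monic A.charpoly_monic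

lemma card_roots' (A : Matrix ι ι K) : A.charpoly.roots.card = Fintype.card ι := by
  rw [← (IsAlgClosed.splits A.charpoly).natDegree_eq_card_roots, A.charpoly_natDegree_eq_dim]

lemma det_scalar_sub (A : Matrix ι ι K) (r : K) :
    (Matrix.scalar ι r - A).det = (A.charpoly.roots.map fun a => r - a).prod := by
  rw [← Matrix.eval_charpoly]
  conv_lhs => rw [charpoly_prod A]
  rw [eval_multiset_prod, Multiset.map_map]
  congr 1
  refine Multiset.map_congr rfl fun a _ => ?_
  simp

lemma prod_neg_map (s : Multiset K) (f : K → K) :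
    (s.map fun a => - f a).prod = (-1) ^ s.card * (s.map f).prod := by
  induction s using Multiset.induction_on with
  | empty => simp
  | cons a s ih => rw [Multiset.map_cons, Multiset.prod_cons, ih, Multiset.map_cons,
      Multiset.prod_cons, Multiset.card_cons, pow_succ]; ring

lemma det_sub_scalar (A : Matrix ι ι K) (r : K) :
    (A - Matrix.scalar ι r).det = (A.charpoly.roots.map fun a => a - r).prod := by
  have h1 : A - Matrix.scalar ι r = - (Matrix.scalar ι r - A) := by abel
  rw [h1, Matrix.det_neg, det_scalar_sub, ← card_roots' A, ← prod_neg_map]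
  congr 1
  refine Multiset.map_congr rfl fun a _ => by ring

lemma det_aeval (A : Matrix ι ι K) {p : K[X]} (hp : p.Monic) :
    (aeval A p).det = (A.charpoly.roots.map fun a => p.eval a).prod := by
  let φ : K[X] →* K := Matrix.detMonoidHom.comp (aeval A : K[X] →ₐ[K] Matrix ι ι K).toMonoidHom
  have hφ : ∀ q, φ q = (aeval A q).det := fun q => rfl
  have hp2 := (IsAlgClosed.splits p).eq_prod_roots_of_monic hp
  rw [← hφ]
  conv_lhs => rw [hp2]
  rw [map_multiset_prod, Multiset.map_map]
  have h1 : (p.roots.map (φ ∘ fun a => X - C a)) =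
      p.roots.map fun r => (A.charpoly.roots.map fun a => a - r).prod := by
    refine Multiset.map_congr rfl fun r _ => ?_
    rw [Function.comp_apply, hφ, ← det_sub_scalar]
    congr 1
    simp [Matrix.algebraMap_eq_diagonal, Matrix.scalar_apply]
  rw [h1, Multiset.prod_map_prod_map]
  congr 1
  refine Multiset.map_congr rfl fun a _ => ?_
  conv_rhs => rw [hp2]
  rw [eval_multiset_prod, Multiset.map_map]
  congr 1
  refine Multiset.map_congr rfl fun r _ => ?_
  simp

lemma charpoly_pow (A : Matrix ι ι K) {n : ℕ} (hn : n ≠ 0) :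
    (A ^ n).charpoly = (A.charpoly.roots.map fun a => X - C (a ^ n)).prod := by
  apply Polynomial.funext
  intro s
  rw [Matrix.eval_charpoly, eval_multiset_prod, Multiset.map_map]
  have h1 : Matrix.scalar ι s - A ^ n = - (aeval A (X ^ n - C s)) := by
    simp [Matrix.algebraMap_eq_diagonal, Matrix.scalar_apply]
  rw [h1, Matrix.det_neg, det_aeval A (monic_X_pow_sub_C s hn), ← card_roots' A, ← prod_neg_map]
  congr 1
  refine Multiset.map_congr rfl fun a _ => ?_
  simp

/-- The trace of a power is the sum of the powers of the eigenvalues. -/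
theorem trace_pow (A : Matrix ι ι K) (n : ℕ) :
    (A ^ n).trace = (A.charpoly.roots.map fun a => a ^ n).sum := by
  rcases Nat.eq_zero_or_pos n with rfl | hn
  · simp only [pow_zero, Matrix.trace_one, Multiset.map_const', Multiset.sum_replicate,
      nsmul_eq_mul, mul_one]
    rw [card_roots' A]
  · rw [Matrix.trace_eq_sum_roots_charpoly, charpoly_pow A hn.ne']
    have : (A.charpoly.roots.map fun a => X - C (a ^ n)) =
        ((A.charpoly.roots.map fun a => a ^ n).map fun a => X - C a) := by
      rw [Multiset.map_map]; rfl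
    rw [this, roots_multiset_prod_X_sub_C]

/-- the trace of `R ^ e * f (R ^ M)` -/
lemma trace_poly (R : Matrix ι ι K) (e M : ℕ) (f : K[X]) :
    (R ^ e * aeval (R ^ M) f).trace = (R.charpoly.roots.map fun a => a ^ e * f.eval (a ^ M)).sum := by
  induction f using Polynomial.induction_on' with
  | add p q hp hq =>
    rw [map_add, mul_add, Matrix.trace_add, hp, hq, ← Multiset.sum_map_add]
    congr 1
    refine Multiset.map_congr rfl fun a _ => ?_
    rw [eval_add, mul_add]
  | monomial m c =>
    have e1 : R ^ e * aeval (R ^ M) (monomial m c) = c • R ^ (e + M * m) := by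
      rw [aeval_monomial, pow_add, pow_mul, Matrix.algebraMap_eq_diagonal]
      have : (Matrix.diagonal ((algebraMap K (ι → K)) c) : Matrix ι ι K) = c • 1 := by
        ext i j
        by_cases h : i = j
        · subst h; simp
        · simp [h]
      rw [this, smul_mul_assoc, one_mul, mul_smul_comm]
    rw [e1, Matrix.trace_smul, trace_pow, smul_eq_mul, ← Multiset.sum_map_mul_left]
    congr 1
    refine Multiset.map_congr rfl fun a _ => ?_
    rw [eval_monomial, pow_add, pow_mul]
    ring

lemma trace_const (R : Matrix ι ι K) (e M : ℕ) (k : K) (h : ∀ s : ℕ, (R ^ (e + M * s)).trace = k)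
    (f : K[X]) : (R ^ e * aeval (R ^ M) f).trace = k * f.eval 1 := by
  induction f using Polynomial.induction_on' with
  | add p q hp hq =>
    rw [map_add, mul_add, Matrix.trace_add, hp, hq, eval_add, mul_add]
  | monomial m c =>
    have e1 : R ^ e * aeval (R ^ M) (monomial m c) = c • R ^ (e + M * m) := by
      rw [aeval_monomial, pow_add, pow_mul, Matrix.algebraMap_eq_diagonal]
      have : (Matrix.diagonal ((algebraMap K (ι → K)) c) : Matrix ι ι K) = c • 1 := by
        ext i j
        by_cases h : i = j
        · subst h; simp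
        · simp [h]
      rw [this, smul_mul_assoc, one_mul, mul_smul_comm]
    rw [e1, Matrix.trace_smul, h, smul_eq_mul, eval_monomial, one_pow]
    ring

/-- constant traces of powers: all eigenvalues are `1` -/
lemma roots_one [CharZero K] (R : Matrix ι ι K) (e M : ℕ) (k : K)
    (h : ∀ s : ℕ, (R ^ (e + M * s)).trace = k)
    (h0 : ∀ a, R.charpoly.IsRoot a → a ^ e ≠ 0)
    (h1 : ∀ a b, R.charpoly.IsRoot a → R.charpoly.IsRoot b → a ^ M = b ^ M → a = b)
    (h2 : ∀ a, R.charpoly.IsRoot a → a ^ M = 1 → a = 1) (a : K) (ha : R.charpoly.IsRoot a) :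
    a = 1 := by
  by_contra hne
  classical
  have hz : R.charpoly ≠ 0 := R.charpoly_monic.ne_zero
  have hroot : ∀ b, b ∈ R.charpoly.roots.toFinset → R.charpoly.IsRoot b := by
    intro b hb
    rw [Multiset.mem_toFinset, mem_roots hz] at hb
    exact hb
  have haZ : a ∈ R.charpoly.roots.toFinset := by
    rw [Multiset.mem_toFinset, mem_roots hz]
    exact ha
  set f : K[X] := (X - C 1) * ∏ b ∈ R.charpoly.roots.toFinset.erase a, (X - C (b ^ M)) with hf
  have hf1 : f.eval 1 = 0 := by simp [hf]
  have e1 := (trace_poly R e M f).symm.trans (trace_const R e M k h f)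
  rw [hf1, mul_zero, Finset.sum_multiset_map_count, Finset.sum_eq_single a] at e1
  · rw [nsmul_eq_mul] at e1
    have c1 : ((R.charpoly.roots.count a : ℕ) : K) ≠ 0 := by
      rw [Nat.cast_ne_zero]
      exact (Multiset.count_pos.2 (Multiset.mem_toFinset.1 haZ)).ne'
    have c2 : f.eval (a ^ M) ≠ 0 := by
      rw [hf, eval_mul, eval_prod]
      refine mul_ne_zero ?_ (Finset.prod_ne_zero_iff.2 fun b hb => ?_)
      · rw [eval_sub, eval_X, eval_C, sub_ne_zero]
        exact fun h' => hne (h2 a ha h')
      · rw [eval_sub, eval_X, eval_C, sub_ne_zero]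
        intro h'
        exact Finset.ne_of_mem_erase hb
          (h1 a b ha (hroot b (Finset.mem_of_mem_erase hb)) h').symm
    exact mul_ne_zero c1 (mul_ne_zero (h0 a ha) c2) e1
  · intro b hb hba
    have : f.eval (b ^ M) = 0 := by
      rw [hf, eval_mul, eval_prod,
        Finset.prod_eq_zero (Finset.mem_erase.2 ⟨hba, hb⟩) (by simp), mul_zero]
    rw [this, mul_zero, smul_zero]
  · intro h'
    exact absurd haZ h'

lemma unip (R : Matrix ι ι K) (h : ∀ a, R.charpoly.IsRoot a → a = 1) :
    (R - 1) ^ Fintype.card ι = 0 ∧ R.trace = Fintype.card ι := by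
  have h1 : R.charpoly.roots = Multiset.replicate (Fintype.card ι) 1 := by
    rw [← card_roots' R]
    refine Multiset.eq_replicate.2 ⟨rfl, fun b hb => ?_⟩
    exact h b ((mem_roots R.charpoly_monic.ne_zero).1 hb)
  have h2 : R.charpoly = (X - C 1) ^ Fintype.card ι := by
    rw [charpoly_prod R, h1, Multiset.map_replicate, Multiset.prod_replicate]
  constructor
  · have h3 := Matrix.aeval_self_charpoly R
    rw [h2, map_pow, map_sub, aeval_X, aeval_C, map_one] at h3
    exact h3
  · rw [Matrix.trace_eq_sum_roots_charpoly, h1, Multiset.sum_replicate, nsmul_eq_mul, mul_one]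

end trace

/-- `s ↦ trace (u ^ s * Y)` is a polynomial for unipotent `u` -/
lemma trace_zero {ι : Type*} [Fintype ι] [DecidableEq ι] {F : Type*} [Field F] [CharZero F]
    (u Y : Matrix ι ι F) (b : ℕ) (hu : (u - 1) ^ b = 0) (M : ℕ) (hM : 0 < M) (k : F)
    (h : ∀ s : ℕ, (u ^ (1 + M * s) * Y).trace = k) : Y.trace = k := by
  set ν := u - 1 with hν
  have hu' : u = ν + 1 := by rw [hν]; abel
  have hpow : ∀ s : ℕ, u ^ s = ∑ i ∈ Finset.range b, (s.choose i : F) • ν ^ i := by
    intro s
    have e1 : u ^ s = ∑ i ∈ Finset.range (s + 1), (s.choose i : F) • ν ^ i := by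
      rw [hu', (Commute.one_right ν).add_pow]
      refine Finset.sum_congr rfl fun i _ => ?_
      rw [one_pow, mul_one, Nat.cast_smul_eq_nsmul, nsmul_eq_mul]
      exact (Nat.cast_commute _ _).symm.eq
    rw [e1]
    rw [Finset.sum_subset (Finset.range_subset_range.2 (show s + 1 ≤ s + 1 + b by omega))
      (fun i _ hi => by
        have : s.choose i = 0 := Nat.choose_eq_zero_of_lt (by
          rw [Finset.mem_range] at hi
          omega)
        rw [this, Nat.cast_zero, zero_smul])]
    symm
    refine Finset.sum_subset (Finset.range_subset_range.2 (show b ≤ s + 1 + b by omega))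
      (fun i _ hi => ?_)
    rw [Finset.mem_range, not_lt] at hi
    rw [pow_eq_zero_of_le hi hu, smul_zero]
  let p : F[X] := ∑ i ∈ Finset.range b, C ((ν ^ i * Y).trace / (i.factorial : F)) * descPochhammer F i
  have hp : ∀ s : ℕ, p.eval (s : F) = (u ^ s * Y).trace := by
    intro s
    rw [hpow s, Finset.sum_mul, Matrix.trace_sum, eval_finsetSum]
    refine Finset.sum_congr rfl fun i _ => ?_
    rw [eval_mul, eval_C, descPochhammer_eval_eq_descFactorial, Nat.descFactorial_eq_factorial_mul_choose,
      smul_mul_assoc, Matrix.trace_smul, smul_eq_mul, Nat.cast_mul]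
    have : ((i.factorial : ℕ) : F) ≠ 0 := Nat.cast_ne_zero.2 i.factorial_ne_zero
    field_simp
  have hpk : p = C k := by
    refine Polynomial.eq_of_infinite_eval_eq p (C k)
      (Set.infinite_of_injective_forall_mem (f := fun s : ℕ => (((1 + M * s : ℕ)) : F)) ?_ ?_)
    · intro s t hst
      have h1 : 1 + M * s = 1 + M * t := Nat.cast_injective hst
      have h2 : M * s = M * t := by omega
      exact Nat.eq_of_mul_eq_mul_left hM h2
    · intro s
      show p.eval _ = (C k).eval _
      rw [hp, h, eval_C]
  have := hp 0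
  rw [hpk, eval_C, pow_zero, one_mul] at this
  exact this.symm

/-- a nonempty open set covered by finitely many closed sets -/
lemma exists_open {X ι : Type*} [TopologicalSpace X] [DecidableEq ι] (s : Finset ι) (A : ι → Set X)
    (hA : ∀ i, IsClosed (A i)) : ∀ U : Set X, IsOpen U → U.Nonempty → (∀ x ∈ U, ∃ i ∈ s, x ∈ A i) →
    ∃ i ∈ s, ∃ V : Set X, IsOpen V ∧ V.Nonempty ∧ V ⊆ U ∧ V ⊆ A i := by
  induction s using Finset.induction_on with
  | empty =>
    intro U _ hne hU
    obtain ⟨x, hx⟩ := hne
    obtain ⟨i, hi, _⟩ := hU x hx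
    exact absurd hi (Finset.notMem_empty i)
  | insert a s _ ih =>
    intro U hUo hne hU
    by_cases hc : (U \ A a).Nonempty
    · obtain ⟨i, hi, V, h1, h2, h3, h4⟩ := ih (U \ A a) (hUo.sdiff (hA a)) hc (by
        rintro x ⟨hx, hxa⟩
        obtain ⟨i, hi, hxi⟩ := hU x hx
        rcases Finset.mem_insert.1 hi with rfl | hi
        · exact absurd hxi hxa
        · exact ⟨i, hi, hxi⟩)
      exact ⟨i, Finset.mem_insert_of_mem hi, V, h1, h2, h3.trans Set.sdiff_subset, h4⟩
    · refine ⟨a, Finset.mem_insert_self _ _, U, hUo, hne, subset_rfl, ?_⟩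
      intro x hx
      by_contra hxa
      exact hc ⟨x, hx, hxa⟩

end Pool.Agent.NH56.HY.OrdA
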