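import Pool.Agent.NH56.HY.Stm
import Pool.Agent.NH56.HY.OrdA

/-!
# Ordinary Frobenius elements are dense (argument of Bogomolov and Zarhin)
-/

set_option autoImplicit false

namespace Pool.Agent.NH56.HY

open Matrix Polynomial Filter Topology NumberField IsDedekindDomain

/-- a number divisible by `p` of size at most `b p` -/
lemma ord_key {P : ℤ[X]} {p b : ℕ} (hp : p.Prime) (hb : 0 < b) (hm : P.Monic) (hd : P.natDegree = b)
    (hw : ∀ z : ℂ, aeval z P = 0 → ‖z‖ ^ 2 = (p : ℝ) ^ 2) (hdiv : (p : ℤ) ∣ P.coeff (b - 1)) :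
    ∃ k : ℤ, k ∈ Finset.Icc (-(b : ℤ)) b ∧ P.coeff (b - 1) = -(k * p) := by
  obtain ⟨m, hm'⟩ := hdiv
  have hp0 : (0 : ℝ) < p := by exact_mod_cast hp.pos
  have h1 := coeff_le_of_roots_le (f := Int.castRingHom ℂ) (B := (p : ℝ)) (b - 1) hm
    (IsAlgClosed.splits _) (by
      intro z hz
      rw [mem_roots (hm.map _).ne_zero, IsRoot.def, eval_map] at hz
      have h2 := hw z (by rw [aeval_def]; exact hz)
      exact le_of_eq ((sq_eq_sq₀ (norm_nonneg z) hp0.le).1 h2))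
  rw [hd, coeff_map, hm'] at h1
  have e1 : b - (b - 1) = 1 := by omega
  have e2 : b.choose (b - 1) = b := by
    rw [← Nat.choose_symm (Nat.sub_le b 1), e1, Nat.choose_one_right]
  rw [e1, e2, pow_one] at h1
  have e3 : ‖(Int.castRingHom ℂ) ((p : ℤ) * m)‖ = (p : ℝ) * |(m : ℝ)| := by
    rw [eq_intCast, Complex.norm_intCast]
    push_cast
    rw [abs_mul, abs_of_pos hp0]
  rw [e3] at h1
  have h3 : |(m : ℝ)| ≤ b := le_of_mul_le_mul_left h1 hp0
  have h4 : |m| ≤ b := by exact_mod_cast h3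
  have h5 := abs_le.1 h4
  refine ⟨-m, Finset.mem_Icc.2 ⟨by omega, by omega⟩, ?_⟩
  rw [hm']
  ring

/-- the twist of `ρ` by the inverse of `χ` -/
noncomputable def tw {Γ : Type} [Group Γ] {ℓ : ℕ} [Fact ℓ.Prime] {n : Type} [Fintype n]
    [DecidableEq n] (χ : Γ →* ℚ_[ℓ]) (ρ : Γ →* Matrix n n ℚ_[ℓ]) : Γ →* Matrix n n ℚ_[ℓ] where
  toFun g := (χ g)⁻¹ • ρ g
  map_one' := by simp
  map_mul' g h := by
    rw [map_mul, map_mul, mul_inv, smul_mul_smul_comm]

section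

variable {Γ : Type} [Group Γ] {ℓ : ℕ} [Fact ℓ.Prime] {n : Type} [Fintype n]
    [DecidableEq n] (χ : Γ →* ℚ_[ℓ]) (ρ : Γ →* Matrix n n ℚ_[ℓ])

lemma tw_apply (g : Γ) : tw χ ρ g = (χ g)⁻¹ • ρ g := rfl

lemma chi_ne (g : Γ) : χ g ≠ 0 := by
  intro h
  have h1 : χ g * χ g⁻¹ = 1 := by rw [← map_mul, mul_inv_cancel, map_one]
  rw [h, zero_mul] at h1
  exact zero_ne_one h1

lemma small_lt (ℓ : ℕ) [hl : Fact ℓ.Prime] : ((ℓ : ℝ) ^ 2)⁻¹ < 1 := by
  have h2 : (1 : ℝ) < ℓ := by exact_mod_cast hl.out.one_lt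
  have h3 : (1 : ℝ) < (ℓ : ℝ) ^ 2 := by nlinarith
  exact inv_lt_one_of_one_lt₀ h3

lemma small_pos (ℓ : ℕ) [hl : Fact ℓ.Prime] : 0 < ((ℓ : ℝ) ^ 2)⁻¹ := by
  have h2 : (0 : ℝ) < ℓ := by exact_mod_cast hl.out.pos
  positivity

lemma tw_near {g : Γ} (hg : g ∈ Near χ ρ) (i j : n) :
    ‖(tw χ ρ g - 1) i j‖ ≤ ((ℓ : ℝ) ^ 2)⁻¹ := by
  obtain ⟨h1, h2⟩ := hg
  have h3 := chi_ne χ g
  have h4 : ‖χ g‖ = 1 := by
    have h5 : ‖χ g - 1‖ ≠ ‖(1 : ℚ_[ℓ])‖ := by
      rw [norm_one]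
      exact (h2.trans_lt (small_lt ℓ)).ne
    have h6 := Padic.add_eq_max_of_ne h5
    rw [sub_add_cancel, norm_one, max_eq_right (h2.trans (small_lt ℓ).le)] at h6
    exact h6
  have e1 : (tw χ ρ g - 1) i j = (χ g)⁻¹ * (ρ g - 1) i j + ((χ g)⁻¹ - 1) * (1 : Matrix n n ℚ_[ℓ]) i j := by
    rw [tw_apply, Matrix.sub_apply, Matrix.sub_apply, Matrix.smul_apply, smul_eq_mul]
    ring
  rw [e1]
  refine (Padic.nonarchimedean _ _).trans (max_le ?_ ?_)
  · rw [norm_mul, norm_inv, h4, inv_one, one_mul]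
    exact h1 i j
  · have e2 : (χ g)⁻¹ - 1 = -((χ g)⁻¹ * (χ g - 1)) := by
      field_simp
      ring
    rw [norm_mul, e2, norm_neg, norm_mul, norm_inv, h4, inv_one, one_mul]
    by_cases hij : i = j
    · subst hij
      rw [Matrix.one_apply_eq, norm_one, mul_one]
      exact h2
    · rw [Matrix.one_apply_ne hij, norm_zero, mul_zero]
      exact (small_pos ℓ).le

/-- the matrices over the algebraic closure -/
noncomputable abbrev R (g : Γ) : Matrix n n (PadicAlgCl ℓ) :=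
  (algebraMap ℚ_[ℓ] (PadicAlgCl ℓ)).mapMatrix (tw χ ρ g)

lemma R_trace (g : Γ) : (R χ ρ g).trace = algebraMap ℚ_[ℓ] (PadicAlgCl ℓ) (tw χ ρ g).trace := by
  unfold R Matrix.trace
  rw [map_sum]
  rfl

lemma R_pow (g : Γ) (s : ℕ) : R χ ρ g ^ s = R χ ρ (g ^ s) := by
  unfold R
  rw [map_pow, map_pow]

lemma R_near (hNR : S_NR1) {g : Γ} (hg : g ∈ Near χ ρ) (a : PadicAlgCl ℓ)
    (ha : (R χ ρ g).charpoly.IsRoot a) : ‖a - 1‖ ≤ ((ℓ : ℝ) ^ 2)⁻¹ := by
  refine ((hNR ℓ).2.2 n (R χ ρ g) ?_).1 a ha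
  intro i j
  have e1 : (R χ ρ g - 1) i j = algebraMap ℚ_[ℓ] (PadicAlgCl ℓ) ((tw χ ρ g - 1) i j) := by
    unfold R
    rw [← map_one (algebraMap ℚ_[ℓ] (PadicAlgCl ℓ)).mapMatrix, ← map_sub]
    rfl
  rw [e1]
  have e2 : ‖algebraMap ℚ_[ℓ] (PadicAlgCl ℓ) ((tw χ ρ g - 1) i j)‖ = ‖(tw χ ρ g - 1) i j‖ :=
    PadicAlgCl.norm_extends ℓ _
  rw [e2]
  exact tw_near χ ρ hg i j

/-- from the eigenvalues to unipotence over the base field -/
lemma unip_base {g : Γ} (h : ∀ a, (R χ ρ g).charpoly.IsRoot a → a = 1) :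
    (tw χ ρ g - 1) ^ Fintype.card n = 0 ∧ (tw χ ρ g).trace = Fintype.card n := by
  obtain ⟨h1, h2⟩ := OrdA.unip _ h
  have hinj := (algebraMap ℚ_[ℓ] (PadicAlgCl ℓ)).injective
  constructor
  · have h3 : (algebraMap ℚ_[ℓ] (PadicAlgCl ℓ)).mapMatrix ((tw χ ρ g - 1) ^ Fintype.card n) = 0 := by
      rw [map_pow, map_sub, map_one]
      exact h1
    ext i j
    have h4 := congrFun (congrFun h3 i) j
    rw [RingHom.mapMatrix_apply, Matrix.map_apply, Matrix.zero_apply] at h4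
    rw [Matrix.zero_apply]
    exact (map_eq_zero_iff _ hinj).1 h4
  · rw [R_trace] at h2
    apply hinj
    rw [h2, map_natCast]

end

theorem t_ORD : S_NR1 → S_DG1 → S_ORD := by
  intro hNR hDG K _ _ ℓ _ n _ _ S χ ρ P hχ hρ hn hP hNU U hU hUne hUN
  by_contra hcon
  have hne : Nonempty n := Fintype.card_pos_iff.1 hn
  -- the closed sets
  let A : ℤ → Set (GK K) := fun k => {g | (ρ g).trace = k * χ g}
  have hA : ∀ k, IsClosed (A k) := fun k =>
    isClosed_eq (Continuous.matrix_trace hρ) (continuous_const.mul hχ)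
  have hcover : ∀ x ∈ U, ∃ k ∈ Finset.Icc (-(Fintype.card n : ℤ)) (Fintype.card n), x ∈ A k := by
    by_contra hc
    have hop : IsOpen (U \ ⋃ k ∈ Finset.Icc (-(Fintype.card n : ℤ)) (Fintype.card n), A k) :=
      hU.sdiff (isClosed_biUnion_finset fun k _ => hA k)
    have hne' : (U \ ⋃ k ∈ Finset.Icc (-(Fintype.card n : ℤ)) (Fintype.card n), A k).Nonempty := by
      by_contra h'
      apply hc
      intro x hx
      by_contra h''
      apply h'
      refine ⟨x, hx, ?_⟩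
      intro hmem
      rw [Set.mem_iUnion₂] at hmem
      obtain ⟨k, hk, hxk⟩ := hmem
      exact h'' ⟨k, hk, hxk⟩
    obtain ⟨p, hp, hpS, v, hv, σ, hσ, hσU⟩ := hDG K _ hop hne' S
    apply hcon
    refine ⟨p, hp, hpS, v, hv, ⟨σ, hσ, hσU.1⟩, ?_⟩
    intro hdiv
    obtain ⟨hm, hw, hfr⟩ := hP p hp hpS v hv
    obtain ⟨hχσ, hcp⟩ := hfr σ hσ
    have hd : (P v).natDegree = Fintype.card n := by
      rw [← hm.natDegree_map (Int.castRingHom ℚ_[ℓ]), ← hcp, Matrix.charpoly_natDegree_eq_dim]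
    obtain ⟨k, hk, hk'⟩ := ord_key hp hn hm hd hw hdiv
    apply hσU.2
    rw [Set.mem_iUnion₂]
    refine ⟨k, hk, ?_⟩
    show (ρ σ⁻¹).trace = k * χ σ⁻¹
    rw [Matrix.trace_eq_neg_charpoly_coeff, hcp, coeff_map, hk', hχσ]
    simp
  obtain ⟨k, -, U', hU'o, ⟨g0, hg0⟩, hU'U, hU'k⟩ := OrdA.exists_open _ A hA U hU hUne hcover
  -- the subgroup
  have hVo : IsOpen {h : GK K | g0 * h ∈ U'} := hU'o.preimage (continuous_const.mul continuous_id)
  obtain ⟨W, hW⟩ := ProfiniteGrp.exist_openNormalSubgroup_sub_open_nhds_of_one (G := GK K) hVo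
    (show g0 * 1 ∈ U' by rw [mul_one]; exact hg0)
  have hWo : IsOpen ((W.toSubgroup : Subgroup (GK K)) : Set (GK K)) := W.isOpen'
  have hWn : (W.toSubgroup : Subgroup (GK K)).Normal := W.isNormal'
  have hcos : ∀ w ∈ W.toSubgroup, g0 * w ∈ U' := fun w hw => hW hw
  have hfin : Finite (GK K ⧸ W.toSubgroup) := Subgroup.quotient_finite_of_isOpen _ hWo
  have hidx : 0 < W.toSubgroup.index := by
    rw [Nat.pos_iff_ne_zero]
    exact Subgroup.index_ne_zero_of_finite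
  have hpm : ∀ g : GK K, g ^ W.toSubgroup.index ∈ W.toSubgroup := fun g =>
    Subgroup.pow_index_mem _ g
  have htr : ∀ w ∈ W.toSubgroup, (tw χ ρ (g0 * w)).trace = k := by
    intro w hw
    have h1 : (ρ (g0 * w)).trace = k * χ (g0 * w) := hU'k (hcos w hw)
    rw [tw_apply, Matrix.trace_smul, h1, smul_eq_mul]
    have := chi_ne χ (g0 * w)
    field_simp
  have hlift : ∀ g w s, g = g0 * w → w ∈ W.toSubgroup →
      ∃ w' ∈ W.toSubgroup, g ^ (1 + W.toSubgroup.index * s) = g0 * w' := by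
    intro g w s hg hw
    refine ⟨w * (g ^ W.toSubgroup.index) ^ s,
      W.toSubgroup.mul_mem hw (W.toSubgroup.pow_mem (hpm g) s), ?_⟩
    rw [pow_add, pow_one, pow_mul, ← mul_assoc, ← hg]
  -- step 1
  have step1 : ∀ w ∈ W.toSubgroup, (tw χ ρ (g0 * w) - 1) ^ Fintype.card n = 0 ∧
      (tw χ ρ (g0 * w)).trace = Fintype.card n := by
    intro w hw
    apply unip_base
    have hnear : g0 * w ∈ Near χ ρ := hUN (hU'U (hcos w hw))
    have hcl := R_near χ ρ hNR hnear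
    have hne0 : ∀ a, (R χ ρ (g0 * w)).charpoly.IsRoot a → a ≠ 0 := by
      rintro a ha rfl
      have := hcl 0 ha
      rw [zero_sub, norm_neg, norm_one] at this
      exact absurd this (not_le.2 (small_lt ℓ))
    intro a ha
    refine OrdA.roots_one (R χ ρ (g0 * w)) 1 W.toSubgroup.index (k : PadicAlgCl ℓ) ?_ ?_ ?_ ?_ a ha
    · intro s
      obtain ⟨w', hw', e⟩ := hlift (g0 * w) w s rfl hw
      rw [R_pow, e, R_trace, htr w' hw', map_intCast]
    · intro b hb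
      rw [pow_one]
      exact hne0 b hb
    · intro b c hb hc hbc
      have hc0 := hne0 c hc
      have h1 := ((hNR ℓ).2.1 c b (hcl c hc) (hcl b hb)).2
      have h2 := ((hNR ℓ).2.1 b c⁻¹ (hcl b hb) h1).1
      have h3 := (hNR ℓ).1 (b * c⁻¹) h2 W.toSubgroup.index hidx (by
        rw [mul_pow, hbc, ← mul_pow, mul_inv_cancel₀ hc0, one_pow])
      rw [← div_eq_mul_inv, div_eq_one_iff_eq hc0] at h3
      exact h3
    · intro b hb hb1
      exact (hNR ℓ).1 b (hcl b hb) _ hidx hb1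
  -- step 2
  have step2 : ∀ w ∈ W.toSubgroup, (tw χ ρ w).trace = Fintype.card n := by
    intro w hw
    have h1 := (step1 1 W.toSubgroup.one_mem).1
    rw [mul_one] at h1
    refine OrdA.trace_zero (tw χ ρ g0) (tw χ ρ w) _ h1 W.toSubgroup.index hidx _ ?_
    intro s
    obtain ⟨w', hw', e⟩ := hlift g0 1 s (mul_one g0).symm W.toSubgroup.one_mem
    rw [← map_pow, e, ← map_mul, mul_assoc]
    exact (step1 _ (W.toSubgroup.mul_mem hw' hw)).2
  -- step 3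
  obtain ⟨w, hw, hnil⟩ := hNU W.toSubgroup hWo
  apply hnil
  have h3 : (tw χ ρ w - 1) ^ Fintype.card n = 0 := by
    refine (unip_base χ ρ ?_).1
    intro a ha
    refine OrdA.roots_one (R χ ρ w) 0 1 (Fintype.card n : PadicAlgCl ℓ) ?_ ?_ ?_ ?_ a ha
    · intro s
      rw [R_pow, R_trace, step2 _ (W.toSubgroup.pow_mem hw _), map_natCast]
    · intro b _
      rw [pow_zero]
      exact one_ne_zero
    · intro b c _ _ h
      rwa [pow_one, pow_one] at h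
    · intro b _ h
      rwa [pow_one] at h
  refine ⟨Fintype.card n, ?_⟩
  have e1 : ρ w - χ w • (1 : Matrix n n ℚ_[ℓ]) = χ w • (tw χ ρ w - 1) := by
    rw [tw_apply, smul_sub, smul_smul, mul_inv_cancel₀ (chi_ne χ w), one_smul]
  rw [e1, _root_.smul_pow, h3, smul_zero]

end Pool.Agent.NH56.HY
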