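import Pool.Agent.NH56.HY.Stm

/-!
# The convexity lemma (project HY, helper42)
-/

set_option autoImplicit false

namespace Pool.Agent.NH56.HY

open MeasureTheory

namespace MajAux

lemma tr (c : ℝ) {N H : Multiset ℝ} (h : LiesAbove N H) :
    (N.map fun x => max (c - x) 0).sum ≤ (H.map fun x => max (c - x) 0).sum := by
  obtain ⟨t, ht, hcard, hsum⟩ := h.2.2 (N.filter fun x => x < c) (Multiset.filter_le _ _)
  have e1 : (N.map fun x => max (c - x) 0).sum
      = (N.filter fun x => x < c).card • c - (N.filter fun x => x < c).sum := by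
    conv_lhs => rw [← Multiset.filter_add_not (fun x => x < c) N]
    rw [Multiset.map_add, Multiset.sum_add]
    have h1 : ((N.filter fun x => ¬ x < c).map fun x => max (c - x) 0).sum = 0 := by
      apply Multiset.sum_eq_zero
      intro y hy
      rw [Multiset.mem_map] at hy
      obtain ⟨x, hx, rfl⟩ := hy
      have := (Multiset.mem_filter.1 hx).2
      apply max_eq_right
      linarith
    have h2 : ((N.filter fun x => x < c).map fun x => max (c - x) 0)
        = (N.filter fun x => x < c).map fun x => c - x := by
      apply Multiset.map_congr rfl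
      intro x hx
      have := (Multiset.mem_filter.1 hx).2
      apply max_eq_left
      linarith
    rw [h1, h2, add_zero, Multiset.sum_map_sub, Multiset.map_const', Multiset.sum_replicate,
      Multiset.map_id']
  have e2 : (t.map fun x => c - x).sum = t.card • c - t.sum := by
    rw [Multiset.sum_map_sub, Multiset.map_const', Multiset.sum_replicate, Multiset.map_id']
  have e3 : (t.map fun x => c - x).sum ≤ (t.map fun x => max (c - x) 0).sum :=
    Multiset.sum_map_le_sum_map _ _ fun x _ => le_max_left _ _
  obtain ⟨w, rfl⟩ := Multiset.le_iff_exists_add.1 ht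
  rw [Multiset.map_add, Multiset.sum_add]
  have e4 : 0 ≤ (w.map fun x => max (c - x) 0).sum := by
    apply Multiset.sum_nonneg
    intro y hy
    rw [Multiset.mem_map] at hy
    obtain ⟨x, -, rfl⟩ := hy
    exact le_max_right _ _
  rw [e1]
  rw [hcard] at e2
  linarith

lemma int1 {m b x : ℝ} (h1 : m ≤ x) (h2 : x ≤ b) :
    ∫ c in m..b, max (c - x) 0 = (b - x) ^ 2 / 2 := by
  have hc : Continuous fun c : ℝ => max (c - x) 0 := by fun_prop
  rw [← intervalIntegral.integral_add_adjacent_intervals (hc.intervalIntegrable m x)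
    (hc.intervalIntegrable x b)]
  have e1 : ∫ c in m..x, max (c - x) 0 = ∫ c in m..x, (0 : ℝ) := by
    apply intervalIntegral.integral_congr
    intro c hc
    rw [Set.uIcc_of_le h1] at hc
    exact max_eq_right (by linarith [hc.2])
  have e2 : ∫ c in x..b, max (c - x) 0 = ∫ c in x..b, (c - x) := by
    apply intervalIntegral.integral_congr
    intro c hc
    rw [Set.uIcc_of_le h2] at hc
    exact max_eq_left (by linarith [hc.1])
  rw [e1, e2, intervalIntegral.integral_zero, zero_add,
    intervalIntegral.integral_comp_sub_right (fun c : ℝ => c) x, integral_id]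
  ring

lemma cont (N : Multiset ℝ) : Continuous fun c : ℝ => (N.map fun x => max (c - x) 0).sum :=
  continuous_multiset_sum N fun x _ => by fun_prop

lemma int2 {m b : ℝ} (N : Multiset ℝ) (h : ∀ x ∈ N, m ≤ x ∧ x ≤ b) :
    ∫ c in m..b, (N.map fun x => max (c - x) 0).sum = (N.map fun x => (b - x) ^ 2 / 2).sum := by
  induction N using Multiset.induction with
  | empty => simp
  | cons a s ih =>
    have ha := h a (Multiset.mem_cons_self a s)
    have hs := ih fun x hx => h x (Multiset.mem_cons_of_mem hx)
    simp only [Multiset.map_cons, Multiset.sum_cons]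
    rw [intervalIntegral.integral_add, int1 ha.1 ha.2, hs]
    · exact Continuous.intervalIntegrable (by fun_prop) _ _
    · exact (cont s).intervalIntegrable _ _

lemma bd (N : Multiset ℝ) : ∀ x ∈ N, |x| ≤ (N.map fun x => |x|).sum := by
  intro x hx
  apply Multiset.single_le_sum
  · intro y hy
    rw [Multiset.mem_map] at hy
    obtain ⟨z, -, rfl⟩ := hy
    exact abs_nonneg z
  · exact Multiset.mem_map_of_mem _ hx

lemma sq_eq (b : ℝ) (N : Multiset ℝ) : (N.map fun x => x ^ 2).sum
    = 2 * (N.map fun x => (b - x) ^ 2 / 2).sum - N.card * b ^ 2 + 2 * b * N.sum := by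
  induction N using Multiset.induction with
  | empty => simp
  | cons a s ih =>
    simp only [Multiset.map_cons, Multiset.sum_cons, Multiset.card_cons, Nat.cast_add,
      Nat.cast_one]
    rw [ih]
    ring

end MajAux

open MajAux in
theorem t_MAJ : S_MAJ := by
  intro N H h
  obtain ⟨R, hR⟩ : ∃ R : ℝ, R = (N.map fun x => |x|).sum + (H.map fun x => |x|).sum := ⟨_, rfl⟩
  have hN0 : 0 ≤ (N.map fun x => |x|).sum := by
    apply Multiset.sum_nonneg
    intro y hy
    rw [Multiset.mem_map] at hy
    obtain ⟨z, -, rfl⟩ := hy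
    exact abs_nonneg z
  have hH0 : 0 ≤ (H.map fun x => |x|).sum := by
    apply Multiset.sum_nonneg
    intro y hy
    rw [Multiset.mem_map] at hy
    obtain ⟨z, -, rfl⟩ := hy
    exact abs_nonneg z
  have hN : ∀ x ∈ N, -R ≤ x ∧ x ≤ R := fun x hx => abs_le.1 ((bd N x hx).trans (by linarith))
  have hH : ∀ x ∈ H, -R ≤ x ∧ x ≤ R := fun x hx => abs_le.1 ((bd H x hx).trans (by linarith))
  have h1 : ∫ c in (-R)..R, (N.map fun x => max (c - x) 0).sum
      ≤ ∫ c in (-R)..R, (H.map fun x => max (c - x) 0).sum := by
    apply intervalIntegral.integral_mono_on (by linarith) ((cont N).intervalIntegrable _ _)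
      ((cont H).intervalIntegrable _ _)
    intro c _
    exact tr c h
  rw [int2 N hN, int2 H hH] at h1
  rw [sq_eq R N, sq_eq R H, h.1, h.2.1]
  linarith

end Pool.Agent.NH56.HY
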