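import Pool.Agent.NH56.HY.Stm

/-!
# The representation in degree two is not unipotent up to scalars
-/

set_option autoImplicit false
set_option linter.unusedSectionVars false

namespace Pool.Agent.NH56.HY

open Matrix Filter Topology NumberField IsDedekindDomain

namespace NscP

section mat

variable {κ : Type} [Fintype κ] [DecidableEq κ]

theorem nil_pow {F : Type} [Field F] {N : Matrix κ κ F} (h : IsNilpotent N) :
    N ^ Fintype.card κ = 0 := by
  have h1 : IsNilpotent (Matrix.toLin' N) := by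
    obtain ⟨k, hk⟩ := h
    exact ⟨k, by rw [← Matrix.toLin'_pow, hk, map_zero]⟩
  have h2 := IsNilpotent.charpoly_eq_X_pow_finrank h1
  have h3 := LinearMap.aeval_self_charpoly (Matrix.toLin' N)
  rw [h2, map_pow, Polynomial.aeval_X, Module.finrank_fintype_fun_eq_card, ← Matrix.toLin'_pow] at h3
  exact (LinearEquiv.map_eq_zero_iff _).1 h3

theorem nil_trace {F : Type} [Field F] {N : Matrix κ κ F} (h : IsNilpotent N) : N.trace = 0 :=
  (Matrix.isNilpotent_trace_of_isNilpotent h).eq_zero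

/-- subtract the scalar matrix with the same trace -/
noncomputable def sc {F : Type} [Field F] (x : Matrix κ κ F) : Matrix κ κ F :=
  x - (x.trace / Fintype.card κ) • (1 : Matrix κ κ F)

theorem sc_add {F : Type} [Field F] (x y : Matrix κ κ F) : sc (x + y) = sc x + sc y := by
  unfold sc
  rw [Matrix.trace_add, add_div, add_smul]
  abel

theorem sc_smul {F : Type} [Field F] (c : F) (x : Matrix κ κ F) : sc (c • x) = c • sc x := by
  unfold sc
  rw [Matrix.trace_smul, smul_sub, smul_smul, smul_eq_mul, mul_div_assoc]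

theorem sc_sum {F : Type} [Field F] {r : ℕ} (f : Fin r → Matrix κ κ F) :
    sc (∑ k, f k) = ∑ k, sc (f k) := by
  let L : Matrix κ κ F →+ Matrix κ κ F := AddMonoidHom.mk' sc sc_add
  exact map_sum L f Finset.univ

theorem sc_map {F : Type} [Field F] [CharZero F] (x : Matrix κ κ ℚ) :
    sc (x.map (algebraMap ℚ F)) = (sc x).map (algebraMap ℚ F) := by
  unfold sc
  have h3 : (x.map (algebraMap ℚ F)).trace = algebraMap ℚ F x.trace :=
    (AddMonoidHom.map_trace (algebraMap ℚ F).toAddMonoidHom x).symm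
  ext i j
  rw [h3, Matrix.sub_apply, Matrix.smul_apply, Matrix.map_apply, Matrix.map_apply,
    Matrix.sub_apply, Matrix.smul_apply, map_sub, smul_eq_mul, smul_eq_mul, map_mul, map_div₀,
    map_natCast]
  congr 2
  rw [Matrix.one_apply, Matrix.one_apply]
  split_ifs
  · rw [map_one]
  · rw [map_zero]

theorem map_pow_rat {F : Type} [Field F] [CharZero F] (x : Matrix κ κ ℚ) (n : ℕ) :
    (x ^ n).map (algebraMap ℚ F) = (x.map (algebraMap ℚ F)) ^ n :=
  map_pow (algebraMap ℚ F).mapMatrix x n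

theorem map_eq_zero_rat {F : Type} [Field F] [CharZero F] {x : Matrix κ κ ℚ}
    (h : x.map (algebraMap ℚ F) = 0) : x = 0 := by
  ext i j
  have h1 := congrFun (congrFun h i) j
  rw [Matrix.map_apply, Matrix.zero_apply] at h1
  exact (map_eq_zero _).1 h1

/-- polynomial identities extend from rational to complex coefficients -/
theorem poly_ext {r n : ℕ} (z : Fin r → Matrix κ κ ℚ) (h : ∀ c : Fin r → ℚ, (∑ k, c k • z k) ^ n = 0)
    (c : Fin r → ℂ) : (∑ k, c k • (z k).map (algebraMap ℚ ℂ)) ^ n = 0 := by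
  obtain ⟨P, hP0⟩ : ∃ P : Matrix κ κ (MvPolynomial (Fin r) ℚ),
    P = ∑ k, (MvPolynomial.X k : MvPolynomial (Fin r) ℚ) • (z k).map MvPolynomial.C := ⟨_, rfl⟩
  have hev : ∀ (F : Type) [Field F] (f : ℚ →+* F) (c : Fin r → F),
      P.map (MvPolynomial.eval₂Hom f c) = ∑ k, c k • (z k).map f := by
    intro F _ f c
    rw [hP0]
    ext i j
    rw [Matrix.map_apply, Matrix.sum_apply, Matrix.sum_apply, map_sum]
    refine Finset.sum_congr rfl fun k _ => ?_
    rw [Matrix.smul_apply, Matrix.smul_apply, Matrix.map_apply, Matrix.map_apply, smul_eq_mul,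
      smul_eq_mul, map_mul]
    congr 1
    · exact MvPolynomial.eval₂_X _ _ _
    · exact MvPolynomial.eval₂_C _ _ _
  have hpw : ∀ (F : Type) [Field F] (f : ℚ →+* F) (c : Fin r → F),
      (P ^ n).map (MvPolynomial.eval₂Hom f c) = (P.map (MvPolynomial.eval₂Hom f c)) ^ n :=
    fun F _ f c => map_pow (MvPolynomial.eval₂Hom f c).mapMatrix P n
  have hP : P ^ n = 0 := by
    ext1 i j
    rw [Matrix.zero_apply]
    refine MvPolynomial.funext fun c => ?_
    rw [map_zero]
    have h3 : (P ^ n).map (MvPolynomial.eval₂Hom (RingHom.id ℚ) c) = 0 := by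
      rw [hpw, hev]
      exact h c
    exact congrFun (congrFun h3 i) j
  rw [← hev, ← hpw, hP]
  exact Matrix.map_zero _ (map_zero _)

end mat

section lim

variable {κ : Type} [Fintype κ] [DecidableEq κ] {ℓ : ℕ} [hl : Fact ℓ.Prime]

theorem lim_one {A : ℕ → Matrix κ κ ℚ_[ℓ]} {X : Matrix κ κ ℚ_[ℓ]}
    (h : Tendsto (fun k : ℕ => ((ℓ : ℚ_[ℓ]) ^ k)⁻¹ • (A k - 1)) atTop (𝓝 X)) :
    Tendsto A atTop (𝓝 1) := by
  have h0 : Tendsto (fun k : ℕ => (ℓ : ℚ_[ℓ]) ^ k) atTop (𝓝 0) :=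
    tendsto_pow_atTop_nhds_zero_of_norm_lt_one Padic.norm_p_lt_one
  have h1 := (h0.smul h).add_const (1 : Matrix κ κ ℚ_[ℓ])
  rw [zero_smul, zero_add] at h1
  refine h1.congr fun k => ?_
  have h2 : (ℓ : ℚ_[ℓ]) ^ k ≠ 0 := pow_ne_zero _ (by exact_mod_cast hl.out.ne_zero)
  rw [smul_smul, mul_inv_cancel₀ h2, one_smul, sub_add_cancel]

theorem lim_pow {A : ℕ → Matrix κ κ ℚ_[ℓ]} {X : Matrix κ κ ℚ_[ℓ]}
    (h : Tendsto (fun k : ℕ => ((ℓ : ℚ_[ℓ]) ^ k)⁻¹ • (A k - 1)) atTop (𝓝 X)) (M : ℕ) :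
    Tendsto (fun k : ℕ => ((ℓ : ℚ_[ℓ]) ^ k)⁻¹ • (A k ^ M - 1)) atTop (𝓝 ((M : ℚ_[ℓ]) • X)) := by
  have h1 := lim_one h
  have h2 : Tendsto (fun k => ∑ i ∈ Finset.range M, A k ^ i) atTop
      (𝓝 (∑ i ∈ Finset.range M, (1 : Matrix κ κ ℚ_[ℓ]) ^ i)) :=
    tendsto_finsetSum _ fun i _ => h1.pow i
  have h3 := h.mul h2
  have e : X * ∑ i ∈ Finset.range M, (1 : Matrix κ κ ℚ_[ℓ]) ^ i = (M : ℚ_[ℓ]) • X := by
    simp only [one_pow, Finset.sum_const, Finset.card_range]
    rw [mul_smul_comm, mul_one, Nat.cast_smul_eq_nsmul]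
  rw [e] at h3
  refine h3.congr fun k => ?_
  rw [smul_mul_assoc, mul_geom_sum]

theorem cont_sc : Continuous (sc : Matrix κ κ ℚ_[ℓ] → Matrix κ κ ℚ_[ℓ]) := by
  unfold sc
  exact continuous_id.sub ((continuous_id.matrix_trace.div_const _).smul continuous_const)

/-- the limit of matrices which are unipotent up to scalars -/
theorem lim_nil (hκ : 0 < Fintype.card κ) {B : ℕ → Matrix κ κ ℚ_[ℓ]} {Y : Matrix κ κ ℚ_[ℓ]}
    (h : Tendsto (fun k : ℕ => ((ℓ : ℚ_[ℓ]) ^ k)⁻¹ • (B k - 1)) atTop (𝓝 Y)) (c : ℕ → ℚ_[ℓ])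
    (hN : ∀ k, IsNilpotent (B k - c k • (1 : Matrix κ κ ℚ_[ℓ]))) : sc Y ^ Fintype.card κ = 0 := by
  have hb : (Fintype.card κ : ℚ_[ℓ]) ≠ 0 := by exact_mod_cast hκ.ne'
  have h1 : ∀ k, sc (((ℓ : ℚ_[ℓ]) ^ k)⁻¹ • (B k - 1)) =
      ((ℓ : ℚ_[ℓ]) ^ k)⁻¹ • (B k - c k • (1 : Matrix κ κ ℚ_[ℓ])) := by
    intro k
    rw [sc_smul]
    congr 1
    have h2 := nil_trace (hN k)
    rw [Matrix.trace_sub, Matrix.trace_smul, Matrix.trace_one, sub_eq_zero] at h2
    unfold sc
    rw [Matrix.trace_sub, Matrix.trace_one, h2, smul_eq_mul]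
    have e : (c k * (Fintype.card κ : ℚ_[ℓ]) - Fintype.card κ) / Fintype.card κ = c k - 1 := by
      field_simp
    rw [e, sub_smul, one_smul]
    abel
  have h2 : Tendsto (fun k : ℕ => (sc (((ℓ : ℚ_[ℓ]) ^ k)⁻¹ • (B k - 1))) ^ Fintype.card κ) atTop
      (𝓝 (sc Y ^ Fintype.card κ)) := ((cont_sc.tendsto Y).comp h).pow _
  have h3 : (fun k : ℕ => (sc (((ℓ : ℚ_[ℓ]) ^ k)⁻¹ • (B k - 1))) ^ Fintype.card κ) = fun _ => 0 := by
    funext k
    rw [h1]
    apply nil_pow
    exact (hN k).smul _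
  rw [h3] at h2
  exact tendsto_nhds_unique h2 tendsto_const_nhds |>.symm ▸ rfl

end lim

section blk

variable {ι : Type} [Fintype ι] [DecidableEq ι] {F : Type} [Field F]

theorem blk_mul {deg : ι → ℕ} {j : ℕ} {A B : Matrix ι ι F} (hA : IsGraded deg A) :
    blk deg j (A * B) = blk deg j A * blk deg j B := by
  ext a b
  show ∑ c, A a c * B c b = ∑ c : {c // deg c = j}, A a c * B c b
  have h1 : ∑ c ∈ Finset.univ.filter (fun c => deg c = j), A a c * B c b =
      ∑ c : {c // deg c = j}, A a c * B c b := Finset.sum_subtype _ (by simp) _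
  refine Eq.trans ?_ h1
  rw [Finset.sum_filter]
  refine Finset.sum_congr rfl fun c _ => ?_
  split_ifs with hc
  · rfl
  · rw [hA a c (by rw [a.2]; exact fun h => hc h.symm), zero_mul]

theorem blk_one {deg : ι → ℕ} {j : ℕ} : blk deg j (1 : Matrix ι ι F) = 1 := by
  ext a b
  show (1 : Matrix ι ι F) a b = _
  rw [Matrix.one_apply, Matrix.one_apply]
  simp only [Subtype.ext_iff]

theorem blk_pow {deg : ι → ℕ} {j : ℕ} {G : Type} [Group G] (ρ : G →* Matrix ι ι F)
    (h : ∀ g, IsGraded deg (ρ g)) (g : G) (n : ℕ) : blk deg j (ρ (g ^ n)) = (blk deg j (ρ g)) ^ n := by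
  induction n with
  | zero => rw [pow_zero, pow_zero, map_one, blk_one]
  | succ n ih => rw [pow_succ, pow_succ, map_mul, blk_mul (h _), ih]

end blk

section eig

variable {ι : Type} [Fintype ι] [DecidableEq ι] {X : Coh ι}

theorem eig (hX : IsHyperKahler X) {a : ι} (ha : X.deg a = 2) :
    (fun c : {c // X.deg c = 2} => X.P c a) ≠ 0 ∧
    blk X.deg 2 X.D *ᵥ (fun c : {c // X.deg c = 2} => X.P c a) =
      (X.hdg a : ℂ) • (fun c : {c // X.deg c = 2} => X.P c a) := by
  have hPd : IsUnit X.P.det := (Matrix.isUnit_iff_isUnit_det _).1 hX.basis.1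
  have hDP : X.D * X.P = X.P * Matrix.diagonal (fun a => (X.hdg a : ℂ)) := by
    unfold Coh.D
    rw [mul_assoc, Matrix.nonsing_inv_mul _ hPd, mul_one]
  have hsupp : ∀ c, X.deg c ≠ 2 → X.P c a = 0 := fun c hc => hX.basis.2 c a (by rw [ha]; exact hc)
  constructor
  · intro h0
    have h1 : X.P *ᵥ Pi.single a 1 = 0 := by
      rw [Matrix.mulVec_single_one]
      funext c
      by_cases hc : X.deg c = 2
      · exact congrFun h0 ⟨c, hc⟩
      · exact hsupp c hc
    have h2 : (X.P⁻¹ * X.P) *ᵥ Pi.single a (1 : ℂ) = 0 := by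
      rw [← Matrix.mulVec_mulVec, h1, Matrix.mulVec_zero]
    rw [Matrix.nonsing_inv_mul _ hPd, Matrix.one_mulVec] at h2
    have h3 := congrFun h2 a
    rw [Pi.single_eq_same] at h3
    exact one_ne_zero h3
  · funext u
    have h1 := congrFun (congrFun hDP u) a
    rw [Matrix.mul_diagonal] at h1
    have h2 : (X.D * X.P) u a = ∑ c, X.D u c * X.P c a := rfl
    have h3 : (blk X.deg 2 X.D *ᵥ (fun c : {c // X.deg c = 2} => X.P c a)) u =
        ∑ c : {c // X.deg c = 2}, X.D u c * X.P c a := rfl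
    have h4 : ∑ c ∈ Finset.univ.filter (fun c => X.deg c = 2), X.D u c * X.P c a =
      ∑ c : {c // X.deg c = 2}, X.D u c * X.P c a := Finset.sum_subtype _ (by simp) _
    rw [h3, ← h4, Finset.sum_filter]
    rw [h2] at h1
    rw [Pi.smul_apply, smul_eq_mul, mul_comm, ← h1]
    refine Finset.sum_congr rfl fun c _ => ?_
    split_ifs with hc
    · rfl
    · rw [hsupp c hc, mul_zero]

end eig

end NscP

open NscP in
theorem t_NSC : S_MTD → S_NSC := by
  intro hMTD K _ _ ℓ hl I _ _ ι _ _ X S χ Pol ρ hX hρ hMT i W hW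
  by_contra hcon'
  have hcon : ∀ g ∈ W, IsNilpotent (blk (X i).deg 2 (ρ i g) -
      χ g • (1 : Matrix {a // (X i).deg a = 2} {a // (X i).deg a = 2} ℚ_[ℓ])) := by
    intro g hg
    by_contra h
    exact hcon' ⟨g, hg, h⟩
  obtain ⟨M, hM0, hM⟩ : ∃ M : ℕ, M ≠ 0 ∧ ∀ g : GK K, g ^ M ∈ W := by
    have : Finite (GK K ⧸ W) := W.quotient_finite_of_isOpen hW
    have hi : W.index ≠ 0 := Subgroup.index_ne_zero_of_finite
    exact ⟨W.index.factorial, Nat.factorial_ne_zero _, fun g =>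
      Subgroup.pow_mem_of_index_ne_zero_of_dvd hi g fun m h1 h2 => Nat.dvd_factorial h1 h2⟩
  have hb : 0 < Fintype.card {a // (X i).deg a = 2} := by have := (hX i).betti; omega
  have key : ∀ x ∈ mtLie (blockDiagonal' fun i => blk (X i).deg 2 (X i).D),
      (sc (blockDiag' x i)) ^ Fintype.card {a // (X i).deg a = 2} = 0 := by
    intro x hx
    have h1 : x.map (algebraMap ℚ ℚ_[ℓ]) ∈
        LieImage (fun g => blockDiagonal' fun i => blk (X i).deg 2 (ρ i g)) Set.univ := by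
      unfold MumfordTate at hMT
      rw [hMT]
      exact Submodule.subset_span ⟨x, hx, rfl⟩
    obtain ⟨σ, -, hσ⟩ := h1
    have h2 : Tendsto (fun k : ℕ => ((ℓ : ℚ_[ℓ]) ^ k)⁻¹ • (blk (X i).deg 2 (ρ i (σ k)) - 1)) atTop
        (𝓝 ((blockDiag' x i).map (algebraMap ℚ ℚ_[ℓ]))) := by
      have hc : Continuous (fun M : Matrix (Σ i, {a // (X i).deg a = 2}) (Σ i, {a // (X i).deg a = 2})
          ℚ_[ℓ] => blockDiag' M i) :=
        continuous_pi fun a => continuous_pi fun b =>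
          (continuous_apply (⟨i, b⟩ : Σ i, {a // (X i).deg a = 2})).comp
            (continuous_apply (⟨i, a⟩ : Σ i, {a // (X i).deg a = 2}))
      have h3 := (hc.tendsto _).comp hσ
      refine h3.congr fun k => ?_
      show blockDiag' (((ℓ : ℚ_[ℓ]) ^ k)⁻¹ • ((blockDiagonal' fun i => blk (X i).deg 2 (ρ i (σ k))) -
        1)) i = _
      rw [blockDiag'_smul, blockDiag'_sub, blockDiag'_blockDiagonal', blockDiag'_one]
      rfl
    have h4 := lim_pow h2 M
    have h5 := lim_nil hb h4 (fun k => χ ((σ k) ^ M)) (fun k => by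
      rw [← blk_pow (ρ i) (hρ i).graded]
      exact hcon _ (hM _))
    rw [sc_smul, smul_pow] at h5
    have h6 : (sc ((blockDiag' x i).map (algebraMap ℚ ℚ_[ℓ]))) ^
        Fintype.card {a // (X i).deg a = 2} = 0 :=
      (smul_eq_zero.1 h5).resolve_left (pow_ne_zero _ (by exact_mod_cast hM0))
    rw [sc_map, ← map_pow_rat] at h6
    exact map_eq_zero_rat h6
  obtain ⟨r, c, g, hg⟩ := Submodule.mem_span_set'.1
    (hMTD _ (blockDiagonal' fun i => blk (X i).deg 2 (X i).D)).2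
  choose x hx hxg using fun k => (g k).2
  have hDi : blk (X i).deg 2 (X i).D = ∑ k, c k • (blockDiag' (x k) i).map (algebraMap ℚ ℂ) := by
    have h1 := congrArg (fun M => blockDiag' M i) hg
    simp only [blockDiag'_blockDiagonal'] at h1
    rw [← h1]
    have h2 : ∀ M : Matrix (Σ i, {a // (X i).deg a = 2}) (Σ i, {a // (X i).deg a = 2}) ℂ,
        blockDiag' M i = M.submatrix (Sigma.mk i) (Sigma.mk i) := fun _ => rfl
    ext a b
    rw [h2, Matrix.submatrix_apply, Matrix.sum_apply, Matrix.sum_apply]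
    refine Finset.sum_congr rfl fun k _ => ?_
    rw [← hxg]
    rfl
  have h6 := poly_ext (n := Fintype.card {a // (X i).deg a = 2})
    (fun k => sc (blockDiag' (x k) i)) (by
      intro c'
      have h1 : ∑ k, c' k • sc (blockDiag' (x k) i) = sc (blockDiag' (∑ k, c' k • x k) i) := by
        have h2 : blockDiag' (∑ k, c' k • x k) i = ∑ k, c' k • blockDiag' (x k) i := by
          ext a b
          rw [Matrix.sum_apply]
          show (∑ k, c' k • x k) ⟨i, a⟩ ⟨i, b⟩ = _
          rw [Matrix.sum_apply]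
          rfl
        rw [h2, sc_sum]
        refine Finset.sum_congr rfl fun k _ => ?_
        rw [sc_smul]
      rw [h1]
      exact key _ (Submodule.sum_mem _ fun k _ => Submodule.smul_mem _ _ (hx k))) c
  have h7 : sc (blk (X i).deg 2 (X i).D) ^ Fintype.card {a // (X i).deg a = 2} = 0 := by
    rw [hDi, sc_sum]
    refine Eq.trans ?_ h6
    congr 1
    refine Finset.sum_congr rfl fun k _ => ?_
    rw [sc_smul, sc_map]
  have h8 : ∀ a : ι i, (X i).deg a = 2 → ((X i).hdg a : ℂ) =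
      (blk (X i).deg 2 (X i).D).trace / Fintype.card {a // (X i).deg a = 2} := by
    intro a ha
    obtain ⟨hw0, hw⟩ := eig (hX i) ha
    set w := (fun c : {c // (X i).deg c = 2} => (X i).P c a) with hwdef
    have h9 : ∀ n : ℕ, (sc (blk (X i).deg 2 (X i).D) ^ n) *ᵥ w = (((X i).hdg a : ℂ) -
        (blk (X i).deg 2 (X i).D).trace / Fintype.card {a // (X i).deg a = 2}) ^ n • w := by
      intro n
      induction n with
      | zero => rw [pow_zero, pow_zero, Matrix.one_mulVec, one_smul]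
      | succ n ih =>
        rw [pow_succ, ← Matrix.mulVec_mulVec]
        have h10 : sc (blk (X i).deg 2 (X i).D) *ᵥ w = (((X i).hdg a : ℂ) -
            (blk (X i).deg 2 (X i).D).trace / Fintype.card {a // (X i).deg a = 2}) • w := by
          unfold sc
          rw [Matrix.sub_mulVec, hw, Matrix.smul_mulVec, Matrix.one_mulVec, sub_smul]
        rw [h10, Matrix.mulVec_smul, ih, smul_smul, pow_succ, mul_comm]
    have h11 := h9 (Fintype.card {a // (X i).deg a = 2})
    rw [h7, Matrix.zero_mulVec] at h11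
    have h12 := (smul_eq_zero.1 h11.symm).resolve_right hw0
    exact sub_eq_zero.1 (pow_eq_zero_iff hb.ne' |>.1 h12)
  have h13 : ∀ t : ℝ, t ∈ (X i).hodge 2 → ∃ a : ι i, (X i).deg a = 2 ∧ ((X i).hdg a : ℝ) = t := by
    intro t ht
    unfold Coh.hodge at ht
    rw [Multiset.mem_map] at ht
    obtain ⟨a, ha, hat⟩ := ht
    exact ⟨a, (Finset.mem_filter.1 ha).2, hat⟩
  obtain ⟨a, ha, ha0⟩ := h13 0 (by rw [(hX i).hodge_two]; exact Multiset.mem_cons_self _ _)
  obtain ⟨b, hb', hb2⟩ := h13 2 (by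
    rw [(hX i).hodge_two]
    exact Multiset.mem_cons_of_mem (Multiset.mem_cons_self _ _))
  have h14 := h8 a ha
  have h15 := h8 b hb'
  have h16 : (X i).hdg a = (X i).hdg b := by
    have : ((X i).hdg a : ℂ) = (X i).hdg b := h14.trans h15.symm
    exact_mod_cast this
  rw [h16, hb2] at ha0
  norm_num at ha0

end Pool.Agent.NH56.HY
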