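import Pool.Agent.NH56.HY.Stm

/-!
# Eigenvalues of an ordinary Frobenius element on the commutant are roots of unity
-/

set_option autoImplicit false

namespace Pool.Agent.NH56.HY

open Matrix Polynomial Filter Topology NumberField IsDedekindDomain

namespace Eig

theorem card_padic (p : ℕ) [hp : Fact p.Prime] :
    Cardinal.mk (PadicAlgCl p) = Cardinal.continuum := by
  have h2 : Cardinal.continuum ≤ Cardinal.mk ℚ_[p] :=
    continuum_le_cardinal_of_nontriviallyNormedField ℚ_[p]
  have h3 : Cardinal.mk ℚ_[p] ≤ Cardinal.continuum := by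
    have h4 : Cardinal.mk ℚ_[p] ≤ Cardinal.mk (CauSeq ℚ (padicNorm p)) :=
      Cardinal.mk_le_of_surjective (f := fun x => (Quotient.mk _ x : ℚ_[p])) (by
        intro y
        exact Quotient.exists_rep y)
    refine h4.trans ?_
    have h5 : Cardinal.mk (CauSeq ℚ (padicNorm p)) ≤ Cardinal.mk (ℕ → ℚ) :=
      Cardinal.mk_le_of_injective (f := fun x => (x : ℕ → ℚ)) (by
        intro x y hxy
        exact Subtype.ext hxy)
    refine h5.trans ?_
    simp
  have h6 : Cardinal.mk ℚ_[p] = Cardinal.continuum := le_antisymm h3 h2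
  apply le_antisymm
  · have := Algebra.IsAlgebraic.cardinalMk_le_max ℚ_[p] (PadicAlgCl p)
    rw [h6, max_eq_left Cardinal.aleph0_le_continuum] at this
    exact this
  · rw [← h6]
    exact Cardinal.mk_le_of_injective (algebraMap ℚ_[p] (PadicAlgCl p)).injective

theorem exists_emb (p : ℕ) [hp : Fact p.Prime] : Nonempty (PadicAlgCl p →+* ℂ) := by
  obtain ⟨e⟩ := IsAlgClosed.ringEquiv_of_equiv_of_charZero (K := PadicAlgCl p) (L := ℂ)
    (by rw [card_padic]; exact Cardinal.aleph0_lt_continuum)
    (Cardinal.eq.1 (by rw [card_padic, Cardinal.mk_complex]))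
  exact ⟨e.toRingHom⟩

theorem blk_mul {ι : Type} [Fintype ι] {F : Type} [Field F] (deg : ι → ℕ) (k : ℕ)
    (M N : Matrix ι ι F) (hM : IsGraded deg M) :
    blk deg k (M * N) = blk deg k M * blk deg k N := by
  ext a b
  simp only [blk, submatrix_apply, mul_apply]
  rw [← Finset.sum_subtype (Finset.univ.filter fun c => deg c = k)
    (fun x => by simp) (fun c => M a.1 c * N c b.1)]
  refine (Finset.sum_filter_of_ne fun c _ hc => ?_).symm
  by_contra h
  refine hc ?_
  rw [hM a.1 c (fun h' => h (h'.symm.trans a.2)), zero_mul]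

theorem common_root {n : Type} [Fintype n] [DecidableEq n] {F : Type} [Field F] [IsAlgClosed F]
    (M B : Matrix n n F) (t : F) (hB : B ≠ 0) (h : M * B = t • (B * M)) :
    ∃ w, M.charpoly.IsRoot w ∧ M.charpoly.IsRoot (t * w) := by
  have h0 : ∀ n : ℕ, M ^ n * B = B * (t • M) ^ n := by
    intro n
    induction n with
    | zero => simp
    | succ n ih =>
      rw [pow_succ, mul_assoc, h, mul_smul_comm, ← mul_assoc, ih, pow_succ, mul_assoc,
        mul_smul_comm]
      simp only [mul_smul_comm]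
  have h1 : ∀ R : F[X], aeval M R * B = B * aeval M (R.comp (C t * X)) := by
    intro R
    rw [aeval_comp]
    have h2 : aeval M (C t * X) = t • M := by
      simp [Algebra.smul_def]
    rw [h2]
    induction R using Polynomial.induction_on' with
    | add p q hp hq => rw [map_add, map_add, add_mul, mul_add, hp, hq]
    | monomial n a =>
      rw [aeval_monomial, aeval_monomial, mul_assoc, h0, ← mul_assoc, ← mul_assoc,
        (Algebra.commutes a B)]
  by_contra hcon
  push Not at hcon
  have hco : IsCoprime M.charpoly (M.charpoly.comp (C t * X)) := by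
    rw [Polynomial.isCoprime_iff_aeval_ne_zero_of_isAlgClosed F F]
    intro a
    by_cases ha : M.charpoly.IsRoot a
    · right
      have h3 := hcon a ha
      intro h4
      apply h3
      rw [coe_aeval_eq_eval, eval_comp] at h4
      simpa using h4
    · left
      intro h4
      exact ha (by simpa using h4)
  obtain ⟨u, w, huw⟩ := hco
  have h2 := congrArg (aeval M) huw
  rw [map_add, map_mul, map_mul, map_one, Matrix.aeval_self_charpoly, mul_zero, zero_add] at h2
  have h3 := h1 M.charpoly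
  rw [Matrix.aeval_self_charpoly, zero_mul] at h3
  apply hB
  calc B = B * (aeval M w * aeval M (M.charpoly.comp (C t * X))) := by rw [h2, mul_one]
    _ = B * (aeval M (M.charpoly.comp (C t * X)) * aeval M w) := by
        rw [← map_mul, mul_comm, map_mul]
    _ = 0 := by rw [← mul_assoc, ← h3, zero_mul]

theorem lg_eq (s : AlgebraicClosure ℚ →+* ℂ) (u : AlgebraicClosure ℚ → ℝ)
    (a : AlgebraicClosure ℚ) : lg s u (s a) = u a := by
  unfold lg
  have h : ∃ b, s b = s a := ⟨a, rfl⟩
  rw [dif_pos h]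
  exact congrArg u (s.injective h.choose_spec)

end Eig

/-- **HY-EIG.** -/
theorem t_EIG : S_FUN → S_ADJ → S_KRO → S_ARI → S_TRN → S_PHI → S_EIG := by
  intro _ _ hKRO hARI _ hPHI K _ _ ℓ _ ι _ _ X S χ Pol ρ hX hR p hp hpS v hv σ hσ hord M hM t B
    hB hB0 hMB
  -- the embeddings
  have halg : Algebra.IsAlgebraic ℚ (AlgebraicClosure ℚ) := by
    have h := AlgebraicClosure.isAlgebraic ℚ
    convert h
    · rfl
    · exact Subsingleton.elim _ _
  let i : AlgebraicClosure ℚ →+* PadicAlgCl ℓ :=
    (IsAlgClosed.lift : AlgebraicClosure ℚ →ₐ[ℚ] PadicAlgCl ℓ).toRingHom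
  obtain ⟨j⟩ := Eig.exists_emb ℓ
  have hMg : IsGraded X.deg M := by
    intro a b hab
    rw [hM, Matrix.map_apply, hR.graded σ⁻¹ a b hab, map_zero]
  -- a block
  have hBg : IsGraded X.deg B := by
    intro a b hab
    have h1 := congrFun (congrFun hB.2 a) b
    rw [Coh.H, Matrix.mul_diagonal, Matrix.diagonal_mul] at h1
    have h2 : ((X.deg b : PadicAlgCl ℓ) - X.deg a) * B a b = 0 := by linear_combination h1
    rcases mul_eq_zero.1 h2 with h3 | h3
    · exact absurd (Nat.cast_injective (sub_eq_zero.1 h3)).symm hab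
    · exact h3
  obtain ⟨k, hk⟩ : ∃ k, blk X.deg k B ≠ 0 := by
    by_contra hcon
    push Not at hcon
    apply hB0
    ext a b
    by_cases hab : X.deg a = X.deg b
    · exact congrFun (congrFun (hcon (X.deg b)) ⟨a, hab⟩) ⟨b, rfl⟩
    · exact hBg a b hab
  have hMk : blk X.deg k M * blk X.deg k B = t • (blk X.deg k B * blk X.deg k M) := by
    rw [← Eig.blk_mul _ _ _ _ hMg, ← Eig.blk_mul _ _ _ _ hBg, hMB]
    rfl
  have hchar : (blk X.deg k M).charpoly = (Pol v k).map (Int.castRingHom (PadicAlgCl ℓ)) := by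
    have h1 : blk X.deg k M = (blk X.deg k (ρ σ⁻¹)).map (algebraMap ℚ_[ℓ] (PadicAlgCl ℓ)) := by
      rw [hM]
      rfl
    rw [h1, Matrix.charpoly_map, (hR.frobenius p hpS v hv σ hσ).2 k, Polynomial.map_map]
    congr 1
  obtain ⟨w, hw1, hw2⟩ := Eig.common_root _ _ t hk hMk
  rw [hchar] at hw1 hw2
  obtain ⟨hmon, hweil⟩ := hR.weil p hpS v hv k
  have hroots : ∀ z : PadicAlgCl ℓ, ((Pol v k).map (Int.castRingHom (PadicAlgCl ℓ))).IsRoot z →
      ∃ a : AlgebraicClosure ℚ, aeval a (Pol v k) = 0 ∧ i a = z := by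
    intro z hz
    have h1 : z ∈ ((Pol v k).map (Int.castRingHom (PadicAlgCl ℓ))).roots :=
      (mem_roots (hmon.map _).ne_zero).2 hz
    rw [hARI.1 (Pol v k) (PadicAlgCl ℓ) i, Multiset.mem_map] at h1
    obtain ⟨a, ha1, ha2⟩ := h1
    refine ⟨a, ?_, ha2⟩
    have h2 := isRoot_of_mem_roots ha1
    rw [IsRoot.def, eval_map] at h2
    rw [aeval_def, Subsingleton.elim (algebraMap ℤ (AlgebraicClosure ℚ)) (Int.castRingHom _)]
    exact h2
  obtain ⟨b0, hb0, hb0'⟩ := hroots w hw1
  obtain ⟨a0, ha0, ha0'⟩ := hroots (t * w) hw2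
  obtain ⟨hb1, hb2, hb3⟩ := hARI.2 (Pol v k) p k hmon hweil b0 hb0
  obtain ⟨ha1, ha2, ha3⟩ := hARI.2 (Pol v k) p k hmon hweil a0 ha0
  have hib : i b0 ≠ 0 := (map_ne_zero i).2 hb1
  have ht : t = i (a0 / b0) := by
    rw [map_div₀, ha0', ← hb0', mul_div_assoc, div_self hib, mul_one]
  have ht0 : a0 / b0 ≠ 0 := div_ne_zero ha1 hb1
  have hpp : (0 : ℝ) < p := by exact_mod_cast hp.out.pos
  suffices hKr : ∃ n : ℕ, 0 < n ∧ (a0 / b0) ^ n = 1 by
    obtain ⟨n, hn, hn'⟩ := hKr
    refine ⟨n, hn, ?_⟩
    rw [ht, ← map_pow, hn', map_one]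
  refine hKRO (a0 / b0) (fun τ => ?_) (fun p' hp' π => ?_)
  · have h1 : ‖τ (a0 / b0)‖ ^ 2 = 1 := by
      rw [map_div₀, norm_div, div_pow, ha2 τ, hb2 τ]
      exact div_self (pow_ne_zero _ hpp.ne')
    exact (pow_eq_one_iff_of_nonneg (norm_nonneg _) two_ne_zero).1 h1
  · by_cases hpe : p' = p
    · subst hpe
      set s : AlgebraicClosure ℚ →+* ℂ := j.comp i with hs
      set c : ℚ_[ℓ] →+* ℂ := j.comp (algebraMap ℚ_[ℓ] (PadicAlgCl ℓ)) with hc
      have hT : M.map j = (ρ σ⁻¹).map c := by
        rw [hM]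
        rfl
      obtain ⟨h1, -⟩ := hPHI K ℓ ι X S χ Pol ρ hX hR p' hpS v hv σ hσ hord c s π (M.map j)
        (lg s (fun a => -Real.logb p' ‖π a‖)) hT rfl
      have hBC : X.Com ℂ (B.map j) := by
        refine ⟨fun x => ?_, ?_⟩
        · have h2 : (X.δ x).map (algebraMap ℚ ℂ) =
              ((X.δ x).map (algebraMap ℚ (PadicAlgCl ℓ))).map j := by
            rw [Matrix.map_map]
            congr 1
            exact funext fun q => (RingHom.congr_fun
              (Subsingleton.elim (j.comp (algebraMap ℚ (PadicAlgCl ℓ))) (algebraMap ℚ ℂ)) q).symm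
          rw [h2, ← Matrix.map_mul, hB.1 x, Matrix.map_mul]
        · have h2 : X.H ℂ = (X.H (PadicAlgCl ℓ)).map j := by
            unfold Coh.H
            rw [Matrix.diagonal_map (map_zero j)]
            congr 1
            funext a
            simp
          rw [h2, ← Matrix.map_mul, hB.2, Matrix.map_mul]
      have hBC0 : B.map j ≠ 0 := by
        intro h2
        apply hB0
        ext a b
        have h3 := congrFun (congrFun h2 a) b
        rw [Matrix.map_apply, Matrix.zero_apply] at h3
        exact (map_eq_zero j).1 h3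
      have hTB : M.map j * B.map j = (j t) • (B.map j * M.map j) := by
        have e1 : M.map j * B.map j = (M * B).map j := Matrix.map_mul.symm
        have e2 : B.map j * M.map j = (B * M).map j := Matrix.map_mul.symm
        rw [e1, e2, hMB]
        ext a b
        simp only [Matrix.map_apply, Matrix.smul_apply, smul_eq_mul, map_mul]
      have h2 := h1 (j t) (B.map j) hBC hBC0 hTB
      have h3 : j t = s (a0 / b0) := by rw [ht]; rfl
      rw [h3, Eig.lg_eq, neg_eq_zero] at h2
      have h4 : ‖π (a0 / b0)‖ ≠ 0 := norm_ne_zero_iff.2 ((map_ne_zero π).2 ht0)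
      have h5 := norm_nonneg (π (a0 / b0))
      rw [Real.logb_eq_zero] at h2
      have hp1 : (1 : ℝ) < p' := by exact_mod_cast hp.out.one_lt
      rcases h2 with h | h | h | h | h | h
      · linarith
      · linarith
      · linarith
      · exact absurd h h4
      · exact h
      · linarith
    · rw [map_div₀, norm_div, ha3 p' π hpe, hb3 p' π hpe, div_one]

end Pool.Agent.NH56.HY
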