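import Pool.Agent.NH56.HY.Stm

set_option autoImplicit false

namespace Pool.Agent.NH56.HY

open Matrix Polynomial Filter Topology NumberField IsDedekindDomain

namespace Phi

lemma lg_apply (s : AlgebraicClosure ℚ →+* ℂ) (u : AlgebraicClosure ℚ → ℝ) (a : AlgebraicClosure ℚ) :
    lg s u (s a) = u a := by
  unfold lg
  have h : ∃ b, s b = s a := ⟨a, rfl⟩
  rw [dif_pos h]
  congr 1
  exact s.injective h.choose_spec

/-- the valuation is additive -/
lemma isAdd_lg (s : AlgebraicClosure ℚ →+* ℂ) (p : ℕ) [Fact p.Prime]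
    (π : AlgebraicClosure ℚ →+* PadicAlgCl p) :
    IsAdd (Al s) (fun z => ((lg s (fun a => -Real.logb p ‖π a‖) z : ℝ) : ℂ)) where
  one := ⟨1, one_ne_zero, map_one s⟩
  mul := by
    rintro _ _ ⟨a, ha, rfl⟩ ⟨b, hb, rfl⟩
    exact ⟨a * b, mul_ne_zero ha hb, map_mul s a b⟩
  inv := by
    rintro _ ⟨a, ha, rfl⟩
    exact ⟨a⁻¹, inv_ne_zero ha, map_inv₀ s a⟩
  ne := by
    rintro _ ⟨a, ha, rfl⟩
    exact (map_ne_zero s).2 ha
  map := by
    rintro _ _ ⟨a, ha, rfl⟩ ⟨b, hb, rfl⟩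
    rw [← map_mul, lg_apply, lg_apply, lg_apply, map_mul, norm_mul,
      Real.logb_mul (norm_ne_zero_iff.2 ((map_ne_zero π).2 ha))
        (norm_ne_zero_iff.2 ((map_ne_zero π).2 hb))]
    push_cast
    ring

lemma norm_p (p : ℕ) [Fact p.Prime] : ‖((p : ℕ) : PadicAlgCl p)‖ = (p : ℝ)⁻¹ := by
  have h : ((p : ℕ) : PadicAlgCl p) = ((p : ℚ_[p]) : PadicAlgCl p) := by
    simp
  rw [h, PadicAlgCl.norm_extends, Padic.norm_p]

end Phi

open Phi in
theorem t_PHI : S_FUN → S_ADJ → S_BAS → S_PER → S_ARI → S_NWT → S_TRN → S_VAL → S_PHI := by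
  intro hFUN hADJ hBAS hPER hARI hNWT hTRN hVAL K _ _ ℓ _ ι _ _ X S χ Pol ρ hX hR p _ hpS v hv σ hσ hord
    c s π T φ hT hφ
  obtain ⟨hTT', hgr, hsim, heq, hchar, hroots⟩ :=
    hTRN K ℓ ι X S χ Pol ρ hX hR p hpS v hv σ hσ c s T ((ρ σ).map c) hT rfl
  have hp1 : 1 < p := (Fact.out : p.Prime).one_lt
  have hAdd : IsAdd (Al s) (fun z => ((φ z : ℝ) : ℂ)) := by
    rw [hφ]
    exact isAdd_lg s p π
  have hroot : ∀ a, T.charpoly.IsRoot a → Al s a := by
    intro a ha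
    obtain ⟨j, b, hb, hsb⟩ := hroots a ha
    obtain ⟨h1, h2⟩ := hR.weil p hpS v hv j
    exact ⟨b, (hARI.2 (Pol v j) p j h1 h2 b hb).1, hsb⟩
  have hφs : ∀ a, φ (s a) = -Real.logb p ‖π a‖ := by
    intro a
    rw [hφ, lg_apply]
  have hμA : Al s ((p : ℂ) ^ 2) := by
    refine ⟨(p : AlgebraicClosure ℚ) ^ 2, ?_, ?_⟩
    · have : (p : AlgebraicClosure ℚ) ≠ 0 := by
        exact_mod_cast (by omega : p ≠ 0)
      exact pow_ne_zero 2 this
    · rw [map_pow, map_natCast]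
  have hμφ : φ ((p : ℂ) ^ 2) = 2 := by
    have h1 : (p : ℂ) ^ 2 = s ((p : AlgebraicClosure ℚ) ^ 2) := by
      rw [map_pow, map_natCast]
    have hpr : (1 : ℝ) < p := by exact_mod_cast hp1
    rw [h1, hφs, map_pow, map_natCast, norm_pow, norm_p, Real.logb_pow, Real.logb_inv,
      Real.logb_self_eq_one hpr]
    norm_num
  have hnewt : ∀ j, (blk X.deg j T).charpoly.roots.map φ = newton p (Pol v j) := by
    intro j
    rw [hchar j, hARI.1 (Pol v j) ℂ s, Multiset.map_map]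
    unfold newton
    rw [hARI.1 (Pol v j) (PadicAlgCl p) π, Multiset.map_map]
    apply Multiset.map_congr rfl
    intro a _
    exact hφs a
  have hlies : ∀ j, LiesAbove ((blk X.deg j T).charpoly.roots.map φ) (X.hodge j) := by
    intro j
    rw [hnewt j]
    exact hR.mazur p hpS v hv j
  have hsum : ((blk X.deg 2 T).charpoly.roots.map fun a => (φ a - 1) ^ 2).sum = 2 := by
    have h1 : ((blk X.deg 2 T).charpoly.roots.map fun a => (φ a - 1) ^ 2) =
        (newton p (Pol v 2)).map fun x => (x - 1) ^ 2 := by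
      rw [← hnewt 2, Multiset.map_map]
      rfl
    rw [h1]
    obtain ⟨h2, h3⟩ := hR.weil p hpS v hv 2
    refine hNWT (Pol v 2) p (Fintype.card {a // X.deg a = 2}) hX.betti h2 ?_ h3 ?_ hord
    · have h4 := congrArg Polynomial.natDegree (hchar 2)
      rw [Matrix.charpoly_natDegree_eq_dim, h2.natDegree_map] at h4
      exact h4.symm
    · rw [← hX.hodge_two]
      exact hR.mazur p hpS v hv 2
  obtain ⟨N, hN⟩ := (hFUN ℂ ι (fun a => ((φ a : ℝ) : ℂ)) T).1
  have hval := hVAL ι X hX T ((ρ σ).map c) N φ (Al s) ((p : ℂ) ^ 2) hTT' hgr hAdd hroot hμA hμφ hsim heq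
    hlies hsum hN
  obtain ⟨hA1, -, -, hA4⟩ := hADJ ℂ (Al s) (fun a => ((φ a : ℝ) : ℂ)) hAdd ι T ((ρ σ).map c) N hTT' hroot hN
  constructor
  · intro t B hCom hB hTB
    obtain ⟨-, h2⟩ := hA1 t B hB hTB
    obtain ⟨h3, -⟩ := hPER ι X hX ℂ B hCom
    have h4 : N * B = B * N := by
      rw [hval, Matrix.add_mul, Matrix.mul_add, h3, Matrix.smul_mul, Matrix.mul_smul, hCom.2]
    rw [h4, sub_self] at h2
    rcases smul_eq_zero.1 h2.symm with h5 | h5
    · exact_mod_cast h5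
    · exact absurd h5 hB
  · intro e hCom he heT
    obtain ⟨-, h2⟩ := hA4 e he heT
    obtain ⟨-, h3⟩ := hPER ι X hX ℂ e hCom
    rw [hval, Matrix.add_mul, Matrix.trace_add, h3, add_zero, Matrix.smul_mul, Matrix.trace_smul,
      smul_eq_mul] at h2
    push_cast
    rw [h2]
    ring

end Pool.Agent.NH56.HY
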