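import Pool.Agent.NH56.HY.Gen

/-!
# Assembly of the general form
-/

set_option autoImplicit false
set_option linter.unusedSectionVars false

namespace Pool.Agent.NH56.HY

open Matrix Polynomial Filter Topology NumberField IsDedekindDomain

/-- The block diagonal matrix with the blocks `A i` and `B`: the direct sum. -/
def dsum {F : Type} [Zero F] {I : Type} [DecidableEq I] {κ : I → Type} {m : Type}
    (A : ∀ i, Matrix (κ i) (κ i) F) (B : Matrix m m F) :
    Matrix ((Σ i, κ i) ⊕ m) ((Σ i, κ i) ⊕ m) F :=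
  fromBlocks (blockDiagonal' A) 0 0 B

/-- **GEN**: the theorem, in the general form -/
def S_GEN : Prop := ∀ (K : Type) [Field K] [NumberField K] (ℓ : ℕ) [Fact ℓ.Prime] (I : Type)
  [Fintype I] [DecidableEq I] (ι : I → Type) [∀ i, Fintype (ι i)] [∀ i, DecidableEq (ι i)]
  (X : ∀ i, Coh (ι i)) (S : Finset ℕ) (χ : GK K →* ℚ_[ℓ])
  (Pol : I → HeightOneSpectrum (𝓞 K) → ℕ → ℤ[X]) (m : Type) [Fintype m] [DecidableEq m]
  (D' : Matrix m m ℂ) (Γ : Type) [Group Γ] (s : GK K →* Γ)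
  (ρ : ∀ i, Γ →* Matrix (ι i) (ι i) ℚ_[ℓ]) (N : Γ →* Matrix m m ℚ_[ℓ]),
  ClassFieldTheory K ℓ → (∀ i, IsHyperKahler (X i)) →
  (∀ i, IsRealization (X i) S χ (Pol i) ((ρ i).comp s)) → Continuous (N.comp s) →
  (∀ g, ∃ h, (∀ i, ρ i (s h) = ρ i g) ∧ N (s h) = N g) →
  MumfordTate (dsum (fun i => blk (X i).deg 2 (X i).D) D')
    (fun g => dsum (fun i => blk (X i).deg 2 (ρ i g)) (N g)) →
  MumfordTate (dsum (fun i => (X i).D) D') (fun g => dsum (fun i => ρ i g) (N g))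

namespace Gen

/-- the same image, the same Lie algebra -/
theorem lie_same {ℓ : ℕ} [Fact ℓ.Prime] {Γ Γ' n : Type} [Group Γ] [Group Γ'] [Fintype n]
    [DecidableEq n] (s : Γ' → Γ) (ρ : Γ → Matrix n n ℚ_[ℓ]) (h : ∀ g, ∃ g', ρ (s g') = ρ g) :
    LieImage ρ Set.univ = LieImage (fun g' => ρ (s g')) Set.univ := by
  ext Z
  constructor
  · rintro ⟨σ, -, hσ⟩
    choose t ht using h
    refine ⟨fun k => t (σ k), fun _ => Set.mem_univ _, ?_⟩
    refine hσ.congr fun k => ?_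
    show _ = ((ℓ : ℚ_[ℓ]) ^ k)⁻¹ • (ρ (s (t (σ k))) - 1)
    rw [ht]
  · rintro ⟨σ, -, hσ⟩
    exact ⟨fun k => s (σ k), fun _ => Set.mem_univ _, hσ⟩

/-- transfer of the Mumford-Tate conjecture -/
theorem transfer {ℓ : ℕ} [Fact ℓ.Prime] {Γ n n₂ : Type} [Group Γ] [Fintype n] [DecidableEq n]
    [Fintype n₂] [DecidableEq n₂] (ρ : Γ → Matrix n n ℚ_[ℓ]) (ρ₂ : Γ → Matrix n₂ n₂ ℚ_[ℓ])
    (D : Matrix n n ℂ) (D₂ : Matrix n₂ n₂ ℂ) (Δ : Matrix n₂ n₂ ℚ →ₗ[ℚ] Matrix n n ℚ)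
    (Δl : Matrix n₂ n₂ ℚ_[ℓ] →ₗ[ℚ_[ℓ]] Matrix n n ℚ_[ℓ])
    (hΔ : ∀ x, Δl (x.map (algebraMap ℚ ℚ_[ℓ])) = (Δ x).map (algebraMap ℚ ℚ_[ℓ]))
    (h1 : ∀ Z, Z ∈ LieImage ρ Set.univ ↔ ∃ Y ∈ LieImage ρ₂ Set.univ, Z = Δl Y)
    (h2 : ∀ Z, Z ∈ mtLie D ↔ ∃ Y ∈ mtLie D₂, Z = Δ Y) (hMT : MumfordTate D₂ ρ₂) :
    MumfordTate D ρ := by
  unfold MumfordTate at hMT ⊢
  have e1 : LieImage ρ Set.univ = Δl '' (LieImage ρ₂ Set.univ) := by
    ext Z
    rw [h1]
    constructor
    · rintro ⟨Y, hY, rfl⟩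
      exact ⟨Y, hY, rfl⟩
    · rintro ⟨Y, hY, rfl⟩
      exact ⟨Y, hY, rfl⟩
  have e2 : (mtLie D : Set (Matrix n n ℚ)) = Δ '' (mtLie D₂ : Set (Matrix n₂ n₂ ℚ)) := by
    ext Z
    rw [SetLike.mem_coe, h2]
    constructor
    · rintro ⟨Y, hY, rfl⟩
      exact ⟨Y, hY, rfl⟩
    · rintro ⟨Y, hY, rfl⟩
      exact ⟨Y, hY, rfl⟩
  rw [e1, hMT, e2, ← Submodule.map_coe, Submodule.map_span, Set.image_image, Set.image_image]
  simp only [hΔ]

section app

variable {I : Type} [Fintype I] [DecidableEq I] {ι : I → Type} [∀ i, Fintype (ι i)]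
  [∀ i, DecidableEq (ι i)] {m : Type} [Fintype m] [DecidableEq m]

/-- direct sums, as a linear map -/
def dl (F : Type) [Field F] (ι : I → Type) [∀ i, Fintype (ι i)] [∀ i, DecidableEq (ι i)]
    (m : Type) : (∀ i, Matrix (ι i) (ι i) F) × Matrix m m F →ₗ[F]
      Matrix ((Σ i, ι i) ⊕ m) ((Σ i, ι i) ⊕ m) F where
  toFun p := dsum p.1 p.2
  map_add' p q := by
    unfold dsum
    rw [Prod.fst_add, Prod.snd_add, blockDiagonal'_add, fromBlocks_add, add_zero, add_zero]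
  map_smul' c p := by
    unfold dsum
    rw [RingHom.id_apply, Prod.smul_fst, Prod.smul_snd, blockDiagonal'_smul, fromBlocks_smul,
      smul_zero, smul_zero]

/-- the diagonal blocks of a matrix -/
def pl (F : Type) [Field F] (ι : I → Type) (m : Type) :
    Matrix ((Σ i, ι i) ⊕ m) ((Σ i, ι i) ⊕ m) F →ₗ[F] (∀ i, Matrix (ι i) (ι i) F) × Matrix m m F where
  toFun M := (fun i => blockDiag' M.toBlocks₁₁ i, M.toBlocks₂₂)
  map_add' _ _ := rfl
  map_smul' _ _ := rfl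

theorem pl_dl (F : Type) [Field F] (p : (∀ i, Matrix (ι i) (ι i) F) × Matrix m m F) :
    pl F ι m (dl F ι m p) = p := by
  show ((fun i => blockDiag' (dsum p.1 p.2).toBlocks₁₁ i, (dsum p.1 p.2).toBlocks₂₂) :
    (∀ i, Matrix (ι i) (ι i) F) × Matrix m m F) = p
  unfold dsum
  rw [toBlocks_fromBlocks₁₁, toBlocks_fromBlocks₂₂]
  refine Prod.ext ?_ rfl
  funext i
  show blockDiag' (blockDiagonal' p.1) i = p.1 i
  rw [blockDiag'_blockDiagonal']

theorem dsum_mul {F : Type} [Field F] (A A' : ∀ i, Matrix (ι i) (ι i) F) (B B' : Matrix m m F) :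
    dsum A B * dsum A' B' = dsum (fun i => A i * A' i) (B * B') := by
  unfold dsum
  rw [fromBlocks_multiply, blockDiagonal'_mul]
  simp

theorem dsum_one {F : Type} [Field F] :
    dsum (fun i => (1 : Matrix (ι i) (ι i) F)) (1 : Matrix m m F) = 1 := by
  unfold dsum
  have : blockDiagonal' (fun i => (1 : Matrix (ι i) (ι i) F)) = 1 := blockDiagonal'_one
  rw [this, fromBlocks_one]

theorem dsum_map {F E : Type} [Field F] [Field E] (f : F →+* E) (A : ∀ i, Matrix (ι i) (ι i) F)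
    (B : Matrix m m F) : (dsum A B).map f = dsum (fun i => (A i).map f) (B.map f) := by
  unfold dsum
  rw [fromBlocks_map, blockDiagonal'_map _ _ (map_zero f), Matrix.map_zero _ (map_zero f),
    Matrix.map_zero _ (map_zero f)]

theorem dsum_sub {F : Type} [Field F] (A A' : ∀ i, Matrix (ι i) (ι i) F) (B B' : Matrix m m F) :
    dsum A B - dsum A' B' = dsum (fun i => A i - A' i) (B - B') := by
  have h := map_sub (dl F ι m) (A, B) (A', B')
  exact h.symm

variable {X : ∀ i, Coh (ι i)}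

/-- the map from degree two to all degrees -/
noncomputable def De (hB : S_BAS) (hX : ∀ i, IsHyperKahler (X i)) (m : Type) (F : Type) [Field F]
    [CharZero F] : Matrix ((Σ i, {a // (X i).deg a = 2}) ⊕ m) ((Σ i, {a // (X i).deg a = 2}) ⊕ m) F
      →ₗ[F] Matrix ((Σ i, ι i) ⊕ m) ((Σ i, ι i) ⊕ m) F where
  toFun W := dl F ι m (fun i => (X i).δt F ((pl F (fun i => {a // (X i).deg a = 2}) m W).1 i),
    (pl F (fun i => {a // (X i).deg a = 2}) m W).2)
  map_add' x y := by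
    rw [← map_add]
    congr 1
    refine Prod.ext ?_ ?_
    · funext i
      rw [map_add]
      exact MtlAux.dt_add hB (hX i) _ _
    · rw [map_add]
      rfl
  map_smul' c x := by
    rw [RingHom.id_apply, ← map_smul]
    congr 1
    refine Prod.ext ?_ ?_
    · funext i
      rw [map_smul]
      exact MtlAux.dt_smul hB (hX i) _ _
    · rw [map_smul]
      rfl

/-- the map from all degrees to degree two -/
def Re (X : ∀ i, Coh (ι i)) (m : Type) (F : Type) [Field F] :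
    Matrix ((Σ i, ι i) ⊕ m) ((Σ i, ι i) ⊕ m) F →ₗ[F]
      Matrix ((Σ i, {a // (X i).deg a = 2}) ⊕ m) ((Σ i, {a // (X i).deg a = 2}) ⊕ m) F where
  toFun W := dl F (fun i => {a // (X i).deg a = 2}) m
    (fun i => blk (X i).deg 2 ((pl F ι m W).1 i), (pl F ι m W).2)
  map_add' x y := by
    rw [← map_add]
    congr 1
  map_smul' c x := by
    rw [RingHom.id_apply, ← map_smul]
    congr 1

theorem De_dsum (hB : S_BAS) (hX : ∀ i, IsHyperKahler (X i)) (F : Type) [Field F]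
    [CharZero F] (Y : ∀ i, Matrix {a // (X i).deg a = 2} {a // (X i).deg a = 2} F)
    (B : Matrix m m F) : De hB hX m F (dsum Y B) = dsum (fun i => (X i).δt F (Y i)) B := by
  have h := pl_dl (ι := fun i => {a // (X i).deg a = 2}) F (Y, B)
  show dl F ι m (fun i => (X i).δt F ((pl F (fun i => {a // (X i).deg a = 2}) m (dl F _ m (Y, B))).1 i),
    (pl F (fun i => {a // (X i).deg a = 2}) m (dl F _ m (Y, B))).2) = _
  rw [h]
  rfl

theorem Re_dsum (F : Type) [Field F] (A : ∀ i, Matrix (ι i) (ι i) F) (B : Matrix m m F) :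
    Re X m F (dsum A B) = dsum (fun i => blk (X i).deg 2 (A i)) B := by
  have h := pl_dl (ι := ι) F (A, B)
  show dl F _ m (fun i => blk (X i).deg 2 ((pl F ι m (dl F ι m (A, B))).1 i),
    (pl F ι m (dl F ι m (A, B))).2) = _
  rw [h]
  rfl

theorem De_map (hB : S_BAS) (hX : ∀ i, IsHyperKahler (X i)) (F : Type) [Field F]
    [CharZero F] (x : Matrix ((Σ i, {a // (X i).deg a = 2}) ⊕ m)
      ((Σ i, {a // (X i).deg a = 2}) ⊕ m) ℚ) :
    De hB hX m F (x.map (algebraMap ℚ F)) = (De hB hX m ℚ x).map (algebraMap ℚ F) := by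
  show dsum _ _ = (dsum _ _).map (algebraMap ℚ F)
  rw [dsum_map]
  congr 1
  funext i
  exact MtlAux.dt_map hB (hX i) _

theorem Re_map (F : Type) [Field F] [CharZero F] (x : Matrix ((Σ i, ι i) ⊕ m) ((Σ i, ι i) ⊕ m) ℚ) :
    Re X m F (x.map (algebraMap ℚ F)) = (Re X m ℚ x).map (algebraMap ℚ F) := by
  show dsum _ _ = (dsum _ _).map (algebraMap ℚ F)
  rw [dsum_map]
  rfl

/-- direct sums of matrices in `gso` and of arbitrary matrices -/
noncomputable def GG (X : ∀ i, Coh (ι i)) (m : Type) :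
    Submodule ℚ (Matrix ((Σ i, {a // (X i).deg a = 2}) ⊕ m) ((Σ i, {a // (X i).deg a = 2}) ⊕ m) ℚ) :=
  ((MtlAux.GG X).prod ⊤).map (dl ℚ (fun i => {a // (X i).deg a = 2}) m)

theorem mem_GG (x : Matrix ((Σ i, {a // (X i).deg a = 2}) ⊕ m)
      ((Σ i, {a // (X i).deg a = 2}) ⊕ m) ℚ) :
    x ∈ GG X m ↔ ∃ Y, (∀ i, MtlAux.Gso ℚ (X i) (Y i)) ∧ ∃ B, x = dsum Y B := by
  constructor
  · rintro ⟨⟨Y, B⟩, ⟨hY, -⟩, rfl⟩
    exact ⟨Y, (MtlAux.mem_GG Y).1 hY, B, rfl⟩
  · rintro ⟨Y, hY, B, rfl⟩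
    exact ⟨⟨Y, B⟩, ⟨(MtlAux.mem_GG Y).2 hY, trivial⟩, rfl⟩

theorem br_dsum {F : Type} [Field F] (A A' : ∀ i, Matrix (ι i) (ι i) F) (B B' : Matrix m m F) :
    dsum A B * dsum A' B' - dsum A' B' * dsum A B =
      dsum (fun i => A i * A' i - A' i * A i) (B * B' - B' * B) := by
  rw [dsum_mul, dsum_mul, dsum_sub]

/-- the Hodge operator in degree two is in the extension of `gso` -/
theorem D2_mem (hB : S_BAS) (hMTD : S_MTD) (hX : ∀ i, IsHyperKahler (X i)) (D' : Matrix m m ℂ) :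
    dsum (fun i => blk (X i).deg 2 (X i).D) D' ∈
      Submodule.span ℂ ((fun x : Matrix ((Σ i, {a // (X i).deg a = 2}) ⊕ m)
      ((Σ i, {a // (X i).deg a = 2}) ⊕ m) ℚ => x.map (algebraMap ℚ ℂ)) '' (GG X m)) := by
  have h0 : dsum (fun i => blk (X i).deg 2 (X i).D) D' =
      dsum (fun i => blk (X i).deg 2 (X i).D) (0 : Matrix m m ℂ) +
      dsum (fun i => (0 : Matrix {a // (X i).deg a = 2} {a // (X i).deg a = 2} ℂ)) D' := by
    have h := map_add (dl ℂ (fun i => {a // (X i).deg a = 2}) m)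
      ((fun i => blk (X i).deg 2 (X i).D), (0 : Matrix m m ℂ)) (0, D')
    rw [Prod.mk_add_mk, add_zero, zero_add] at h
    exact h
  rw [h0]
  refine Submodule.add_mem _ ?_ ?_
  · let L : Matrix (Σ i, {a // (X i).deg a = 2}) (Σ i, {a // (X i).deg a = 2}) ℂ →ₗ[ℂ]
        Matrix ((Σ i, {a // (X i).deg a = 2}) ⊕ m) ((Σ i, {a // (X i).deg a = 2}) ⊕ m) ℂ :=
      { toFun := fun A => fromBlocks A 0 0 0
        map_add' := fun x y => by
          rw [fromBlocks_add, add_zero, add_zero, add_zero]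
        map_smul' := fun c x => by
          rw [RingHom.id_apply, fromBlocks_smul, smul_zero, smul_zero, smul_zero] }
    have h1 : Submodule.span ℂ ((fun x : Matrix (Σ i, {a // (X i).deg a = 2})
        (Σ i, {a // (X i).deg a = 2}) ℚ => x.map (algebraMap ℚ ℂ)) ''
          (mtLie (blockDiagonal' fun i => blk (X i).deg 2 (X i).D))) ≤
        (Submodule.span ℂ ((fun x : Matrix ((Σ i, {a // (X i).deg a = 2}) ⊕ m)
      ((Σ i, {a // (X i).deg a = 2}) ⊕ m) ℚ => x.map (algebraMap ℚ ℂ)) '' (GG X m))).comap L := by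
      rw [Submodule.span_le]
      rintro _ ⟨x, hx, rfl⟩
      obtain ⟨Y, hY, rfl⟩ := MtlAux.L2_le hB hX hx
      refine Submodule.subset_span ⟨dsum Y 0, ⟨⟨Y, 0⟩, ⟨hY, trivial⟩, rfl⟩, ?_⟩
      show (dsum Y 0).map (algebraMap ℚ ℂ) =
        fromBlocks ((MtlAux.bd ℚ (fun i => {a // (X i).deg a = 2}) Y).map (algebraMap ℚ ℂ)) 0 0 0
      rw [dsum_map, Matrix.map_zero _ (map_zero _), ← MtlAux.bd_map]
      rfl
    exact h1 (hMTD _ (blockDiagonal' fun i => blk (X i).deg 2 (X i).D)).2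
  · let L : Matrix m m ℂ →ₗ[ℂ]
        Matrix ((Σ i, {a // (X i).deg a = 2}) ⊕ m) ((Σ i, {a // (X i).deg a = 2}) ⊕ m) ℂ :=
      { toFun := fun A => dl ℂ (fun i => {a // (X i).deg a = 2}) m (0, A)
        map_add' := fun x y => by
          rw [← map_add, Prod.mk_add_mk, add_zero]
        map_smul' := fun c x => by
          rw [RingHom.id_apply, ← map_smul, Prod.smul_mk, smul_zero] }
    have h1 : L D' ∈ Submodule.span ℂ ((fun x : Matrix ((Σ i, {a // (X i).deg a = 2}) ⊕ m)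
      ((Σ i, {a // (X i).deg a = 2}) ⊕ m) ℚ => x.map (algebraMap ℚ ℂ)) '' (GG X m)) := by
      rw [Matrix.matrix_eq_sum_single D', map_sum]
      refine Submodule.sum_mem _ fun a _ => ?_
      rw [map_sum]
      refine Submodule.sum_mem _ fun b _ => ?_
      have e : Matrix.single a b (D' a b) = D' a b • Matrix.single a b (1 : ℂ) := by
        rw [Matrix.smul_single, smul_eq_mul, mul_one]
      rw [e, map_smul]
      refine Submodule.smul_mem _ _ (Submodule.subset_span ⟨dsum 0 (Matrix.single a b 1),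
        ⟨⟨0, Matrix.single a b 1⟩, ⟨Submodule.zero_mem _, trivial⟩, rfl⟩, ?_⟩)
      show (dsum 0 (Matrix.single a b 1)).map (algebraMap ℚ ℂ) = dsum 0 (Matrix.single a b 1)
      rw [dsum_map]
      congr 1
      · funext i
        exact Matrix.map_zero _ (map_zero _)
      · rw [Matrix.map_single, map_one]
    exact h1

end app

end Gen

open Gen in
theorem t_GEN (hBAS : S_BAS) (hLOG : S_LOG) (hLAA : S_LAA) (hMTD : S_MTD) : S_GEN := by
  intro K _ _ ℓ _ I _ _ ι _ _ X S χ Pol m _ _ D' Γ _ s ρ N hcft hX hρ hN hs hMT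
  -- the number field
  obtain ⟨ρ₂, hρ₂⟩ : ∃ ρ₂ : GK K →* Matrix ((Σ i, {a // (X i).deg a = 2}) ⊕ m)
      ((Σ i, {a // (X i).deg a = 2}) ⊕ m) ℚ_[ℓ],
      ∀ g, ρ₂ g = dsum (fun i => blk (X i).deg 2 (ρ i (s g))) (N (s g)) :=
    ⟨{ toFun := fun g => dsum (fun i => blk (X i).deg 2 (ρ i (s g))) (N (s g))
       map_one' := by
        rw [← dsum_one]
        congr 1
        · funext i
          rw [map_one, map_one, Cnv.blk_one]
        · rw [map_one, map_one]
       map_mul' := fun g h => by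
        rw [dsum_mul]
        congr 1
        · funext i
          rw [map_mul, map_mul]
          exact Cnv.blk_mul _ _ _ _ ((hρ i).graded g)
        · rw [map_mul, map_mul] }, fun g => rfl⟩
  obtain ⟨ρ₁, hρ₁⟩ : ∃ ρ₁ : GK K →* Matrix ((Σ i, ι i) ⊕ m) ((Σ i, ι i) ⊕ m) ℚ_[ℓ],
      ∀ g, ρ₁ g = dsum (fun i => ρ i (s g)) (N (s g)) :=
    ⟨{ toFun := fun g => dsum (fun i => ρ i (s g)) (N (s g))
       map_one' := by
        rw [← dsum_one]
        congr 1
        · funext i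
          rw [map_one, map_one]
        · rw [map_one, map_one]
       map_mul' := fun g h => by
        rw [dsum_mul]
        congr 1
        · funext i
          rw [map_mul, map_mul]
        · rw [map_mul, map_mul] }, fun g => rfl⟩
  have e2 := lie_same (fun h : GK K => s h) (fun g => dsum (fun i => blk (X i).deg 2 (ρ i g)) (N g))
    (fun g => by
      obtain ⟨h, h1, h2⟩ := hs g
      refine ⟨h, ?_⟩
      simp only [h1, h2])
  have e1 := lie_same (fun h : GK K => s h) (fun g => dsum (fun i => ρ i g) (N g))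
    (fun g => by
      obtain ⟨h, h1, h2⟩ := hs g
      refine ⟨h, ?_⟩
      simp only [h1, h2])
  have hMT2 : MumfordTate (dsum (fun i => blk (X i).deg 2 (X i).D) D') ρ₂ := by
    unfold MumfordTate at hMT ⊢
    rw [← hMT, e2]
    congr 1
    funext g
    exact hρ₂ g
  have goal : MumfordTate (dsum (fun i => (X i).D) D') ρ₁ → MumfordTate (dsum (fun i => (X i).D) D')
      (fun g => dsum (fun i => ρ i g) (N g)) := by
    intro h
    unfold MumfordTate at h ⊢
    rw [← h, e1]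
    congr 1
    funext g
    exact (hρ₁ g).symm
  apply goal
  -- non-unipotence and the first half
  have hns : ∀ i, NonUnip χ (fun g => blk (X i).deg 2 (((ρ i).comp s) g)) := by
    intro i
    refine nsc hMTD K ℓ (X i) χ ((ρ i).comp s) (hX i) (hρ i).graded
      (fun a => Sum.inl ⟨i, a⟩) ?_ (dsum (fun i => blk (X i).deg 2 (X i).D) D') ρ₂ ?_ ?_ hMT2
    · intro a b h
      have h1 := Sum.inl_injective h
      exact eq_of_heq (Sigma.mk.inj h1).2
    · ext a b
      exact blockDiagonal'_apply_eq (fun i => blk (X i).deg 2 (X i).D) i a b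
    · intro g
      rw [hρ₂]
      ext a b
      exact blockDiagonal'_apply_eq (fun i => blk (X i).deg 2 (ρ i (s g))) i a b
  have hlaa := fun i => hLAA K ℓ (ι i) (X i) S χ (Pol i) ((ρ i).comp s) hcft (hX i) (hρ i) (hns i)
  -- continuity
  have hc1 : Continuous ρ₁ := by
    have : (ρ₁ : GK K → Matrix ((Σ i, ι i) ⊕ m) ((Σ i, ι i) ⊕ m) ℚ_[ℓ]) =
        fun g => dsum (fun i => ρ i (s g)) (N (s g)) := funext hρ₁
    rw [this]
    unfold dsum
    exact Continuous.matrix_fromBlocks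
      (Continuous.matrix_blockDiagonal' (continuous_pi fun i => (hρ i).continuous.1))
      continuous_const continuous_const hN
  have hc2 : Continuous ρ₂ := by
    have : (ρ₂ : GK K → Matrix ((Σ i, {a // (X i).deg a = 2}) ⊕ m)
        ((Σ i, {a // (X i).deg a = 2}) ⊕ m) ℚ_[ℓ]) =
        fun g => dsum (fun i => blk (X i).deg 2 (ρ i (s g))) (N (s g)) := funext hρ₂
    rw [this]
    unfold dsum
    exact Continuous.matrix_fromBlocks
      (Continuous.matrix_blockDiagonal' (continuous_pi fun i =>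
        (Cnv.blk_cont (X i).deg 2).comp (hρ i).continuous.1))
      continuous_const continuous_const hN
  -- tangent vectors
  have hL : ∀ Z ∈ LieImage ρ₁ Set.univ, Z = De hBAS hX m ℚ_[ℓ] (Re X m ℚ_[ℓ] Z) := by
    rintro Z ⟨σ, -, hσ⟩
    have hplc : Continuous (pl ℚ_[ℓ] ι m) := LinearMap.continuous_of_finiteDimensional _
    have hdlc : Continuous (dl ℚ_[ℓ] ι m) := LinearMap.continuous_of_finiteDimensional _
    have h1 : ∀ g : GK K, dl ℚ_[ℓ] ι m (pl ℚ_[ℓ] ι m (ρ₁ g - 1)) = ρ₁ g - 1 := by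
      intro g
      have h3 : ρ₁ g - 1 = dl ℚ_[ℓ] ι m (fun i => ρ i (s g) - 1, N (s g) - 1) := by
        rw [hρ₁, ← dsum_one, dsum_sub]
        rfl
      rw [h3, pl_dl]
    have h2 : dl ℚ_[ℓ] ι m (pl ℚ_[ℓ] ι m Z) = Z := by
      have h3 := ((hdlc.comp hplc).tendsto Z).comp hσ
      refine tendsto_nhds_unique h3 (hσ.congr fun k => ?_)
      simp only [Function.comp_apply]
      rw [map_smul, map_smul, h1]
    have h4 : ∀ i, (pl ℚ_[ℓ] ι m Z).1 i ∈ LieImage ((ρ i).comp s) Set.univ := by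
      intro i
      refine ⟨σ, fun _ => Set.mem_univ _, ?_⟩
      have h5 : Continuous fun M : Matrix ((Σ i, ι i) ⊕ m) ((Σ i, ι i) ⊕ m) ℚ_[ℓ] =>
          (pl ℚ_[ℓ] ι m M).1 i := (continuous_apply i).comp (continuous_fst.comp hplc)
      refine ((h5.tendsto Z).comp hσ).congr fun k => ?_
      simp only [Function.comp_apply]
      have h6 : ρ₁ (σ k) - 1 = dl ℚ_[ℓ] ι m (fun i => ρ i (s (σ k)) - 1, N (s (σ k)) - 1) := by
        rw [hρ₁, ← dsum_one, dsum_sub]
        rfl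
      rw [map_smul, h6, pl_dl]
      rfl
    have h7 : Z = dsum (pl ℚ_[ℓ] ι m Z).1 (pl ℚ_[ℓ] ι m Z).2 := h2.symm
    conv_rhs => rw [h7]
    rw [Re_dsum, De_dsum]
    conv_lhs => rw [h7]
    congr 1
    funext i
    exact hlaa i _ (h4 i)
  have hcnv := cnv hLOG ρ₁ ρ₂ hc1 hc2 (Re X m ℚ_[ℓ]) (De hBAS hX m ℚ_[ℓ])
    (fun g => by rw [hρ₁, hρ₂, Re_dsum]) hL
  have hmtl := mtl hMTD (GG X m) (by
      intro x hx y hy
      rw [mem_GG] at hx hy ⊢
      obtain ⟨Y, hY, B, rfl⟩ := hx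
      obtain ⟨Y', hY', B', rfl⟩ := hy
      refine ⟨_, fun i => ?_, _, br_dsum Y Y' B B'⟩
      exact MtlAux.gso_of_skew (hX i) (MtlAux.br_skew hBAS (hX i) (hY i) (hY' i)))
    (De hBAS hX m ℚ) (Re X m ℚ) (De hBAS hX m ℂ) (Re X m ℂ) (De_map hBAS hX ℂ) (Re_map ℂ)
    (by
      intro x hx y hy
      rw [mem_GG] at hx hy
      obtain ⟨Y, hY, B, rfl⟩ := hx
      obtain ⟨Y', hY', B', rfl⟩ := hy
      rw [br_dsum, De_dsum, De_dsum, De_dsum, br_dsum]
      congr 1
      funext i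
      exact MtlAux.dt_br hBAS (hX i) (hY i) (hY' i))
    (by
      intro x hx
      rw [mem_GG] at hx
      obtain ⟨Y, hY, B, rfl⟩ := hx
      rw [De_dsum, Re_dsum]
      congr 1
      funext i
      exact MtlAux.blk_dt hBAS (hX i) (hY i))
    (dsum (fun i => (X i).D) D') (dsum (fun i => blk (X i).deg 2 (X i).D) D')
    (D2_mem hBAS hMTD hX D')
    (by
      rw [De_dsum]
      congr 1
      funext i
      exact MtlAux.dt_D hBAS (hX i))
    (by rw [Re_dsum])
  exact transfer ρ₁ ρ₂ _ _ (De hBAS hX m ℚ) (De hBAS hX m ℚ_[ℓ]) (De_map hBAS hX ℚ_[ℓ]) hcnv hmtl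
    hMT2

end Pool.Agent.NH56.HY
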