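import Pool.Agent.NH56.HY.Stm

/-!
# CNV: tangent vectors in degree two lift
-/

set_option autoImplicit false

namespace Pool.Agent.NH56.HY

open Matrix Polynomial Filter Topology NumberField IsDedekindDomain

namespace Cnv

open scoped Matrix.Norms.Elementwise

/-- tangent vectors of a block diagonal representation -/
theorem lie_bd {ℓ : ℕ} [Fact ℓ.Prime] {Γ I : Type} [Group Γ] [Fintype I] [DecidableEq I]
    {m : I → Type} [∀ i, Fintype (m i)] [∀ i, DecidableEq (m i)]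
    (R : Γ → ∀ i, Matrix (m i) (m i) ℚ_[ℓ]) (Z : Matrix (Σ i, m i) (Σ i, m i) ℚ_[ℓ]) :
    Z ∈ LieImage (fun g => blockDiagonal' (R g)) Set.univ ↔
      ∃ W : ∀ i, Matrix (m i) (m i) ℚ_[ℓ], Z = blockDiagonal' W ∧ ∃ σ : ℕ → Γ,
        ∀ i, Tendsto (fun k : ℕ => ((ℓ : ℚ_[ℓ]) ^ k)⁻¹ • (R (σ k) i - 1)) atTop (𝓝 (W i)) := by
  have key : ∀ (g : Γ) (k : ℕ), ((ℓ : ℚ_[ℓ]) ^ k)⁻¹ • (blockDiagonal' (R g) - 1) =
      blockDiagonal' (fun i => ((ℓ : ℚ_[ℓ]) ^ k)⁻¹ • (R g i - 1)) := by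
    intro g k
    rw [← blockDiagonal'_one, ← blockDiagonal'_sub, ← blockDiagonal'_smul]
    rfl
  constructor
  · rintro ⟨σ, -, h⟩
    simp only [key] at h
    have h1 : Tendsto (fun k : ℕ => fun i => ((ℓ : ℚ_[ℓ]) ^ k)⁻¹ • (R (σ k) i - 1)) atTop
        (𝓝 (blockDiag' Z)) := by
      have h2 := ((Continuous.matrix_blockDiag' continuous_id).tendsto Z).comp h
      refine h2.congr fun k => ?_
      simp only [Function.comp_apply, id]
      exact blockDiag'_blockDiagonal' _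
    refine ⟨blockDiag' Z, ?_, σ, fun i => (tendsto_pi_nhds.1 h1) i⟩
    have h3 := ((Continuous.matrix_blockDiagonal' continuous_id).tendsto (blockDiag' Z)).comp h1
    exact tendsto_nhds_unique h h3
  · rintro ⟨W, rfl, σ, h⟩
    refine ⟨σ, fun _ => Set.mem_univ _, ?_⟩
    simp only [key]
    have h1 : Tendsto (fun k : ℕ => fun i => ((ℓ : ℚ_[ℓ]) ^ k)⁻¹ • (R (σ k) i - 1)) atTop
        (𝓝 W) := tendsto_pi_nhds.2 h
    exact ((Continuous.matrix_blockDiagonal' continuous_id).tendsto W).comp h1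

/-- lifting a sequence whose images converge to `1` -/
theorem lift {Γ : Type} [Group Γ] [TopologicalSpace Γ] [IsTopologicalGroup Γ] [CompactSpace Γ]
    {E : Type} [Monoid E] [TopologicalSpace E] [T2Space E] (f : Γ →* E) (hf : Continuous f)
    (V : Set Γ) (hV : IsOpen V) (h1 : (1 : Γ) ∈ V) (σ : ℕ → Γ)
    (hσ : Tendsto (fun k => f (σ k)) atTop (𝓝 1)) :
    ∃ g : ℕ → Γ, (∀ k, g k ∈ V) ∧ ∀ᶠ k in atTop, f (g k) = f (σ k) := by
  classical
  let S : Set Γ := {g | ∃ g' ∈ V, f g' = f g}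
  have hS : IsOpen S := by
    rw [isOpen_iff_mem_nhds]
    rintro g ⟨g', hg', he⟩
    have hc : Continuous fun h : Γ => h * g⁻¹ * g' := by fun_prop
    have hm : (fun h : Γ => h * g⁻¹ * g') ⁻¹' V ∈ 𝓝 g := by
      refine (hV.preimage hc).mem_nhds ?_
      simpa using hg'
    refine Filter.mem_of_superset hm ?_
    intro h hh
    refine ⟨h * g⁻¹ * g', hh, ?_⟩
    rw [map_mul, he, ← map_mul]
    congr 1
    group
  have hC : IsCompact Sᶜ := hS.isClosed_compl.isCompact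
  have hcl : IsClosed (f '' Sᶜ) := (hC.image hf).isClosed
  have hne : (1 : E) ∉ f '' Sᶜ := by
    rintro ⟨g, hg, he⟩
    exact hg ⟨1, h1, by rw [map_one, he]⟩
  have hev : ∀ᶠ k in atTop, f (σ k) ∉ f '' Sᶜ :=
    hσ.eventually (hcl.isOpen_compl.mem_nhds hne)
  refine ⟨fun k => if h : σ k ∈ S then h.choose else 1, ?_, ?_⟩
  · intro k
    by_cases h : σ k ∈ S
    · simp only [h, dif_pos]
      exact h.choose_spec.1
    · simp only [h, dif_neg, not_false_eq_true]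
      exact h1
  · filter_upwards [hev] with k hk
    have h : σ k ∈ S := by
      by_contra hh
      exact hk ⟨σ k, hh, rfl⟩
    simp only [h, dif_pos]
    exact h.choose_spec.2

/-- the part of degree `j` of a product -/
theorem blk_mul {ι F : Type} [Fintype ι] [DecidableEq ι] [Field F] (deg : ι → ℕ) (j : ℕ)
    (A B : Matrix ι ι F) (hA : IsGraded deg A) :
    blk deg j (A * B) = blk deg j A * blk deg j B := by
  ext a b
  simp only [blk, submatrix_apply, mul_apply]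
  have h1 : ∑ c, A a c * B c b = ∑ c ∈ Finset.univ.filter (fun c => deg c = j), A a c * B c b := by
    symm
    apply Finset.sum_subset (Finset.subset_univ _)
    intro c _ hc
    have hc' : deg a ≠ deg c := by
      intro he
      apply hc
      simp only [Finset.mem_filter, Finset.mem_univ, true_and]
      rw [← he, a.2]
    rw [hA a c hc', zero_mul]
  rw [h1]
  exact Finset.sum_subtype _ (by simp) _

theorem blk_one {ι F : Type} [DecidableEq ι] [Field F] (deg : ι → ℕ) (j : ℕ) :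
    blk deg j (1 : Matrix ι ι F) = 1 := by
  ext a b
  simp only [blk, submatrix_apply, one_apply, Subtype.ext_iff]

theorem graded_pow {ι F : Type} [Fintype ι] [DecidableEq ι] [Field F] (deg : ι → ℕ) (j : ℕ)
    (A : Matrix ι ι F) (hA : IsGraded deg A) (n : ℕ) : blk deg j (A ^ n) = (blk deg j A) ^ n := by
  induction n with
  | zero => simp [blk_one]
  | succ n ih => rw [pow_succ', blk_mul _ _ _ _ hA, ih, pow_succ']

theorem blk_smul_sub {ι F : Type} [DecidableEq ι] [Field F] (deg : ι → ℕ) (j : ℕ)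
    (c : F) (A : Matrix ι ι F) : blk deg j (c • (A - 1)) = c • (blk deg j A - 1) := by
  ext a b
  simp only [blk, submatrix_apply, Matrix.smul_apply, Matrix.sub_apply, one_apply, Subtype.ext_iff]

theorem blk_cont {ι F : Type} [TopologicalSpace F] (deg : ι → ℕ) (j : ℕ) :
    Continuous fun A : Matrix ι ι F => blk deg j A :=
  Continuous.matrix_submatrix continuous_id _ _

/-- comparison of two sequences -/
theorem lim_sq {ℓ : ℕ} [Fact ℓ.Prime] {E : Type} [NormedAddCommGroup E] [NormedSpace ℚ_[ℓ] E]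
    (x y : ℕ → E) (Z : E) (C : ℝ)
    (hx : Tendsto (fun k : ℕ => ((ℓ : ℚ_[ℓ]) ^ k)⁻¹ • x k) atTop (𝓝 Z))
    (h : ∀ k, ‖y k - x k‖ ≤ C * ‖x k‖ ^ 2) :
    Tendsto (fun k : ℕ => ((ℓ : ℚ_[ℓ]) ^ k)⁻¹ • y k) atTop (𝓝 Z) := by
  have hp : 1 < (ℓ : ℝ) := by exact_mod_cast (Fact.out : ℓ.Prime).one_lt
  have hp0 : (0 : ℝ) < ℓ := by linarith
  have hn : ∀ k : ℕ, ‖((ℓ : ℚ_[ℓ]) ^ k)⁻¹‖ = (ℓ : ℝ) ^ k := by
    intro k
    rw [norm_inv, norm_pow, Padic.norm_p, inv_pow, inv_inv]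
  have h2 : Tendsto (fun k : ℕ => ((ℓ : ℚ_[ℓ]) ^ k)⁻¹ • (y k - x k)) atTop (𝓝 0) := by
    rw [tendsto_zero_iff_norm_tendsto_zero]
    have h3 : Tendsto (fun k : ℕ => C * (((ℓ : ℝ)⁻¹) ^ k * ‖((ℓ : ℚ_[ℓ]) ^ k)⁻¹ • x k‖ ^ 2)) atTop
        (𝓝 (C * (0 * ‖Z‖ ^ 2))) := by
      refine Tendsto.const_mul _ (Tendsto.mul ?_ (hx.norm.pow 2))
      exact tendsto_pow_atTop_nhds_zero_of_lt_one (by positivity) (inv_lt_one_of_one_lt₀ hp)
    rw [zero_mul, mul_zero] at h3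
    refine squeeze_zero (fun k => norm_nonneg _) (fun k => ?_) h3
    rw [norm_smul, norm_smul, hn]
    have h4 := h k
    have h5 : (0 : ℝ) < (ℓ : ℝ) ^ k := by positivity
    calc (ℓ : ℝ) ^ k * ‖y k - x k‖ ≤ (ℓ : ℝ) ^ k * (C * ‖x k‖ ^ 2) := by gcongr
      _ = C * (((ℓ : ℝ)⁻¹) ^ k * ((ℓ : ℝ) ^ k * ‖x k‖) ^ 2) := by
        rw [inv_pow]
        field_simp
  have h3 := hx.add h2
  rw [add_zero] at h3
  refine h3.congr fun k => ?_
  rw [← smul_add]
  congr 1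
  abel

theorem dt_smul {ι : Type} [Fintype ι] [DecidableEq ι] (X : Coh ι) (F : Type) [Field F] [CharZero F]
    (c : F) (x : Matrix {a // X.deg a = 2} {a // X.deg a = 2} F) :
    X.δt F (c • x) = c • X.δt F x := by
  unfold Coh.δt Coh.δF
  rw [smul_add, Finset.smul_sum]
  congr 1
  · refine Finset.sum_congr rfl fun a _ => ?_
    rw [Finset.smul_sum]
    refine Finset.sum_congr rfl fun b _ => ?_
    rw [Matrix.smul_apply, smul_smul, smul_eq_mul]
  · rw [trace_smul, smul_smul, smul_eq_mul, mul_div_assoc]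

theorem dt_cont {ι : Type} [Fintype ι] [DecidableEq ι] (X : Coh ι) {ℓ : ℕ} [Fact ℓ.Prime] :
    Continuous fun x : Matrix {a // X.deg a = 2} {a // X.deg a = 2} ℚ_[ℓ] => X.δt ℚ_[ℓ] x := by
  unfold Coh.δt Coh.δF
  refine Continuous.add ?_ ?_
  · refine continuous_finsetSum _ fun a _ => continuous_finsetSum _ fun b _ => ?_
    have h1 : Continuous fun x : Matrix {a // X.deg a = 2} {a // X.deg a = 2} ℚ_[ℓ] => x a b :=
      Continuous.matrix_elem continuous_id a b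
    exact h1.smul continuous_const
  · have h1 : Continuous fun x : Matrix {a // X.deg a = 2} {a // X.deg a = 2} ℚ_[ℓ] =>
        x.trace / (2 * (Fintype.card {a // X.deg a = 2} : ℚ_[ℓ])) :=
      (Continuous.matrix_trace continuous_id).div_const _
    exact h1.smul continuous_const

theorem main1 (hLOG : S_LOG) {ℓ : ℕ} [Fact ℓ.Prime] {ι : Type} [Fintype ι] [DecidableEq ι]
    (X : Coh ι) {Γ : Type} [Group Γ] (ρ : Γ →* Matrix ι ι ℚ_[ℓ])
    (hg : ∀ g, IsGraded X.deg (ρ g))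
    (hL : ∀ Z ∈ LieImage ρ Set.univ, Z = X.δt ℚ_[ℓ] (blk X.deg 2 Z))
    (g : ℕ → Γ) (hn : ∀ k, ∀ a b, ‖(ρ (g k) - 1) a b‖ ≤ ((ℓ : ℝ) ^ 2)⁻¹)
    (Y : Matrix {a // X.deg a = 2} {a // X.deg a = 2} ℚ_[ℓ])
    (hY : Tendsto (fun k : ℕ => ((ℓ : ℚ_[ℓ]) ^ k)⁻¹ • (blk X.deg 2 (ρ (g k)) - 1)) atTop (𝓝 Y)) :
    Tendsto (fun k : ℕ => ((ℓ : ℚ_[ℓ]) ^ k)⁻¹ • (ρ (g k) - 1)) atTop (𝓝 (X.δt ℚ_[ℓ] Y)) := by
  have hp : 2 ≤ (ℓ : ℝ) := by exact_mod_cast (Fact.out : ℓ.Prime).two_le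
  have hp2 : ((ℓ : ℝ) ^ 2)⁻¹ ≤ 1 / 4 := by
    rw [one_div]
    apply inv_anti₀ (by norm_num)
    nlinarith
  have hN : ∀ k, ‖ρ (g k) - 1‖ ≤ ((ℓ : ℝ) ^ 2)⁻¹ := fun k =>
    (Matrix.norm_le_iff (by positivity)).2 (hn k)
  have hent : ∀ k, blk X.deg 2 (ρ (g k)) - 1 = blk X.deg 2 (ρ (g k) - 1) := by
    intro k
    have := blk_smul_sub X.deg 2 (1 : ℚ_[ℓ]) (ρ (g k))
    rw [one_smul, one_smul] at this
    exact this.symm
  have hN2 : ∀ k, ‖blk X.deg 2 (ρ (g k)) - 1‖ ≤ ((ℓ : ℝ) ^ 2)⁻¹ := by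
    intro k
    refine (Matrix.norm_le_iff (by positivity)).2 fun a b => ?_
    rw [hent]
    exact hn k a b
  have h1 := fun k => hLOG ℓ ι (ρ (g k)) ‖ρ (g k) - 1‖ (hN k)
    (fun i j => Matrix.norm_entry_le_entrywise_sup_norm _)
  choose L hL1 hL2 hL3 using h1
  have h2 := fun k => hLOG ℓ {a // X.deg a = 2} (blk X.deg 2 (ρ (g k)))
    ‖blk X.deg 2 (ρ (g k)) - 1‖ (hN2 k) (fun i j => Matrix.norm_entry_le_entrywise_sup_norm _)
  choose M hM1 hM2 hM3 using h2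
  have hLM : ∀ k, blk X.deg 2 (L k) = M k := by
    intro k
    have h3 := ((blk_cont X.deg 2).tendsto (L k)).comp (hL1 k)
    refine tendsto_nhds_unique h3 ((hM1 k).congr fun m => ?_)
    simp only [Function.comp_apply]
    rw [blk_smul_sub, graded_pow _ _ _ (hg _)]
  have hLd : ∀ k, L k = X.δt ℚ_[ℓ] (M k) := by
    intro k
    rw [← hLM k]
    apply hL
    refine ⟨fun m => g k ^ (ℓ ^ m), fun _ => Set.mem_univ _, ?_⟩
    refine (hL1 k).congr fun m => ?_
    rw [map_pow]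
  have h3 : Tendsto (fun k : ℕ => ((ℓ : ℚ_[ℓ]) ^ k)⁻¹ • M k) atTop (𝓝 Y) := by
    refine lim_sq _ _ _ 2 hY fun k => ?_
    refine (Matrix.norm_le_iff (by positivity)).2 fun a b => ?_
    exact hM2 k a b
  have h4 : Tendsto (fun k : ℕ => ((ℓ : ℚ_[ℓ]) ^ k)⁻¹ • L k) atTop (𝓝 (X.δt ℚ_[ℓ] Y)) := by
    refine (((dt_cont X).tendsto Y).comp h3).congr fun k => ?_
    simp only [Function.comp_apply]
    rw [dt_smul, ← hLd]
  refine lim_sq _ _ _ 8 h4 fun k => ?_
  have h5 : ‖L k - (ρ (g k) - 1)‖ ≤ 2 * ‖ρ (g k) - 1‖ ^ 2 :=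
    (Matrix.norm_le_iff (by positivity)).2 (hL2 k)
  have h6 : ‖(ρ (g k) - 1) - L k‖ = ‖L k - (ρ (g k) - 1)‖ := norm_sub_rev _ _
  have h7 : ‖ρ (g k) - 1‖ ≤ ‖L k‖ + ‖L k - (ρ (g k) - 1)‖ := by
    have := norm_sub_le (L k) (L k - (ρ (g k) - 1))
    rwa [sub_sub_cancel] at this
  have h8 := hN k
  have h9 := norm_nonneg (ρ (g k) - 1)
  have h10 := norm_nonneg (L k)
  rw [h6]
  have h11 : ‖ρ (g k) - 1‖ ≤ 2 * ‖L k‖ := by nlinarith
  nlinarith

end Cnv

open Cnv in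
theorem t_CNV : S_BAS → S_LOG → S_CNV := by
  intro _ hLOG K _ _ ℓ _ I _ _ ι _ _ X ρ hX hc hg hL Z
  constructor
  · intro hZ
    obtain ⟨W, rfl, σ, hσ⟩ := (lie_bd (fun g i => ρ i g) Z).1 hZ
    have hW : ∀ i, W i = (X i).δt ℚ_[ℓ] (blk (X i).deg 2 (W i)) := fun i =>
      hL i _ ⟨σ, fun _ => Set.mem_univ _, hσ i⟩
    refine ⟨fun i => blk (X i).deg 2 (W i), ?_, ?_⟩
    · refine (lie_bd (fun g i => blk (X i).deg 2 (ρ i g)) _).2 ⟨_, rfl, σ, fun i => ?_⟩
      refine (((blk_cont (X i).deg 2).tendsto (W i)).comp (hσ i)).congr fun k => ?_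
      simp only [Function.comp_apply]
      rw [blk_smul_sub]
    · congr 1
      funext i
      exact hW i
  · rintro ⟨Y, hY, rfl⟩
    obtain ⟨W, hW, σ, hσ⟩ := (lie_bd (fun g i => blk (X i).deg 2 (ρ i g)) _).1 hY
    have hYW : Y = W := blockDiagonal'_injective hW
    subst hYW
    let f : GK K →* (∀ i, Matrix {a // (X i).deg a = 2} {a // (X i).deg a = 2} ℚ_[ℓ]) :=
      { toFun := fun g i => blk (X i).deg 2 (ρ i g)
        map_one' := by
          funext i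
          simp only [map_one, blk_one, Pi.one_apply]
        map_mul' := by
          intro g h
          funext i
          simp only [map_mul, Pi.mul_apply]
          exact blk_mul _ _ _ _ (hg i g) }
    have hf : Continuous f := by
      refine continuous_pi fun i => ?_
      exact (blk_cont (X i).deg 2).comp (hc i)
    let V : Set (GK K) := {g | ∀ i a b, ‖(ρ i g - 1) a b‖ < ((ℓ : ℝ) ^ 2)⁻¹}
    have hp : 2 ≤ (ℓ : ℝ) := by exact_mod_cast (Fact.out : ℓ.Prime).two_le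
    have hV : IsOpen V := by
      have : V = ⋂ i, ⋂ a, ⋂ b, {g | ‖(ρ i g - 1) a b‖ < ((ℓ : ℝ) ^ 2)⁻¹} := by
        ext g
        simp only [V, Set.mem_ofPred_eq, Set.mem_iInter]
      rw [this]
      refine isOpen_iInter_of_finite fun i => isOpen_iInter_of_finite fun a =>
        isOpen_iInter_of_finite fun b => ?_
      refine isOpen_lt ?_ continuous_const
      refine Continuous.norm ?_
      have h1 : Continuous fun g : GK K => ρ i g - 1 := (hc i).sub continuous_const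
      exact h1.matrix_elem a b
    have h1V : (1 : GK K) ∈ V := by
      intro i a b
      rw [map_one, sub_self, Matrix.zero_apply, norm_zero]
      positivity
    have hσ1 : Tendsto (fun k => f (σ k)) atTop (𝓝 1) := by
      rw [tendsto_pi_nhds]
      intro i
      have h0 : Tendsto (fun k : ℕ => (ℓ : ℚ_[ℓ]) ^ k) atTop (𝓝 0) := by
        apply tendsto_pow_atTop_nhds_zero_of_norm_lt_one
        rw [Padic.norm_p]
        exact inv_lt_one_of_one_lt₀ (by linarith)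
      have h1 := (h0.smul (hσ i)).add_const (1 : Matrix _ _ ℚ_[ℓ])
      rw [zero_smul, zero_add] at h1
      refine h1.congr fun k => ?_
      have hne : (ℓ : ℚ_[ℓ]) ^ k ≠ 0 := pow_ne_zero _ (by
        exact_mod_cast (Fact.out : ℓ.Prime).ne_zero)
      rw [smul_smul, mul_inv_cancel₀ hne, one_smul, sub_add_cancel]
      rfl
    obtain ⟨g, hgV, hge⟩ := lift f hf V hV h1V σ hσ1
    refine (lie_bd (fun g i => ρ i g) _).2 ⟨_, rfl, g, fun i => ?_⟩
    refine main1 hLOG (X i) (ρ i) (hg i) (hL i) g (fun k a b => (hgV k i a b).le) (Y i) ?_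
    refine (hσ i).congr' ?_
    filter_upwards [hge] with k hk
    have : blk (X i).deg 2 (ρ i (g k)) = blk (X i).deg 2 (ρ i (σ k)) := congrFun hk i
    rw [this]

end Pool.Agent.NH56.HY
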