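import Pool.Agent.NH56.HY.Stm

/-!
# The smallest rational Lie algebra containing `D` (project HY, helper42)
-/

set_option autoImplicit false

namespace Pool.Agent.NH56.HY

open Matrix

namespace MtdAux

variable {n : Type} [Fintype n] [DecidableEq n]

/-- The extension of a functional to complex matrices. -/
noncomputable def ext (f : Matrix n n ℚ →ₗ[ℚ] ℚ) : Matrix n n ℂ →ₗ[ℂ] ℂ where
  toFun M := ∑ i, ∑ j, M i j * ((f (Matrix.single i j 1) : ℚ) : ℂ)
  map_add' M N := by
    simp only [Matrix.add_apply, add_mul, Finset.sum_add_distrib]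
  map_smul' c M := by
    simp only [Matrix.smul_apply, smul_eq_mul, mul_assoc, Finset.mul_sum, RingHom.id_apply]

lemma ext_map (f : Matrix n n ℚ →ₗ[ℚ] ℚ) (x : Matrix n n ℚ) :
    ext f (x.map (algebraMap ℚ ℂ)) = ((f x : ℚ) : ℂ) := by
  have h1 : f x = ∑ i, ∑ j, x i j * f (Matrix.single i j 1) := by
    conv_lhs => rw [Matrix.matrix_eq_sum_single x]
    rw [map_sum]
    refine Finset.sum_congr rfl fun i _ => ?_
    rw [map_sum]
    refine Finset.sum_congr rfl fun j _ => ?_
    have e : Matrix.single i j (x i j) = x i j • Matrix.single i j (1 : ℚ) := by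
      rw [Matrix.smul_single, smul_eq_mul, mul_one]
    rw [e, map_smul, smul_eq_mul]
  rw [h1]
  show ∑ i, ∑ j, (x.map (algebraMap ℚ ℂ)) i j * ((f (Matrix.single i j 1) : ℚ) : ℂ) = _
  push_cast
  rfl

lemma ext_zero {f : Matrix n n ℚ →ₗ[ℚ] ℚ} {L : Submodule ℚ (Matrix n n ℚ)}
    (hf : ∀ x ∈ L, f x = 0) {D : Matrix n n ℂ}
    (hD : D ∈ Submodule.span ℂ ((fun x : Matrix n n ℚ => x.map (algebraMap ℚ ℂ)) '' L)) :
    ext f D = 0 := by
  have h1 : Submodule.span ℂ ((fun x : Matrix n n ℚ => x.map (algebraMap ℚ ℂ)) '' L)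
      ≤ LinearMap.ker (ext f) := by
    rw [Submodule.span_le]
    rintro _ ⟨x, hx, rfl⟩
    show ext f (x.map (algebraMap ℚ ℂ)) = 0
    rw [ext_map, hf x hx, Rat.cast_zero]
  exact h1 hD

end MtdAux

open MtdAux in
theorem t_MTD : S_MTD := by
  intro n _ _ D
  constructor
  · intro x hx y hy
    unfold mtLie at *
    rw [Submodule.mem_sInf] at *
    intro L hL
    exact hL.1 x (hx L hL) y (hy L hL)
  · -- a basis of the span of the entries
    obtain ⟨E, hE⟩ : ∃ E : Submodule ℚ ℂ, E = Submodule.span ℚ (Set.range fun ij : n × n =>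
      D ij.1 ij.2) := ⟨_, rfl⟩
    have hfin : Module.Finite ℚ E := by
      rw [hE]
      exact Module.Finite.span_of_finite ℚ (Set.finite_range _)
    obtain ⟨r, ⟨c⟩⟩ : ∃ r : ℕ, Nonempty (Module.Basis (Fin r) ℚ E) :=
      ⟨_, ⟨Module.finBasis ℚ E⟩⟩
    have hmem : ∀ i j, D i j ∈ E := fun i j => by
      rw [hE]
      exact Submodule.subset_span ⟨(i, j), rfl⟩
    obtain ⟨Dk, hDk⟩ : ∃ Dk : Fin r → Matrix n n ℚ, Dk = fun k => Matrix.of fun i j =>
      c.repr ⟨D i j, hmem i j⟩ k := ⟨_, rfl⟩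
    have hexp : ∀ i j, D i j = ∑ k, ((Dk k i j : ℚ) : ℂ) * (c k : ℂ) := by
      intro i j
      have h1 := c.sum_repr ⟨D i j, hmem i j⟩
      have h2 := congrArg (fun z : E => (z : ℂ)) h1
      simp only [Submodule.coe_sum, Submodule.coe_smul] at h2
      rw [← h2, hDk]
      refine Finset.sum_congr rfl fun k _ => ?_
      rw [Rat.smul_def]
      rfl
    have hD : D = ∑ k, (c k : ℂ) • (Dk k).map (algebraMap ℚ ℂ) := by
      ext i j
      rw [hexp i j, Matrix.sum_apply]
      refine Finset.sum_congr rfl fun k _ => ?_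
      show _ = (c k : ℂ) * ((Dk k i j : ℚ) : ℂ)
      ring
    have hind : LinearIndependent ℚ fun k => (c k : ℂ) :=
      c.linearIndependent.map' E.subtype (Submodule.ker_subtype E)
    have key : ∀ k, Dk k ∈ mtLie D := by
      intro k
      unfold mtLie
      rw [Submodule.mem_sInf]
      intro L hL
      by_contra hk
      obtain ⟨f, hf1, hf2⟩ := Submodule.exists_dual_map_eq_bot_of_notMem hk inferInstance
      have hf : ∀ x ∈ L, f x = 0 := by
        intro x hx
        have : f x ∈ L.map f := Submodule.mem_map_of_mem hx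
        rw [hf2] at this
        exact (Submodule.mem_bot ℚ).1 this
      have h1 := ext_zero hf hL.2
      have h2 : ext f D = ∑ k, (c k : ℂ) * ((f (Dk k) : ℚ) : ℂ) := by
        conv_lhs => rw [hD]
        rw [map_sum]
        refine Finset.sum_congr rfl fun k _ => ?_
        rw [map_smul, ext_map, smul_eq_mul]
      rw [h1] at h2
      have h3 := Fintype.linearIndependent_iff.1 hind (fun k => f (Dk k)) (by
        rw [h2]
        refine Finset.sum_congr rfl fun k _ => ?_
        rw [Rat.smul_def, mul_comm])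
      exact hf1 (h3 k)
    have h4 : ∑ k, (c k : ℂ) • (Dk k).map (algebraMap ℚ ℂ)
        ∈ Submodule.span ℂ ((fun x : Matrix n n ℚ => x.map (algebraMap ℚ ℂ)) '' (mtLie D)) :=
      Submodule.sum_mem _ fun k _ => Submodule.smul_mem _ _ (Submodule.subset_span ⟨Dk k, key k, rfl⟩)
    exact hD.symm ▸ h4

end Pool.Agent.NH56.HY
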