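import Pool.Agent.NH56.HY.Stm

/-!
# Roots of Frobenius polynomials
-/

set_option autoImplicit false

namespace Pool.Agent.NH56.HY

open Polynomial

namespace Ari

/-- integers have norm at most one in an ultrametric field -/
theorem int_le (p : ℕ) [Fact p.Prime] (n : ℤ) : ‖(n : PadicAlgCl p)‖ ≤ 1 := by
  have h : (n : PadicAlgCl p) = algebraMap ℚ_[p] (PadicAlgCl p) (n : ℚ_[p]) := by simp
  rw [h]
  have h2 := PadicAlgCl.norm_extends p (n : ℚ_[p])
  have h3 : ‖algebraMap ℚ_[p] (PadicAlgCl p) (n : ℚ_[p])‖ = ‖(n : ℚ_[p])‖ := h2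
  rw [h3]
  exact Padic.norm_int_le_one n

/-- a natural number prime to `p` has norm one -/
theorem nat_eq (p : ℕ) [Fact p.Prime] (n : ℕ) (h : n.Coprime p) : ‖(n : PadicAlgCl p)‖ = 1 := by
  have h1 : (n : PadicAlgCl p) = algebraMap ℚ_[p] (PadicAlgCl p) (n : ℚ_[p]) := by simp
  rw [h1]
  have h2 := PadicAlgCl.norm_extends p (n : ℚ_[p])
  have h3 : ‖algebraMap ℚ_[p] (PadicAlgCl p) (n : ℚ_[p])‖ = ‖(n : ℚ_[p])‖ := h2
  rw [h3, Padic.norm_natCast_eq_one_iff]
  exact h.symm

/-- a root of a monic polynomial with integral coefficients has norm at most one -/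
theorem root_le (p : ℕ) [Fact p.Prime] (P : ℤ[X]) (hP : P.Monic) (x : PadicAlgCl p)
    (hx : aeval x P = 0) : ‖x‖ ≤ 1 := by
  by_contra hlt
  push Not at hlt
  have hs : aeval x P = ∑ i ∈ Finset.range P.natDegree, (P.coeff i : PadicAlgCl p) * x ^ i +
      x ^ P.natDegree := by
    rw [aeval_eq_sum_range, Finset.sum_range_succ, hP.coeff_natDegree, one_smul]
    congr 1
    refine Finset.sum_congr rfl fun i _ => ?_
    rw [zsmul_eq_mul]
  rw [hs] at hx
  have h1 : ‖∑ i ∈ Finset.range P.natDegree, (P.coeff i : PadicAlgCl p) * x ^ i‖ <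
      ‖x‖ ^ P.natDegree := by
    by_cases hn : (Finset.range P.natDegree).Nonempty
    · obtain ⟨i, hi, hle⟩ := IsUltrametricDist.exists_norm_finsetSum_le_of_nonempty hn
        (fun i => (P.coeff i : PadicAlgCl p) * x ^ i)
      refine hle.trans_lt ?_
      rw [norm_mul, norm_pow]
      calc ‖(P.coeff i : PadicAlgCl p)‖ * ‖x‖ ^ i ≤ 1 * ‖x‖ ^ i :=
            mul_le_mul_of_nonneg_right (int_le p _) (by positivity)
        _ = ‖x‖ ^ i := one_mul _
        _ < ‖x‖ ^ P.natDegree := pow_lt_pow_right₀ hlt (Finset.mem_range.1 hi)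
    · rw [Finset.not_nonempty_iff_eq_empty] at hn
      rw [hn, Finset.sum_empty, norm_zero]
      positivity
  have h2 : x ^ P.natDegree =
      -∑ i ∈ Finset.range P.natDegree, (P.coeff i : PadicAlgCl p) * x ^ i := by
    linear_combination hx
  have h3 : ‖x‖ ^ P.natDegree =
      ‖∑ i ∈ Finset.range P.natDegree, (P.coeff i : PadicAlgCl p) * x ^ i‖ := by
    rw [← norm_pow, h2, norm_neg]
  linarith

/-- ring homomorphisms preserve the roots of polynomials with integral coefficients -/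
theorem map_root {A B : Type} [CommRing A] [CommRing B] (f : A →+* B) (P : ℤ[X]) (a : A)
    (h : aeval a P = 0) : aeval (f a) P = 0 := by
  have h1 := congrArg f h
  rw [map_zero] at h1
  rw [← h1, aeval_def, aeval_def, hom_eval₂]
  congr 1
  exact RingHom.ext_int _ _

theorem of_map_root {A B : Type} [CommRing A] [CommRing B] (f : A →+* B)
    (hf : Function.Injective f) (P : ℤ[X]) (a : A) (h : aeval (f a) P = 0) : aeval a P = 0 := by
  apply hf
  rw [map_zero, ← h, aeval_def, aeval_def, hom_eval₂]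
  congr 1
  exact RingHom.ext_int _ _

end Ari

open Ari in
/-- **ARI** -/
theorem t_ARI : S_ARI := by
  refine ⟨?_, ?_⟩
  · intro P F _ _ _ s
    have hm : P.map (Int.castRingHom F) =
        (P.map (Int.castRingHom (AlgebraicClosure ℚ))).map s := by
      rw [Polynomial.map_map]
      congr 1
      exact RingHom.ext_int _ _
    rw [hm]
    exact (IsAlgClosed.splits _).roots_map s
  · intro P p j _ hP hz a ha
    have hp : (0 : ℝ) < p := by exact_mod_cast (Fact.out : p.Prime).pos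
    have hτ : ∀ τ : AlgebraicClosure ℚ →+* ℂ, ‖τ a‖ ^ 2 = (p : ℝ) ^ j := fun τ =>
      hz _ (map_root τ P a ha)
    have : Algebra.IsAlgebraic ℚ (AlgebraicClosure ℚ) := AlgebraicClosure.isAlgebraic ℚ
    let τ₀ : AlgebraicClosure ℚ →+* ℂ :=
      (IsAlgClosed.lift (R := ℚ) (S := AlgebraicClosure ℚ) (M := ℂ)).toRingHom
    have ha0 : a ≠ 0 := by
      rintro rfl
      have h := hτ τ₀
      rw [map_zero, norm_zero] at h
      have h2 : (0 : ℝ) < (p : ℝ) ^ j := by positivity
      rw [← h] at h2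
      norm_num at h2
    refine ⟨ha0, hτ, ?_⟩
    intro p' _ σ hpp
    have hb : aeval ((p : AlgebraicClosure ℚ) ^ j / a) P = 0 := by
      apply of_map_root τ₀ τ₀.injective
      rw [map_div₀, map_pow, map_natCast]
      have hne : τ₀ a ≠ 0 := (map_ne_zero τ₀).2 ha0
      have h1 : ((p : ℂ) ^ j / τ₀ a) = (starRingEnd ℂ) (τ₀ a) := by
        rw [div_eq_iff hne, mul_comm, Complex.mul_conj, Complex.normSq_eq_norm_sq, hτ τ₀]
        push_cast
        rfl
      rw [h1]
      exact map_root (starRingEnd ℂ) P _ (map_root τ₀ P a ha)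
    have h1 : ‖σ a‖ ≤ 1 := root_le p' P hP _ (map_root σ P a ha)
    have h2 : ‖σ ((p : AlgebraicClosure ℚ) ^ j / a)‖ ≤ 1 := root_le p' P hP _ (map_root σ P _ hb)
    have h3 : ‖σ a‖ * ‖σ ((p : AlgebraicClosure ℚ) ^ j / a)‖ = 1 := by
      rw [← norm_mul, ← map_mul, mul_div_cancel₀ _ ha0, map_pow, map_natCast, norm_pow, nat_eq,
        one_pow]
      exact (Nat.coprime_primes Fact.out Fact.out).2 (Ne.symm hpp)
    have h4 : 0 ≤ ‖σ a‖ := norm_nonneg _
    have h5 : 0 ≤ ‖σ ((p : AlgebraicClosure ℚ) ^ j / a)‖ := norm_nonneg _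
    nlinarith [mul_le_mul_of_nonneg_left h2 h4]

end Pool.Agent.NH56.HY
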