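import Pool.Agent.NH56.HY.Stm
import Pool.Agent.Y759.TS.Kol

/-!
# COM: an open subgroup commutes with the commutant
-/

set_option autoImplicit false
set_option linter.unusedSectionVars false

namespace Pool.Agent.NH56.HY

open Matrix Polynomial Filter Topology NumberField IsDedekindDomain

namespace Com87

section alg

variable {F Γ ι : Type} [Field F] [Group Γ] [Fintype ι] [DecidableEq ι]
  (ρ : Γ →* Matrix ι ι F)

/-- conjugation -/
def ad (g : Γ) : Module.End F (Matrix ι ι F) := cj (ρ g) (ρ g⁻¹)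

theorem ad_apply (g : Γ) (B : Matrix ι ι F) : ad ρ g B = ρ g * B * ρ g⁻¹ := by
  rw [mul_assoc]
  rfl

theorem mul_inv' (g : Γ) : ρ g * ρ g⁻¹ = 1 := by
  rw [← map_mul, mul_inv_cancel, map_one]

theorem inv_mul' (g : Γ) : ρ g⁻¹ * ρ g = 1 := by
  rw [← map_mul, inv_mul_cancel, map_one]

theorem ad_one : ad ρ 1 = 1 := by
  ext1 B
  rw [ad_apply, inv_one, map_one, one_mul, mul_one]
  rfl

theorem ad_mul (g h : Γ) : ad ρ (g * h) = ad ρ g * ad ρ h := by
  ext1 B
  rw [Module.End.mul_apply, ad_apply, ad_apply, ad_apply, _root_.mul_inv_rev, map_mul, map_mul]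
  simp only [mul_assoc]

/-- the elements which act by unipotent maps on a stable subspace: products of differences -/
theorem kol [CharZero F] (U : Subgroup Γ) (E : Submodule F (Matrix ι ι F))
    (hE : ∀ g ∈ U, ∀ B ∈ E, ad ρ g B ∈ E) (k : ℕ)
    (hk : ∀ g ∈ U, ∀ B ∈ E, ((ad ρ g - 1) ^ k) B = 0) :
    ∀ l : List U, l.length = Module.finrank F E → ∀ B ∈ E,
      (l.map fun g : U => ad ρ (g : Γ) - 1).prod B = 0 := by
  classical
  let φ : U →* Module.End F E :=
    { toFun := fun g => (ad ρ (g : Γ)).restrict (hE g g.2)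
      map_one' := by
        ext1 x
        apply Subtype.ext
        change ad ρ 1 (x : Matrix ι ι F) = x
        rw [ad_one]
        rfl
      map_mul' := by
        intro a b
        ext1 x
        apply Subtype.ext
        change ad ρ ((a : Γ) * b) (x : Matrix ι ι F) = ad ρ a (ad ρ b x)
        rw [ad_mul]
        rfl }
  have hφ : ∀ (g : U) (x : E), ((φ g x : E) : Matrix ι ι F) = ad ρ (g : Γ) x := fun g x => rfl
  have hφ1 : ∀ (g : U) (x : E), (((φ g - 1) x : E) : Matrix ι ι F) = (ad ρ (g : Γ) - 1) x :=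
    fun g x => rfl
  let b := Module.finBasis F E
  let e : Module.End F E ≃ₐ[F]
      Matrix (Fin (Module.finrank F E)) (Fin (Module.finrank F E)) F := LinearMap.toMatrixAlgEquiv b
  let θ : U →* GL (Fin (Module.finrank F E)) F :=
    ((e : Module.End F E →* Matrix _ _ F).comp φ).toHomUnits
  have hθ : ∀ g : U, (θ g).val = e (φ g) := fun g => rfl
  have he1 : ∀ x : Module.End F E, e (x - 1) = e x - 1 := fun x => by
    have h0 : e (x - 1) = e x - e 1 := map_sub e x 1
    rw [h0, map_one]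
  have hnil : ∀ g : U, IsNilpotent ((θ g).val - 1) := by
    intro g
    refine ⟨k, ?_⟩
    have h1 : ∀ (j : ℕ) (x : E), ((((φ g - 1) ^ j) x : E) : Matrix ι ι F) =
        ((ad ρ (g : Γ) - 1) ^ j) x := by
      intro j
      induction j with
      | zero => intro x; rfl
      | succ j ih =>
        intro x
        rw [pow_succ, pow_succ, Module.End.mul_apply, Module.End.mul_apply, ih, hφ1]
    have h2 : (φ g - 1) ^ k = 0 := by
      ext1 x
      apply Subtype.ext
      rw [h1, hk g g.2 x x.2]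
      rfl
    rw [hθ, ← map_one e, ← map_sub, ← map_pow, h2, map_zero]
  intro l hl B hB
  have h3 := Pool.Agent.Y759.TS.t_KOL F U (Module.finrank F E) θ hnil
    (fun i => l.get (i.cast hl.symm))
  have h4 : (List.ofFn fun i : Fin (Module.finrank F E) =>
      (θ (l.get (i.cast hl.symm))).val - 1) = l.map fun g => e (φ g - 1) := by
    apply List.ext_get
    · simp [hl]
    · intro j hj hj'
      simp only [List.get_eq_getElem, List.getElem_ofFn, List.getElem_map, Fin.val_cast, hθ]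
      exact (he1 _).symm
  have h5 : (l.map fun g : U => φ g - 1).prod = 0 := by
    apply e.injective
    rw [map_zero, map_list_prod, List.map_map]
    rw [h4] at h3
    exact h3
  have h6 : ∀ (l : List U) (x : E), (((l.map fun g : U => φ g - 1).prod x : E) : Matrix ι ι F) =
      (l.map fun g : U => ad ρ (g : Γ) - 1).prod x := by
    intro l
    induction l with
    | nil => intro x; rfl
    | cons a l ih =>
      intro x
      rw [List.map_cons, List.prod_cons, List.map_cons, List.prod_cons, Module.End.mul_apply,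
        Module.End.mul_apply, hφ1, ih]
  have h7 := h6 l ⟨B, hB⟩
  rw [h5] at h7
  exact h7.symm

/-- a subspace stable under the group is stable under products of differences -/
theorem prod_mem (U : Subgroup Γ) (E : Submodule F (Matrix ι ι F))
    (hE : ∀ g ∈ U, ∀ B ∈ E, ad ρ g B ∈ E) (l : List U) : ∀ B ∈ E,
      (l.map fun g : U => ad ρ (g : Γ) - 1).prod B ∈ E := by
  induction l with
  | nil => intro B hB; exact hB
  | cons a l ih =>
    intro B hB
    rw [List.map_cons, List.prod_cons, Module.End.mul_apply]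
    exact E.sub_mem (hE a a.2 _ (ih B hB)) (ih B hB)

end alg

section com

variable {ι : Type} [Fintype ι] [DecidableEq ι] (X : Coh ι)

theorem graded_H (F : Type) [Field F] [CharZero F] {M : Matrix ι ι F}
    (h : IsGraded X.deg M) : M * X.H F = X.H F * M := by
  ext a b
  unfold Coh.H
  rw [Matrix.mul_diagonal, Matrix.diagonal_mul]
  by_cases hab : X.deg a = X.deg b
  · rw [hab, mul_comm]
  · rw [h a b hab, zero_mul, mul_zero]

/-- the commutant -/
def EE (F : Type) [Field F] [CharZero F] : Submodule F (Matrix ι ι F) where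
  carrier := {B | X.Com F B}
  add_mem' := by
    rintro a b ⟨h1, h2⟩ ⟨h3, h4⟩
    exact ⟨fun x => by rw [add_mul, mul_add, h1, h3], by rw [add_mul, mul_add, h2, h4]⟩
  zero_mem' := ⟨fun x => by rw [zero_mul, mul_zero], by rw [zero_mul, mul_zero]⟩
  smul_mem' := by
    rintro c a ⟨h1, h2⟩
    exact ⟨fun x => by rw [smul_mul_assoc, mul_smul_comm, h1],
      by rw [smul_mul_assoc, mul_smul_comm, h2]⟩

end com

section real

variable {K : Type} [Field K] [NumberField K] {ℓ : ℕ} [Fact ℓ.Prime] {ι : Type}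
  [Fintype ι] [DecidableEq ι] {X : Coh ι} {S : Finset ℕ} {χ : GK K →* ℚ_[ℓ]}
  {Pol : HeightOneSpectrum (𝓞 K) → ℕ → ℤ[X]} {ρ : GK K →* Matrix ι ι ℚ_[ℓ]}

/-- the commutant is stable under conjugation -/
theorem ad_com (h1 : S_BAS) (h2 : S_PER) (hX : IsHyperKahler X) (hR : IsRealization X S χ Pol ρ)
    (g : GK K) {B : Matrix ι ι ℚ_[ℓ]} (hB : X.Com ℚ_[ℓ] B) : X.Com ℚ_[ℓ] (ad ρ g B) := by
  obtain ⟨-, -, b3, -, b5, -, -, -, -⟩ := h1 ι X hX ℚ_[ℓ]
  have hper := (h2 ι X hX ℚ_[ℓ] B hB).1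
  have e1 := mul_inv' ρ g
  have e2 := inv_mul' ρ g
  rw [ad_apply]
  constructor
  · intro x
    rw [← b3 x]
    obtain ⟨y, hy, hyx⟩ := b5 (x.map (algebraMap ℚ ℚ_[ℓ]))
    rw [← hyx]
    have e3 := hR.equivariant g⁻¹ y hy
    rw [inv_inv] at e3
    have e4 := hper (blk X.deg 2 (ρ g⁻¹) * y * blk X.deg 2 (ρ g))
    rw [← e3] at e4
    calc ρ g * B * ρ g⁻¹ * X.δF ℚ_[ℓ] y
        = ρ g * (B * (ρ g⁻¹ * X.δF ℚ_[ℓ] y * ρ g)) * ρ g⁻¹ := by
          simp only [mul_assoc, e1, mul_one]
      _ = ρ g * ((ρ g⁻¹ * X.δF ℚ_[ℓ] y * ρ g) * B) * ρ g⁻¹ := by rw [e4]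
      _ = (ρ g * ρ g⁻¹) * X.δF ℚ_[ℓ] y * (ρ g * B * ρ g⁻¹) := by simp only [mul_assoc]
      _ = X.δF ℚ_[ℓ] y * (ρ g * B * ρ g⁻¹) := by rw [e1, one_mul]
  · have h3 := graded_H X ℚ_[ℓ] (hR.graded g)
    have h4 := graded_H X ℚ_[ℓ] (hR.graded g⁻¹)
    rw [mul_assoc, h4, ← mul_assoc, mul_assoc (ρ g), hB.2, ← mul_assoc, h3, mul_assoc, mul_assoc,
      mul_assoc]

/-- continuity -/
theorem cont_pow (hρ : Continuous ρ) (B : Matrix ι ι ℚ_[ℓ]) (k : ℕ) :
    Continuous fun g : GK K => ((ad ρ g - 1) ^ k) B := by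
  have hρ' : Continuous fun g : GK K => ρ g⁻¹ := hρ.comp continuous_inv
  induction k with
  | zero => exact continuous_const
  | succ k ih =>
    have h1 : (fun g : GK K => ((ad ρ g - 1) ^ (k + 1)) B) =
        fun g : GK K => ρ g * (((ad ρ g - 1) ^ k) B) * ρ g⁻¹ - ((ad ρ g - 1) ^ k) B := by
      funext g
      rw [pow_succ', Module.End.mul_apply, LinearMap.sub_apply, ad_apply]
      rfl
    rw [h1]
    exact ((hρ.matrix_mul ih).matrix_mul hρ').sub ih

/-- the elements of small inertia groups commute with the commutant -/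
theorem inertia_com (h3 : S_LOG) (hR : IsRealization X S χ Pol ρ)
    (Q : Ideal (𝓞 (AlgebraicClosure K))) (hQ : Q.IsMaximal)
    (hℓ : (ℓ : 𝓞 (AlgebraicClosure K)) ∈ Q) (g : GK K) (hg : g ∈ inertia Q)
    (hs : ∀ i j, ‖(ρ g - 1) i j‖ ≤ ((ℓ : ℝ) ^ 2)⁻¹) (B : Matrix ι ι ℚ_[ℓ])
    (hB : X.Com ℚ_[ℓ] B) : ρ g * B = B * ρ g := by
  obtain ⟨L, hL, -, hLB⟩ := h3 ℓ ι (ρ g) _ le_rfl hs
  apply hLB
  obtain ⟨Θ, -, hΘ, hW⟩ := hR.sen Q hQ hℓ
  let W : Submodule ℚ_[ℓ] (Matrix ι ι ℚ_[ℓ]) :=
    { carrier := {Z | ∀ B, X.Com ℚ_[ℓ] B → Z * B = B * Z}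
      add_mem' := by
        intro a b ha hb B hB
        rw [add_mul, mul_add, ha B hB, hb B hB]
      zero_mem' := by
        intro B _
        rw [zero_mul, mul_zero]
      smul_mem' := by
        intro c a ha B hB
        rw [smul_mul_assoc, mul_smul_comm, ha B hB] }
  have hpow : ∀ k : ℕ, g ^ k ∈ inertia Q := by
    intro k
    induction k with
    | zero =>
      intro x
      rw [pow_zero, one_smul, sub_self]
      exact Q.zero_mem
    | succ k ih =>
      intro x
      have e : g ^ (k + 1) • x - x = (g ^ k • (g • x) - g • x) + (g • x - x) := by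
        rw [pow_succ, mul_smul]
        ring
      rw [e]
      exact Q.add_mem (ih _) (hg x)
  have hLI : L ∈ LieImage ρ (inertia Q) := by
    refine ⟨fun k => g ^ (ℓ ^ k), fun k => hpow _, ?_⟩
    refine hL.congr fun k => ?_
    rw [map_pow]
  have hΘW : Θ ∈ Submodule.span ℂ_[ℓ]
      ((fun Z : Matrix ι ι ℚ_[ℓ] => Z.map (algebraMap ℚ_[ℓ] ℂ_[ℓ])) '' W) := by
    rw [hΘ]
    refine Submodule.add_mem _ (Submodule.smul_mem _ _ (Submodule.subset_span ?_)) ?_
    · refine ⟨X.H ℚ_[ℓ], fun B hB => hB.2.symm, ?_⟩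
      ext a b
      change algebraMap ℚ_[ℓ] ℂ_[ℓ] (X.H ℚ_[ℓ] a b) = X.H ℂ_[ℓ] a b
      unfold Coh.H
      rw [Matrix.diagonal_apply, Matrix.diagonal_apply]
      split_ifs
      · rw [map_natCast]
      · rw [map_zero]
    · unfold Coh.δF
      refine Submodule.sum_mem _ fun a _ => Submodule.sum_mem _ fun b _ =>
        Submodule.smul_mem _ _ (Submodule.subset_span ?_)
      refine ⟨(X.δ (Matrix.single a b 1)).map (algebraMap ℚ ℚ_[ℓ]), fun B hB => (hB.1 _).symm, ?_⟩
      ext i j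
      simp only [Matrix.map_apply]
      rw [← RingHom.comp_apply]
      congr 1
      exact Subsingleton.elim _ _
  exact hW W hΘW hLI B hB

/-- the elements close to `1` form an open subgroup -/
theorem exists_small (hρ : Continuous ρ) : ∃ V : Subgroup (GK K), IsOpen (V : Set (GK K)) ∧
    ∀ g ∈ V, ∀ i j, ‖(ρ g - 1) i j‖ ≤ ((ℓ : ℝ) ^ 2)⁻¹ := by
  have hℓ0 : (0 : ℝ) < ((ℓ : ℝ) ^ 2)⁻¹ := by
    have : 0 < ℓ := (Fact.out : ℓ.Prime).pos
    positivity
  have hU : IsOpen {g : GK K | ∀ i j, ‖(ρ g - 1) i j‖ < ((ℓ : ℝ) ^ 2)⁻¹} := by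
    simp only [Set.ofPred_forall]
    refine isOpen_iInter_of_finite fun i => isOpen_iInter_of_finite fun j => ?_
    refine isOpen_lt ?_ continuous_const
    exact ((hρ.sub continuous_const).matrix_elem i j).norm
  obtain ⟨H, hH⟩ := ProfiniteGrp.exist_openNormalSubgroup_sub_open_nhds_of_one hU (by
    intro i j
    rw [map_one, sub_self, Matrix.zero_apply, norm_zero]
    exact hℓ0)
  exact ⟨H.toSubgroup, H.isOpen', fun g hg i j => (hH hg i j).le⟩

end real

end Com87

open Com87 in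
theorem t_COM (h1 : S_BAS) (h2 : S_PER) (h3 : S_LOG) : S_COM := by
  classical
  intro K _ _ ℓ _ ι _ _ X S χ Pol ρ hCFT hX hR U hU hV
  have hρ := hR.continuous.1
  set E := EE X ℚ_[ℓ] with hE
  have hmem : ∀ B, B ∈ E ↔ X.Com ℚ_[ℓ] B := fun B => Iff.rfl
  have hEad : ∀ g ∈ U, ∀ B ∈ E, ad ρ g B ∈ E := fun g _ B hB => ad_com h1 h2 hX hR g hB
  -- unipotent
  have hk : ∀ g ∈ U, ∀ B ∈ E, ((ad ρ g - 1) ^ (Fintype.card ι ^ 2)) B = 0 := by
    intro g hg B hB
    by_contra hne
    obtain ⟨g', hg', h4⟩ := hV ((U : Set (GK K)) ∩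
      {g | ((ad ρ g - 1) ^ (Fintype.card ι ^ 2)) B ≠ 0})
      (hU.inter (isOpen_compl_singleton.preimage (cont_pow hρ B _))) ⟨g, hg, hne⟩
      Set.inter_subset_left
    exact hg'.2 (h4 B hB)
  -- products of differences
  have key : ∀ m : ℕ, (∀ l : List U, l.length = m + 2 → ∀ B ∈ E,
      (l.map fun g : U => ad ρ (g : GK K) - 1).prod B = 0) →
      ∀ l : List U, l.length = m + 1 → ∀ B ∈ E,
        (l.map fun g : U => ad ρ (g : GK K) - 1).prod B = 0 := by
    intro m hm l hl B hB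
    obtain ⟨g₁, l', rfl⟩ : ∃ g l', l = g :: l' := by
      cases l with
      | nil => simp at hl
      | cons g l' => exact ⟨g, l', rfl⟩
    have hl' : l'.length = m := by simpa using hl
    obtain ⟨x, hx⟩ : ∃ x, x = (l'.map fun g : U => ad ρ (g : GK K) - 1).prod B := ⟨_, rfl⟩
    have hxE : x ∈ E := by rw [hx]; exact prod_mem ρ U E hEad l' B hB
    have hfix : ∀ g h : U, ad ρ (h : GK K) (ad ρ (g : GK K) x - x) =
        ad ρ (g : GK K) x - x := by
      intro g h
      have h5 := hm (h :: g :: l') (by simp [hl']) B hB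
      rw [List.map_cons, List.prod_cons, List.map_cons, List.prod_cons, Module.End.mul_apply,
        Module.End.mul_apply, ← hx, LinearMap.sub_apply, sub_eq_zero] at h5
      exact h5
    have hadd : ∀ g h : U, ad ρ ((g * h : U) : GK K) x - x =
        (ad ρ (g : GK K) x - x) + (ad ρ (h : GK K) x - x) := by
      intro g h
      have h6 := hfix h g
      rw [map_sub] at h6
      rw [sub_eq_iff_eq_add] at h6
      rw [Subgroup.coe_mul, ad_mul, Module.End.mul_apply, h6]
      abel
    have hzero : ∀ (a b : ι) (g : U), (ad ρ (g : GK K) x - x) a b = 0 := by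
      intro a b
      refine hCFT U hU (fun g : U => (ad ρ (g : GK K) x - x) a b) ?_ ?_ ?_
      · have h7 := cont_pow hρ x 1
        have h8 : Continuous fun g : U => ((((ad ρ (g : GK K) - 1) ^ 1 :
            Module.End ℚ_[ℓ] (Matrix ι ι ℚ_[ℓ])) x : Matrix ι ι ℚ_[ℓ]) a b) :=
          (h7.comp continuous_subtype_val).matrix_elem a b
        refine h8.congr fun g => ?_
        rw [pow_one]
        rfl
      · intro g h
        change (ad ρ ((g * h : U) : GK K) x - x) a b = _
        rw [hadd]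
        rfl
      · intro Q hQ hℓ
        obtain ⟨V, hVo, hVs⟩ := exists_small (ρ := ρ) hρ
        refine ⟨V, hVo, fun g hg hgQ => ?_⟩
        have h9 := inertia_com h3 hR Q hQ hℓ g hgQ (hVs g hg) x hxE
        change (ad ρ (g : GK K) x - x) a b = 0
        rw [ad_apply, h9, mul_assoc, Com87.mul_inv' ρ, mul_one, sub_self]
        rfl
    rw [List.map_cons, List.prod_cons, Module.End.mul_apply, ← hx]
    ext a b
    exact hzero a b g₁
  have hall : ∀ n m : ℕ, (∀ l : List U, l.length = m + n + 1 → ∀ B ∈ E,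
      (l.map fun g : U => ad ρ (g : GK K) - 1).prod B = 0) →
      ∀ l : List U, l.length = m + 1 → ∀ B ∈ E,
        (l.map fun g : U => ad ρ (g : GK K) - 1).prod B = 0 := by
    intro n
    induction n with
    | zero => intro m h; exact h
    | succ n ih =>
      intro m h
      exact ih m (key (m + n) h)
  have hlast := hall (Module.finrank ℚ_[ℓ] E) 0 (by
    intro l hl B hB
    obtain ⟨g₁, l', rfl⟩ : ∃ g l', l = g :: l' := by
      cases l with
      | nil => simp at hl
      | cons g l' => exact ⟨g, l', rfl⟩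
    have hl' : l'.length = Module.finrank ℚ_[ℓ] E := by simpa using hl
    rw [List.map_cons, List.prod_cons, Module.End.mul_apply, kol ρ U E hEad _ hk l' hl' B hB,
      map_zero])
  intro g hg B hB
  have h10 := hlast [⟨g, hg⟩] rfl B hB
  rw [List.map_cons, List.map_nil, List.prod_cons, List.prod_nil, mul_one, LinearMap.sub_apply,
    ad_apply, sub_eq_zero] at h10
  have h11 : ρ g * B * ρ g⁻¹ = B := h10
  calc ρ g * B = ρ g * B * (ρ g⁻¹ * ρ g) := by rw [Com87.inv_mul' ρ, mul_one]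
    _ = (ρ g * B * ρ g⁻¹) * ρ g := by simp only [mul_assoc]
    _ = B * ρ g := by rw [h11]

end Pool.Agent.NH56.HY
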