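import Mathlib

/-!
# The Mumford-Tate conjecture for the full cohomology of hyper-Kähler varieties: definitions
-/

set_option autoImplicit false

namespace Pool.Agent.NH56.HY

open Matrix Polynomial Filter Topology NumberField IsDedekindDomain

/-! ### Rational cohomology with the action of Looijenga, Lunts and Verbitsky -/

/-- The data of the rational cohomology `H^*(X, ℚ)` of a hyper-Kähler variety `X`, written in a basis
indexed by `ι` which consists of classes of pure degree. -/
structure Coh (ι : Type) [Fintype ι] [DecidableEq ι] where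
  /-- the degree of the basis vectors -/
  deg : ι → ℕ
  /-- the Beauville-Bogomolov-Fujiki form on `H^2(X, ℚ)` -/
  q : Matrix {a // deg a = 2} {a // deg a = 2} ℚ
  /-- the action of the Lie algebra `so(q)` on `H^*(X, ℚ)` found by Looijenga, Lunts and Verbitsky,
  extended by `0` to the matrices which are self-adjoint for `q` -/
  δ : Matrix {a // deg a = 2} {a // deg a = 2} ℚ →ₗ[ℚ] Matrix ι ι ℚ
  /-- the Hodge types: the `a`-th vector of the Hodge basis is of type `(hdg a, deg a - hdg a)` -/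
  hdg : ι → ℕ
  /-- the columns of `P` are a basis of `H^*(X, ℂ)` adapted to the Hodge decomposition -/
  P : Matrix ι ι ℂ

/-- the matrix `M` preserves the degree -/
def IsGraded {ι F : Type} [Zero F] (deg : ι → ℕ) (M : Matrix ι ι F) : Prop :=
  ∀ a b, deg a ≠ deg b → M a b = 0

/-- the action of `M` on the part of degree `j` -/
def blk {ι F : Type} (deg : ι → ℕ) (j : ℕ) (M : Matrix ι ι F) :
    Matrix {a // deg a = j} {a // deg a = j} F := M.submatrix Subtype.val Subtype.val

namespace Coh

variable {ι : Type} [Fintype ι] [DecidableEq ι] (X : Coh ι) (F : Type) [Field F] [CharZero F]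

/-- the form `q` with coefficients in `F` -/
def qF : Matrix {a // X.deg a = 2} {a // X.deg a = 2} F := X.q.map (algebraMap ℚ F)

/-- `x` is in the Lie algebra `so(q)` over `F` -/
def IsSkew (x : Matrix {a // X.deg a = 2} {a // X.deg a = 2} F) : Prop :=
  xᵀ * X.qF F + X.qF F * x = 0

/-- the action of Looijenga, Lunts and Verbitsky with coefficients in `F` -/
def δF (x : Matrix {a // X.deg a = 2} {a // X.deg a = 2} F) : Matrix ι ι F :=
  ∑ a, ∑ b, x a b • (X.δ (Matrix.single a b 1)).map (algebraMap ℚ F)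

/-- the operator which multiplies by the degree -/
def H : Matrix ι ι F := Matrix.diagonal fun a => (X.deg a : F)

/-- the Hodge operator: it acts as `p` on the classes of type `(p, q)` -/
noncomputable def D : Matrix ι ι ℂ := X.P * Matrix.diagonal (fun a => (X.hdg a : ℂ)) * X.P⁻¹

/-- the Hodge numbers of degree `j`: the `p` with multiplicity `h^{p, j - p}` -/
def hodge (j : ℕ) : Multiset ℝ := (Finset.univ.filter fun a => X.deg a = j).val.map fun a => (X.hdg a : ℝ)

/-- `x` is in the Lie algebra `so(q)` over `ℚ` -/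
abbrev So (x : Matrix {a // X.deg a = 2} {a // X.deg a = 2} ℚ) : Prop := xᵀ * X.q + X.q * x = 0

/-- `δ` is an action of the Lie algebra `so(q)` -/
abbrev IsAction : Prop :=
  ∀ x y, X.So x → X.So y → X.δ (x * y - y * x) = X.δ x * X.δ y - X.δ y * X.δ x

/-- the trace form of the action `δ` is a multiple of the trace form of the natural action -/
abbrev HasTraceForm : Prop :=
  ∃ c : ℚ, ∀ x y, X.So x → X.So y → (X.δ x * X.δ y).trace = c * (x * y).trace

/-- the action `δ` is semisimple, in each degree -/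
abbrev IsSemisimple : Prop := ∀ W : Submodule ℚ (ι → ℚ),
  (∀ x, ∀ w ∈ W, X.δ x *ᵥ w ∈ W) → (∀ w ∈ W, X.H ℚ *ᵥ w ∈ W) →
  ∃ W' : Submodule ℚ (ι → ℚ), (∀ x, ∀ w ∈ W', X.δ x *ᵥ w ∈ W') ∧ (∀ w ∈ W', X.H ℚ *ᵥ w ∈ W') ∧
    IsCompl W W'

end Coh

/-- The properties of the cohomology of a projective hyper-Kähler variety (irreducible holomorphic
symplectic variety) over the complex numbers. -/
structure IsHyperKahler {ι : Type} [Fintype ι] [DecidableEq ι] (X : Coh ι) : Prop where
  /-- the form `q` is symmetric and nondegenerate -/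
  symm : X.qᵀ = X.q
  nondeg : X.q.det ≠ 0
  /-- the second Betti number is at least three -/
  betti : 3 ≤ Fintype.card {a // X.deg a = 2}
  /-- the convention in the definition of `δ` -/
  convention : ∀ x, xᵀ * X.q = X.q * x → X.δ x = 0
  /-- `δ` is an action of the Lie algebra `so(q)` which preserves the degree, is the natural one in
  degree two, and is semisimple; the trace form of this action is a multiple of the trace form of the
  natural action -/
  bracket : X.IsAction
  graded : ∀ x, IsGraded X.deg (X.δ x)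
  natural : ∀ x, X.So x → blk X.deg 2 (X.δ x) = x
  trace_form : X.HasTraceForm
  semisimple : X.IsSemisimple
  /-- the Hodge decomposition is compatible with the degree; `h^{2,0} = h^{0,2} = 1` -/
  basis : IsUnit X.P ∧ IsGraded X.deg X.P
  hodge_two : X.hodge 2 = 0 ::ₘ 2 ::ₘ Multiset.replicate (Fintype.card {a // X.deg a = 2} - 2) 1
  /-- Verbitsky's theorem: the operator which acts as `(p - q) / 2` on the classes of type `(p, q)` is
  in the Lie algebra `so(q)`, acting by `δ` -/
  verbitsky : X.IsSkew ℂ (blk X.deg 2 X.D - 1) ∧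
    X.D = (2 : ℂ)⁻¹ • X.H ℂ + X.δF ℂ (blk X.deg 2 X.D - 1)

/-! ### Galois representations -/

/-- the absolute Galois group, with the profinite (Krull) topology -/
abbrev GK (K : Type) [Field K] : Type := Gal(AlgebraicClosure K/K)

/-- `σ` is a Frobenius element at the prime `v` of `K`: there is a maximal ideal `Q` above `v` of the
ring of all algebraic integers with `σ x ≡ x ^ N(v)` modulo `Q` for all `x` -/
def IsFrobenius {K : Type} [Field K] [NumberField K] (v : HeightOneSpectrum (𝓞 K))
    (σ : GK K) : Prop :=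
  ∃ Q : Ideal (𝓞 (AlgebraicClosure K)), Q.IsMaximal ∧
    Q.comap (algebraMap (𝓞 K) (𝓞 (AlgebraicClosure K))) = v.asIdeal ∧
    ∀ x : 𝓞 (AlgebraicClosure K), σ • x - x ^ Ideal.absNorm v.asIdeal ∈ Q

/-- the inertia group of a maximal ideal of the ring of all algebraic integers -/
def inertia {K : Type} [Field K] (Q : Ideal (𝓞 (AlgebraicClosure K))) : Set (GK K) :=
  {σ | ∀ x : 𝓞 (AlgebraicClosure K), σ • x - x ∈ Q}

/-- the Lie algebra of the image under `ρ` of a subgroup `I` (a closed subgroup of a profinite group):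
the set of the limits of `(ρ (σ n) - 1) / ℓ ^ n` for elements `σ n` of `I` -/
def LieImage {ℓ : ℕ} [Fact ℓ.Prime] {Γ n : Type} [Group Γ] [Fintype n] [DecidableEq n]
    (ρ : Γ → Matrix n n ℚ_[ℓ]) (I : Set Γ) : Set (Matrix n n ℚ_[ℓ]) :=
  {Z | ∃ σ : ℕ → Γ, (∀ k, σ k ∈ I) ∧
    Tendsto (fun k : ℕ => ((ℓ : ℚ_[ℓ]) ^ k)⁻¹ • (ρ (σ k) - 1)) atTop (𝓝 Z)}

/-- the polygon with slopes `N` lies above the polygon with slopes `H` and has the same end point: there
are equally many slopes, with the same sum, and for every set of slopes in `N` there are as many slopes in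
`H` with at most the same sum -/
def LiesAbove (N H : Multiset ℝ) : Prop :=
  N.card = H.card ∧ N.sum = H.sum ∧ ∀ s ≤ N, ∃ t ≤ H, t.card = s.card ∧ t.sum ≤ s.sum

/-- the slopes of the Newton polygon of the polynomial `P` at the prime number `p`: the `p`-adic
valuations of the roots -/
noncomputable def newton (p : ℕ) [Fact p.Prime] (P : ℤ[X]) : Multiset ℝ :=
  (P.map (Int.castRingHom (PadicAlgCl p))).roots.map fun y => -Real.logb p ‖y‖

/-- The properties of the `ℓ`-adic cohomology `H^*(X, ℚ_ℓ) = H^*(X, ℚ) ⊗ ℚ_ℓ` of a hyper-Kähler variety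
over the number field `K`, as a representation `ρ` of the Galois group. `χ` is the inverse of the
cyclotomic character, `S` contains the residue characteristics of the places of bad reduction (and
finitely many others), and `Pol v j` is the characteristic polynomial of the geometric Frobenius element
at `v` in degree `j`. Only places of degree one are used. -/
structure IsRealization {K : Type} [Field K] [NumberField K] {ℓ : ℕ} [Fact ℓ.Prime] {ι : Type}
    [Fintype ι] [DecidableEq ι] (X : Coh ι) (S : Finset ℕ) (χ : GK K →* ℚ_[ℓ])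
    (Pol : HeightOneSpectrum (𝓞 K) → ℕ → ℤ[X]) (ρ : GK K →* Matrix ι ι ℚ_[ℓ]) : Prop where
  continuous : Continuous ρ ∧ Continuous χ
  graded : ∀ g, IsGraded X.deg (ρ g)
  /-- the form `q` takes values in `ℚ_ℓ(-2)` -/
  similitude : ∀ g, (blk X.deg 2 (ρ g))ᵀ * X.qF ℚ_[ℓ] * blk X.deg 2 (ρ g) = χ g ^ 2 • X.qF ℚ_[ℓ]
  /-- the Galois group acts by automorphisms of the cohomology ring; as `δ` is determined by the ring,
  it is equivariant -/
  equivariant : ∀ g x, X.IsSkew ℚ_[ℓ] x → ρ g * X.δF ℚ_[ℓ] x * ρ g⁻¹ =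
    X.δF ℚ_[ℓ] (blk X.deg 2 (ρ g) * x * blk X.deg 2 (ρ g⁻¹))
  /-- Grothendieck and Deligne: characteristic polynomials of Frobenius elements, and weights -/
  frobenius : ∀ (p : ℕ) [Fact p.Prime], p ∉ S → ∀ v, Ideal.absNorm v.asIdeal = p →
    ∀ σ : GK K, IsFrobenius v σ → χ σ⁻¹ = p ∧
      ∀ j, (blk X.deg j (ρ σ⁻¹)).charpoly = (Pol v j).map (Int.castRingHom ℚ_[ℓ])
  weil : ∀ (p : ℕ) [Fact p.Prime], p ∉ S → ∀ v, Ideal.absNorm v.asIdeal = p → ∀ j,
    (Pol v j).Monic ∧ ∀ z : ℂ, aeval z (Pol v j) = 0 → ‖z‖ ^ 2 = (p : ℝ) ^ j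
  /-- Mazur, Berthelot and Ogus: the Newton polygon lies above the Hodge polygon -/
  mazur : ∀ (p : ℕ) [Fact p.Prime], p ∉ S → ∀ v, Ideal.absNorm v.asIdeal = p → ∀ j,
    LiesAbove (newton p (Pol v j)) (X.hodge j)
  /-- Sen and Faltings: for the places above `ℓ` there is an operator `Θ` on `H^*(X, ℚ_ℓ) ⊗ ℂ_ℓ`,
  conjugate to the Hodge operator by an isomorphism of rings, such that the Lie algebra of the image of
  the inertia group is contained in every subspace over `ℚ_ℓ` whose extension to `ℂ_ℓ` contains `Θ` -/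
  sen : ∀ Q : Ideal (𝓞 (AlgebraicClosure K)), Q.IsMaximal → (ℓ : 𝓞 (AlgebraicClosure K)) ∈ Q →
    ∃ Θ : Matrix ι ι ℂ_[ℓ], X.IsSkew ℂ_[ℓ] (blk X.deg 2 Θ - 1) ∧
      Θ = (2 : ℂ_[ℓ])⁻¹ • X.H ℂ_[ℓ] + X.δF ℂ_[ℓ] (blk X.deg 2 Θ - 1) ∧
      ∀ W : Submodule ℚ_[ℓ] (Matrix ι ι ℚ_[ℓ]),
        Θ ∈ Submodule.span ℂ_[ℓ] ((fun Z : Matrix ι ι ℚ_[ℓ] => Z.map (algebraMap ℚ_[ℓ] ℂ_[ℓ])) '' W) →
        LieImage ρ (inertia Q) ⊆ W

/-- A consequence of class field theory and of the finiteness of the class number: an additive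
character of an open subgroup of the Galois group with values in `ℚ_ℓ` which is trivial on an open
subgroup of the inertia group of every place above `ℓ` is trivial. -/
def ClassFieldTheory (K : Type) [Field K] [NumberField K] (ℓ : ℕ) [Fact ℓ.Prime] : Prop :=
  ∀ (U : Subgroup (GK K)), IsOpen (U : Set (GK K)) → ∀ ψ : U → ℚ_[ℓ], Continuous ψ →
    (∀ g h, ψ (g * h) = ψ g + ψ h) →
    (∀ Q : Ideal (𝓞 (AlgebraicClosure K)), Q.IsMaximal → (ℓ : 𝓞 (AlgebraicClosure K)) ∈ Q →
      ∃ V : Subgroup (GK K), IsOpen (V : Set (GK K)) ∧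
        ∀ g : U, (g : GK K) ∈ V → (g : GK K) ∈ inertia Q → ψ g = 0) →
    ∀ g, ψ g = 0

/-! ### The Mumford-Tate conjecture -/

/-- the Lie algebra of the Mumford-Tate group: the smallest Lie algebra over `ℚ` whose extension to
`ℂ` contains the Hodge operator `D` -/
def mtLie {n : Type} [Fintype n] [DecidableEq n] (D : Matrix n n ℂ) : Submodule ℚ (Matrix n n ℚ) :=
  sInf {L | (∀ x ∈ L, ∀ y ∈ L, x * y - y * x ∈ L) ∧
    D ∈ Submodule.span ℂ ((fun x : Matrix n n ℚ => x.map (algebraMap ℚ ℂ)) '' L)}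

/-- The Mumford-Tate conjecture, in terms of Lie algebras: the Lie algebra of the image of the Galois
group is the extension to `ℚ_ℓ` of the Lie algebra of the Mumford-Tate group. -/
def MumfordTate {ℓ : ℕ} [Fact ℓ.Prime] {Γ n : Type} [Group Γ] [Fintype n] [DecidableEq n]
    (D : Matrix n n ℂ) (ρ : Γ → Matrix n n ℚ_[ℓ]) : Prop :=
  LieImage ρ Set.univ =
    Submodule.span ℚ_[ℓ] ((fun x : Matrix n n ℚ => x.map (algebraMap ℚ ℚ_[ℓ])) '' (mtLie D))

end Pool.Agent.NH56.HY
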