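import Pool.Agent.NH56.HY.Stm
import Pool.Agent.NH93.HY.Emb

/-!
# Determinants of an ordinary Frobenius element on the images of idempotents
-/

set_option autoImplicit false

namespace Pool.Agent.NH56.HY

open Matrix Polynomial Filter Topology NumberField IsDedekindDomain

namespace DETp

section lg

variable (s : AlgebraicClosure ℚ →+* ℂ) (u : AlgebraicClosure ℚ → ℝ)

theorem lg_apply (a : AlgebraicClosure ℚ) : lg s u (s a) = u a := by
  have h : ∃ b, s b = s a := ⟨a, rfl⟩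
  unfold lg
  rw [dif_pos h, s.injective h.choose_spec]

theorem isAdd_lg (hu : ∀ a b, a ≠ 0 → b ≠ 0 → u (a * b) = u a + u b) :
    IsAdd (Al s) (fun z => ((lg s u z : ℝ) : ℂ)) where
  one := ⟨1, one_ne_zero, map_one s⟩
  mul := by
    rintro x y ⟨a, ha, rfl⟩ ⟨b, hb, rfl⟩
    exact ⟨a * b, mul_ne_zero ha hb, map_mul s a b⟩
  inv := by
    rintro x ⟨a, ha, rfl⟩
    exact ⟨a⁻¹, inv_ne_zero ha, map_inv₀ s a⟩
  ne := by
    rintro x ⟨a, ha, rfl⟩
    rwa [Ne, map_eq_zero]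
  map := by
    rintro x y ⟨a, ha, rfl⟩ ⟨b, hb, rfl⟩
    rw [← map_mul, lg_apply, lg_apply, lg_apply, hu a b ha hb, Complex.ofReal_add]

end lg

section blk

variable {ι F : Type} [Fintype ι] [DecidableEq ι] [Field F] {deg : ι → ℕ}

omit [DecidableEq ι] in
theorem blk_mulVec {A : Matrix ι ι F} (hA : IsGraded deg A) (d : ℕ) (x : ι → F) :
    (fun b : {b // deg b = d} => (A *ᵥ x) b) = blk deg d A *ᵥ (fun b => x b) := by
  funext b
  change ∑ c, A b c * x c = ∑ c : {c // deg c = d}, A b c * x c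
  rw [← Finset.sum_subtype (Finset.univ.filter fun c => deg c = d) (by simp)
    (fun c => A b c * x c)]
  refine (Finset.sum_filter_of_ne fun c _ hc => ?_).symm
  by_contra h
  refine hc ?_
  rw [hA b c (by rw [b.2]; exact Ne.symm h), zero_mul]

theorem gen_blk {A : Matrix ι ι F} (hA : IsGraded deg A) (d : ℕ) (a : F) (k : ℕ) (x : ι → F) :
    (fun b : {b // deg b = d} => (((A - a • (1 : Matrix ι ι F)) ^ k) *ᵥ x) b) =
      ((blk deg d A - a • (1 : Matrix {b // deg b = d} {b // deg b = d} F)) ^ k) *ᵥ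
        (fun b : {b // deg b = d} => x b) := by
  have h1 : IsGraded deg (A - a • (1 : Matrix ι ι F)) := by
    intro b c hbc
    rw [Matrix.sub_apply, Matrix.smul_apply, hA b c hbc, Matrix.one_apply_ne, smul_zero, sub_zero]
    rintro rfl
    exact hbc rfl
  have h2 : blk deg d (A - a • (1 : Matrix ι ι F)) =
      blk deg d A - a • (1 : Matrix {b // deg b = d} {b // deg b = d} F) := by
    ext b c
    rw [Matrix.sub_apply, Matrix.smul_apply]
    change A b c - a • (1 : Matrix ι ι F) b c = A b c - a • _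
    rw [Matrix.one_apply, Matrix.one_apply]
    simp only [Subtype.ext_iff]
  induction k with
  | zero => simp
  | succ k ih =>
    rw [pow_succ', ← Matrix.mulVec_mulVec, pow_succ', ← Matrix.mulVec_mulVec, ← ih,
      blk_mulVec h1, h2]

theorem isRoot_of_gen {n : Type} [Fintype n] [DecidableEq n] (A : Matrix n n F) (a : F) (k : ℕ)
    (x : n → F) (hx : x ≠ 0) (h : ((A - a • (1 : Matrix n n F)) ^ k) *ᵥ x = 0) :
    A.charpoly.IsRoot a := by
  have h1 : ((A - a • (1 : Matrix n n F)) ^ k).det = 0 :=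
    Matrix.exists_mulVec_eq_zero_iff.1 ⟨x, hx, h⟩
  rw [Matrix.det_pow] at h1
  have h2 := eq_zero_of_pow_eq_zero h1
  rw [Polynomial.IsRoot, Matrix.eval_charpoly]
  have h3 : Matrix.scalar n a - A = -(A - a • (1 : Matrix n n F)) := by
    rw [neg_sub]
    congr 1
    ext b c
    rw [Matrix.scalar_apply, Matrix.smul_apply, Matrix.one_apply, Matrix.diagonal_apply]
    split_ifs <;> simp
  rw [h3, Matrix.det_neg, h2, mul_zero]

end blk

theorem exists_i (ℓ : ℕ) [Fact ℓ.Prime] : Nonempty (AlgebraicClosure ℚ →+* PadicAlgCl ℓ) := by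
  have h : Algebra.IsAlgebraic ℚ (AlgebraicClosure ℚ) := by
    have h1 := AlgebraicClosure.isAlgebraic ℚ
    rwa [Subsingleton.elim (AlgebraicClosure.instAlgebra ℚ) (DivisionRing.toRatAlgebra)] at h1
  exact ⟨(IsAlgClosed.lift : AlgebraicClosure ℚ →ₐ[ℚ] PadicAlgCl ℓ).toRingHom⟩

theorem norm_nat_ne (p p' : ℕ) [Fact p.Prime] [Fact p'.Prime] (h : p' ≠ p) :
    ‖(p : PadicAlgCl p')‖ = 1 := by
  have h1 : (p : PadicAlgCl p') = (((p : ℕ) : ℚ_[p']) : PadicAlgCl p') := by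
    rw [map_natCast]
  rw [h1, PadicAlgCl.norm_extends, Padic.norm_natCast_eq_one_iff]
  exact (Nat.coprime_primes (Fact.out) (Fact.out)).2 h

theorem norm_nat_self (p : ℕ) [Fact p.Prime] : ‖(p : PadicAlgCl p)‖ = (p : ℝ)⁻¹ := by
  have h1 : (p : PadicAlgCl p) = (((p : ℕ) : ℚ_[p]) : PadicAlgCl p) := by
    rw [map_natCast]
  rw [h1, PadicAlgCl.norm_extends, Padic.norm_p]

end DETp

open DETp

theorem t_DET : S_FUN → S_ADJ → S_KRO → S_ARI → S_TRN → S_PHI → S_DET := by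
  intro _ hADJ hKRO hARI hTRN hPHI K _ _ ℓ _ ι _ _ X S χ Pol ρ hX hR p _ hpS v hv σ hσ hord M hM
    e m hCe hee heM htr
  obtain ⟨j⟩ := Pool.Agent.NH93.HY.exists_emb ℓ
  obtain ⟨i⟩ := exists_i ℓ
  obtain ⟨s, hs⟩ : ∃ s, s = j.comp i := ⟨_, rfl⟩
  obtain ⟨c, hc⟩ : ∃ c, c = j.comp (algebraMap ℚ_[ℓ] (PadicAlgCl ℓ)) := ⟨_, rfl⟩
  obtain ⟨T, hT⟩ : ∃ T, T = (ρ σ⁻¹).map c := ⟨_, rfl⟩
  obtain ⟨T', hT'⟩ : ∃ T', T' = (ρ σ).map c := ⟨_, rfl⟩
  have hTM : T = M.map j := by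
    rw [hT, hM, hc]
    rfl
  obtain ⟨h1, h2, -, -, h5, h6⟩ := hTRN K ℓ ι X S χ Pol ρ hX hR p hpS v hv σ hσ c s T T' hT hT'
  have hweil := hR.weil p hpS v hv
  have hA : ∀ a, T.charpoly.IsRoot a → Al s a := by
    intro z hz
    obtain ⟨k, a, ha, hsa⟩ := h6 z hz
    exact ⟨a, (hARI.2 (Pol v k) p k (hweil k).1 (hweil k).2 a ha).1, hsa⟩
  -- the idempotent
  obtain ⟨e', he'⟩ : ∃ e', e' = e.map j := ⟨_, rfl⟩
  have hee' : e' * e' = e' := by rw [he', ← Matrix.map_mul, hee]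
  have heT : e' * T = T * e' := by rw [he', hTM, ← Matrix.map_mul, ← Matrix.map_mul, heM]
  have hjm : ∀ B : Matrix ι ι ℚ, (B.map (algebraMap ℚ (PadicAlgCl ℓ))).map j =
      B.map (algebraMap ℚ ℂ) := by
    intro B
    ext a b
    rw [Matrix.map_apply, Matrix.map_apply, Matrix.map_apply]
    simp
  have hjH : (X.H (PadicAlgCl ℓ)).map j = X.H ℂ := by
    ext a b
    unfold Coh.H
    rw [Matrix.map_apply, Matrix.diagonal_apply, Matrix.diagonal_apply]
    split_ifs <;> simp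
  have hCe' : X.Com ℂ e' := by
    refine ⟨fun x => ?_, ?_⟩
    · rw [he', ← hjm, ← Matrix.map_mul, ← Matrix.map_mul, hCe.1]
    · rw [he', ← hjH, ← Matrix.map_mul, ← Matrix.map_mul, hCe.2]
  have htr' : (X.H ℂ * e').trace = m := by
    have h := congrArg j htr
    rw [map_natCast] at h
    rw [he', ← hjH, ← Matrix.map_mul, ← h]
    simp only [Matrix.trace, map_sum, Matrix.diag_apply, Matrix.map_apply]
  have hdet : (T * e' + (1 - e')).det = j ((M * e + (1 - e)).det) := by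
    rw [RingHom.map_det]
    congr 1
    rw [map_add, map_mul, map_sub, map_one, RingHom.mapMatrix_apply, RingHom.mapMatrix_apply, ← hTM,
      ← he']
  -- additive functions
  have key : ∀ (u : AlgebraicClosure ℚ → ℝ), (∀ a b, a ≠ 0 → b ≠ 0 → u (a * b) = u a + u b) →
      ∀ N : Matrix ι ι ℂ, IsFn (fun z => ((lg s u z : ℝ) : ℂ)) T N →
      Al s (T * e' + (1 - e')).det ∧
        ((lg s u (T * e' + (1 - e')).det : ℝ) : ℂ) = (N * e').trace := by
    intro u hu N hN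
    exact (hADJ ℂ (Al s) _ (isAdd_lg s u hu) ι T T' N h1 hA hN).2.2.2 e' hee' heT
  have hp0 : (0 : ℝ) < p := by
    have := (Fact.out : p.Prime).pos
    exact_mod_cast this
  have hp1 : (p : ℝ) ≠ 1 := by
    have := (Fact.out : p.Prime).one_lt.ne'
    exact_mod_cast this
  have hp1' : (1 : ℝ) < p := by
    have := (Fact.out : p.Prime).one_lt
    exact_mod_cast this
  -- the complex absolute values
  have hadd : ∀ τ : AlgebraicClosure ℚ →+* ℂ, ∀ a b, a ≠ 0 → b ≠ 0 →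
      Real.logb p (‖τ (a * b)‖ ^ 2) = Real.logb p (‖τ a‖ ^ 2) + Real.logb p (‖τ b‖ ^ 2) := by
    intro τ a b ha hb
    rw [map_mul, norm_mul, mul_pow, Real.logb_mul]
    · exact pow_ne_zero _ (norm_ne_zero_iff.2 ((map_ne_zero τ).2 ha))
    · exact pow_ne_zero _ (norm_ne_zero_iff.2 ((map_ne_zero τ).2 hb))
  have hH : ∀ τ : AlgebraicClosure ℚ →+* ℂ,
      IsFn (fun z => ((lg s (fun a => Real.logb p (‖τ a‖ ^ 2)) z : ℝ) : ℂ)) T (X.H ℂ) := by
    intro τ a k x hx
    funext b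
    rw [Pi.smul_apply, smul_eq_mul, Coh.H, Matrix.mulVec_diagonal]
    by_cases hxb : x b = 0
    · rw [hxb, mul_zero, mul_zero]
    have h7 := gen_blk h2 (X.deg b) a k x
    rw [hx] at h7
    have h8 : (blk X.deg (X.deg b) T).charpoly.IsRoot a :=
      isRoot_of_gen _ a k (fun c => x c) (fun h => hxb (congrFun h ⟨b, rfl⟩)) h7.symm
    rw [h5] at h8
    have h9 : a ∈ ((Pol v (X.deg b)).map (Int.castRingHom ℂ)).roots :=
      (mem_roots ((hweil _).1.map _).ne_zero).2 h8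
    rw [hARI.1 _ ℂ s, Multiset.mem_map] at h9
    obtain ⟨a0, ha0, rfl⟩ := h9
    have h10 : aeval a0 (Pol v (X.deg b)) = 0 := by
      have h := isRoot_of_mem_roots ha0
      rw [IsRoot, eval_map] at h
      rw [aeval_def]
      exact h
    change (X.deg b : ℂ) * x b =
      ((lg s (fun a => Real.logb (p : ℝ) (‖τ a‖ ^ 2)) (s a0) : ℝ) : ℂ) * x b
    rw [lg_apply, (hARI.2 _ p _ (hweil _).1 (hweil _).2 a0 h10).2.1 τ, Real.logb_pow,
      Real.logb_self_eq_one hp1', mul_one, Complex.ofReal_natCast]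
  obtain ⟨⟨x0, hx0, hsx⟩, -⟩ := key _ (hadd s) _ (hH s)
  have hlg : ∀ u, lg s u (T * e' + (1 - e')).det = u x0 := fun u => by rw [← hsx, lg_apply]
  have hτ : ∀ τ : AlgebraicClosure ℚ →+* ℂ, ‖τ x0‖ ^ 2 = (p : ℝ) ^ m := by
    intro τ
    have h := (key _ (hadd τ) _ (hH τ)).2
    rw [hlg, htr'] at h
    have h' : Real.logb p (‖τ x0‖ ^ 2) = m := by exact_mod_cast h
    have hpos : 0 < ‖τ x0‖ ^ 2 := pow_pos (norm_pos_iff.2 ((map_ne_zero τ).2 hx0)) _
    rw [← Real.rpow_logb hp0 hp1 hpos, h', Real.rpow_natCast]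
  -- the absolute values above the other prime numbers
  have hne : ∀ (p' : ℕ) [Fact p'.Prime] (τ : AlgebraicClosure ℚ →+* PadicAlgCl p'), p' ≠ p →
      ‖τ x0‖ = 1 := by
    intro p' _ τ hne
    have hfn : IsFn (fun z => ((lg s (fun a => Real.log ‖τ a‖) z : ℝ) : ℂ)) T 0 := by
      intro a k x hx
      rw [Matrix.zero_mulVec]
      by_cases hx0 : x = 0
      · rw [hx0, smul_zero]
      obtain ⟨d, a0, ha0, rfl⟩ := h6 a (isRoot_of_gen _ a k x hx0 hx)
      change (0 : ι → ℂ) = ((lg s (fun a => Real.log ‖τ a‖) (s a0) : ℝ) : ℂ) • x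
      rw [lg_apply, (hARI.2 _ p _ (hweil _).1 (hweil _).2 a0 ha0).2.2 p' τ hne, Real.log_one,
        Complex.ofReal_zero, zero_smul]
    have h := (key _ (fun a b ha hb => by
      rw [map_mul, norm_mul, Real.log_mul]
      · exact norm_ne_zero_iff.2 ((map_ne_zero τ).2 ha)
      · exact norm_ne_zero_iff.2 ((map_ne_zero τ).2 hb)) _ hfn).2
    rw [hlg, zero_mul, Matrix.trace_zero] at h
    have h' : Real.log ‖τ x0‖ = 0 := by exact_mod_cast h
    have hpos : 0 < ‖τ x0‖ := norm_pos_iff.2 ((map_ne_zero τ).2 hx0)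
    exact Real.eq_one_of_pos_of_log_eq_zero hpos h'
  -- the absolute values above `p`
  have hπ : ∀ π : AlgebraicClosure ℚ →+* PadicAlgCl p, ‖π x0‖ ^ 2 = ((p : ℝ) ^ m)⁻¹ := by
    intro π
    have h := (hPHI K ℓ ι X S χ Pol ρ hX hR p hpS v hv σ hσ hord c s π T _ hT rfl).2 e' hCe' hee'
      heT
    rw [hlg, htr'] at h
    have h' : 2 * -Real.logb p ‖π x0‖ = m := by exact_mod_cast h
    have hpos : 0 < ‖π x0‖ ^ 2 := pow_pos (norm_pos_iff.2 ((map_ne_zero π).2 hx0)) _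
    have h'' : Real.logb p (‖π x0‖ ^ 2) = -m := by
      rw [Real.logb_pow]
      push_cast
      linarith
    rw [← Real.rpow_logb hp0 hp1 hpos, h'', Real.rpow_neg hp0.le, Real.rpow_natCast]
  -- the end
  have hpQ : ((p : AlgebraicClosure ℚ) ^ m) ≠ 0 := by
    have := (Fact.out : p.Prime).ne_zero
    exact pow_ne_zero _ (Nat.cast_ne_zero.2 this)
  obtain ⟨n, hn, ht⟩ := hKRO (x0 ^ 2 / (p : AlgebraicClosure ℚ) ^ m) (fun τ => by
    rw [map_div₀, map_pow, map_pow, map_natCast, norm_div, norm_pow, norm_pow, hτ,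
      Complex.norm_natCast, div_self (pow_ne_zero _ hp0.ne')]) (fun p' _ τ => by
    rw [map_div₀, map_pow, map_pow, map_natCast, norm_div, norm_pow, norm_pow]
    by_cases hpp : p' = p
    · subst hpp
      rw [hπ τ, norm_nat_self, inv_pow, div_self (inv_ne_zero (pow_ne_zero _ hp0.ne'))]
    · rw [hne p' τ hpp, norm_nat_ne p p' hpp, one_pow, one_pow, div_one])
  refine ⟨n, hn, ?_⟩
  rw [div_pow, div_eq_one_iff_eq (pow_ne_zero _ hpQ)] at ht
  have hi : i x0 = (M * e + (1 - e)).det := by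
    apply j.injective
    rw [← hdet, ← hsx, hs]
    rfl
  have h := congrArg i ht
  rw [map_pow, map_pow, map_pow, map_pow, map_natCast, hi] at h
  exact h

end Pool.Agent.NH56.HY
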