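import Pool.Agent.NH56.HY.Stm

/-!
# The theorem: assembly
-/

set_option autoImplicit false

namespace Pool.Agent.NH56.HY

open Matrix Polynomial Filter Topology NumberField IsDedekindDomain

section blocks

variable {I : Type} [Fintype I] [DecidableEq I] {κ : I → Type} [∀ i, Fintype (κ i)]
  [∀ i, DecidableEq (κ i)]

/-- the block diagonal rational matrices -/
def bd (κ : I → Type) [∀ i, Fintype (κ i)] [∀ i, DecidableEq (κ i)] :
    Submodule ℚ (Matrix (Σ i, κ i) (Σ i, κ i) ℚ) where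
  carrier := {x | ∀ p q : Σ i, κ i, p.1 ≠ q.1 → x p q = 0}
  zero_mem' := fun _ _ _ => rfl
  add_mem' := by
    intro x y hx hy p q h
    rw [Matrix.add_apply, hx p q h, hy p q h, add_zero]
  smul_mem' := by
    intro c x hx p q h
    rw [Matrix.smul_apply, hx p q h, smul_zero]

theorem bd_mul {x y : Matrix (Σ i, κ i) (Σ i, κ i) ℚ} (hx : x ∈ bd κ) (hy : y ∈ bd κ) :
    x * y ∈ bd κ := by
  intro p q h
  rw [Matrix.mul_apply]
  refine Finset.sum_eq_zero fun r _ => ?_
  by_cases hr : p.1 = r.1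
  · rw [hy r q (by rw [← hr]; exact h), mul_zero]
  · rw [hx p r hr, zero_mul]

theorem bd_eq {x : Matrix (Σ i, κ i) (Σ i, κ i) ℚ} (hx : x ∈ bd κ) :
    x = blockDiagonal' (blockDiag' x) := by
  ext ⟨i, a⟩ ⟨j, b⟩
  by_cases h : i = j
  · subst h
    rw [blockDiagonal'_apply_eq]
    rfl
  · rw [blockDiagonal'_apply_ne _ _ _ h]
    exact hx ⟨i, a⟩ ⟨j, b⟩ h

theorem mtLie_le_bd (M : ∀ i, Matrix (κ i) (κ i) ℂ) : mtLie (blockDiagonal' M) ≤ bd κ := by
  refine sInf_le ⟨fun x hx y hy => Submodule.sub_mem _ (bd_mul hx hy) (bd_mul hy hx), ?_⟩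
  rw [Matrix.matrix_eq_sum_single (blockDiagonal' M)]
  refine Submodule.sum_mem _ fun p _ => Submodule.sum_mem _ fun q _ => ?_
  by_cases h : p.1 = q.1
  · have e : Matrix.single p q (blockDiagonal' M p q) = blockDiagonal' M p q •
        (Matrix.single p q (1 : ℚ)).map (algebraMap ℚ ℂ) := by
      ext a b
      rw [Matrix.smul_apply, Matrix.map_apply, Matrix.single_apply, Matrix.single_apply]
      split_ifs <;> simp
    rw [e]
    refine Submodule.smul_mem _ _ (Submodule.subset_span ⟨_, ?_, rfl⟩)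
    intro a b hab
    rw [Matrix.single_apply, if_neg]
    rintro ⟨rfl, rfl⟩
    exact hab h
  · obtain ⟨i, a⟩ := p
    obtain ⟨j, b⟩ := q
    rw [blockDiagonal'_apply_ne _ _ _ h]
    simp

end blocks

section delta

variable {ι : Type} [Fintype ι] [DecidableEq ι] (X : Coh ι)

theorem δt_add (hBAS : S_BAS) (hX : IsHyperKahler X) (F : Type) [Field F] [CharZero F]
    (x y : Matrix {a // X.deg a = 2} {a // X.deg a = 2} F) :
    X.δt F (x + y) = X.δt F x + X.δt F y := by
  unfold Coh.δt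
  rw [(hBAS ι X hX F).1, Matrix.trace_add, add_div, add_smul]
  abel

theorem δt_smul (hBAS : S_BAS) (hX : IsHyperKahler X) (F : Type) [Field F] [CharZero F] (c : F)
    (x : Matrix {a // X.deg a = 2} {a // X.deg a = 2} F) :
    X.δt F (c • x) = c • X.δt F x := by
  unfold Coh.δt
  rw [(hBAS ι X hX F).2.1, Matrix.trace_smul, smul_add, smul_smul, smul_eq_mul, mul_div_assoc]

theorem δF_rat (hBAS : S_BAS) (hX : IsHyperKahler X)
    (x : Matrix {a // X.deg a = 2} {a // X.deg a = 2} ℚ) : X.δF ℚ x = X.δ x := by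
  have h := (hBAS ι X hX ℚ).2.2.1 x
  convert h using 1
  · congr 1
  · ext a b
    simp

theorem δt_map (hBAS : S_BAS) (hX : IsHyperKahler X) (F : Type) [Field F] [CharZero F]
    (x : Matrix {a // X.deg a = 2} {a // X.deg a = 2} ℚ) :
    X.δt F (x.map (algebraMap ℚ F)) = (X.δt ℚ x).map (algebraMap ℚ F) := by
  have h1 := (hBAS ι X hX F).2.2.1 x
  unfold Coh.δt
  rw [h1, δF_rat X hBAS hX]
  ext a b
  have htr : (x.map (algebraMap ℚ F)).trace = algebraMap ℚ F x.trace := by
    unfold Matrix.trace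
    rw [map_sum]
    rfl
  rw [htr]
  simp only [Matrix.add_apply, Matrix.smul_apply, Matrix.map_apply, Coh.H, Matrix.diagonal_apply,
    smul_eq_mul, map_add, map_mul, map_div₀, map_ofNat, map_natCast]
  split_ifs <;> simp

end delta

theorem t_FIN (hBAS : S_BAS) (hLAA : S_LAA) (hCNV : S_CNV) (hMTL : S_MTL) (hNSC : S_NSC) :
    S_FIN := by
  intro K _ _ ℓ _ I _ _ ι _ _ X S χ Pol ρ hcft hX hρ hMT
  have hns := hNSC K ℓ I ι X S χ Pol ρ hX hρ hMT
  have hcnv := hCNV K ℓ I ι X ρ hX (fun i => (hρ i).continuous.1) (fun i => (hρ i).graded)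
    (fun i => hLAA K ℓ (ι i) (X i) S χ (Pol i) (ρ i) hcft (hX i) (hρ i) (hns i))
  have hmtl := hMTL I ι X hX
  unfold MumfordTate at hMT ⊢
  ext Z
  rw [hcnv Z, SetLike.mem_coe]
  have hMT' : ∀ W, W ∈ LieImage (fun g => blockDiagonal' fun i => blk (X i).deg 2 (ρ i g))
      Set.univ ↔ W ∈ Submodule.span ℚ_[ℓ] ((fun x : Matrix _ _ ℚ => x.map (algebraMap ℚ ℚ_[ℓ])) ''
        (mtLie (blockDiagonal' fun i => blk (X i).deg 2 (X i).D))) := by
    intro W
    rw [hMT]
    rfl
  constructor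
  · rintro ⟨Y, hY, rfl⟩
    rw [hMT'] at hY
    -- the linear map `Δ`
    let Δ : Matrix (Σ i, {a // (X i).deg a = 2}) (Σ i, {a // (X i).deg a = 2}) ℚ_[ℓ] →ₗ[ℚ_[ℓ]]
        Matrix (Σ i, ι i) (Σ i, ι i) ℚ_[ℓ] :=
      { toFun := fun W => blockDiagonal' fun i => (X i).δt ℚ_[ℓ] (blockDiag' W i)
        map_add' := by
          intro a b
          rw [← blockDiagonal'_add]
          congr 1
          funext i
          rw [blockDiag'_add]
          exact δt_add (X i) hBAS (hX i) ℚ_[ℓ] _ _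
        map_smul' := by
          intro c a
          rw [RingHom.id_apply, ← blockDiagonal'_smul]
          congr 1
          funext i
          rw [blockDiag'_smul]
          exact δt_smul (X i) hBAS (hX i) ℚ_[ℓ] _ _ }
    have hΔ : ∀ W, W ∈ Submodule.span ℚ_[ℓ] ((fun x : Matrix _ _ ℚ => x.map (algebraMap ℚ ℚ_[ℓ])) ''
        (mtLie (blockDiagonal' fun i => blk (X i).deg 2 (X i).D) :
          Set (Matrix (Σ i, {a // (X i).deg a = 2}) (Σ i, {a // (X i).deg a = 2}) ℚ))) →
        Δ W ∈ Submodule.span ℚ_[ℓ] ((fun x : Matrix _ _ ℚ => x.map (algebraMap ℚ ℚ_[ℓ])) ''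
          (mtLie (blockDiagonal' fun i => (X i).D) : Set (Matrix (Σ i, ι i) (Σ i, ι i) ℚ))) := by
      intro W hW
      induction hW using Submodule.span_induction with
      | mem W hW =>
        obtain ⟨x, hx, rfl⟩ := hW
        have hxb := bd_eq (mtLie_le_bd _ hx)
        refine Submodule.subset_span ⟨blockDiagonal' fun i => (X i).δt ℚ (blockDiag' x i), ?_, ?_⟩
        · exact (hmtl _).2 ⟨blockDiag' x, by rw [← hxb]; exact hx, rfl⟩
        · show (blockDiagonal' fun i => (X i).δt ℚ (blockDiag' x i)).map (algebraMap ℚ ℚ_[ℓ]) =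
            blockDiagonal' fun i => (X i).δt ℚ_[ℓ] (blockDiag' (x.map (algebraMap ℚ ℚ_[ℓ])) i)
          rw [blockDiagonal'_map _ _ (map_zero _)]
          congr 1
          funext i
          rw [← δt_map (X i) hBAS (hX i) ℚ_[ℓ]]
          rfl
      | zero => rw [map_zero]; exact Submodule.zero_mem _
      | add a b _ _ ha hb => rw [map_add]; exact Submodule.add_mem _ ha hb
      | smul c a _ ha => rw [map_smul]; exact Submodule.smul_mem _ _ ha
    have h1 := hΔ _ hY
    have h2 : Δ (blockDiagonal' Y) = blockDiagonal' fun i => (X i).δt ℚ_[ℓ] (Y i) := by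
      show (blockDiagonal' fun i => (X i).δt ℚ_[ℓ] (blockDiag' (blockDiagonal' Y) i)) = _
      rw [blockDiag'_blockDiagonal']
    rw [h2] at h1
    exact h1
  · intro hZ
    induction hZ using Submodule.span_induction with
    | mem W hW =>
      obtain ⟨x, hx, rfl⟩ := hW
      obtain ⟨Y, hY, rfl⟩ := (hmtl x).1 hx
      refine ⟨fun i => (Y i).map (algebraMap ℚ ℚ_[ℓ]), ?_, ?_⟩
      · rw [hMT']
        refine Submodule.subset_span ⟨blockDiagonal' Y, hY, ?_⟩
        exact blockDiagonal'_map _ _ (map_zero _)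
      · show (blockDiagonal' fun i => (X i).δt ℚ (Y i)).map (algebraMap ℚ ℚ_[ℓ]) = _
        rw [blockDiagonal'_map _ _ (map_zero _)]
        congr 1
        funext i
        exact (δt_map (X i) hBAS (hX i) ℚ_[ℓ] (Y i)).symm
    | zero =>
      refine ⟨fun i => 0, ?_, ?_⟩
      · rw [hMT']
        have : (blockDiagonal' fun i => (0 : Matrix {a // (X i).deg a = 2} {a // (X i).deg a = 2} ℚ_[ℓ]))
            = 0 := blockDiagonal'_zero
        rw [this]
        exact Submodule.zero_mem _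
      · have : ∀ i, (X i).δt ℚ_[ℓ] 0 = 0 := by
          intro i
          have := δt_smul (X i) hBAS (hX i) ℚ_[ℓ] 0 0
          rwa [zero_smul, zero_smul] at this
        simp only [this]
        exact blockDiagonal'_zero.symm
    | add a b _ _ ha hb =>
      obtain ⟨Y, hY, rfl⟩ := ha
      obtain ⟨Y', hY', rfl⟩ := hb
      refine ⟨Y + Y', ?_, ?_⟩
      · rw [hMT'] at hY hY' ⊢
        rw [blockDiagonal'_add]
        exact Submodule.add_mem _ hY hY'
      · rw [← blockDiagonal'_add]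
        congr 1
        funext i
        exact (δt_add (X i) hBAS (hX i) ℚ_[ℓ] _ _).symm
    | smul c a _ ha =>
      obtain ⟨Y, hY, rfl⟩ := ha
      refine ⟨c • Y, ?_, ?_⟩
      · rw [hMT'] at hY ⊢
        rw [blockDiagonal'_smul]
        exact Submodule.smul_mem _ _ hY
      · rw [← blockDiagonal'_smul]
        congr 1
        funext i
        exact (δt_smul (X i) hBAS (hX i) ℚ_[ℓ] _ _).symm

end Pool.Agent.NH56.HY
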