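import Pool.Agent.NH56.HY.Stm

/-!
# The Mumford-Tate Lie algebra of all degrees comes from degree two (project HY, helper42)
-/

set_option autoImplicit false

namespace Pool.Agent.NH56.HY

open Matrix

namespace MtlAux

section one
variable {ι : Type} [Fintype ι] [DecidableEq ι] {X : Coh ι} (F : Type) [Field F] [CharZero F]

/-- The Lie algebra `gso`. -/
def Gso (X : Coh ι) (x : Matrix {a // X.deg a = 2} {a // X.deg a = 2} F) : Prop :=
  xᵀ * X.qF F + X.qF F * x = (2 * x.trace / (Fintype.card {a // X.deg a = 2} : F)) • X.qF F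

variable {F}

lemma q_unit (hX : IsHyperKahler X) : IsUnit (X.qF F).det := by
  have h1 : (X.qF F).det = algebraMap ℚ F X.q.det := by
    rw [RingHom.map_det]
    rfl
  rw [h1, isUnit_iff_ne_zero]
  exact (map_ne_zero (algebraMap ℚ F)).2 hX.nondeg

lemma card_ne (hX : IsHyperKahler X) : (Fintype.card {a // X.deg a = 2} : F) ≠ 0 := by
  have := hX.betti
  have h : Fintype.card {a // X.deg a = 2} ≠ 0 := by omega
  exact Nat.cast_ne_zero.2 h

lemma trace_skew (hX : IsHyperKahler X) {x : Matrix {a // X.deg a = 2} {a // X.deg a = 2} F}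
    (hx : X.IsSkew F x) : x.trace = 0 := by
  have hq := q_unit (F := F) hX
  have h1 : xᵀ + X.qF F * x * (X.qF F)⁻¹ = 0 := by
    have h2 := congrArg (fun M => M * (X.qF F)⁻¹) hx
    simp only [add_mul, zero_mul, Matrix.mul_assoc] at h2
    rw [Matrix.mul_nonsing_inv _ hq, mul_one] at h2
    rw [Matrix.mul_assoc]
    exact h2
  have h3 := congrArg Matrix.trace h1
  rw [Matrix.trace_add, Matrix.trace_transpose, Matrix.trace_mul_comm, ← Matrix.mul_assoc,
    Matrix.nonsing_inv_mul _ hq, one_mul, Matrix.trace_zero] at h3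
  have h4 : (2 : F) * x.trace = 0 := by linear_combination h3
  exact (mul_eq_zero.1 h4).resolve_left two_ne_zero

lemma gso_of_skew (hX : IsHyperKahler X) {x : Matrix {a // X.deg a = 2} {a // X.deg a = 2} F}
    (hx : X.IsSkew F x) : Gso F X x := by
  unfold Gso
  rw [trace_skew hX hx, mul_zero, zero_div, zero_smul]
  exact hx

/-- The skew part. -/
noncomputable def sk (X : Coh ι) (x : Matrix {a // X.deg a = 2} {a // X.deg a = 2} F) :
    Matrix {a // X.deg a = 2} {a // X.deg a = 2} F :=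
  x - (x.trace / (Fintype.card {a // X.deg a = 2} : F)) • 1

lemma sk_skew {x : Matrix {a // X.deg a = 2} {a // X.deg a = 2} F} (hx : Gso F X x) :
    X.IsSkew F (sk X x) := by
  unfold Coh.IsSkew sk
  unfold Gso at hx
  rw [Matrix.transpose_sub, Matrix.transpose_smul, Matrix.transpose_one, sub_mul, mul_sub,
    Matrix.smul_mul, Matrix.mul_smul, one_mul, mul_one]
  have e : xᵀ * X.qF F - (x.trace / (Fintype.card {a // X.deg a = 2} : F)) • X.qF F
      + (X.qF F * x - (x.trace / (Fintype.card {a // X.deg a = 2} : F)) • X.qF F)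
      = (xᵀ * X.qF F + X.qF F * x)
        - (2 * x.trace / (Fintype.card {a // X.deg a = 2} : F)) • X.qF F := by
    have e2 : (2 * x.trace / (Fintype.card {a // X.deg a = 2} : F))
        = x.trace / (Fintype.card {a // X.deg a = 2} : F)
          + x.trace / (Fintype.card {a // X.deg a = 2} : F) := by ring
    rw [e2, add_smul]
    abel
  rw [e, hx, sub_self]

lemma sk_add (x : Matrix {a // X.deg a = 2} {a // X.deg a = 2} F) :
    x = sk X x + (x.trace / (Fintype.card {a // X.deg a = 2} : F)) • 1 := by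
  unfold sk
  abel

lemma map_rat {n : Type} (f : ℚ →+* ℚ) (M : Matrix n n ℚ) : M.map f = M := by
  ext a b
  rw [Subsingleton.elim f (RingHom.id ℚ)]
  rfl

variable (hB : S_BAS) (hX : IsHyperKahler X)
include hB hX

lemma dF_one : X.δF F 1 = 0 :=
  (hB ι X hX F).2.2.2.1 1 (by rw [Matrix.transpose_one, one_mul, mul_one])

lemma dt_dec (x : Matrix {a // X.deg a = 2} {a // X.deg a = 2} F) :
    X.δt F x = X.δF F (sk X x)
      + (x.trace / (2 * (Fintype.card {a // X.deg a = 2} : F))) • X.H F := by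
  have h1 := (hB ι X hX F).1
  have h2 := (hB ι X hX F).2.1
  unfold Coh.δt
  congr 1
  conv_lhs => rw [sk_add (X := X) x]
  rw [h1, h2, dF_one hB hX, smul_zero, add_zero]

lemma dt_add (x y : Matrix {a // X.deg a = 2} {a // X.deg a = 2} F) :
    X.δt F (x + y) = X.δt F x + X.δt F y := by
  have h1 := (hB ι X hX F).1
  unfold Coh.δt
  rw [h1, Matrix.trace_add, add_div, add_smul]
  abel

lemma dt_smul (c : F) (x : Matrix {a // X.deg a = 2} {a // X.deg a = 2} F) :
    X.δt F (c • x) = c • X.δt F x := by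
  have h1 := (hB ι X hX F).2.1
  unfold Coh.δt
  rw [h1, Matrix.trace_smul, smul_add, smul_smul, smul_eq_mul, mul_div_assoc]

lemma dt_map (x : Matrix {a // X.deg a = 2} {a // X.deg a = 2} ℚ) :
    X.δt F (x.map (algebraMap ℚ F)) = (X.δt ℚ x).map (algebraMap ℚ F) := by
  have h1 := (hB ι X hX F).2.2.1 x
  have h2 := (hB ι X hX ℚ).2.2.1 x
  rw [map_rat, map_rat] at h2
  unfold Coh.δt
  rw [h1, h2]
  ext a b
  have e2 : (x.map (algebraMap ℚ F)).trace = algebraMap ℚ F x.trace := by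
    unfold Matrix.trace
    rw [map_sum]
    rfl
  have e3 : X.H F a b = algebraMap ℚ F (X.H ℚ a b) := by
    unfold Coh.H
    rcases eq_or_ne a b with h | h
    · rw [h, Matrix.diagonal_apply_eq, Matrix.diagonal_apply_eq, map_natCast]
    · rw [Matrix.diagonal_apply_ne _ h, Matrix.diagonal_apply_ne _ h, map_zero]
  simp only [Matrix.add_apply, Matrix.smul_apply, Matrix.map_apply, smul_eq_mul, e2, e3, map_add,
    map_mul, map_div₀, map_natCast, map_ofNat]

lemma blk_H : blk X.deg 2 (X.H F) = (2 : F) • 1 := by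
  ext ⟨a, ha⟩ ⟨b, hb⟩
  unfold blk Coh.H
  rcases eq_or_ne a b with h | h
  · subst h
    simp only [Matrix.submatrix_apply, Matrix.diagonal_apply_eq, ha, Nat.cast_ofNat,
      Matrix.smul_apply, Matrix.one_apply_eq, smul_eq_mul, mul_one]
  · simp only [Matrix.submatrix_apply, Matrix.diagonal_apply_ne _ h, Matrix.smul_apply,
      smul_eq_mul]
    rw [Matrix.one_apply_ne (by simpa using h), mul_zero]

lemma blk_dt {x : Matrix {a // X.deg a = 2} {a // X.deg a = 2} F} (hx : Gso F X x) :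
    blk X.deg 2 (X.δt F x) = x := by
  have h1 := (hB ι X hX F).2.2.2.2.2.2.2.1 _ (sk_skew hx)
  have h2 := blk_H (F := F) hB hX
  have e : blk X.deg 2 (X.δt F x) = blk X.deg 2 (X.δF F (sk X x))
      + (x.trace / (2 * (Fintype.card {a // X.deg a = 2} : F))) • blk X.deg 2 (X.H F) := by
    rw [dt_dec hB hX]
    rfl
  rw [e, h1, h2, smul_smul]
  have hc := card_ne (F := F) hX
  have e2 : x.trace / (2 * (Fintype.card {a // X.deg a = 2} : F)) * 2
      = x.trace / (Fintype.card {a // X.deg a = 2} : F) := by field_simp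
  rw [e2]
  exact (sk_add x).symm

lemma H_comm {M : Matrix ι ι F} (hM : IsGraded X.deg M) : X.H F * M = M * X.H F := by
  ext a b
  unfold Coh.H
  rw [Matrix.diagonal_mul, Matrix.mul_diagonal]
  by_cases h : X.deg a = X.deg b
  · rw [h, mul_comm]
  · rw [hM a b h, mul_zero, zero_mul]

lemma sk_br (x y : Matrix {a // X.deg a = 2} {a // X.deg a = 2} F) :
    x * y - y * x = sk X x * sk X y - sk X y * sk X x := by
  unfold sk
  simp only [sub_mul, mul_sub, Matrix.smul_mul, Matrix.mul_smul, one_mul, mul_one, smul_sub]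
  rw [smul_comm (x.trace / _) (y.trace / _) (1 : Matrix _ _ F)]
  abel

lemma br_skew {x y : Matrix {a // X.deg a = 2} {a // X.deg a = 2} F} (hx : Gso F X x)
    (hy : Gso F X y) : X.IsSkew F (x * y - y * x) := by
  rw [sk_br hB hX]
  obtain ⟨x', hx'⟩ : ∃ x', x' = sk X x := ⟨_, rfl⟩
  obtain ⟨y', hy'⟩ : ∃ y', y' = sk X y := ⟨_, rfl⟩
  have h1 := sk_skew hx
  have h2 := sk_skew hy
  rw [← hx'] at h1 ⊢
  rw [← hy'] at h2 ⊢
  unfold Coh.IsSkew at *
  have h1' : x'ᵀ * X.qF F = -(X.qF F * x') := eq_neg_of_add_eq_zero_left h1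
  have h2' : y'ᵀ * X.qF F = -(X.qF F * y') := eq_neg_of_add_eq_zero_left h2
  rw [Matrix.transpose_sub, Matrix.transpose_mul, Matrix.transpose_mul, sub_mul,
    Matrix.mul_assoc, Matrix.mul_assoc, h1', h2', Matrix.mul_neg, Matrix.mul_neg,
    ← Matrix.mul_assoc, ← Matrix.mul_assoc, h1', h2', mul_sub, Matrix.neg_mul, Matrix.neg_mul,
    Matrix.mul_assoc, Matrix.mul_assoc]
  abel

lemma dt_br {x y : Matrix {a // X.deg a = 2} {a // X.deg a = 2} F} (hx : Gso F X x)
    (hy : Gso F X y) : X.δt F (x * y - y * x) = X.δt F x * X.δt F y - X.δt F y * X.δt F x := by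
  have h0 := br_skew hB hX hx hy
  have h1 : X.δt F (x * y - y * x) = X.δF F (x * y - y * x) := by
    unfold Coh.δt
    rw [trace_skew hX h0, zero_div, zero_smul, add_zero]
  have h2 := (hB ι X hX F).2.2.2.2.2.1 (sk X x) (sk X y) (sk_skew hx)
  have hg := (hB ι X hX F).2.2.2.2.2.2.1
  have c1 := H_comm (F := F) hB hX (hg (sk X x))
  have c2 := H_comm (F := F) hB hX (hg (sk X y))
  rw [h1, sk_br hB hX, h2, dt_dec hB hX x, dt_dec hB hX y]
  simp only [add_mul, mul_add, Matrix.smul_mul, Matrix.mul_smul, c1, c2]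
  rw [smul_comm (x.trace / _) (y.trace / _) (X.H F * X.H F)]
  abel

omit hB in
lemma tr_D : (blk X.deg 2 X.D).trace = (Fintype.card {a // X.deg a = 2} : ℂ) := by
  have h1 := trace_skew hX hX.verbitsky.1
  rw [Matrix.trace_sub, Matrix.trace_one] at h1
  exact sub_eq_zero.1 h1

omit hB in
lemma gso_D : Gso ℂ X (blk X.deg 2 X.D) := by
  have h1 := hX.verbitsky.1
  unfold Coh.IsSkew at h1
  unfold Gso
  have hc := card_ne (F := ℂ) hX
  have e : 2 * (blk X.deg 2 X.D).trace / (Fintype.card {a // X.deg a = 2} : ℂ) = 2 := by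
    rw [tr_D hX]
    field_simp
  rw [e]
  rw [Matrix.transpose_sub, Matrix.transpose_one, sub_mul, mul_sub, one_mul, mul_one] at h1
  rw [two_smul]
  have e2 : (blk X.deg 2 X.D)ᵀ * X.qF ℂ + X.qF ℂ * blk X.deg 2 X.D
      = ((blk X.deg 2 X.D)ᵀ * X.qF ℂ - X.qF ℂ + (X.qF ℂ * blk X.deg 2 X.D - X.qF ℂ))
        + (X.qF ℂ + X.qF ℂ) := by abel
  rw [e2, h1, zero_add]

lemma dt_D : X.δt ℂ (blk X.deg 2 X.D) = X.D := by
  have hc := card_ne (F := ℂ) hX
  rw [dt_dec hB hX]
  have e1 : sk X (blk X.deg 2 X.D) = blk X.deg 2 X.D - 1 := by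
    unfold sk
    rw [tr_D hX, div_self hc, one_smul]
  have e2 : (blk X.deg 2 X.D).trace / (2 * (Fintype.card {a // X.deg a = 2} : ℂ)) = (2 : ℂ)⁻¹ := by
    rw [tr_D hX]
    field_simp
  rw [e1, e2, add_comm]
  exact hX.verbitsky.2.symm

end one

/-- Rational parts of a family of complex matrices. -/
lemma decomp {I : Type} [Fintype I] {ι : I → Type} [∀ i, Fintype (ι i)]
    (x : ∀ i, Matrix (ι i) (ι i) ℂ) : ∃ (r : ℕ) (c : Fin r → ℂ)
      (Y : Fin r → ∀ i, Matrix (ι i) (ι i) ℚ), LinearIndependent ℚ c ∧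
      ∀ i a b, x i a b = ∑ k, c k * ((Y k i a b : ℚ) : ℂ) := by
  obtain ⟨E, hE⟩ : ∃ E : Submodule ℚ ℂ, E = Submodule.span ℚ (Set.range
    fun z : (Σ i, ι i × ι i) => x z.1 z.2.1 z.2.2) := ⟨_, rfl⟩
  have hfin : Module.Finite ℚ E := by
    rw [hE]
    exact Module.Finite.span_of_finite ℚ (Set.finite_range _)
  obtain ⟨r, ⟨c⟩⟩ : ∃ r : ℕ, Nonempty (Module.Basis (Fin r) ℚ E) :=
    ⟨_, ⟨Module.finBasis ℚ E⟩⟩
  have hmem : ∀ i a b, x i a b ∈ E := fun i a b => by
    rw [hE]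
    exact Submodule.subset_span ⟨⟨i, (a, b)⟩, rfl⟩
  refine ⟨r, fun k => (c k : ℂ), fun k i => Matrix.of fun a b => c.repr ⟨x i a b, hmem i a b⟩ k,
    c.linearIndependent.map' E.subtype (Submodule.ker_subtype E), fun i a b => ?_⟩
  have h1 := c.sum_repr ⟨x i a b, hmem i a b⟩
  have h2 := congrArg (fun z : E => (z : ℂ)) h1
  simp only [Submodule.coe_sum, Submodule.coe_smul] at h2
  rw [← h2]
  refine Finset.sum_congr rfl fun k _ => ?_
  rw [Rat.smul_def, mul_comm]
  rfl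

section fam
variable {I : Type} [Fintype I] [DecidableEq I] {ι : I → Type} [∀ i, Fintype (ι i)]
  [∀ i, DecidableEq (ι i)]

/-- Block diagonal matrices. -/
def bd (F : Type) [Field F] (ι : I → Type) [∀ i, Fintype (ι i)] [∀ i, DecidableEq (ι i)] :
    (∀ i, Matrix (ι i) (ι i) F) →ₗ[F] Matrix (Σ i, ι i) (Σ i, ι i) F where
  toFun Y := blockDiagonal' Y
  map_add' x y := blockDiagonal'_add x y
  map_smul' c x := blockDiagonal'_smul c x

lemma bd_inj (F : Type) [Field F] : Function.Injective (bd F ι) := by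
  intro x y h
  exact blockDiagonal'_injective h

lemma bd_map (Y : ∀ i, Matrix (ι i) (ι i) ℚ) :
    bd ℂ ι (fun i => (Y i).map (algebraMap ℚ ℂ)) = (bd ℚ ι Y).map (algebraMap ℚ ℂ) := by
  exact (blockDiagonal'_map Y (algebraMap ℚ ℂ) (map_zero (algebraMap ℚ ℂ))).symm

end fam

section gg
variable {ι : Type} [Fintype ι] [DecidableEq ι] (X : Coh ι) (F : Type) [Field F] [CharZero F]

/-- The equation of `gso`. -/
noncomputable def eL : Matrix {a // X.deg a = 2} {a // X.deg a = 2} F →ₗ[F]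
    Matrix {a // X.deg a = 2} {a // X.deg a = 2} F where
  toFun x := xᵀ * X.qF F + X.qF F * x
    - (2 * x.trace / (Fintype.card {a // X.deg a = 2} : F)) • X.qF F
  map_add' x y := by
    rw [Matrix.transpose_add, add_mul, mul_add, Matrix.trace_add, mul_add, add_div, add_smul]
    abel
  map_smul' c x := by
    rw [Matrix.transpose_smul, Matrix.smul_mul, Matrix.mul_smul, Matrix.trace_smul,
      RingHom.id_apply, smul_sub, smul_add, smul_smul, smul_eq_mul]
    congr 2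
    ring

lemma gso_iff (x : Matrix {a // X.deg a = 2} {a // X.deg a = 2} F) : Gso F X x ↔ eL X F x = 0 := by
  unfold Gso
  exact sub_eq_zero.symm

lemma trace_map (x : Matrix {a // X.deg a = 2} {a // X.deg a = 2} ℚ) :
    (x.map (algebraMap ℚ F)).trace = algebraMap ℚ F x.trace := by
  unfold Matrix.trace
  rw [map_sum]
  rfl

lemma eL_map (x : Matrix {a // X.deg a = 2} {a // X.deg a = 2} ℚ) :
    eL X F (x.map (algebraMap ℚ F)) = (eL X ℚ x).map (algebraMap ℚ F) := by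
  have e0 : X.qF ℚ = X.q := map_rat _ _
  show (x.map (algebraMap ℚ F))ᵀ * X.qF F + X.qF F * x.map (algebraMap ℚ F)
    - (2 * (x.map (algebraMap ℚ F)).trace / (Fintype.card {a // X.deg a = 2} : F)) • X.qF F
    = (xᵀ * X.qF ℚ + X.qF ℚ * x
      - (2 * x.trace / (Fintype.card {a // X.deg a = 2} : ℚ)) • X.qF ℚ).map (algebraMap ℚ F)
  rw [e0, trace_map]
  unfold Coh.qF
  rw [← Matrix.transpose_map, ← Matrix.map_mul, ← Matrix.map_mul]
  ext a b
  simp only [Matrix.add_apply, Matrix.sub_apply, Matrix.smul_apply, Matrix.map_apply, smul_eq_mul,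
    map_add, map_sub, map_mul, map_div₀, map_natCast, map_ofNat]

end gg

section main
variable {I : Type} [Fintype I] [DecidableEq I] {ι : I → Type} [∀ i, Fintype (ι i)]
  [∀ i, DecidableEq (ι i)] {X : ∀ i, Coh (ι i)}

/-- The diagonal blocks. -/
def pr (F : Type) [Field F] (ι : I → Type) : Matrix (Σ i, ι i) (Σ i, ι i) F →ₗ[F]
    (∀ i, Matrix (ι i) (ι i) F) where
  toFun M := blockDiag' M
  map_add' x y := blockDiag'_add x y
  map_smul' c x := blockDiag'_smul c x

lemma pr_bd (F : Type) [Field F] (x : ∀ i, Matrix (ι i) (ι i) F) : pr F ι (bd F ι x) = x :=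
  blockDiag'_blockDiagonal' x

/-- The action of families. -/
noncomputable def Dl (hB : S_BAS) (hX : ∀ i, IsHyperKahler (X i)) (F : Type) [Field F]
    [CharZero F] : (∀ i, Matrix {a // (X i).deg a = 2} {a // (X i).deg a = 2} F) →ₗ[F]
      Matrix (Σ i, ι i) (Σ i, ι i) F where
  toFun Y := bd F ι fun i => (X i).δt F (Y i)
  map_add' x y := by
    rw [← map_add]
    congr 1
    funext i
    exact dt_add hB (hX i) _ _
  map_smul' c x := by
    rw [RingHom.id_apply, ← map_smul]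
    congr 1
    funext i
    exact dt_smul hB (hX i) _ _

lemma Dl_apply (hB : S_BAS) (hX : ∀ i, IsHyperKahler (X i)) (F : Type) [Field F] [CharZero F]
    (Y : ∀ i, Matrix {a // (X i).deg a = 2} {a // (X i).deg a = 2} F) :
    Dl hB hX F Y = bd F ι fun i => (X i).δt F (Y i) := rfl

/-- The families in `gso`. -/
noncomputable def GG (X : ∀ i, Coh (ι i)) :
    Submodule ℚ (∀ i, Matrix {a // (X i).deg a = 2} {a // (X i).deg a = 2} ℚ) :=
  Submodule.pi Set.univ fun i => LinearMap.ker (eL (X i) ℚ)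

lemma mem_GG (Y : ∀ i, Matrix {a // (X i).deg a = 2} {a // (X i).deg a = 2} ℚ) :
    Y ∈ GG X ↔ ∀ i, Gso ℚ (X i) (Y i) := by
  unfold GG
  rw [Submodule.mem_pi]
  constructor
  · intro h i
    exact (gso_iff _ _ _).2 (h i trivial)
  · intro h i _
    exact (gso_iff _ _ _).1 (h i)

/-- Brackets of families. -/
def br (F : Type) [Field F] {κ : I → Type} [∀ i, Fintype (κ i)] (Y Y' : ∀ i, Matrix (κ i) (κ i) F) :
    ∀ i, Matrix (κ i) (κ i) F := fun i => Y i * Y' i - Y' i * Y i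

lemma bd_br (F : Type) [Field F] {κ : I → Type} [∀ i, Fintype (κ i)] [∀ i, DecidableEq (κ i)]
    (Y Y' : ∀ i, Matrix (κ i) (κ i) F) :
    bd F κ (br F Y Y') = bd F κ Y * bd F κ Y' - bd F κ Y' * bd F κ Y := by
  show blockDiagonal' _ = blockDiagonal' Y * blockDiagonal' Y' - blockDiagonal' Y' * blockDiagonal' Y
  rw [← blockDiagonal'_mul, ← blockDiagonal'_mul, ← blockDiagonal'_sub]
  rfl

lemma Dl_br (hB : S_BAS) (hX : ∀ i, IsHyperKahler (X i))
    {Y Y' : ∀ i, Matrix {a // (X i).deg a = 2} {a // (X i).deg a = 2} ℚ} (hY : Y ∈ GG X)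
    (hY' : Y' ∈ GG X) : Dl hB hX ℚ (br ℚ Y Y')
      = Dl hB hX ℚ Y * Dl hB hX ℚ Y' - Dl hB hX ℚ Y' * Dl hB hX ℚ Y := by
  rw [Dl_apply, Dl_apply, Dl_apply, ← bd_br]
  congr 1
  funext i
  exact dt_br hB (hX i) ((mem_GG Y).1 hY i) ((mem_GG Y').1 hY' i)

lemma Dl_map (hB : S_BAS) (hX : ∀ i, IsHyperKahler (X i))
    (Y : ∀ i, Matrix {a // (X i).deg a = 2} {a // (X i).deg a = 2} ℚ) :
    Dl hB hX ℂ (fun i => (Y i).map (algebraMap ℚ ℂ))
      = (Dl hB hX ℚ Y).map (algebraMap ℚ ℂ) := by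
  rw [Dl_apply, Dl_apply, ← bd_map]
  congr 1
  funext i
  exact dt_map hB (hX i) (Y i)

/-- The elements of the Lie algebra in degree two are families in `gso`. -/
lemma L2_le (hB : S_BAS) (hX : ∀ i, IsHyperKahler (X i)) :
    mtLie (blockDiagonal' fun i => blk (X i).deg 2 (X i).D)
      ≤ (GG X).map (bd ℚ fun i => {a // (X i).deg a = 2}) := by
  unfold mtLie
  apply sInf_le
  refine ⟨?_, ?_⟩
  · rintro _ ⟨Y, hY, rfl⟩ _ ⟨Y', hY', rfl⟩
    refine ⟨br ℚ Y Y', ?_, bd_br ℚ Y Y'⟩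
    show br ℚ Y Y' ∈ GG X
    rw [mem_GG]
    intro i
    exact gso_of_skew (hX i) (br_skew hB (hX i) ((mem_GG Y).1 hY i) ((mem_GG Y').1 hY' i))
  · obtain ⟨r, c, Y, hc, hY⟩ := decomp fun i => blk (X i).deg 2 (X i).D
    have hYs : ∀ i, blk (X i).deg 2 (X i).D = ∑ k, c k • (Y k i).map (algebraMap ℚ ℂ) := by
      intro i
      ext a b
      rw [hY i a b, Matrix.sum_apply]
      rfl
    have hGG : ∀ k, Y k ∈ GG X := by
      intro k
      rw [mem_GG]
      intro i
      rw [gso_iff]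
      have h1 := (gso_iff (X i) ℂ _).1 (gso_D (hX i))
      rw [hYs i, map_sum] at h1
      ext a b
      have h2 := congrFun (congrFun h1 a) b
      rw [Matrix.sum_apply, Matrix.zero_apply] at h2
      have h3 : ∑ k, (eL (X i) ℚ (Y k i) a b) • c k = 0 := by
        rw [← h2]
        refine Finset.sum_congr rfl fun k _ => ?_
        rw [map_smul, eL_map, Matrix.smul_apply, Matrix.map_apply, Rat.smul_def, smul_eq_mul,
          mul_comm]
        rfl
      exact Fintype.linearIndependent_iff.1 hc (fun k => eL (X i) ℚ (Y k i) a b) h3 k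
    have h4 : (blockDiagonal' fun i => blk (X i).deg 2 (X i).D)
        = ∑ k, c k • (bd ℚ (fun i => {a // (X i).deg a = 2}) (Y k)).map (algebraMap ℚ ℂ) := by
      have h5 : (fun i => blk (X i).deg 2 (X i).D)
          = ∑ k, c k • fun i => (Y k i).map (algebraMap ℚ ℂ) := by
        funext i
        rw [hYs i, Finset.sum_apply]
        rfl
      show bd ℂ (fun i => {a // (X i).deg a = 2}) (fun i => blk (X i).deg 2 (X i).D) = _
      rw [h5, map_sum]
      refine Finset.sum_congr rfl fun k _ => ?_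
      rw [map_smul, bd_map]
    rw [h4]
    exact Submodule.sum_mem _ fun k _ => Submodule.smul_mem _ _
      (Submodule.subset_span ⟨_, ⟨Y k, hGG k, rfl⟩, rfl⟩)

lemma xi_eq (hB : S_BAS) (hX : ∀ i, IsHyperKahler (X i))
    (Xi : Matrix (Σ i, ι i) (Σ i, ι i) ℂ →ₗ[ℂ]
          Matrix (Σ i, {a // (X i).deg a = 2}) (Σ i, {a // (X i).deg a = 2}) ℂ)
    (hXi : ∀ M, Xi M = bd ℂ (fun i => {a // (X i).deg a = 2})
            fun i => blk (X i).deg 2 (pr ℂ ι M i))
    {Y : ∀ i, Matrix {a // (X i).deg a = 2} {a // (X i).deg a = 2} ℚ} (hY : Y ∈ GG X) :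
    Xi ((Dl hB hX ℚ Y).map (algebraMap ℚ ℂ))
      = (bd ℚ (fun i => {a // (X i).deg a = 2}) Y).map (algebraMap ℚ ℂ) := by
  rw [hXi, ← bd_map, Dl_apply, ← bd_map, pr_bd]
  congr 1
  funext i
  have h5 := blk_dt hB (hX i) ((mem_GG Y).1 hY i)
  have h6 : blk (X i).deg 2 (((X i).δt ℚ (Y i)).map (algebraMap ℚ ℂ))
      = (blk (X i).deg 2 ((X i).δt ℚ (Y i))).map (algebraMap ℚ ℂ) := rfl
  rw [h6, h5]

lemma xi_D (Xi : Matrix (Σ i, ι i) (Σ i, ι i) ℂ →ₗ[ℂ]
          Matrix (Σ i, {a // (X i).deg a = 2}) (Σ i, {a // (X i).deg a = 2}) ℂ)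
    (hXi : ∀ M, Xi M = bd ℂ (fun i => {a // (X i).deg a = 2})
            fun i => blk (X i).deg 2 (pr ℂ ι M i)) :
    Xi (blockDiagonal' fun i => (X i).D) = blockDiagonal' fun i => blk (X i).deg 2 (X i).D := by
  rw [hXi]
  have h : pr ℂ ι (blockDiagonal' fun i => (X i).D) = fun i => (X i).D := pr_bd ℂ _
  rw [h]
  rfl

end main

end MtlAux

open MtlAux in
theorem t_MTL : S_BAS → S_MTD → S_MTL := by
  intro hB hM I _ _ ι _ _ X hX Z
  obtain ⟨D2, hD2⟩ : ∃ D2, D2 = blockDiagonal' fun i => blk (X i).deg 2 (X i).D := ⟨_, rfl⟩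
  obtain ⟨D, hD⟩ : ∃ D, D = blockDiagonal' fun i => (X i).D := ⟨_, rfl⟩
  have hL2 := L2_le hB hX
  rw [← hD2] at hL2
  obtain ⟨m1, m2⟩ := hM _ D2
  obtain ⟨n1, n2⟩ := hM _ D
  rw [← hD2, ← hD]
  have hgg : ∀ Y, bd ℚ (fun i => {a // (X i).deg a = 2}) Y ∈ mtLie D2 → Y ∈ GG X := by
    intro Y hY
    obtain ⟨Y', hY', h⟩ := hL2 hY
    rw [← bd_inj ℚ h]
    exact hY'
  -- (A)
  have hA : mtLie D ≤ ((mtLie D2).comap (bd ℚ fun i => {a // (X i).deg a = 2})).map
      (Dl hB hX ℚ) := by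
    conv_lhs => unfold mtLie
    apply sInf_le
    refine ⟨?_, ?_⟩
    · rintro _ ⟨Y, hY, rfl⟩ _ ⟨Y', hY', rfl⟩
      refine ⟨br ℚ Y Y', ?_, Dl_br hB hX (hgg Y hY) (hgg Y' hY')⟩
      show bd ℚ _ (br ℚ Y Y') ∈ mtLie D2
      rw [bd_br]
      exact m1 _ hY _ hY'
    · have h1 : Submodule.span ℂ ((fun x : Matrix _ _ ℚ => x.map (algebraMap ℚ ℂ)) '' (mtLie D2))
          ≤ (Submodule.span ℂ ((fun x : Matrix (Σ i, ι i) (Σ i, ι i) ℚ =>
            x.map (algebraMap ℚ ℂ)) '' (((mtLie D2).comap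
              (bd ℚ fun i => {a // (X i).deg a = 2})).map (Dl hB hX ℚ)))).comap
              ((Dl hB hX ℂ).comp (pr ℂ fun i => {a // (X i).deg a = 2})) := by
        rw [Submodule.span_le]
        rintro _ ⟨x, hx, rfl⟩
        obtain ⟨Y, hY, rfl⟩ := hL2 hx
        apply Submodule.subset_span
        refine ⟨Dl hB hX ℚ Y, ⟨Y, hx, rfl⟩, ?_⟩
        show (Dl hB hX ℚ Y).map (algebraMap ℚ ℂ) = Dl hB hX ℂ (pr ℂ _ ((bd ℚ _ Y).map _))
        rw [← bd_map, pr_bd, Dl_map]
      have h2 := h1 m2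
      have h3 : ((Dl hB hX ℂ).comp (pr ℂ fun i => {a // (X i).deg a = 2})) D2 = D := by
        show Dl hB hX ℂ (pr ℂ _ D2) = D
        rw [hD2]
        show Dl hB hX ℂ (pr ℂ (fun i => {a // (X i).deg a = 2})
          (bd ℂ (fun i => {a // (X i).deg a = 2}) fun i => blk (X i).deg 2 (X i).D)) = D
        rw [pr_bd, hD, Dl_apply]
        show bd ℂ ι (fun i => (X i).δt ℂ (blk (X i).deg 2 (X i).D)) = bd ℂ ι fun i => (X i).D
        congr 1
        funext i
        exact dt_D hB (hX i)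
      rw [Submodule.mem_comap, h3] at h2
      exact h2
  -- (B)
  have hBB : mtLie D2 ≤ ((mtLie D2).comap (bd ℚ fun i => {a // (X i).deg a = 2})
      ⊓ (mtLie D).comap (Dl hB hX ℚ)).map (bd ℚ fun i => {a // (X i).deg a = 2}) := by
    conv_lhs => unfold mtLie
    apply sInf_le
    refine ⟨?_, ?_⟩
    · rintro _ ⟨Y, hY, rfl⟩ _ ⟨Y', hY', rfl⟩
      refine ⟨br ℚ Y Y', ⟨?_, ?_⟩, bd_br ℚ Y Y'⟩
      · show bd ℚ _ (br ℚ Y Y') ∈ mtLie D2
        rw [bd_br]
        exact m1 _ hY.1 _ hY'.1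
      · show Dl hB hX ℚ (br ℚ Y Y') ∈ mtLie D
        rw [Dl_br hB hX (hgg Y hY.1) (hgg Y' hY'.1)]
        exact n1 _ hY.2 _ hY'.2
    · obtain ⟨Xi, hXi⟩ : ∃ Xi : Matrix (Σ i, ι i) (Σ i, ι i) ℂ →ₗ[ℂ]
          Matrix (Σ i, {a // (X i).deg a = 2}) (Σ i, {a // (X i).deg a = 2}) ℂ,
          ∀ M, Xi M = bd ℂ (fun i => {a // (X i).deg a = 2})
            fun i => blk (X i).deg 2 (pr ℂ ι M i) :=
        ⟨{ toFun := fun M => bd ℂ (fun i => {a // (X i).deg a = 2})
            fun i => blk (X i).deg 2 (pr ℂ ι M i)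
           map_add' := fun x y => by rw [← map_add, map_add]; rfl
           map_smul' := fun c x => by rw [RingHom.id_apply, ← map_smul, map_smul]; rfl },
          fun M => rfl⟩
      have h1 : Submodule.span ℂ ((fun x : Matrix _ _ ℚ => x.map (algebraMap ℚ ℂ)) '' (mtLie D))
          ≤ (Submodule.span ℂ ((fun x : Matrix (Σ i, {a // (X i).deg a = 2})
            (Σ i, {a // (X i).deg a = 2}) ℚ => x.map (algebraMap ℚ ℂ)) ''
            (((mtLie D2).comap (bd ℚ fun i => {a // (X i).deg a = 2})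
      ⊓ (mtLie D).comap (Dl hB hX ℚ)).map (bd ℚ fun i => {a // (X i).deg a = 2})))).comap Xi := by
        rw [Submodule.span_le]
        rintro _ ⟨x, hx, rfl⟩
        obtain ⟨Y, hY, rfl⟩ := hA hx
        apply Submodule.subset_span
        refine ⟨bd ℚ (fun i => {a // (X i).deg a = 2}) Y, ⟨Y, ⟨hY, hx⟩, rfl⟩, ?_⟩
        exact (xi_eq hB hX Xi hXi (hgg Y hY)).symm
      have h2 := h1 n2
      have h3 : Xi D = D2 := by
        rw [hD, hD2]
        exact xi_D Xi hXi
      rw [Submodule.mem_comap, h3] at h2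
      exact h2
  constructor
  · intro hZ
    obtain ⟨Y, hY, rfl⟩ := hA hZ
    exact ⟨Y, hY, rfl⟩
  · rintro ⟨Y, hY, rfl⟩
    obtain ⟨Y', hY', h⟩ := hBB hY
    have h1 : Y' = Y := bd_inj ℚ h
    rw [h1] at hY'
    exact hY'.2

end Pool.Agent.NH56.HY
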