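import Pool.Agent.NH56.HY.Cnv
import Pool.Agent.NH56.HY.Mtl
import Pool.Agent.NH56.HY.Nsc
import Pool.Agent.NH56.HY.Fin

/-!
# General forms of the parts CNV, MTL and NSC
-/

set_option autoImplicit false
set_option linter.unusedSectionVars false

namespace Pool.Agent.NH56.HY

open Matrix Polynomial Filter Topology NumberField IsDedekindDomain

namespace Gen

section cnv

open scoped Matrix.Norms.Elementwise

theorem cnvAux (hLOG : S_LOG) {ℓ : ℕ} [Fact ℓ.Prime] {ι κ : Type} [Fintype ι] [DecidableEq ι]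
    [Fintype κ] [DecidableEq κ] {Γ : Type} [Group Γ] (ρ : Γ →* Matrix ι ι ℚ_[ℓ])
    (ρ₂ : Γ →* Matrix κ κ ℚ_[ℓ]) (R : Matrix ι ι ℚ_[ℓ] →ₗ[ℚ_[ℓ]] Matrix κ κ ℚ_[ℓ])
    (Δ : Matrix κ κ ℚ_[ℓ] →ₗ[ℚ_[ℓ]] Matrix ι ι ℚ_[ℓ]) (hR : ∀ g, R (ρ g) = ρ₂ g)
    (hL : ∀ Z ∈ LieImage ρ Set.univ, Z = Δ (R Z))
    (g : ℕ → Γ) (hn : ∀ k, ∀ a b, ‖(ρ (g k) - 1) a b‖ ≤ ((ℓ : ℝ) ^ 2)⁻¹)
    (hn₂ : ∀ k, ∀ a b, ‖(ρ₂ (g k) - 1) a b‖ ≤ ((ℓ : ℝ) ^ 2)⁻¹)
    (Y : Matrix κ κ ℚ_[ℓ])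
    (hY : Tendsto (fun k : ℕ => ((ℓ : ℚ_[ℓ]) ^ k)⁻¹ • (ρ₂ (g k) - 1)) atTop (𝓝 Y)) :
    Tendsto (fun k : ℕ => ((ℓ : ℚ_[ℓ]) ^ k)⁻¹ • (ρ (g k) - 1)) atTop (𝓝 (Δ Y)) := by
  have hRc : Continuous R := LinearMap.continuous_of_finiteDimensional R
  have hΔc : Continuous Δ := LinearMap.continuous_of_finiteDimensional Δ
  have hR1 : R 1 = 1 := by
    have := hR 1
    rwa [map_one ρ, map_one ρ₂] at this
  have hp : 2 ≤ (ℓ : ℝ) := by exact_mod_cast (Fact.out : ℓ.Prime).two_le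
  have hp2 : ((ℓ : ℝ) ^ 2)⁻¹ ≤ 1 / 4 := by
    rw [one_div]
    apply inv_anti₀ (by norm_num)
    nlinarith
  have hN : ∀ k, ‖ρ (g k) - 1‖ ≤ ((ℓ : ℝ) ^ 2)⁻¹ := fun k =>
    (Matrix.norm_le_iff (by positivity)).2 (hn k)
  have hN2 : ∀ k, ‖ρ₂ (g k) - 1‖ ≤ ((ℓ : ℝ) ^ 2)⁻¹ := fun k =>
    (Matrix.norm_le_iff (by positivity)).2 (hn₂ k)
  have h1 := fun k => hLOG ℓ ι (ρ (g k)) ‖ρ (g k) - 1‖ (hN k)
    (fun i j => Matrix.norm_entry_le_entrywise_sup_norm _)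
  choose L hL1 hL2 hL3 using h1
  have h2 := fun k => hLOG ℓ κ (ρ₂ (g k))
    ‖ρ₂ (g k) - 1‖ (hN2 k) (fun i j => Matrix.norm_entry_le_entrywise_sup_norm _)
  choose M hM1 hM2 hM3 using h2
  have hLM : ∀ k, R (L k) = M k := by
    intro k
    have h3 := (hRc.tendsto (L k)).comp (hL1 k)
    refine tendsto_nhds_unique h3 ((hM1 k).congr fun m => ?_)
    simp only [Function.comp_apply]
    rw [map_smul, map_sub, hR1, ← map_pow, ← map_pow, hR]
  have hLd : ∀ k, L k = Δ (M k) := by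
    intro k
    rw [← hLM k]
    apply hL
    refine ⟨fun m => g k ^ (ℓ ^ m), fun _ => Set.mem_univ _, ?_⟩
    refine (hL1 k).congr fun m => ?_
    rw [map_pow]
  have h3 : Tendsto (fun k : ℕ => ((ℓ : ℚ_[ℓ]) ^ k)⁻¹ • M k) atTop (𝓝 Y) := by
    refine Cnv.lim_sq _ _ _ 2 hY fun k => ?_
    refine (Matrix.norm_le_iff (by positivity)).2 fun a b => ?_
    exact hM2 k a b
  have h4 : Tendsto (fun k : ℕ => ((ℓ : ℚ_[ℓ]) ^ k)⁻¹ • L k) atTop (𝓝 (Δ Y)) := by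
    refine ((hΔc.tendsto Y).comp h3).congr fun k => ?_
    simp only [Function.comp_apply]
    rw [map_smul, ← hLd]
  refine Cnv.lim_sq _ _ _ 8 h4 fun k => ?_
  have h5 : ‖L k - (ρ (g k) - 1)‖ ≤ 2 * ‖ρ (g k) - 1‖ ^ 2 :=
    (Matrix.norm_le_iff (by positivity)).2 (hL2 k)
  have h6 : ‖(ρ (g k) - 1) - L k‖ = ‖L k - (ρ (g k) - 1)‖ := norm_sub_rev _ _
  have h7 : ‖ρ (g k) - 1‖ ≤ ‖L k‖ + ‖L k - (ρ (g k) - 1)‖ := by
    have := norm_sub_le (L k) (L k - (ρ (g k) - 1))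
    rwa [sub_sub_cancel] at this
  have h8 := hN k
  have h9 := norm_nonneg (ρ (g k) - 1)
  have h10 := norm_nonneg (L k)
  rw [h6]
  have h11 : ‖ρ (g k) - 1‖ ≤ 2 * ‖L k‖ := by nlinarith
  nlinarith

/-- tangent vectors of a quotient representation lift, if the Lie algebra upstairs is known to be
determined by its image -/
theorem cnv (hLOG : S_LOG) {ℓ : ℕ} [Fact ℓ.Prime] {ι κ : Type} [Fintype ι] [DecidableEq ι]
    [Fintype κ] [DecidableEq κ] {Γ : Type} [Group Γ] [TopologicalSpace Γ] [IsTopologicalGroup Γ]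
    [CompactSpace Γ] (ρ : Γ →* Matrix ι ι ℚ_[ℓ]) (ρ₂ : Γ →* Matrix κ κ ℚ_[ℓ])
    (hρ : Continuous ρ) (hρ₂ : Continuous ρ₂)
    (R : Matrix ι ι ℚ_[ℓ] →ₗ[ℚ_[ℓ]] Matrix κ κ ℚ_[ℓ])
    (Δ : Matrix κ κ ℚ_[ℓ] →ₗ[ℚ_[ℓ]] Matrix ι ι ℚ_[ℓ]) (hR : ∀ g, R (ρ g) = ρ₂ g)
    (hL : ∀ Z ∈ LieImage ρ Set.univ, Z = Δ (R Z)) (Z : Matrix ι ι ℚ_[ℓ]) :
    Z ∈ LieImage ρ Set.univ ↔ ∃ Y ∈ LieImage ρ₂ Set.univ, Z = Δ Y := by
  have hRc : Continuous R := LinearMap.continuous_of_finiteDimensional R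
  have hR1 : R 1 = 1 := by
    have := hR 1
    rwa [map_one ρ, map_one ρ₂] at this
  constructor
  · intro hZ
    refine ⟨R Z, ?_, hL Z hZ⟩
    obtain ⟨σ, -, hσ⟩ := hZ
    refine ⟨σ, fun _ => Set.mem_univ _, ?_⟩
    refine ((hRc.tendsto Z).comp hσ).congr fun k => ?_
    simp only [Function.comp_apply]
    rw [map_smul, map_sub, hR1, hR]
  · rintro ⟨Y, ⟨σ, -, hσ⟩, rfl⟩
    let V : Set Γ := {g | (∀ a b, ‖(ρ g - 1) a b‖ < ((ℓ : ℝ) ^ 2)⁻¹) ∧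
      ∀ a b, ‖(ρ₂ g - 1) a b‖ < ((ℓ : ℝ) ^ 2)⁻¹}
    have hp : 2 ≤ (ℓ : ℝ) := by exact_mod_cast (Fact.out : ℓ.Prime).two_le
    have hop : ∀ (μ : Type) [Fintype μ] [DecidableEq μ] (τ : Γ → Matrix μ μ ℚ_[ℓ]),
        Continuous τ → IsOpen {g | ∀ a b, ‖(τ g - 1) a b‖ < ((ℓ : ℝ) ^ 2)⁻¹} := by
      intro μ _ _ τ hτ
      have : {g | ∀ a b, ‖(τ g - 1) a b‖ < ((ℓ : ℝ) ^ 2)⁻¹} =
          ⋂ a, ⋂ b, {g | ‖(τ g - 1) a b‖ < ((ℓ : ℝ) ^ 2)⁻¹} := by
        ext g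
        simp only [Set.mem_ofPred_eq, Set.mem_iInter]
      rw [this]
      refine isOpen_iInter_of_finite fun a => isOpen_iInter_of_finite fun b => ?_
      refine isOpen_lt ?_ continuous_const
      refine Continuous.norm ?_
      have h1 : Continuous fun g : Γ => τ g - 1 := hτ.sub continuous_const
      exact h1.matrix_elem a b
    have hV : IsOpen V := (hop ι ρ hρ).inter (hop κ ρ₂ hρ₂)
    have h1V : (1 : Γ) ∈ V := by
      refine ⟨fun a b => ?_, fun a b => ?_⟩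
      · rw [map_one, sub_self, Matrix.zero_apply, norm_zero]
        positivity
      · rw [map_one, sub_self, Matrix.zero_apply, norm_zero]
        positivity
    have hσ1 : Tendsto (fun k => ρ₂ (σ k)) atTop (𝓝 1) := by
      have h0 : Tendsto (fun k : ℕ => (ℓ : ℚ_[ℓ]) ^ k) atTop (𝓝 0) := by
        apply tendsto_pow_atTop_nhds_zero_of_norm_lt_one
        rw [Padic.norm_p]
        exact inv_lt_one_of_one_lt₀ (by linarith)
      have h1 := (h0.smul hσ).add_const (1 : Matrix _ _ ℚ_[ℓ])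
      rw [zero_smul, zero_add] at h1
      refine h1.congr fun k => ?_
      have hne : (ℓ : ℚ_[ℓ]) ^ k ≠ 0 := pow_ne_zero _ (by
        exact_mod_cast (Fact.out : ℓ.Prime).ne_zero)
      rw [smul_smul, mul_inv_cancel₀ hne, one_smul, sub_add_cancel]
    obtain ⟨g, hgV, hge⟩ := Cnv.lift ρ₂ hρ₂ V hV h1V σ hσ1
    refine ⟨g, fun _ => Set.mem_univ _, ?_⟩
    refine cnvAux hLOG ρ ρ₂ R Δ hR hL g (fun k a b => ((hgV k).1 a b).le)
      (fun k a b => ((hgV k).2 a b).le) Y ?_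
    refine hσ.congr' ?_
    filter_upwards [hge] with k hk
    rw [hk]

end cnv

section mtl

variable {n n₂ : Type} [Fintype n] [DecidableEq n] [Fintype n₂] [DecidableEq n₂]

/-- The Lie algebra of the Mumford-Tate group and a faithful representation of it -/
theorem mtl (hMTD : S_MTD) (G : Submodule ℚ (Matrix n₂ n₂ ℚ))
    (hG : ∀ x ∈ G, ∀ y ∈ G, x * y - y * x ∈ G)
    (Δ : Matrix n₂ n₂ ℚ →ₗ[ℚ] Matrix n n ℚ) (R : Matrix n n ℚ →ₗ[ℚ] Matrix n₂ n₂ ℚ)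
    (ΔC : Matrix n₂ n₂ ℂ →ₗ[ℂ] Matrix n n ℂ) (RC : Matrix n n ℂ →ₗ[ℂ] Matrix n₂ n₂ ℂ)
    (hΔC : ∀ x, ΔC (x.map (algebraMap ℚ ℂ)) = (Δ x).map (algebraMap ℚ ℂ))
    (hRC : ∀ x, RC (x.map (algebraMap ℚ ℂ)) = (R x).map (algebraMap ℚ ℂ))
    (hΔ : ∀ x ∈ G, ∀ y ∈ G, Δ (x * y - y * x) = Δ x * Δ y - Δ y * Δ x)
    (hRΔ : ∀ x ∈ G, R (Δ x) = x) (D : Matrix n n ℂ) (D₂ : Matrix n₂ n₂ ℂ)
    (hD₂ : D₂ ∈ Submodule.span ℂ ((fun x : Matrix n₂ n₂ ℚ => x.map (algebraMap ℚ ℂ)) '' G))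
    (h1 : ΔC D₂ = D) (h2 : RC D = D₂) (Z : Matrix n n ℚ) :
    Z ∈ mtLie D ↔ ∃ Y ∈ mtLie D₂, Z = Δ Y := by
  obtain ⟨m1, m2⟩ := hMTD _ D₂
  obtain ⟨n1, n2⟩ := hMTD _ D
  have hle : mtLie D₂ ≤ G := sInf_le ⟨hG, hD₂⟩
  have hA : mtLie D ≤ (mtLie D₂).map Δ := by
    refine sInf_le ⟨?_, ?_⟩
    · rintro _ ⟨x, hx, rfl⟩ _ ⟨y, hy, rfl⟩
      exact ⟨x * y - y * x, m1 x hx y hy, hΔ x (hle hx) y (hle hy)⟩
    · have h3 : Submodule.span ℂ ((fun x : Matrix _ _ ℚ => x.map (algebraMap ℚ ℂ)) '' (mtLie D₂))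
          ≤ (Submodule.span ℂ ((fun x : Matrix n n ℚ => x.map (algebraMap ℚ ℂ)) ''
            ((mtLie D₂).map Δ))).comap ΔC := by
        rw [Submodule.span_le]
        rintro _ ⟨x, hx, rfl⟩
        exact Submodule.subset_span ⟨Δ x, ⟨x, hx, rfl⟩, (hΔC x).symm⟩
      have h4 := h3 m2
      rw [Submodule.mem_comap, h1] at h4
      exact h4
  have hB : mtLie D₂ ≤ (mtLie D).map R := by
    refine sInf_le ⟨?_, ?_⟩
    · rintro _ ⟨x, hx, rfl⟩ _ ⟨y, hy, rfl⟩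
      refine ⟨x * y - y * x, n1 x hx y hy, ?_⟩
      obtain ⟨x', hx', rfl⟩ := hA hx
      obtain ⟨y', hy', rfl⟩ := hA hy
      rw [← hΔ x' (hle hx') y' (hle hy'), hRΔ _ (hG x' (hle hx') y' (hle hy')),
        hRΔ _ (hle hx'), hRΔ _ (hle hy')]
    · have h3 : Submodule.span ℂ ((fun x : Matrix _ _ ℚ => x.map (algebraMap ℚ ℂ)) '' (mtLie D))
          ≤ (Submodule.span ℂ ((fun x : Matrix n₂ n₂ ℚ => x.map (algebraMap ℚ ℂ)) ''
            ((mtLie D).map R))).comap RC := by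
        rw [Submodule.span_le]
        rintro _ ⟨x, hx, rfl⟩
        exact Submodule.subset_span ⟨R x, ⟨x, hx, rfl⟩, (hRC x).symm⟩
      have h4 := h3 n2
      rw [Submodule.mem_comap, h2] at h4
      exact h4
  constructor
  · intro hZ
    obtain ⟨Y, hY, rfl⟩ := hA hZ
    exact ⟨Y, hY, rfl⟩
  · rintro ⟨Y, hY, rfl⟩
    obtain ⟨x, hx, hxY⟩ := hB hY
    obtain ⟨Y', hY', rfl⟩ := hA hx
    rw [hRΔ _ (hle hY')] at hxY
    rw [← hxY]
    exact hx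

end mtl

section nsc

open NscP

/-- general form of `NSC` -/
theorem nsc (hMTD : S_MTD) (K : Type) [Field K] [NumberField K] (ℓ : ℕ) [hl : Fact ℓ.Prime] {ι : Type}
    [Fintype ι] [DecidableEq ι] (X : Coh ι) (χ : GK K →* ℚ_[ℓ]) (ρ : GK K →* Matrix ι ι ℚ_[ℓ])
    (hX : IsHyperKahler X) (hgr : ∀ g, IsGraded X.deg (ρ g)) {n : Type} [Fintype n] [DecidableEq n]
    (f : {a // X.deg a = 2} → n) (hf : Function.Injective f) (D : Matrix n n ℂ)
    (τ : GK K → Matrix n n ℚ_[ℓ]) (hD : D.submatrix f f = blk X.deg 2 X.D)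
    (hτ : ∀ g, (τ g).submatrix f f = blk X.deg 2 (ρ g)) (hMT : MumfordTate D τ) :
    NonUnip χ (fun g => blk X.deg 2 (ρ g)) := by
  intro W hW
  by_contra hcon'
  have hcon : ∀ g ∈ W, IsNilpotent (blk X.deg 2 (ρ g) -
      χ g • (1 : Matrix {a // X.deg a = 2} {a // X.deg a = 2} ℚ_[ℓ])) := by
    intro g hg
    by_contra h
    exact hcon' ⟨g, hg, h⟩
  obtain ⟨M, hM0, hM⟩ : ∃ M : ℕ, M ≠ 0 ∧ ∀ g : GK K, g ^ M ∈ W := by
    have : Finite (GK K ⧸ W) := W.quotient_finite_of_isOpen hW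
    have hi : W.index ≠ 0 := Subgroup.index_ne_zero_of_finite
    exact ⟨W.index.factorial, Nat.factorial_ne_zero _, fun g =>
      Subgroup.pow_mem_of_index_ne_zero_of_dvd hi g fun m h1 h2 => Nat.dvd_factorial h1 h2⟩
  have hb : 0 < Fintype.card {a // X.deg a = 2} := by have := hX.betti; omega
  have key : ∀ x ∈ mtLie D,
      (sc (x.submatrix f f)) ^ Fintype.card {a // X.deg a = 2} = 0 := by
    intro x hx
    have h1 : x.map (algebraMap ℚ ℚ_[ℓ]) ∈ LieImage τ Set.univ := by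
      unfold MumfordTate at hMT
      rw [hMT]
      exact Submodule.subset_span ⟨x, hx, rfl⟩
    obtain ⟨σ, -, hσ⟩ := h1
    have h2 : Tendsto (fun k : ℕ => ((ℓ : ℚ_[ℓ]) ^ k)⁻¹ • (blk X.deg 2 (ρ (σ k)) - 1)) atTop
        (𝓝 ((x.submatrix f f).map (algebraMap ℚ ℚ_[ℓ]))) := by
      have hc : Continuous (fun M : Matrix n n ℚ_[ℓ] => M.submatrix f f) :=
        Continuous.matrix_submatrix continuous_id _ _
      have h3 := (hc.tendsto _).comp hσ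
      refine h3.congr fun k => ?_
      simp only [Function.comp_apply]
      rw [← hτ]
      ext a b
      simp only [Matrix.submatrix_apply, Matrix.smul_apply, Matrix.sub_apply, Matrix.one_apply,
        hf.eq_iff]
    have h4 := lim_pow h2 M
    have h5 := lim_nil hb h4 (fun k => χ ((σ k) ^ M)) (fun k => by
      rw [← blk_pow ρ hgr]
      exact hcon _ (hM _))
    rw [sc_smul, _root_.smul_pow] at h5
    have h6 : (sc ((x.submatrix f f).map (algebraMap ℚ ℚ_[ℓ]))) ^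
        Fintype.card {a // X.deg a = 2} = 0 :=
      (smul_eq_zero.1 h5).resolve_left (pow_ne_zero _ (by exact_mod_cast hM0))
    rw [sc_map, ← map_pow_rat] at h6
    exact map_eq_zero_rat h6
  obtain ⟨r, c, g, hg⟩ := Submodule.mem_span_set'.1 (hMTD _ D).2
  choose x hx hxg using fun k => (g k).2
  have hDi : blk X.deg 2 X.D = ∑ k, c k • ((x k).submatrix f f).map (algebraMap ℚ ℂ) := by
    rw [← hD, ← hg]
    ext a b
    rw [Matrix.submatrix_apply, Matrix.sum_apply, Matrix.sum_apply]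
    refine Finset.sum_congr rfl fun k _ => ?_
    rw [← hxg]
    rfl
  have h6 := poly_ext (n := Fintype.card {a // X.deg a = 2})
    (fun k => sc ((x k).submatrix f f)) (by
      intro c'
      have h1 : ∑ k, c' k • sc ((x k).submatrix f f) = sc ((∑ k, c' k • x k).submatrix f f) := by
        have h2 : (∑ k, c' k • x k).submatrix f f = ∑ k, c' k • (x k).submatrix f f := by
          ext a b
          rw [Matrix.sum_apply, Matrix.submatrix_apply, Matrix.sum_apply]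
          rfl
        rw [h2, sc_sum]
        refine Finset.sum_congr rfl fun k _ => ?_
        rw [sc_smul]
      rw [h1]
      exact key _ (Submodule.sum_mem _ fun k _ => Submodule.smul_mem _ _ (hx k))) c
  have h7 : sc (blk X.deg 2 X.D) ^ Fintype.card {a // X.deg a = 2} = 0 := by
    rw [hDi, sc_sum]
    refine Eq.trans ?_ h6
    congr 1
    refine Finset.sum_congr rfl fun k _ => ?_
    rw [sc_smul, sc_map]
  have h8 : ∀ a : ι, X.deg a = 2 → (X.hdg a : ℂ) =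
      (blk X.deg 2 X.D).trace / Fintype.card {a // X.deg a = 2} := by
    intro a ha
    obtain ⟨hw0, hw⟩ := eig hX ha
    set w := (fun c : {c // X.deg c = 2} => X.P c a) with hwdef
    have h9 : ∀ n : ℕ, (sc (blk X.deg 2 X.D) ^ n) *ᵥ w = ((X.hdg a : ℂ) -
        (blk X.deg 2 X.D).trace / Fintype.card {a // X.deg a = 2}) ^ n • w := by
      intro n
      induction n with
      | zero => rw [pow_zero, pow_zero, Matrix.one_mulVec, one_smul]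
      | succ n ih =>
        rw [pow_succ, ← Matrix.mulVec_mulVec]
        have h10 : sc (blk X.deg 2 X.D) *ᵥ w = ((X.hdg a : ℂ) -
            (blk X.deg 2 X.D).trace / Fintype.card {a // X.deg a = 2}) • w := by
          unfold sc
          rw [Matrix.sub_mulVec, hw, Matrix.smul_mulVec, Matrix.one_mulVec, sub_smul]
        rw [h10, Matrix.mulVec_smul, ih, smul_smul, pow_succ, mul_comm]
    have h11 := h9 (Fintype.card {a // X.deg a = 2})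
    rw [h7, Matrix.zero_mulVec] at h11
    have h12 := (smul_eq_zero.1 h11.symm).resolve_right hw0
    exact sub_eq_zero.1 (pow_eq_zero_iff hb.ne' |>.1 h12)
  have h13 : ∀ t : ℝ, t ∈ X.hodge 2 → ∃ a : ι, X.deg a = 2 ∧ (X.hdg a : ℝ) = t := by
    intro t ht
    unfold Coh.hodge at ht
    rw [Multiset.mem_map] at ht
    obtain ⟨a, ha, hat⟩ := ht
    exact ⟨a, (Finset.mem_filter.1 ha).2, hat⟩
  obtain ⟨a, ha, ha0⟩ := h13 0 (by rw [hX.hodge_two]; exact Multiset.mem_cons_self _ _)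
  obtain ⟨b, hb', hb2⟩ := h13 2 (by
    rw [hX.hodge_two]
    exact Multiset.mem_cons_of_mem (Multiset.mem_cons_self _ _))
  have h14 := h8 a ha
  have h15 := h8 b hb'
  have h16 : X.hdg a = X.hdg b := by
    have : (X.hdg a : ℂ) = X.hdg b := h14.trans h15.symm
    exact_mod_cast this
  rw [h16, hb2] at ha0
  norm_num at ha0

end nsc

end Gen

end Pool.Agent.NH56.HY
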