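import Pool.Agent.NH56.HY.Stm

/-! HY-KRO: Kronecker's theorem for algebraic numbers all of whose absolute values are `1`. -/

set_option autoImplicit false

namespace Pool.Agent.NH56.HY

open Polynomial

namespace Kro

lemma rat_int (q : ℚ) (h : ∀ (p : ℕ) [Fact p.Prime], ‖(q : ℚ_[p])‖ ≤ 1) : q.den = 1 := by
  by_contra hd
  obtain ⟨p, hp, hpd⟩ := Nat.exists_prime_and_dvd hd
  have : Fact p.Prime := ⟨hp⟩
  have h1 : ‖((q.den : ℕ) : ℚ_[p])‖ < 1 := Padic.norm_natCast_lt_one_iff.2 hpd
  have h2 : ¬ ((p : ℤ) ∣ q.num) := by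
    intro h3
    exact hp.one_lt.ne' (Nat.eq_one_of_dvd_coprimes q.reduced (Int.natCast_dvd.1 h3) hpd)
  have h3 : ‖((q.num : ℤ) : ℚ_[p])‖ = 1 := by
    refine le_antisymm (Padic.norm_int_le_one _) (not_lt.1 fun h => h2 ?_)
    exact Padic.norm_intCast_lt_one_iff.1 h
  have h4 : (q : ℚ_[p]) * (q.den : ℚ_[p]) = (q.num : ℚ_[p]) := by
    have := Rat.mul_den_eq_num q
    exact_mod_cast this
  have h5 : ‖(q : ℚ_[p])‖ * ‖((q.den : ℕ) : ℚ_[p])‖ = 1 := by
    rw [← norm_mul, h4, h3]
  have h6 := h p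
  have h7 : 0 ≤ ‖((q.den : ℕ) : ℚ_[p])‖ := norm_nonneg _
  nlinarith

lemma coeff_prod {p : ℕ} [Fact p.Prime] (s : Multiset (PadicAlgCl p)) (hs : ∀ x ∈ s, ‖x‖ ≤ 1) (n : ℕ) :
    ‖((s.map fun a => X - C a).prod).coeff n‖ ≤ 1 := by
  induction s using Multiset.induction_on generalizing n with
  | empty =>
    simp only [Multiset.map_zero, Multiset.prod_zero, coeff_one]
    split_ifs <;> simp
  | cons a s ih =>
    have ha : ‖a‖ ≤ 1 := hs a (Multiset.mem_cons_self a s)
    have ih' := fun m => ih (fun x hx => hs x (Multiset.mem_cons_of_mem hx)) m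
    rw [Multiset.map_cons, Multiset.prod_cons, sub_mul, coeff_sub, coeff_C_mul, sub_eq_add_neg]
    refine (IsUltrametricDist.norm_add_le_max _ _).trans (max_le ?_ ?_)
    · cases n with
      | zero => simp
      | succ m => rw [coeff_X_mul]; exact ih' m
    · rw [norm_neg, norm_mul]
      exact mul_le_one₀ ha (norm_nonneg _) (ih' n)

end Kro

theorem t_KRO : S_KRO := by
  intro t h1 h2
  have halg : Algebra.IsAlgebraic ℚ (AlgebraicClosure ℚ) := AlgebraicClosure.isAlgebraic ℚ
  have hti : IsIntegral ℚ t := (halg.isAlgebraic t).isIntegral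
  have hmon : (minpoly ℚ t).Monic := minpoly.monic hti
  -- the coefficients of the minimal polynomial are integers
  have hco : ∀ n, ((minpoly ℚ t).coeff n).den = 1 := by
    intro n
    apply Kro.rat_int
    intro p _
    have h3 : ((minpoly ℚ t).map (algebraMap ℚ (PadicAlgCl p))).coeff n =
        ((((minpoly ℚ t).coeff n : ℚ_[p])) : PadicAlgCl p) := by
      rw [coeff_map]
      simp
    rw [← PadicAlgCl.norm_extends, ← h3]
    have h4 : (minpoly ℚ t).map (algebraMap ℚ (PadicAlgCl p)) =
        ((((minpoly ℚ t).map (algebraMap ℚ (PadicAlgCl p))).roots).map fun a => X - C a).prod :=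
      (IsAlgClosed.splits _).eq_prod_roots_of_monic (hmon.map _)
    rw [h4]
    apply Kro.coeff_prod
    intro x hx
    have h5 : x ∈ (minpoly ℚ t).rootSet (PadicAlgCl p) := by
      rw [mem_rootSet']
      have h6 := (mem_roots'.1 hx)
      refine ⟨h6.1, ?_⟩
      have h7 := h6.2
      rwa [IsRoot, eval_map_algebraMap] at h7
    rw [← Algebra.IsAlgebraic.range_eval_eq_rootSet_minpoly (F := ℚ) (PadicAlgCl p) t] at h5
    obtain ⟨ψ, rfl⟩ := h5
    exact (h2 p ψ.toRingHom).le
  have hint : IsIntegral ℤ t := by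
    have hl : minpoly ℚ t ∈ lifts (algebraMap ℤ ℚ) := by
      rw [lifts_iff_coeff_lifts]
      intro n
      refine ⟨((minpoly ℚ t).coeff n).num, ?_⟩
      have := hco n
      simp only [algebraMap_int_eq, eq_intCast]
      exact Rat.coe_int_num_of_den_eq_one this
    obtain ⟨Q, hQ, _, hQm⟩ := lifts_and_natDegree_eq_and_monic hl hmon
    refine ⟨Q, hQm, ?_⟩
    have h8 := minpoly.aeval ℚ t
    rw [← hQ, aeval_map_algebraMap] at h8
    exact h8
  let K := IntermediateField.adjoin ℚ {t}
  have hfd : FiniteDimensional ℚ K := IntermediateField.adjoin.finiteDimensional hti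
  have hnf : NumberField K := { to_charZero := inferInstance, to_finiteDimensional := hfd }
  have hgi : IsIntegral ℤ (IntermediateField.AdjoinSimple.gen ℚ t) := by
    have := (isIntegral_algHom_iff (R := ℤ) (K.val.restrictScalars ℤ) K.val.injective
      (x := IntermediateField.AdjoinSimple.gen ℚ t)).1
    exact this hint
  obtain ⟨n, hn, hx⟩ := NumberField.Embeddings.pow_eq_one_of_norm_eq_one K ℂ hgi (by
    intro φ
    have h9 : φ (IntermediateField.AdjoinSimple.gen ℚ t) ∈ (minpoly ℚ t).rootSet ℂ := by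
      rw [mem_rootSet]
      refine ⟨minpoly.ne_zero hti, ?_⟩
      have h10 : (minpoly ℚ t).eval₂ (Rat.castHom K) (IntermediateField.AdjoinSimple.gen ℚ t) = 0 := by
        apply (algebraMap K (AlgebraicClosure ℚ)).injective
        rw [hom_eval₂, map_zero, IntermediateField.AdjoinSimple.algebraMap_gen]
        have h12 := minpoly.aeval ℚ t
        rw [aeval_def] at h12
        rw [← h12]
        congr 1
      have h11 := congrArg φ h10
      rw [map_zero, hom_eval₂] at h11
      rw [aeval_def, ← h11]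
      congr 1
      exact Subsingleton.elim _ _
    rw [← Algebra.IsAlgebraic.range_eval_eq_rootSet_minpoly (F := ℚ) ℂ t] at h9
    obtain ⟨ψ, hψ⟩ := h9
    rw [← hψ]
    exact h1 ψ.toRingHom)
  refine ⟨n, hn, ?_⟩
  have := congrArg (algebraMap K (AlgebraicClosure ℚ)) hx
  rw [map_pow, map_one, IntermediateField.AdjoinSimple.algebraMap_gen] at this
  exact this

end Pool.Agent.NH56.HY
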