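import Pool.Agent.NH56.HY.Stm

/-! The logarithm of an `ℓ`-adic matrix close to one (`S_LOG`). -/

set_option autoImplicit false
set_option linter.unusedSectionVars false

open Filter Topology
open scoped Matrix.Norms.Elementwise

namespace Pool.Agent.NH56.HY

namespace LogP

variable {ℓ : ℕ} [Fact ℓ.Prime] {n : Type} [Fintype n] [DecidableEq n]

lemma nadd (M N : Matrix n n ℚ_[ℓ]) : ‖M + N‖ ≤ max ‖M‖ ‖N‖ := by
  rw [Matrix.norm_le_iff (le_max_of_le_left (norm_nonneg _))]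
  intro i j
  rw [Matrix.add_apply]
  exact (IsUltrametricDist.norm_add_le_max _ _).trans
    (max_le_max (Matrix.norm_entry_le_entrywise_sup_norm M)
      (Matrix.norm_entry_le_entrywise_sup_norm N))

lemma nadd_le {M N : Matrix n n ℚ_[ℓ]} {t : ℝ} (hM : ‖M‖ ≤ t) (hN : ‖N‖ ≤ t) : ‖M + N‖ ≤ t :=
  (nadd M N).trans (max_le hM hN)

lemma nsub_le {M N : Matrix n n ℚ_[ℓ]} {t : ℝ} (hM : ‖M‖ ≤ t) (hN : ‖N‖ ≤ t) : ‖M - N‖ ≤ t := by
  rw [sub_eq_add_neg]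
  exact nadd_le hM (by rwa [norm_neg])

lemma nmul (M N : Matrix n n ℚ_[ℓ]) : ‖M * N‖ ≤ ‖M‖ * ‖N‖ := by
  rw [Matrix.norm_le_iff (by positivity)]
  intro i j
  rw [Matrix.mul_apply]
  refine IsUltrametricDist.norm_sum_le_of_forall_le_of_nonneg (by positivity) fun k _ => ?_
  rw [norm_mul]
  exact mul_le_mul (Matrix.norm_entry_le_entrywise_sup_norm M)
    (Matrix.norm_entry_le_entrywise_sup_norm N) (norm_nonneg _) (norm_nonneg _)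

lemma none : ‖(1 : Matrix n n ℚ_[ℓ])‖ ≤ 1 := by
  rw [Matrix.norm_le_iff zero_le_one]
  intro i j
  rw [Matrix.one_apply]
  split_ifs <;> simp

lemma nnat (m : ℕ) (X : Matrix n n ℚ_[ℓ]) : ‖(m : ℚ_[ℓ]) • X‖ ≤ ‖X‖ := by
  rw [norm_smul]
  calc ‖(m : ℚ_[ℓ])‖ * ‖X‖ ≤ 1 * ‖X‖ :=
        mul_le_mul_of_nonneg_right (IsUltrametricDist.norm_natCast_le_one _ _) (norm_nonneg _)
    _ = ‖X‖ := one_mul _

/-- bounds for the powers -/
lemma pow_bd {P : Matrix n n ℚ_[ℓ]} {s : ℝ} (hs : s ≤ 1) (hP : ‖P - 1‖ ≤ s) (m : ℕ) :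
    ‖P ^ m‖ ≤ 1 ∧ ‖P ^ m - 1‖ ≤ s := by
  have hP1 : ‖P‖ ≤ 1 := by
    have h : P = (P - 1) + 1 := by abel
    rw [h]
    exact nadd_le (hP.trans hs) none
  have h0 : 0 ≤ s := (norm_nonneg _).trans hP
  induction m with
  | zero =>
    rw [pow_zero, sub_self, norm_zero]
    exact ⟨none, h0⟩
  | succ m ih =>
    constructor
    · rw [pow_succ]
      refine (nmul _ _).trans ?_
      exact mul_le_one₀ ih.1 (norm_nonneg _) hP1
    · have h : P ^ (m + 1) - 1 = P ^ m * (P - 1) + (P ^ m - 1) := by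
        rw [pow_succ, mul_sub, mul_one]
        abel
      rw [h]
      refine nadd_le ((nmul _ _).trans ?_) ih.2
      calc ‖P ^ m‖ * ‖P - 1‖ ≤ 1 * s := mul_le_mul ih.1 hP (norm_nonneg _) zero_le_one
        _ = s := one_mul s

lemma T_bd {P : Matrix n n ℚ_[ℓ]} {s : ℝ} (hs : s ≤ 1) (hP : ‖P - 1‖ ≤ s) (m : ℕ) :
    ‖P ^ m - 1 - (m : ℚ_[ℓ]) • (P - 1) - ((m.choose 2 : ℕ) : ℚ_[ℓ]) • (P - 1) ^ 2‖ ≤ s ^ 3 := by
  have h0 : 0 ≤ s := (norm_nonneg _).trans hP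
  have hP1 : ‖P‖ ≤ 1 := by
    have := (pow_bd hs hP 1).1
    rwa [pow_one] at this
  induction m with
  | zero => simp; positivity
  | succ m ih =>
    have hc : ((m + 1).choose 2 : ℕ) = m.choose 2 + m := by
      rw [Nat.choose_succ_succ' m 1, Nat.choose_one_right, add_comm]
    have h : P ^ (m + 1) - 1 - ((m + 1 : ℕ) : ℚ_[ℓ]) • (P - 1) -
        (((m + 1).choose 2 : ℕ) : ℚ_[ℓ]) • (P - 1) ^ 2 =
        ((m.choose 2 : ℕ) : ℚ_[ℓ]) • (P - 1) ^ 3 +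
        (P ^ m - 1 - (m : ℚ_[ℓ]) • (P - 1) - ((m.choose 2 : ℕ) : ℚ_[ℓ]) • (P - 1) ^ 2) * P := by
      rw [hc]
      push_cast
      generalize ((m.choose 2 : ℕ) : ℚ_[ℓ]) = a
      generalize (m : ℚ_[ℓ]) = b
      obtain ⟨c, rfl⟩ : ∃ c, P = c + 1 := ⟨P - 1, by abel⟩
      rw [add_sub_cancel_right, pow_succ (c + 1) m]
      generalize (c + 1) ^ m = Q
      simp only [add_smul, sub_mul, mul_add, smul_mul_assoc, one_mul, mul_one, pow_succ, pow_zero,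
        one_smul]
      abel
    rw [h]
    refine nadd_le ((nnat _ _).trans ?_) ((nmul _ _).trans ?_)
    · calc ‖(P - 1) ^ 3‖ = ‖(P - 1) * (P - 1) * (P - 1)‖ := by rw [pow_succ, pow_two]
        _ ≤ ‖(P - 1) * (P - 1)‖ * ‖P - 1‖ := nmul _ _
        _ ≤ (‖P - 1‖ * ‖P - 1‖) * ‖P - 1‖ := mul_le_mul_of_nonneg_right (nmul _ _) (norm_nonneg _)
        _ ≤ (s * s) * s := by gcongr
        _ = s ^ 3 := by ring
    · calc _ ≤ s ^ 3 * 1 := mul_le_mul ih hP1 (norm_nonneg _) (by positivity)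
        _ = s ^ 3 := mul_one _

lemma norm_l : ‖(ℓ : ℚ_[ℓ])‖ = (ℓ : ℝ)⁻¹ := by
  have := Padic.norm_p (p := ℓ)
  simpa using this

lemma norm_l_inv : ‖(ℓ : ℚ_[ℓ])⁻¹‖ = (ℓ : ℝ) := by
  rw [norm_inv, norm_l, inv_inv]

lemma l_pos : (0 : ℝ) < ℓ := by exact_mod_cast (Fact.out : ℓ.Prime).pos

lemma two_le : (2 : ℝ) ≤ ℓ := by exact_mod_cast (Fact.out : ℓ.Prime).two_le

lemma choose_bd : ‖(ℓ : ℚ_[ℓ])⁻¹ * ((ℓ.choose 2 : ℕ) : ℚ_[ℓ])‖ ≤ 2 := by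
  have hl : (ℓ : ℚ_[ℓ]) ≠ 0 := by exact_mod_cast (Fact.out : ℓ.Prime).ne_zero
  have h1 : (ℓ : ℚ_[ℓ])⁻¹ * ((ℓ.choose 2 : ℕ) : ℚ_[ℓ]) = ((ℓ - 1 : ℕ) : ℚ_[ℓ]) * (2 : ℚ_[ℓ])⁻¹ := by
    have h2 : ((ℓ.choose 2 : ℕ) : ℚ_[ℓ]) * 2 = ((ℓ * (ℓ - 1) : ℕ) : ℚ_[ℓ]) := by
      have h3 := Nat.choose_two_right ℓ
      have h4 : ℓ.choose 2 * 2 = ℓ * (ℓ - 1) := by
        rw [h3]
        exact Nat.div_mul_cancel (Nat.even_mul_pred_self ℓ).two_dvd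
      exact_mod_cast congrArg (Nat.cast : ℕ → ℚ_[ℓ]) h4
    rw [eq_mul_inv_iff_mul_eq₀ two_ne_zero, mul_assoc, h2, Nat.cast_mul, ← mul_assoc,
      inv_mul_cancel₀ hl, one_mul]
  rw [h1, norm_mul, norm_inv]
  have h5 : (2 : ℝ)⁻¹ ≤ ‖(2 : ℚ_[ℓ])‖ := by
    by_cases h2 : ℓ = 2
    · subst h2
      have := norm_l (ℓ := 2)
      push_cast at this
      rw [this]
    · have h6 : ‖((2 : ℕ) : ℚ_[ℓ])‖ = 1 := by
        rw [Padic.norm_natCast_eq_one_iff]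
        exact (Nat.coprime_primes (Fact.out : ℓ.Prime) Nat.prime_two).2 h2
      have h7 : ‖(2 : ℚ_[ℓ])‖ = 1 := by exact_mod_cast h6
      rw [h7]
      norm_num
  have h8 : ‖(2 : ℚ_[ℓ])‖⁻¹ ≤ 2 := by
    have := inv_anti₀ (by norm_num) h5
    rwa [inv_inv] at this
  calc ‖((ℓ - 1 : ℕ) : ℚ_[ℓ])‖ * ‖(2 : ℚ_[ℓ])‖⁻¹ ≤ 1 * 2 :=
        mul_le_mul (IsUltrametricDist.norm_natCast_le_one _ _) h8 (by positivity) zero_le_one
    _ = 2 := one_mul 2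

/-- one step -/
lemma one_step {P : Matrix n n ℚ_[ℓ]} (hP : ‖P - 1‖ ≤ ((ℓ : ℝ) ^ 2)⁻¹) :
    ‖(ℓ : ℚ_[ℓ])⁻¹ • (P ^ ℓ - 1) - (P - 1)‖ ≤ 2 * ‖P - 1‖ ^ 2 := by
  have hl : (ℓ : ℚ_[ℓ]) ≠ 0 := by exact_mod_cast (Fact.out : ℓ.Prime).ne_zero
  have hl0 := l_pos (ℓ := ℓ)
  have h1 : ((ℓ : ℝ) ^ 2)⁻¹ ≤ 1 := by
    apply inv_le_one_of_one_le₀
    have := two_le (ℓ := ℓ)
    nlinarith
  have hT := T_bd (hP.trans h1) (le_refl ‖P - 1‖) ℓ
  set s := ‖P - 1‖ with hs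
  have h2 : (ℓ : ℚ_[ℓ])⁻¹ • (P ^ ℓ - 1) - (P - 1) =
      ((ℓ : ℚ_[ℓ])⁻¹ * ((ℓ.choose 2 : ℕ) : ℚ_[ℓ])) • (P - 1) ^ 2 + (ℓ : ℚ_[ℓ])⁻¹ •
        (P ^ ℓ - 1 - (ℓ : ℚ_[ℓ]) • (P - 1) - ((ℓ.choose 2 : ℕ) : ℚ_[ℓ]) • (P - 1) ^ 2) := by
    generalize P ^ ℓ - 1 = Q
    generalize P - 1 = c
    rw [smul_sub, smul_sub, smul_smul, smul_smul, inv_mul_cancel₀ hl, one_smul]
    abel
  rw [h2]
  refine nadd_le ?_ ?_
  · rw [norm_smul]
    refine mul_le_mul choose_bd ?_ (norm_nonneg _) (by norm_num)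
    rw [pow_two]
    refine (nmul _ _).trans (le_of_eq ?_)
    rw [← hs, pow_two]
  · rw [norm_smul, norm_l_inv]
    calc (ℓ : ℝ) * _ ≤ ℓ * s ^ 3 := mul_le_mul_of_nonneg_left hT hl0.le
      _ = (ℓ * s) * s ^ 2 := by ring
      _ ≤ 2 * s ^ 2 := by
          refine mul_le_mul_of_nonneg_right ?_ (sq_nonneg s)
          calc (ℓ : ℝ) * s ≤ ℓ * ((ℓ : ℝ) ^ 2)⁻¹ := mul_le_mul_of_nonneg_left hP hl0.le
            _ = (ℓ : ℝ)⁻¹ := by field_simp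
            _ ≤ 1 := inv_le_one_of_one_le₀ (by linarith [two_le (ℓ := ℓ)])
            _ ≤ 2 := one_le_two

/-- commutators -/
lemma comm_bd {P : Matrix n n ℚ_[ℓ]} {s : ℝ} (hs : s ≤ 1) (hP : ‖P - 1‖ ≤ s)
    (B : Matrix n n ℚ_[ℓ]) (m : ℕ) :
    ‖(P ^ m * B - B * P ^ m) - (m : ℚ_[ℓ]) • (P * B - B * P)‖ ≤ s * ‖P * B - B * P‖ := by
  have h0 : 0 ≤ s := (norm_nonneg _).trans hP
  have hP1 : ‖P‖ ≤ 1 := by
    have := (pow_bd hs hP 1).1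
    rwa [pow_one] at this
  induction m with
  | zero => simp; positivity
  | succ m ih =>
    have h : (P ^ (m + 1) * B - B * P ^ (m + 1)) - ((m + 1 : ℕ) : ℚ_[ℓ]) • (P * B - B * P) =
        P * ((P ^ m * B - B * P ^ m) - (m : ℚ_[ℓ]) • (P * B - B * P)) +
        ((m : ℚ_[ℓ]) • ((P - 1) * (P * B - B * P)) + (P * B - B * P) * (P ^ m - 1)) := by
      push_cast
      generalize (m : ℚ_[ℓ]) = b
      rw [pow_succ' P m]
      generalize P ^ m = Q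
      simp only [add_smul, mul_sub, sub_mul, smul_sub, mul_smul_comm, one_mul, mul_one, one_smul,
        mul_assoc]
      abel
    rw [h]
    refine nadd_le ((nmul _ _).trans ?_) (nadd_le ((nnat _ _).trans ((nmul _ _).trans ?_))
      ((nmul _ _).trans ?_))
    · calc _ ≤ 1 * (s * ‖P * B - B * P‖) := mul_le_mul hP1 ih (norm_nonneg _) zero_le_one
        _ = _ := one_mul _
    · exact mul_le_mul_of_nonneg_right hP (norm_nonneg _)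
    · rw [mul_comm s]
      exact mul_le_mul_of_nonneg_left (pow_bd hs hP m).2 (norm_nonneg _)

end LogP

open LogP

theorem t_LOG : S_LOG := by
  intro ℓ _ n _ _ A r hr hA
  have hl : (ℓ : ℚ_[ℓ]) ≠ 0 := by exact_mod_cast (Fact.out : ℓ.Prime).ne_zero
  have hl0 := l_pos (ℓ := ℓ)
  have hl2 := two_le (ℓ := ℓ)
  rcases isEmpty_or_nonempty n with hn | hn
  · refine ⟨0, ?_, fun i => hn.elim i, fun B _ => Subsingleton.elim _ _⟩
    refine tendsto_const_nhds.congr fun k => Subsingleton.elim _ _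
  have hr0 : 0 ≤ r := (norm_nonneg _).trans (hA hn.some hn.some)
  have hρ : ‖A - 1‖ ≤ r := (Matrix.norm_le_iff hr0).2 hA
  set ρ := ‖A - 1‖ with hρd
  have hρ0 : 0 ≤ ρ := norm_nonneg _
  have hρl : ρ ≤ ((ℓ : ℝ) ^ 2)⁻¹ := hρ.trans hr
  have h4 : ((ℓ : ℝ) ^ 2)⁻¹ ≤ 1 / 4 := by
    rw [inv_le_comm₀ (by positivity) (by norm_num)]
    nlinarith
  -- the norms of `A ^ (ℓ ^ k) - 1`
  have hu : ∀ k : ℕ, ‖A ^ (ℓ ^ k) - 1‖ ≤ ((ℓ : ℝ) ^ k)⁻¹ * ρ := by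
    intro k
    induction k with
    | zero => rw [pow_zero, pow_zero, pow_one, inv_one, one_mul]
    | succ k ih =>
      have h1 : ‖A ^ (ℓ ^ k) - 1‖ ≤ ρ := by
        refine ih.trans ?_
        have : ((ℓ : ℝ) ^ k)⁻¹ ≤ 1 := inv_le_one_of_one_le₀ (one_le_pow₀ (by linarith))
        nlinarith
      have h2 := one_step (h1.trans hρl)
      rw [← pow_mul, ← pow_succ] at h2
      have h3 : ‖(ℓ : ℚ_[ℓ])⁻¹ • (A ^ (ℓ ^ (k + 1)) - 1)‖ ≤ ‖A ^ (ℓ ^ k) - 1‖ := by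
        have h5 : (ℓ : ℚ_[ℓ])⁻¹ • (A ^ (ℓ ^ (k + 1)) - 1) =
            ((ℓ : ℚ_[ℓ])⁻¹ • (A ^ (ℓ ^ (k + 1)) - 1) - (A ^ (ℓ ^ k) - 1)) +
              (A ^ (ℓ ^ k) - 1) := by abel
        rw [h5]
        refine nadd_le (h2.trans ?_) le_rfl
        have h6 : 0 ≤ ‖A ^ (ℓ ^ k) - 1‖ := norm_nonneg _
        nlinarith
      rw [norm_smul, norm_l_inv] at h3
      have h7 : ‖A ^ (ℓ ^ (k + 1)) - 1‖ ≤ (ℓ : ℝ)⁻¹ * ‖A ^ (ℓ ^ k) - 1‖ := by
        rw [← div_eq_inv_mul, le_div_iff₀ hl0, mul_comm]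
        exact h3
      refine h7.trans ?_
      rw [pow_succ, mul_inv, mul_comm ((ℓ : ℝ) ^ k)⁻¹, mul_assoc]
      exact mul_le_mul_of_nonneg_left ih (by positivity)
  have hu' : ∀ k : ℕ, ‖A ^ (ℓ ^ k) - 1‖ ≤ ρ := by
    intro k
    refine (hu k).trans ?_
    have : ((ℓ : ℝ) ^ k)⁻¹ ≤ 1 := inv_le_one_of_one_le₀ (one_le_pow₀ (by linarith))
    nlinarith
  have hnk : ∀ k : ℕ, ‖((ℓ : ℚ_[ℓ]) ^ k)⁻¹‖ = (ℓ : ℝ) ^ k := by
    intro k
    rw [norm_inv, norm_pow, norm_l, inv_pow, inv_inv]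
  set S : ℕ → Matrix n n ℚ_[ℓ] := fun k => ((ℓ : ℚ_[ℓ]) ^ k)⁻¹ • (A ^ (ℓ ^ k) - 1) with hS
  -- the differences
  have hdiff : ∀ k : ℕ, ‖S (k + 1) - S k‖ ≤ 2 * ρ ^ 2 * ((ℓ : ℝ)⁻¹) ^ k := by
    intro k
    have h2 := one_step ((hu' k).trans hρl)
    rw [← pow_mul, ← pow_succ] at h2
    have h3 : S (k + 1) - S k = ((ℓ : ℚ_[ℓ]) ^ k)⁻¹ •
        ((ℓ : ℚ_[ℓ])⁻¹ • (A ^ (ℓ ^ (k + 1)) - 1) - (A ^ (ℓ ^ k) - 1)) := by
      simp only [hS]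
      generalize A ^ (ℓ ^ (k + 1)) - 1 = Q
      generalize A ^ (ℓ ^ k) - 1 = R
      rw [smul_sub, smul_smul, ← mul_inv, ← pow_succ]
    rw [h3, norm_smul, hnk]
    have h5 := hu k
    have h6 : 0 ≤ ‖A ^ (ℓ ^ k) - 1‖ := norm_nonneg _
    calc (ℓ : ℝ) ^ k * _ ≤ (ℓ : ℝ) ^ k * (2 * ‖A ^ (ℓ ^ k) - 1‖ ^ 2) :=
          mul_le_mul_of_nonneg_left h2 (by positivity)
      _ ≤ (ℓ : ℝ) ^ k * (2 * (((ℓ : ℝ) ^ k)⁻¹ * ρ) ^ 2) := by gcongr
      _ = 2 * ρ ^ 2 * ((ℓ : ℝ)⁻¹) ^ k := by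
          rw [inv_pow]
          field_simp
  have hl1 : (ℓ : ℝ)⁻¹ < 1 := inv_lt_one_of_one_lt₀ (by linarith)
  have hcau : CauchySeq S := by
    refine cauchySeq_of_le_geometric ((ℓ : ℝ)⁻¹) (2 * ρ ^ 2) hl1 fun k => ?_
    rw [dist_comm, dist_eq_norm]
    exact hdiff k
  have : CompleteSpace (Matrix n n ℚ_[ℓ]) := inferInstanceAs (CompleteSpace (n → n → ℚ_[ℓ]))
  obtain ⟨L, hL⟩ := cauchySeq_tendsto_of_complete hcau
  have hS0 : S 0 = A - 1 := by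
    simp only [hS, pow_zero, inv_one, one_smul, pow_one]
  refine ⟨L, hL, ?_, ?_⟩
  · have h1 : ∀ k, ‖S k - (A - 1)‖ ≤ 2 * ρ ^ 2 := by
      intro k
      induction k with
      | zero => rw [hS0, sub_self, norm_zero]; positivity
      | succ k ih =>
        have h2 : S (k + 1) - (A - 1) = (S (k + 1) - S k) + (S k - (A - 1)) := by abel
        rw [h2]
        refine nadd_le ((hdiff k).trans ?_) ih
        have h3 : ((ℓ : ℝ)⁻¹) ^ k ≤ 1 := pow_le_one₀ (by positivity) hl1.le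
        have h4 : 0 ≤ 2 * ρ ^ 2 := by positivity
        nlinarith
    have h2 : ‖L - (A - 1)‖ ≤ 2 * ρ ^ 2 := by
      refine le_of_tendsto (hL.sub_const (A - 1)).norm (Eventually.of_forall fun k => h1 k)
    intro i j
    refine (Matrix.norm_entry_le_entrywise_sup_norm _).trans (h2.trans ?_)
    gcongr
  · intro B hB
    have hD : Tendsto (fun k => S k * B - B * S k) atTop (𝓝 0) := by
      have h1 : Tendsto (fun k => S k * B - B * S k) atTop (𝓝 (L * B - B * L)) := by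
        refine Tendsto.sub ?_ ?_
        · exact ((continuous_id.matrix_mul continuous_const).tendsto L).comp hL
        · exact ((continuous_const.matrix_mul continuous_id).tendsto L).comp hL
      rwa [hB, sub_self] at h1
    have hDk : ∀ k, S k * B - B * S k = ((ℓ : ℚ_[ℓ]) ^ k)⁻¹ •
        (A ^ (ℓ ^ k) * B - B * A ^ (ℓ ^ k)) := by
      intro k
      simp only [hS]
      rw [smul_mul_assoc, mul_smul_comm, ← smul_sub]
      congr 1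
      noncomm_ring
    have hstep : ∀ k, ‖S k * B - B * S k‖ ≤ ‖S (k + 1) * B - B * S (k + 1)‖ := by
      intro k
      have h1 := comm_bd ((hu' k).trans (hρl.trans (h4.trans (by norm_num))))
        (le_refl ‖A ^ (ℓ ^ k) - 1‖) B ℓ
      rw [← pow_mul, ← pow_succ] at h1
      have h2 : (S (k + 1) * B - B * S (k + 1)) - (S k * B - B * S k) =
          ((ℓ : ℚ_[ℓ]) ^ (k + 1))⁻¹ • ((A ^ (ℓ ^ (k + 1)) * B - B * A ^ (ℓ ^ (k + 1))) -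
            (ℓ : ℚ_[ℓ]) • (A ^ (ℓ ^ k) * B - B * A ^ (ℓ ^ k))) := by
        rw [hDk, hDk]
        generalize A ^ (ℓ ^ (k + 1)) * B - B * A ^ (ℓ ^ (k + 1)) = Q
        generalize A ^ (ℓ ^ k) * B - B * A ^ (ℓ ^ k) = R
        rw [smul_sub, smul_smul]
        congr 2
        rw [pow_succ, mul_inv, mul_assoc, inv_mul_cancel₀ hl, mul_one]
      set Y := A ^ (ℓ ^ k) * B - B * A ^ (ℓ ^ k) with hY
      have h3 : ‖S k * B - B * S k‖ = (ℓ : ℝ) ^ k * ‖Y‖ := by rw [hDk, norm_smul, hnk]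
      have h5 : ‖(S (k + 1) * B - B * S (k + 1)) - (S k * B - B * S k)‖ ≤
          1 / 2 * ‖S k * B - B * S k‖ := by
        rw [h2, norm_smul, hnk, h3]
        have h6 : ‖A ^ (ℓ ^ k) - 1‖ ≤ ((ℓ : ℝ) ^ 2)⁻¹ := (hu' k).trans hρl
        calc (ℓ : ℝ) ^ (k + 1) * _ ≤ (ℓ : ℝ) ^ (k + 1) * (‖A ^ (ℓ ^ k) - 1‖ * ‖Y‖) :=
              mul_le_mul_of_nonneg_left h1 (by positivity)
          _ ≤ (ℓ : ℝ) ^ (k + 1) * (((ℓ : ℝ) ^ 2)⁻¹ * ‖Y‖) := by gcongr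
          _ = (ℓ : ℝ)⁻¹ * ((ℓ : ℝ) ^ k * ‖Y‖) := by
              rw [pow_succ]
              field_simp
          _ ≤ 1 / 2 * ((ℓ : ℝ) ^ k * ‖Y‖) := by
              refine mul_le_mul_of_nonneg_right ?_ (by positivity)
              rw [one_div]
              exact inv_anti₀ (by norm_num) hl2
      have h7 : S k * B - B * S k = (S (k + 1) * B - B * S (k + 1)) -
          ((S (k + 1) * B - B * S (k + 1)) - (S k * B - B * S k)) := by abel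
      by_contra hlt
      push Not at hlt
      have h8 : ‖S k * B - B * S k‖ ≤
          max ‖S (k + 1) * B - B * S (k + 1)‖ (1 / 2 * ‖S k * B - B * S k‖) := by
        conv_lhs => rw [h7]
        exact nsub_le (le_max_left _ _) (h5.trans (le_max_right _ _))
      rcases le_max_iff.1 h8 with h9 | h9
      · linarith
      · have h10 : 0 ≤ ‖S (k + 1) * B - B * S (k + 1)‖ := norm_nonneg _
        linarith
    have hmono : ∀ k, ‖S 0 * B - B * S 0‖ ≤ ‖S k * B - B * S k‖ := by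
      intro k
      induction k with
      | zero => exact le_rfl
      | succ k ih => exact ih.trans (hstep k)
    have h0 : ‖S 0 * B - B * S 0‖ ≤ 0 := by
      have h1 := hD.norm
      rw [norm_zero] at h1
      exact ge_of_tendsto h1 (Eventually.of_forall hmono)
    have h1 : S 0 * B - B * S 0 = 0 := norm_le_zero_iff.1 h0
    rw [hS0, sub_mul, mul_sub, one_mul, mul_one] at h1
    have h2 : A * B - B * A = A * B - B - (B * A - B) := by abel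
    rw [← sub_eq_zero, h2, h1]

end Pool.Agent.NH56.HY
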