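import Pool.Agent.NH56.HY.TanC

/-!
Project HY (helper56), part TAN: tangent vectors. Written by helper28.
-/

set_option autoImplicit false

namespace Pool.Agent.NH56.HY

open Matrix Polynomial Filter Topology NumberField IsDedekindDomain

namespace Tan

open Cnv (blk_mul blk_one blk_smul_sub blk_cont)

variable {ι : Type} [Fintype ι] [DecidableEq ι]

/-- the trace of an idempotent matrix is a natural number -/
theorem trace_idem {F m : Type} [Field F] [Fintype m] [DecidableEq m] (e : Matrix m m F)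
    (he : e * e = e) : ∃ k : ℕ, e.trace = k := by
  have h1 : IsIdempotentElem (Matrix.toLin' e) := by
    unfold IsIdempotentElem
    rw [Module.End.mul_eq_comp, ← Matrix.toLin'_mul, he]
  have h2 := (LinearMap.IsIdempotentElem.isProj_range _ h1).trace
  rw [Matrix.trace_toLin'_eq] at h2
  exact ⟨_, h2⟩

theorem graded_of_comm (X : Coh ι) {F : Type} [Field F] [CharZero F] {A : Matrix ι ι F}
    (h : A * X.H F = X.H F * A) : IsGraded X.deg A := by
  intro a b hab
  have h1 := congrFun (congrFun h a) b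
  unfold Coh.H at h1
  rw [Matrix.mul_diagonal, Matrix.diagonal_mul] at h1
  have h2 : ((X.deg b : F) - X.deg a) * A a b = 0 := by
    rw [sub_mul]
    rw [mul_comm (X.deg b : F), h1, sub_self]
  rcases mul_eq_zero.1 h2 with h3 | h3
  · exfalso
    apply hab
    have h4 : (X.deg b : F) = X.deg a := sub_eq_zero.1 h3
    exact (Nat.cast_injective h4).symm
  · exact h3

theorem comm_of_graded (X : Coh ι) {F : Type} [Field F] [CharZero F] {A : Matrix ι ι F}
    (h : IsGraded X.deg A) : A * X.H F = X.H F * A := by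
  ext a b
  unfold Coh.H
  rw [Matrix.mul_diagonal, Matrix.diagonal_mul]
  by_cases hab : X.deg a = X.deg b
  · rw [hab, mul_comm]
  · rw [h a b hab, zero_mul, mul_zero]

/-- the trace of the degree operator on the image of an idempotent is a natural number -/
theorem trace_H (X : Coh ι) {F : Type} [Field F] [CharZero F] (e : Matrix ι ι F)
    (he : e * e = e) (hc : e * X.H F = X.H F * e) : ∃ m : ℕ, (X.H F * e).trace = m := by
  classical
  have hg := graded_of_comm X hc
  have h1 : ∀ j, ∃ k : ℕ, (blk X.deg j e).trace = k := fun j =>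
    trace_idem _ (by rw [← blk_mul _ _ _ _ hg, he])
  choose k hk using h1
  refine ⟨∑ j ∈ Finset.univ.image X.deg, j * k j, ?_⟩
  have h2 : (X.H F * e).trace = ∑ a, (X.deg a : F) * e a a := by
    unfold Matrix.trace Coh.H
    refine Finset.sum_congr rfl fun a _ => ?_
    rw [Matrix.diag_apply, Matrix.diagonal_mul]
  rw [h2, ← Finset.sum_fiberwise_of_maps_to (g := X.deg) (t := Finset.univ.image X.deg)
    (fun a ha => Finset.mem_image_of_mem _ ha)]
  push_cast
  refine Finset.sum_congr rfl fun j _ => ?_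
  rw [← hk j]
  unfold Matrix.trace
  have h3 : ∑ i : {a // X.deg a = j}, (blk X.deg j e).diag i =
      ∑ a ∈ Finset.univ.filter fun a => X.deg a = j, e a a := by
    rw [← Finset.sum_subtype_of_mem (p := fun a => X.deg a = j) (f := fun a => e a a)
      (s := Finset.univ.filter fun a => X.deg a = j)]
    · rw [Finset.sum_congr]
      · ext i
        simp [i.2]
      · intro i _
        rfl
    · intro a ha
      exact (Finset.mem_filter.1 ha).2
  rw [h3, Finset.mul_sum]
  refine Finset.sum_congr rfl fun a ha => ?_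
  rw [(Finset.mem_filter.1 ha).2]

theorem dF_map (X : Coh ι) {F Ω : Type} [Field F] [CharZero F] [Field Ω] [CharZero Ω]
    [Algebra F Ω] (x : Matrix {a // X.deg a = 2} {a // X.deg a = 2} F) :
    (X.δF F x).map (algebraMap F Ω) = X.δF Ω (x.map (algebraMap F Ω)) := by
  ext i j
  unfold Coh.δF
  simp only [Matrix.map_apply, Matrix.sum_apply, Matrix.smul_apply, smul_eq_mul, map_sum, map_mul]
  refine Finset.sum_congr rfl fun a _ => Finset.sum_congr rfl fun b _ => ?_
  congr 1
  simp

theorem snd_pow {R : Type} [Field R] (t : R) (m : ℕ) :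
    (((1 : DualNumber R) + t • (DualNumber.eps : DualNumber R)) ^ m).fst = 1 ∧
    (((1 : DualNumber R) + t • (DualNumber.eps : DualNumber R)) ^ m).snd = m * t := by
  induction m with
  | zero => simp
  | succ m ih =>
    obtain ⟨h1, h2⟩ := ih
    rw [pow_succ]
    constructor
    · rw [TrivSqZeroExt.fst_mul, h1]
      simp
    · rw [DualNumber.snd_mul, h1, h2]
      simp
      ring

theorem J_uniq {R : Type} [Field R] [TopologicalSpace R] [IsTopologicalRing R] [T2Space R]
    {τ f : ℕ → R} {z w : DualNumber R} (h1 : J τ f z) (h2 : J τ f w) (h : z.fst = w.fst) :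
    z.snd = w.snd := by
  unfold J at h1 h2
  rw [h] at h1
  exact tendsto_nhds_unique h1 h2

end Tan

open Tan

theorem t_TAN : S_FUN → S_BAS → S_PER → S_NDG → S_TAN := by
  classical
  intro hFUN hBAS hPER hNDG K _ _ ℓ _ ι _ _ X S χ Pol ρ hX hR U hU hcom hden Z hZ
  obtain ⟨σ, -, hσ⟩ := hZ
  have h1 : D (fun k => ρ (σ k)) Z := hσ
  obtain ⟨s, hs, he⟩ := Cnv.lift ρ hR.continuous.1 U hU U.one_mem σ h1.lim
  have hD : D (fun k => ρ (s k)) Z := by
    refine Tendsto.congr' ?_ h1
    filter_upwards [he] with k hk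
    rw [hk]
  obtain ⟨y, hy1, hy2, hy3, hy4⟩ := ana hBAS X S χ Pol ρ hX hR s Z hD
  obtain ⟨b1, b2, b3, b4, b5, b6, b7, -, -⟩ := hBAS ι X hX ℚ_[ℓ]
  set q := X.qF ℚ_[ℓ] with hq
  set Y := blk X.deg 2 Z with hY
  set b : ℚ_[ℓ] := ((Fintype.card {a // X.deg a = 2} : ℕ) : ℚ_[ℓ]) with hb
  have hb0 : b ≠ 0 := by
    rw [hb, Nat.cast_ne_zero]
    have := hX.betti
    omega
  have htr : Y.trace / (2 * b) = y / 4 := by
    rw [div_eq_div_iff (by simpa using hb0) (by norm_num)]
    linear_combination 2 * hy3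
  -- `Z` preserves the degree
  have hZg : IsGraded X.deg Z := by
    intro a c hac
    have h2 : Tendsto (fun k : ℕ => (((ℓ : ℚ_[ℓ]) ^ k)⁻¹ • (ρ (s k) - 1)) a c) atTop
        (𝓝 (Z a c)) := ((continuous_id.matrix_elem a c).tendsto _).comp hD
    have h3 : (fun k : ℕ => (((ℓ : ℚ_[ℓ]) ^ k)⁻¹ • (ρ (s k) - 1)) a c) = fun _ => 0 := by
      funext k
      have hac' : a ≠ c := fun h => hac (by rw [h])
      rw [Matrix.smul_apply, Matrix.sub_apply, hR.graded (s k) a c hac, Matrix.one_apply_ne hac',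
        sub_zero, smul_zero]
    rw [h3] at h2
    exact tendsto_nhds_unique h2 tendsto_const_nhds
  have hZH := comm_of_graded X hZg
  have hZB : ∀ B, X.Com ℚ_[ℓ] B → Z * B = B * Z := by
    intro B hB
    have h2 : Tendsto (fun k : ℕ => (((ℓ : ℚ_[ℓ]) ^ k)⁻¹ • (ρ (s k) - 1)) * B) atTop
        (𝓝 (Z * B)) := Tendsto.mul hD tendsto_const_nhds
    have h3 : Tendsto (fun k : ℕ => B * (((ℓ : ℚ_[ℓ]) ^ k)⁻¹ • (ρ (s k) - 1))) atTop
        (𝓝 (B * Z)) := Tendsto.mul tendsto_const_nhds hD
    refine tendsto_nhds_unique h2 (h3.congr fun k => ?_)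
    rw [mul_smul_comm, smul_mul_assoc, mul_sub, sub_mul, hcom (s k) (hs k) B hB, mul_one, one_mul]
  have hdH : ∀ x, X.δF ℚ_[ℓ] x * X.H ℚ_[ℓ] = X.H ℚ_[ℓ] * X.δF ℚ_[ℓ] x := fun x =>
    comm_of_graded X (b7 x)
  have hdt : X.δt ℚ_[ℓ] Y = X.δF ℚ_[ℓ] Y + (y / 4) • X.H ℚ_[ℓ] := by
    unfold Coh.δt
    rw [htr]
  set Y0 := Y - (y / 2) • (1 : Matrix {a // X.deg a = 2} {a // X.deg a = 2} ℚ_[ℓ]) with hY0
  have hY0s : X.IsSkew ℚ_[ℓ] Y0 := by
    unfold Coh.IsSkew
    rw [← hq, hY0, transpose_sub, transpose_smul, transpose_one, sub_mul, mul_sub, smul_mul_assoc,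
      mul_smul_comm, one_mul, mul_one]
    have h2 : Yᵀ * q - (y / 2) • q + (q * Y - (y / 2) • q) =
        (Yᵀ * q + q * Y) - (y / 2 + y / 2) • q := by
      rw [add_smul]
      abel
    rw [h2, hy2, add_halves, sub_self]
  have hdY : X.δF ℚ_[ℓ] Y = X.δF ℚ_[ℓ] Y0 := by
    have h2 : Y = Y0 + (y / 2) • 1 := by rw [hY0]; abel
    have h3 : X.δF ℚ_[ℓ] (1 : Matrix {a // X.deg a = 2} {a // X.deg a = 2} ℚ_[ℓ]) = 0 :=
      b4 1 (by rw [transpose_one, one_mul, mul_one])
    conv_lhs => rw [h2]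
    rw [b1, b2, h3, smul_zero, add_zero]
  set C := Z - X.δt ℚ_[ℓ] Y with hC
  have hCs : ∀ x, X.IsSkew ℚ_[ℓ] x → C * X.δF ℚ_[ℓ] x = X.δF ℚ_[ℓ] x * C := by
    intro x hx
    have h2 := hy4 x hx
    have h3 := b6 Y0 x hY0s
    have h4 : Y0 * x - x * Y0 = Y * x - x * Y := by
      rw [hY0, sub_mul, mul_sub, smul_mul_assoc, mul_smul_comm, one_mul, mul_one]
      abel
    rw [h4, ← hdY, ← h2] at h3
    rw [hC, hdt, sub_mul, mul_sub, add_mul, mul_add, smul_mul_assoc, mul_smul_comm, hdH x]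
    have h5 : Z * X.δF ℚ_[ℓ] x = X.δF ℚ_[ℓ] Y * X.δF ℚ_[ℓ] x - X.δF ℚ_[ℓ] x * X.δF ℚ_[ℓ] Y +
        X.δF ℚ_[ℓ] x * Z := by
      rw [← h3]
      abel
    rw [h5]
    abel
  have hCall : ∀ x, C * X.δF ℚ_[ℓ] x = X.δF ℚ_[ℓ] x * C := by
    intro x
    obtain ⟨x', hx', hxx⟩ := b5 x
    rw [← hxx]
    exact hCs x' hx'
  have hCcom : X.Com ℚ_[ℓ] C := by
    constructor
    · intro x
      rw [← b3]
      exact hCall _
    · rw [hC, hdt, sub_mul, mul_sub, add_mul, mul_add, hZH, hdH, smul_mul_assoc, mul_smul_comm]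
  have hcomm : ∀ B, X.Com ℚ_[ℓ] B → C * B = B * C := by
    intro B hB
    rw [hC, hdt, sub_mul, mul_sub, add_mul, mul_add, hZB B hB, (hPER ι X hX ℚ_[ℓ] B hB).1,
      smul_mul_assoc, mul_smul_comm, ← hB.2]
  -- the traces vanish
  have hC0 : C = 0 := by
    refine lin hFUN hNDG X hX ℚ_[ℓ] (PadicAlgCl ℓ) C hCcom hcomm ?_
    intro e heC hee
    obtain ⟨m, hm⟩ := trace_H X e hee heC.2
    set am := algebraMap ℚ_[ℓ] (PadicAlgCl ℓ) with ham
    have hamc : Continuous am := continuous_algebraMap ℚ_[ℓ] (PadicAlgCl ℓ)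
    -- `e` commutes with the representation
    have hspan : ∀ e' ∈ Submodule.span (PadicAlgCl ℓ)
        ((fun B' : Matrix ι ι ℚ => B'.map (algebraMap ℚ (PadicAlgCl ℓ))) '' {B' | X.Com ℚ B'}),
        ∀ g ∈ U, e' * (ρ g).map am = (ρ g).map am * e' := by
      intro e' he' g hg
      induction he' using Submodule.span_induction with
      | mem B hB =>
        obtain ⟨B', hB', rfl⟩ := hB
        have h3 := hcom g hg (B'.map (algebraMap ℚ ℚ_[ℓ])) (com_map X hB')
        have h4 := congrArg (fun M : Matrix ι ι ℚ_[ℓ] => M.map am) h3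
        simp only [ham, map_mul_aux, map_map_aux] at h4
        exact h4.symm
      | zero => rw [zero_mul, mul_zero]
      | add B B' _ _ h3 h4 => rw [add_mul, mul_add, h3, h4]
      | smul c B _ h3 => rw [smul_mul_assoc, mul_smul_comm, h3]
    have hce : ∀ g ∈ U, e * (ρ g).map am = (ρ g).map am * e :=
      hspan e (hNDG ι X hX (PadicAlgCl ℓ) e heC).1
    have hdet : ∀ g ∈ U, ((ρ g).map am * e + (1 - e)).det ^ 2 = am (χ g) ^ m := by
      intro g hg
      by_contra hne
      set V : Set (GK K) := {g | ((ρ g).map am * e + (1 - e)).det ^ 2 ≠ am (χ g) ^ m} ∩ U with hV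
      have hVo : IsOpen V := by
        apply IsOpen.inter _ hU
        apply isOpen_ne_fun
        · apply Continuous.pow
          apply Continuous.matrix_det
          apply Continuous.add _ continuous_const
          apply Continuous.mul _ continuous_const
          exact Continuous.matrix_map hR.continuous.1 hamc
        · exact (hamc.comp hR.continuous.2).pow m
      obtain ⟨g', hg', hg2⟩ := hden V hVo ⟨g, hne, hg⟩ Set.inter_subset_right
      exact hg'.1 (hg2 _ rfl e m heC hee (hce g' hg'.2) hm)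
    -- first order expansions
    set τ : ℕ → PadicAlgCl ℓ := fun k => am ((ℓ : ℚ_[ℓ]) ^ k) with hτ
    have hτ0 : ∀ k, τ k ≠ 0 := fun k => (map_ne_zero am).2 (l_ne k)
    have hτ1 : Tendsto τ atTop (𝓝 0) := by
      have h2 := (hamc.tendsto 0).comp (l_lim (ℓ := ℓ))
      rwa [map_zero] at h2
    have hJ1 : J τ (fun k => ((ρ (s k)).map am * e + (1 - e)).det)
        ((1 : DualNumber (PadicAlgCl ℓ)) + (Z.map am * e).trace •
          (DualNumber.eps : DualNumber (PadicAlgCl ℓ))) := by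
      apply det_lim hτ0 hτ1
      intro i j
      have h2 : Continuous fun N : Matrix ι ι ℚ_[ℓ] => (N.map am * e) i j := by
        apply Continuous.matrix_elem
        exact Continuous.mul (Continuous.matrix_map continuous_id hamc) continuous_const
      have h3 := (h2.tendsto Z).comp hD
      refine h3.congr fun k => ?_
      have h4 : ((((ℓ : ℚ_[ℓ]) ^ k)⁻¹ • (ρ (s k) - 1)).map am : Matrix ι ι (PadicAlgCl ℓ)) =
          (τ k)⁻¹ • ((ρ (s k)).map am - 1) := by
        ext a c
        rw [Matrix.map_apply, Matrix.smul_apply, Matrix.sub_apply, Matrix.smul_apply,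
          Matrix.sub_apply, Matrix.map_apply, smul_eq_mul, smul_eq_mul, map_mul, map_sub, map_inv₀]
        congr 2
        rw [Matrix.one_apply, Matrix.one_apply]
        split_ifs
        · exact map_one am
        · exact map_zero am
      show ((((ℓ : ℚ_[ℓ]) ^ k)⁻¹ • (ρ (s k) - 1)).map am * e) i j = _
      rw [h4, smul_mul_assoc, Matrix.smul_apply, smul_eq_mul, sub_mul, one_mul]
      congr 1
      have h5 : (ρ (s k)).map am * e - e = ((ρ (s k)).map am * e + (1 - e)) - 1 := by abel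
      rw [h5, Matrix.sub_apply]
    have hJ2 : J τ (fun k => am (χ (s k) ^ 2)) ((1 : DualNumber (PadicAlgCl ℓ)) + am y •
          (DualNumber.eps : DualNumber (PadicAlgCl ℓ))) := by
      unfold Tan.J
      have h2 := (hamc.tendsto y).comp hy1
      have h3 : ((1 : DualNumber (PadicAlgCl ℓ)) + am y •
          (DualNumber.eps : DualNumber (PadicAlgCl ℓ))).fst = 1 := by simp
      have h4 : ((1 : DualNumber (PadicAlgCl ℓ)) + am y •
          (DualNumber.eps : DualNumber (PadicAlgCl ℓ))).snd = am y := by simp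
      rw [h3, h4]
      refine h2.congr fun k => ?_
      rw [Function.comp_apply, map_mul, map_inv₀, map_sub, map_one]
    have hJ3 := hJ1.pow hτ0 hτ1 4
    have hJ4 := hJ2.pow hτ0 hτ1 m
    have hJ5 : J τ (fun k => am (χ (s k) ^ 2) ^ m) (((1 : DualNumber (PadicAlgCl ℓ)) +
        (Z.map am * e).trace • (DualNumber.eps : DualNumber (PadicAlgCl ℓ))) ^ 4) := by
      refine Tendsto.congr (fun k => ?_) hJ3
      dsimp only
      congr 2
      have h2 := hdet (s k) (hs k)
      calc ((ρ (s k)).map am * e + (1 - e)).det ^ 4 =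
          (((ρ (s k)).map am * e + (1 - e)).det ^ 2) ^ 2 := by ring
        _ = (am (χ (s k)) ^ m) ^ 2 := by rw [h2]
        _ = am (χ (s k) ^ 2) ^ m := by rw [map_pow]; ring
    obtain ⟨p1, p2⟩ := snd_pow ((Z.map am * e).trace) 4
    obtain ⟨r1, r2⟩ := snd_pow (am y) m
    have hfin := J_uniq hJ5 hJ4 (by rw [p1, r1])
    rw [p2, r2] at hfin
    -- conclusion
    have h6 : C.map am = Z.map am - (X.δF (PadicAlgCl ℓ) (Y.map am) +
        am (y / 4) • X.H (PadicAlgCl ℓ)) := by
      have h7 : (X.δt ℚ_[ℓ] Y).map am = X.δF (PadicAlgCl ℓ) (Y.map am) +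
          am (y / 4) • X.H (PadicAlgCl ℓ) := by
        rw [hdt, Matrix.map_add _ (map_add am), dF_map]
        congr 1
        rw [← H_map X (F := ℚ_[ℓ]) (Ω := PadicAlgCl ℓ)]
        ext i j
        rw [Matrix.map_apply, Matrix.smul_apply, Matrix.smul_apply, Matrix.map_apply, smul_eq_mul,
          smul_eq_mul, map_mul]
      rw [hC, Matrix.map_sub _ (map_sub am), h7]
    rw [h6, sub_mul, add_mul, trace_sub, trace_add, (hPER ι X hX (PadicAlgCl ℓ) e heC).2,
      smul_mul_assoc, trace_smul, hm, smul_eq_mul]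
    have h8 : am (y / 4) * 4 = am y := by
      have h9 : (4 : PadicAlgCl ℓ) = am 4 := (map_ofNat am 4).symm
      rw [h9, ← map_mul]
      congr 1
      ring
    have h4ne : (4 : PadicAlgCl ℓ) ≠ 0 := by norm_num
    apply mul_left_cancel₀ h4ne
    push_cast at hfin
    linear_combination hfin - (m : PadicAlgCl ℓ) * h8
  rw [hC, sub_eq_zero] at hC0
  exact hC0

end Pool.Agent.NH56.HY
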