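import Pool.Agent.NH56.HY.MainA
import Pool.Agent.NH56.HY.Fun
import Pool.Agent.NH56.HY.Tan
import Pool.Agent.NH56.HU.Her
import Pool.Agent.NH56.HU.Lat
import Pool.Agent.NH56.HU.Pos
import Pool.Agent.NH56.HU.Unt
import Pool.Agent.NH56.HU.Idl
import Pool.Agent.NH56.HU.Flv
import Pool.Agent.NH56.HU.Bnd
import Pool.Agent.NH56.HU.Tmf
import Pool.Agent.NH56.HU.Tam
import Pool.Agent.NH56.HU.Cft

/-!
# Assembly of all parts
-/

set_option autoImplicit false

namespace Pool.Agent.NH56.HY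

/-- There are no everywhere unramified additive characters. -/
theorem cft : HU.S_CFT :=
  HU.t_CFT (HU.t_BND (HU.t_FLV (HU.t_LAT HU.t_HER) (HU.t_UNT HU.t_POS) HU.t_IDL))
    (HU.t_TAM HU.t_TMF)

theorem main : S_GEN := mainA t_FUN t_TAN

end Pool.Agent.NH56.HY
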