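import Pool.Agent.NH56.HY.Stm

/-!
# HY-NR1: l-adic numbers and matrices close to 1
-/

set_option autoImplicit false

namespace Pool.Agent.NH56.HY

open Matrix Polynomial Filter Topology NumberField IsDedekindDomain

namespace NR1

variable {ℓ : ℕ} [hl : Fact ℓ.Prime]

theorem norm_nat_ge (k : ℕ) (hk : 0 < k) : (1 : ℝ) / k ≤ ‖(k : PadicAlgCl ℓ)‖ := by
  have h1 : ‖(k : PadicAlgCl ℓ)‖ = ‖(k : ℚ_[ℓ])‖ := by
    rw [← PadicAlgCl.norm_extends]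
    simp
  have h0 : (k : ℚ_[ℓ]) ≠ 0 := by exact_mod_cast hk.ne'
  rw [h1, Padic.norm_eq_zpow_neg_valuation h0, Padic.valuation_natCast, _root_.zpow_neg,
    _root_.zpow_natCast, one_div]
  have hlp : (0 : ℝ) < ℓ := by exact_mod_cast hl.out.pos
  refine inv_anti₀ (pow_pos hlp _) ?_
  exact_mod_cast Nat.le_of_dvd hk pow_padicValNat_dvd

theorem small_lt : ((ℓ : ℝ) ^ 2)⁻¹ ≤ 1 / 4 := by
  have h2 : (2 : ℝ) ≤ ℓ := by exact_mod_cast hl.out.two_le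
  rw [one_div]
  refine inv_anti₀ (by norm_num) ?_
  nlinarith

theorem four_pow (j : ℕ) : 2 * (j + 1 + 1) ≤ 4 ^ (j + 1) := by
  induction j with
  | zero => norm_num
  | succ n ih => rw [pow_succ]; omega

theorem term_lt (y : PadicAlgCl ℓ) (hy : ‖y‖ ≤ ((ℓ : ℝ) ^ 2)⁻¹) (m j : ℕ) :
    ‖y ^ (j + 1) * (m.choose (j + 1) : PadicAlgCl ℓ) / ((j + 1 + 1 : ℕ) : PadicAlgCl ℓ)‖ ≤ 1 / 2 := by
  have h1 : ‖y‖ ≤ 1 / 4 := hy.trans small_lt
  have h2 : ‖(m.choose (j + 1) : PadicAlgCl ℓ)‖ ≤ 1 := IsUltrametricDist.norm_natCast_le_one _ _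
  have h3 := norm_nat_ge (ℓ := ℓ) (j + 1 + 1) (by omega)
  have hpos : (0 : ℝ) < 1 / ((j + 1 + 1 : ℕ) : ℝ) := by positivity
  rw [norm_div, norm_mul, norm_pow, div_le_iff₀ (lt_of_lt_of_le hpos h3)]
  have h4 : ‖y‖ ^ (j + 1) * ‖(m.choose (j + 1) : PadicAlgCl ℓ)‖ ≤ (1 / 4) ^ (j + 1) * 1 := by
    gcongr
  refine h4.trans ?_
  have h5 : (1 / 4 : ℝ) ^ (j + 1) * 1 ≤ 1 / 2 * (1 / ((j + 1 + 1 : ℕ) : ℝ)) := by
    have h7 : (2 * ((j + 1 + 1 : ℕ) : ℝ)) ≤ 4 ^ (j + 1) := by exact_mod_cast four_pow j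
    have h8 : (1 / 2 : ℝ) * (1 / ((j + 1 + 1 : ℕ) : ℝ)) = (2 * ((j + 1 + 1 : ℕ) : ℝ))⁻¹ := by
      rw [mul_inv]; ring
    rw [h8, one_div, inv_pow, mul_one]
    exact inv_anti₀ (by positivity) h7
  refine h5.trans ?_
  gcongr

theorem root_eq_one (x : PadicAlgCl ℓ) (hx : ‖x - 1‖ ≤ ((ℓ : ℝ) ^ 2)⁻¹) (n : ℕ) (hn : 0 < n)
    (h : x ^ n = 1) : x = 1 := by
  by_contra hne
  obtain ⟨m, rfl⟩ : ∃ m, n = m + 1 := ⟨n - 1, by omega⟩
  set y := x - 1 with hy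
  have hy0 : y ≠ 0 := sub_ne_zero.2 hne
  have hxy : x = y + 1 := by rw [hy]; ring
  have h1 : (y + 1) ^ (m + 1) - 1 = ((m + 1 : ℕ) : PadicAlgCl ℓ) * y *
      ∑ j ∈ Finset.range (m + 1), y ^ j * (m.choose j : PadicAlgCl ℓ) / ((j + 1 : ℕ) : PadicAlgCl ℓ) := by
    rw [add_pow, Finset.sum_range_succ', Finset.mul_sum]
    simp only [one_pow, mul_one, pow_zero, Nat.choose_zero_right, Nat.cast_one, add_sub_cancel_right]
    refine Finset.sum_congr rfl fun j _ => ?_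
    have h2 : ((m + 1 : ℕ) : PadicAlgCl ℓ) * (m.choose j : PadicAlgCl ℓ) =
        ((m + 1).choose (j + 1) : PadicAlgCl ℓ) * ((j + 1 : ℕ) : PadicAlgCl ℓ) := by
      exact_mod_cast Nat.add_one_mul_choose_eq m j
    have h3 : ((j + 1 : ℕ) : PadicAlgCl ℓ) ≠ 0 := by exact_mod_cast Nat.succ_ne_zero j
    rw [mul_div_assoc', eq_div_iff h3]
    calc y ^ (j + 1) * ((m + 1).choose (j + 1) : PadicAlgCl ℓ) * ((j + 1 : ℕ) : PadicAlgCl ℓ)
        = y ^ (j + 1) * (((m + 1).choose (j + 1) : PadicAlgCl ℓ) * ((j + 1 : ℕ) : PadicAlgCl ℓ)) := by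
          ring
      _ = y ^ (j + 1) * (((m + 1 : ℕ) : PadicAlgCl ℓ) * (m.choose j : PadicAlgCl ℓ)) := by rw [h2]
      _ = _ := by ring
  rw [← hxy, h, sub_self, Finset.sum_range_succ'] at h1
  have h2 : ((m + 1 : ℕ) : PadicAlgCl ℓ) * y ≠ 0 :=
    mul_ne_zero (by exact_mod_cast Nat.succ_ne_zero m) hy0
  have h3 := (mul_eq_zero.1 h1.symm).resolve_left h2
  have h4 : ‖∑ j ∈ Finset.range m, y ^ (j + 1) * (m.choose (j + 1) : PadicAlgCl ℓ) /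
      ((j + 1 + 1 : ℕ) : PadicAlgCl ℓ)‖ ≤ 1 / 2 :=
    IsUltrametricDist.norm_sum_le_of_forall_le_of_nonneg (by norm_num)
      fun j _ => term_lt y hx m j
  have h5 : ∑ j ∈ Finset.range m, y ^ (j + 1) * (m.choose (j + 1) : PadicAlgCl ℓ) /
      ((j + 1 + 1 : ℕ) : PadicAlgCl ℓ) = -1 := by
    have h6 : y ^ 0 * (m.choose 0 : PadicAlgCl ℓ) / ((0 + 1 : ℕ) : PadicAlgCl ℓ) = 1 := by simp
    rw [h6] at h3
    exact eq_neg_of_add_eq_zero_left h3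
  rw [h5, norm_neg, norm_one] at h4
  norm_num at h4

theorem norm_near (x : PadicAlgCl ℓ) (hx : ‖x - 1‖ ≤ ((ℓ : ℝ) ^ 2)⁻¹) : ‖x‖ = 1 := by
  have h1 : ‖x - 1‖ < 1 := (hx.trans small_lt).trans_lt (by norm_num)
  have h2 : ‖(x - 1) + 1‖ = max ‖x - 1‖ ‖(1 : PadicAlgCl ℓ)‖ := by
    refine IsUltrametricDist.norm_add_eq_max_of_norm_ne_norm ?_
    rw [norm_one]; exact h1.ne
  rw [sub_add_cancel, norm_one, max_eq_right h1.le] at h2
  exact h2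

theorem mul_near (x y : PadicAlgCl ℓ) (hx : ‖x - 1‖ ≤ ((ℓ : ℝ) ^ 2)⁻¹)
    (hy : ‖y - 1‖ ≤ ((ℓ : ℝ) ^ 2)⁻¹) : ‖x * y - 1‖ ≤ ((ℓ : ℝ) ^ 2)⁻¹ := by
  have h1 : x * y - 1 = x * (y - 1) + (x - 1) := by ring
  rw [h1]
  refine (IsUltrametricDist.norm_add_le_max _ _).trans (max_le ?_ hx)
  rw [norm_mul, norm_near x hx, one_mul]
  exact hy

theorem inv_near (x : PadicAlgCl ℓ) (hx : ‖x - 1‖ ≤ ((ℓ : ℝ) ^ 2)⁻¹) :
    ‖x⁻¹ - 1‖ ≤ ((ℓ : ℝ) ^ 2)⁻¹ := by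
  have h1 := norm_near x hx
  have h0 : x ≠ 0 := by
    intro h
    rw [h, norm_zero] at h1
    exact zero_ne_one h1
  have h2 : x⁻¹ - 1 = -(x⁻¹ * (x - 1)) := by field_simp; ring
  rw [h2, norm_neg, norm_mul, norm_inv, h1, inv_one, one_mul]
  exact hx

theorem exists_eig {n : Type} [Fintype n] [DecidableEq n] (M : Matrix n n (PadicAlgCl ℓ))
    (a : PadicAlgCl ℓ) (ha : M.charpoly.IsRoot a) : ∃ v, v ≠ 0 ∧ M *ᵥ v = a • v := by
  rw [Polynomial.IsRoot.def, Matrix.eval_charpoly] at ha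
  obtain ⟨v, hv, h⟩ := Matrix.exists_mulVec_eq_zero_iff.2 ha
  refine ⟨v, hv, ?_⟩
  rw [Matrix.sub_mulVec, sub_eq_zero] at h
  rw [← h, Matrix.scalar_apply, ← Matrix.smul_one_eq_diagonal, Matrix.smul_mulVec, Matrix.one_mulVec]

theorem eig_near {n : Type} [Fintype n] [DecidableEq n] (M : Matrix n n (PadicAlgCl ℓ))
    (hM : ∀ i j, ‖(M - 1) i j‖ ≤ ((ℓ : ℝ) ^ 2)⁻¹) (a : PadicAlgCl ℓ) (v : n → PadicAlgCl ℓ)
    (hv : v ≠ 0) (h : M *ᵥ v = a • v) : ‖a - 1‖ ≤ ((ℓ : ℝ) ^ 2)⁻¹ := by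
  obtain ⟨i0, hi0⟩ : ∃ i, v i ≠ 0 := by
    by_contra hc
    push Not at hc
    exact hv (funext hc)
  haveI : Nonempty n := ⟨i0⟩
  obtain ⟨i, -, hi⟩ := Finset.exists_max_image Finset.univ (fun i => ‖v i‖) Finset.univ_nonempty
  have hpos : 0 < ‖v i‖ := lt_of_lt_of_le (norm_pos_iff.2 hi0) (hi i0 (Finset.mem_univ _))
  have h1 : (a - 1) * v i = ∑ j, (M - 1) i j * v j := by
    have h2 : ((M - 1) *ᵥ v) i = (a - 1) * v i := by
      rw [Matrix.sub_mulVec, h, Matrix.one_mulVec]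
      simp only [Pi.sub_apply, Pi.smul_apply, smul_eq_mul]
      ring
    rw [← h2]
    rfl
  have h3 : ‖(a - 1) * v i‖ ≤ ((ℓ : ℝ) ^ 2)⁻¹ * ‖v i‖ := by
    rw [h1]
    refine IsUltrametricDist.norm_sum_le_of_forall_le_of_nonneg (by positivity) fun j _ => ?_
    rw [norm_mul]
    exact mul_le_mul (hM i j) (hi j (Finset.mem_univ _)) (norm_nonneg _) (by positivity)
  rw [norm_mul] at h3
  exact le_of_mul_le_mul_right h3 hpos

end NR1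

theorem t_NR1 : S_NR1 := by
  intro ℓ _
  refine ⟨fun x hx n hn h => NR1.root_eq_one x hx n hn h,
    fun x y hx hy => ⟨NR1.mul_near x y hx hy, NR1.inv_near x hx⟩, ?_⟩
  intro n _ _ M hM
  have hroot : ∀ a, M.charpoly.IsRoot a → ‖a - 1‖ ≤ ((ℓ : ℝ) ^ 2)⁻¹ := by
    intro a ha
    obtain ⟨v, hv, h⟩ := NR1.exists_eig M a ha
    exact NR1.eig_near M hM a v hv h
  refine ⟨hroot, ?_⟩
  intro e he heM
  set R := M * e + (1 - e) with hR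
  have hRroot : ∀ a, R.charpoly.IsRoot a → ‖a - 1‖ ≤ ((ℓ : ℝ) ^ 2)⁻¹ := by
    intro a ha
    obtain ⟨v, hv, h⟩ := NR1.exists_eig R a ha
    have h1 : e * R = M * e := by
      rw [hR, mul_add, mul_sub, mul_one, he, sub_self, add_zero, ← mul_assoc, heM, mul_assoc, he]
    by_cases hev : e *ᵥ v = 0
    · have h2 : R *ᵥ v = v := by
        rw [hR, Matrix.add_mulVec, Matrix.sub_mulVec, ← Matrix.mulVec_mulVec, hev,
          Matrix.mulVec_zero, Matrix.one_mulVec, sub_zero, zero_add]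
      rw [h2] at h
      have h3 : (a - 1) • v = 0 := by rw [sub_smul, ← h, one_smul, sub_self]
      have h4 := (smul_eq_zero.1 h3).resolve_right hv
      rw [h4, norm_zero]
      positivity
    · refine NR1.eig_near M hM a (e *ᵥ v) hev ?_
      rw [Matrix.mulVec_mulVec, ← h1, ← Matrix.mulVec_mulVec, h, Matrix.mulVec_smul]
  rw [Matrix.det_eq_prod_roots_charpoly]
  have hprod : ∀ s : Multiset (PadicAlgCl ℓ), (∀ a ∈ s, ‖a - 1‖ ≤ ((ℓ : ℝ) ^ 2)⁻¹) →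
      ‖s.prod - 1‖ ≤ ((ℓ : ℝ) ^ 2)⁻¹ := by
    intro s
    induction s using Multiset.induction_on with
    | empty =>
      intro _
      rw [Multiset.prod_zero, sub_self, norm_zero]
      positivity
    | cons a s ih =>
      intro h
      rw [Multiset.prod_cons]
      exact NR1.mul_near _ _ (h a (Multiset.mem_cons_self a s))
        (ih fun b hb => h b (Multiset.mem_cons_of_mem hb))
  refine hprod _ fun a ha => hRroot a ?_
  exact (Polynomial.mem_roots'.1 ha).2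

end Pool.Agent.NH56.HY
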