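import Pool.Agent.NH56.HY.Stm

/-!
# The Lie algebra `so(q)` is perfect, so traces against the commutant vanish
-/

set_option autoImplicit false
set_option linter.unusedSectionVars false

namespace Pool.Agent.NH56.HY

open Matrix

namespace PerP

section mat

variable {κ : Type} [Fintype κ] [DecidableEq κ]

/-- the skew matrix attached to two vectors -/
def wd (q : Matrix κ κ ℚ) (u v : κ → ℚ) : Matrix κ κ ℚ :=
  vecMulVec v (q *ᵥ u) - vecMulVec u (q *ᵥ v)

variable {q : Matrix κ κ ℚ} (hq : qᵀ = q)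

include hq in
theorem vm (u : κ → ℚ) : u ᵥ* q = q *ᵥ u := by
  conv_lhs => rw [← hq]
  exact Matrix.vecMul_transpose q u

theorem q_wd (u v : κ → ℚ) : q * wd q u v = vecMulVec (q *ᵥ v) (q *ᵥ u) -
    vecMulVec (q *ᵥ u) (q *ᵥ v) := by
  rw [wd, mul_sub, mul_vecMulVec, mul_vecMulVec]

include hq in
theorem wd_skew (u v : κ → ℚ) : (wd q u v)ᵀ * q + q * wd q u v = 0 := by
  rw [q_wd, wd, transpose_sub, transpose_vecMulVec, transpose_vecMulVec, sub_mul, vecMulVec_mul,
    vecMulVec_mul, vm hq, vm hq]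
  abel

include hq in
theorem dp_comm (u v : κ → ℚ) : (q *ᵥ u) ⬝ᵥ v = (q *ᵥ v) ⬝ᵥ u := by
  rw [dotProduct_comm, dotProduct_mulVec, vm hq]

include hq in
theorem wd_bracket {u v w : κ → ℚ} (hu : (q *ᵥ w) ⬝ᵥ u = 0) (hv : (q *ᵥ w) ⬝ᵥ v = 0) :
    wd q u w * wd q w v - wd q w v * wd q u w = (-((q *ᵥ w) ⬝ᵥ w)) • wd q u v := by
  have hu' : (q *ᵥ u) ⬝ᵥ w = 0 := by rw [dp_comm hq, hu]
  have hv' : (q *ᵥ v) ⬝ᵥ w = 0 := by rw [dp_comm hq, hv]
  unfold wd
  simp only [sub_mul, mul_sub, vecMulVec_mul_vecMulVec, hu, hv, hu', hv', vecMulVec_smul, zero_smul,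
    vecMulVec_zero]
  rw [dp_comm hq v u]
  module

theorem sg (c : ℚ) (i j : κ) : c • vecMulVec (Pi.single i (1 : ℚ)) (Pi.single j (1 : ℚ)) =
    Matrix.single i j c := by
  rw [← single_eq_single_vecMulVec_single, Matrix.smul_single, smul_eq_mul, mul_one]

theorem skew_eq (hq : qᵀ = q) (hd : IsUnit q.det) {x : Matrix κ κ ℚ} (hx : xᵀ * q + q * x = 0) :
    x = (2 : ℚ)⁻¹ • ∑ i, ∑ j, (q * x) i j •
      wd q (q⁻¹ *ᵥ Pi.single j 1) (q⁻¹ *ᵥ Pi.single i 1) := by
  have h1 : ∀ i : κ, q *ᵥ (q⁻¹ *ᵥ Pi.single i 1) = Pi.single i 1 := by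
    intro i
    rw [mulVec_mulVec, mul_nonsing_inv _ hd, one_mulVec]
  have h2 : q * ((2 : ℚ)⁻¹ • ∑ i, ∑ j, (q * x) i j •
      wd q (q⁻¹ *ᵥ Pi.single j 1) (q⁻¹ *ᵥ Pi.single i 1)) = q * x := by
    rw [mul_smul_comm, Finset.mul_sum]
    have h3 : ∀ i ∈ (Finset.univ : Finset κ), q * (∑ j, (q * x) i j •
        wd q (q⁻¹ *ᵥ Pi.single j 1) (q⁻¹ *ᵥ Pi.single i 1)) =
        ∑ j, (Matrix.single i j ((q * x) i j) - Matrix.single j i ((q * x) i j)) := by
      intro i _
      rw [Finset.mul_sum]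
      refine Finset.sum_congr rfl fun j _ => ?_
      rw [mul_smul_comm, q_wd, h1, h1, smul_sub]
      congr 1
      · exact sg _ _ _
      · exact sg _ _ _
    rw [Finset.sum_congr rfl h3]
    have h4 : ∑ i, ∑ j, (Matrix.single i j ((q * x) i j) - Matrix.single j i ((q * x) i j)) =
        q * x - (q * x)ᵀ := by
      have e1 : q * x = ∑ i, ∑ j, Matrix.single i j ((q * x) i j) := matrix_eq_sum_single _
      have e2 : (q * x)ᵀ = ∑ i, ∑ j, Matrix.single j i ((q * x) i j) := by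
        rw [Finset.sum_comm]
        exact matrix_eq_sum_single _
      simp only [Finset.sum_sub_distrib]
      exact congrArg₂ (fun a b => a - b) e1.symm e2.symm
    rw [h4, transpose_mul, hq]
    have h5 : xᵀ * q = -(q * x) := eq_neg_of_add_eq_zero_left hx
    rw [h5, sub_neg_eq_add, ← two_smul ℚ (q * x), smul_smul, inv_mul_cancel₀ (two_ne_zero), one_smul]
  have h6 := congrArg (fun y => q⁻¹ * y) h2
  simp only [← mul_assoc, nonsing_inv_mul _ hd, one_mul] at h6
  exact h6.symm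

/-- a linear functional which vanishes at all brackets of skew matrices vanishes at all skew
matrices -/
theorem perfect (hq : qᵀ = q) (hd : q.det ≠ 0) (hκ : 3 ≤ Fintype.card κ) {F : Type} [AddCommGroup F]
    [Module ℚ F] (φ : Matrix κ κ ℚ →ₗ[ℚ] F)
    (hφ : ∀ y z, yᵀ * q + q * y = 0 → zᵀ * q + q * z = 0 → φ (y * z - z * y) = 0)
    {x : Matrix κ κ ℚ} (hx : xᵀ * q + q * x = 0) : φ x = 0 := by
  have hsymm : (Matrix.toBilin' q).IsSymm := by
    rw [Matrix.isSymm_toBilin'_iff_isSymm]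
    exact hq
  have hnd : (Matrix.toBilin' q).Nondegenerate :=
    LinearMap.BilinForm.nondegenerate_toBilin'_iff_det_ne_zero.2 hd
  obtain ⟨e, he⟩ := LinearMap.BilinForm.exists_orthogonal_basis
    (LinearMap.BilinForm.isSymm_iff.1 hsymm)
  have he2 : ∀ i, (q *ᵥ e i) ⬝ᵥ e i ≠ 0 := by
    intro i
    have h1 := LinearMap.BilinForm.iIsOrtho.not_isOrtho_basis_self_of_nondegenerate he hnd i
    rw [Matrix.toBilin'_apply', dotProduct_comm] at h1
    exact h1
  have he1 : ∀ i j, i ≠ j → (q *ᵥ e i) ⬝ᵥ e j = 0 := by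
    intro i j hij
    have h1 := he hij.symm
    have h2 : Matrix.toBilin' q (e j) (e i) = 0 := h1
    rw [Matrix.toBilin'_apply', dotProduct_comm] at h2
    exact h2
  have hcard : 3 ≤ Fintype.card (Fin (Module.finrank ℚ (κ → ℚ))) := by
    rw [Fintype.card_fin, Module.finrank_fintype_fun_eq_card]
    exact hκ
  have hb : ∀ i j, φ (wd q (e i) (e j)) = 0 := by
    intro i j
    obtain ⟨k, hk⟩ : ∃ k, k ∉ ({i, j} : Finset (Fin (Module.finrank ℚ (κ → ℚ)))) := by
      by_contra hcon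
      push Not at hcon
      have h1 : (Finset.univ : Finset (Fin (Module.finrank ℚ (κ → ℚ)))) ⊆ {i, j} := fun k _ => hcon k
      have h2 := Finset.card_le_card h1
      have h3 : ({i, j} : Finset (Fin (Module.finrank ℚ (κ → ℚ)))).card ≤ 2 := Finset.card_le_two
      rw [Finset.card_univ] at h2
      omega
    rw [Finset.mem_insert, Finset.mem_singleton, not_or] at hk
    have h1 := hφ (wd q (e i) (e k)) (wd q (e k) (e j)) (wd_skew hq _ _) (wd_skew hq _ _)
    rw [wd_bracket hq (he1 k i hk.1) (he1 k j hk.2), map_smul] at h1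
    exact (smul_eq_zero.1 h1).resolve_left (neg_ne_zero.2 (he2 k))
  -- bilinearity
  have hadd1 : ∀ a b v, wd q (a + b) v = wd q a v + wd q b v := by
    intro a b v
    unfold wd
    rw [mulVec_add, vecMulVec_add, add_vecMulVec]
    abel
  have hadd2 : ∀ u a b, wd q u (a + b) = wd q u a + wd q u b := by
    intro a b v
    unfold wd
    rw [mulVec_add, vecMulVec_add, add_vecMulVec]
    abel
  have hsmul1 : ∀ (c : ℚ) u v, wd q (c • u) v = c • wd q u v := by
    intro c u v
    unfold wd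
    rw [mulVec_smul, vecMulVec_smul, smul_vecMulVec, smul_sub]
  have hsmul2 : ∀ (c : ℚ) u v, wd q u (c • v) = c • wd q u v := by
    intro c u v
    unfold wd
    rw [mulVec_smul, vecMulVec_smul, smul_vecMulVec, smul_sub]
  let β : (κ → ℚ) →ₗ[ℚ] (κ → ℚ) →ₗ[ℚ] F := LinearMap.mk₂ ℚ (fun u v => φ (wd q u v))
    (fun a b v => by rw [hadd1, map_add]) (fun c u v => by rw [hsmul1, map_smul])
    (fun u a b => by rw [hadd2, map_add]) (fun c u v => by rw [hsmul2, map_smul])
  have hβ : β = 0 := by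
    refine e.ext fun i => e.ext fun j => ?_
    exact hb i j
  have hall : ∀ u v, φ (wd q u v) = 0 := by
    intro u v
    have h1 : β u v = 0 := by rw [hβ]; rfl
    exact h1
  rw [skew_eq hq (isUnit_iff_ne_zero.2 hd) hx, map_smul, map_sum]
  rw [Finset.sum_eq_zero, smul_zero]
  intro i _
  rw [map_sum]
  refine Finset.sum_eq_zero fun j _ => ?_
  rw [map_smul, hall, smul_zero]

end mat

end PerP

theorem PerP.map_rat {m n : Type} (f : ℚ →+* ℚ) (z : Matrix m n ℚ) : z.map f = z := by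
  rw [Subsingleton.elim f (RingHom.id ℚ)]
  rfl

open PerP in
theorem t_PER : S_BAS → S_PER := by
  intro hBAS ι _ _ X hX F _ _ B hB
  have h1 : ∀ x, X.δF F x * B = B * X.δF F x := by
    intro x
    unfold Coh.δF
    simp only [Finset.sum_mul, Finset.mul_sum, smul_mul_assoc, mul_smul_comm, hB.1]
  refine ⟨h1, fun x => ?_⟩
  let φ : Matrix {a // X.deg a = 2} {a // X.deg a = 2} ℚ →ₗ[ℚ] F :=
    { toFun := fun y => ((X.δ y).map (algebraMap ℚ F) * B).trace
      map_add' := fun y z => by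
        have e : (X.δ y + X.δ z).map (algebraMap ℚ F) = (X.δ y).map (algebraMap ℚ F) +
            (X.δ z).map (algebraMap ℚ F) := Matrix.map_add _ (map_add _) _ _
        rw [map_add, e, add_mul, Matrix.trace_add]
      map_smul' := fun c y => by
        have e : (c • X.δ y).map (algebraMap ℚ F) = c • (X.δ y).map (algebraMap ℚ F) := by
          ext i j
          rw [Matrix.map_apply, Matrix.smul_apply, Matrix.smul_apply, Matrix.map_apply, smul_eq_mul,
            map_mul, Algebra.smul_def]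
        rw [map_smul, e, smul_mul_assoc, Matrix.trace_smul, RingHom.id_apply] }
  have hφ : ∀ y, φ y = ((X.δ y).map (algebraMap ℚ F) * B).trace := fun _ => rfl
  have hskew : ∀ y : Matrix {a // X.deg a = 2} {a // X.deg a = 2} ℚ, yᵀ * X.q + X.q * y = 0 →
      φ y = 0 := by
    intro y hy
    refine perfect hX.symm hX.nondeg hX.betti φ (fun y z hy hz => ?_) hy
    rw [hφ, hX.bracket y z hy hz]
    have e : (X.δ y * X.δ z - X.δ z * X.δ y).map (algebraMap ℚ F) =
        (X.δ y).map (algebraMap ℚ F) * (X.δ z).map (algebraMap ℚ F) -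
        (X.δ z).map (algebraMap ℚ F) * (X.δ y).map (algebraMap ℚ F) := by
      rw [Matrix.map_sub _ (map_sub _), Matrix.map_mul, Matrix.map_mul]
    rw [e, sub_mul, Matrix.trace_sub, Matrix.mul_assoc, Matrix.mul_assoc,
      Matrix.trace_mul_comm ((X.δ z).map (algebraMap ℚ F)), Matrix.mul_assoc, hB.1, sub_self]
  have hall : ∀ y, φ y = 0 := by
    intro y
    obtain ⟨-, -, h3, -, h5, -, -, -, -⟩ := hBAS ι X hX ℚ
    have hid : ∀ z : Matrix {a // X.deg a = 2} {a // X.deg a = 2} ℚ, X.δF ℚ z = X.δ z := by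
      intro z
      have h6 := h3 z
      rw [map_rat, map_rat] at h6
      exact h6
    obtain ⟨z, hz, hzy⟩ := h5 y
    rw [hid, hid] at hzy
    have h7 : φ z = 0 := by
      apply hskew
      have e3 : X.qF ℚ = X.q := map_rat _ _
      unfold Coh.IsSkew at hz
      rw [e3] at hz
      exact hz
    rw [hφ, ← hzy, ← hφ, h7]
  unfold Coh.δF
  rw [Finset.sum_mul, Matrix.trace_sum]
  refine Finset.sum_eq_zero fun a _ => ?_
  rw [Finset.sum_mul, Matrix.trace_sum]
  refine Finset.sum_eq_zero fun b _ => ?_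
  rw [smul_mul_assoc, Matrix.trace_smul, ← hφ, hall, smul_zero]

end Pool.Agent.NH56.HY
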