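import Pool.Agent.NH56.HY.Stm

/-! Consequences for the Frobenius elements close to `1` (`S_UNI`). -/

set_option autoImplicit false
set_option linter.unusedSectionVars false

open Filter Topology
open scoped Matrix.Norms.Elementwise

namespace Pool.Agent.NH56.HY

open Matrix Polynomial NumberField IsDedekindDomain

namespace UniP

section norm

variable {k : Type} [NormedField k] [IsUltrametricDist k] {n : Type} [Fintype n] [DecidableEq n]

lemma nadd (M N : Matrix n n k) : ‖M + N‖ ≤ max ‖M‖ ‖N‖ := by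
  rw [Matrix.norm_le_iff (le_max_of_le_left (norm_nonneg _))]
  intro i j
  rw [Matrix.add_apply]
  exact (IsUltrametricDist.norm_add_le_max _ _).trans
    (max_le_max (Matrix.norm_entry_le_entrywise_sup_norm M)
      (Matrix.norm_entry_le_entrywise_sup_norm N))

lemma nsub (M N : Matrix n n k) : ‖M - N‖ ≤ max ‖M‖ ‖N‖ := by
  rw [sub_eq_add_neg, ← norm_neg N]
  exact nadd M (-N)

lemma nmul (M N : Matrix n n k) : ‖M * N‖ ≤ ‖M‖ * ‖N‖ := by
  rw [Matrix.norm_le_iff (by positivity)]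
  intro i j
  rw [Matrix.mul_apply]
  refine IsUltrametricDist.norm_sum_le_of_forall_le_of_nonneg (by positivity) fun l _ => ?_
  rw [norm_mul]
  exact mul_le_mul (Matrix.norm_entry_le_entrywise_sup_norm M)
    (Matrix.norm_entry_le_entrywise_sup_norm N) (norm_nonneg _) (norm_nonneg _)

lemma nsmul' (c : k) (M : Matrix n n k) : ‖c • M‖ = ‖c‖ * ‖M‖ := norm_smul c M

/-- an eigenvalue of the conjugation by a matrix close to one is close to one -/
lemma close_of_eig {M B : Matrix n n k} {s : ℝ} (hs : s < 1) (hM : ‖M - 1‖ ≤ s) (hB : B ≠ 0)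
    (t : k) (h : M * B = t • (B * M)) : ‖t - 1‖ ≤ s := by
  have hB0 : 0 < ‖B‖ := norm_pos_iff.2 hB
  have h1 : (t - 1) • (B * M) = (M - 1) * B - B * (M - 1) := by
    rw [sub_smul, ← h, sub_mul, mul_sub, one_smul, one_mul, mul_one]
    abel
  have h2 : ‖t - 1‖ * ‖B * M‖ ≤ s * ‖B‖ := by
    rw [← nsmul', h1]
    refine (nsub _ _).trans (max_le ((nmul _ _).trans ?_) ((nmul _ _).trans ?_))
    · exact mul_le_mul_of_nonneg_right hM (norm_nonneg _)
    · rw [mul_comm]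
      exact mul_le_mul_of_nonneg_right hM (norm_nonneg _)
  have h3 : ‖B‖ ≤ ‖B * M‖ := by
    have h4 : B = B * M - B * (M - 1) := by
      rw [mul_sub, mul_one]
      abel
    have h5 : ‖B‖ ≤ max ‖B * M‖ (s * ‖B‖) := by
      conv_lhs => rw [h4]
      refine (nsub _ _).trans (max_le_max le_rfl ((nmul _ _).trans ?_))
      rw [mul_comm]
      exact mul_le_mul_of_nonneg_right hM (norm_nonneg _)
    rcases le_max_iff.1 h5 with h6 | h6
    · exact h6
    · nlinarith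
  have h7 : ‖t - 1‖ * ‖B‖ ≤ s * ‖B‖ :=
    (mul_le_mul_of_nonneg_left h3 (norm_nonneg _)).trans h2
  exact le_of_mul_le_mul_right h7 hB0

end norm

section nilp

variable {F V : Type} [Field F] [IsAlgClosed F] [AddCommGroup V] [Module F V]
  [FiniteDimensional F V]

lemma nilp (g : Module.End F V) (hg : ∀ (μ : F) (w : V), w ≠ 0 → g w = μ • w → μ = 0) {N : ℕ}
    (hN : Module.finrank F V ≤ N) : g ^ N = 0 := by
  have h1 : ∀ μ : F, μ ≠ 0 → g.maxGenEigenspace μ = ⊥ := by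
    intro μ hμ
    rw [eq_bot_iff]
    intro w hw
    rw [Submodule.mem_bot]
    by_contra hw0
    rw [Module.End.mem_maxGenEigenspace] at hw
    classical
    have h2 := Nat.find_spec hw
    have h3 : Nat.find hw ≠ 0 := by
      intro h0
      rw [h0, pow_zero] at h2
      exact hw0 h2
    obtain ⟨m, hm⟩ := Nat.exists_eq_succ_of_ne_zero h3
    have h4 : ((g - μ • (1 : Module.End F V)) ^ m) w ≠ 0 :=
      Nat.find_min hw (by rw [hm]; exact Nat.lt_succ_self m)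
    refine hμ (hg μ _ h4 ?_)
    rw [hm, Nat.succ_eq_add_one, pow_succ', Module.End.mul_apply, LinearMap.sub_apply,
      LinearMap.smul_apply, Module.End.one_apply, sub_eq_zero] at h2
    exact h2
  have h2 : g.maxGenEigenspace 0 = ⊤ := by
    rw [← Module.End.iSup_maxGenEigenspace_eq_top g]
    refine le_antisymm (le_iSup (fun μ => g.maxGenEigenspace μ) 0) (iSup_le fun μ => ?_)
    by_cases hμ : μ = 0
    · rw [hμ]
    · rw [h1 μ hμ]
      exact bot_le
  rw [Module.End.maxGenEigenspace_eq_genEigenspace_finrank] at h2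
  have h3 : g ^ (Module.finrank F V) = 0 := by
    ext w
    have h4 : w ∈ g.genEigenspace 0 (Module.finrank F V) := by rw [h2]; trivial
    rw [Module.End.mem_genEigenspace_nat] at h4
    rw [zero_smul, sub_zero] at h4
    exact h4
  exact pow_eq_zero_of_le hN h3

lemma nilp_on (g : Module.End F V) (E : Submodule F V) (hE : ∀ w ∈ E, g w ∈ E)
    (hg : ∀ (μ : F), ∀ w ∈ E, w ≠ 0 → g w = μ • w → μ = 0) {N : ℕ}
    (hN : Module.finrank F V ≤ N) : ∀ w ∈ E, (g ^ N) w = 0 := by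
  have h1 : (g.restrict hE) ^ N = 0 := by
    refine nilp _ ?_ ((Submodule.finrank_le E).trans hN)
    intro μ w hw h
    refine hg μ w w.2 (fun h0 => hw (Subtype.ext h0)) ?_
    have := congrArg Subtype.val h
    exact this
  intro w hw
  have h2 : ∀ m : ℕ, (((g.restrict hE) ^ m) ⟨w, hw⟩ : V) = (g ^ m) w := by
    intro m
    induction m with
    | zero => rfl
    | succ m ih =>
      rw [pow_succ', Module.End.mul_apply, pow_succ', Module.End.mul_apply, ← ih]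
      rfl
  rw [← h2 N, h1]
  rfl

end nilp

section com

variable {ι : Type} [Fintype ι] [DecidableEq ι] (X : Coh ι)

lemma graded_comm {F : Type} [Field F] [CharZero F] {M : Matrix ι ι F} (h : IsGraded X.deg M) :
    M * X.H F = X.H F * M := by
  ext a b
  unfold Coh.H
  rw [Matrix.mul_diagonal, Matrix.diagonal_mul]
  by_cases hab : X.deg a = X.deg b
  · rw [hab, mul_comm]
  · rw [h a b hab, zero_mul, mul_zero]

variable {ℓ : ℕ} [Fact ℓ.Prime]

lemma H_map : (X.H ℚ_[ℓ]).map (algebraMap ℚ_[ℓ] (PadicAlgCl ℓ)) = X.H (PadicAlgCl ℓ) := by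
  unfold Coh.H
  rw [Matrix.diagonal_map (map_zero _)]
  refine congrArg _ (funext fun a => ?_)
  exact map_natCast (algebraMap ℚ_[ℓ] (PadicAlgCl ℓ)) _

lemma map_map' {m : Type} (x : Matrix m m ℚ) :
    (x.map (algebraMap ℚ ℚ_[ℓ])).map (algebraMap ℚ_[ℓ] (PadicAlgCl ℓ)) =
      x.map (algebraMap ℚ (PadicAlgCl ℓ)) := by
  ext a b
  simp

lemma com_map {B : Matrix ι ι ℚ_[ℓ]} (hB : X.Com ℚ_[ℓ] B) :
    X.Com (PadicAlgCl ℓ) (B.map (algebraMap ℚ_[ℓ] (PadicAlgCl ℓ))) := by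
  refine ⟨fun x => ?_, ?_⟩
  · rw [← map_map' (ℓ := ℓ), ← Matrix.map_mul, hB.1 x, Matrix.map_mul]
  · rw [← H_map, ← Matrix.map_mul, hB.2, Matrix.map_mul]

lemma com_δF {B : Matrix ι ι (PadicAlgCl ℓ)} (hB : X.Com (PadicAlgCl ℓ) B)
    (y : Matrix {a // X.deg a = 2} {a // X.deg a = 2} ℚ_[ℓ]) :
    B * (X.δF ℚ_[ℓ] y).map (algebraMap ℚ_[ℓ] (PadicAlgCl ℓ)) =
      (X.δF ℚ_[ℓ] y).map (algebraMap ℚ_[ℓ] (PadicAlgCl ℓ)) * B := by
  have h1 : (X.δF ℚ_[ℓ] y).map (algebraMap ℚ_[ℓ] (PadicAlgCl ℓ)) =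
      ∑ a, ∑ b, algebraMap ℚ_[ℓ] (PadicAlgCl ℓ) (y a b) •
        (X.δ (Matrix.single a b 1)).map (algebraMap ℚ (PadicAlgCl ℓ)) := by
    unfold Coh.δF
    rw [← RingHom.mapMatrix_apply, map_sum]
    refine Finset.sum_congr rfl fun a _ => ?_
    rw [map_sum]
    refine Finset.sum_congr rfl fun b _ => ?_
    rw [RingHom.mapMatrix_apply, ← map_map' (ℓ := ℓ)]
    ext i j
    rw [Matrix.map_apply, Matrix.smul_apply, Matrix.smul_apply, smul_eq_mul, smul_eq_mul, map_mul]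
    rfl
  rw [h1, Finset.mul_sum, Finset.sum_mul]
  refine Finset.sum_congr rfl fun a _ => ?_
  rw [Finset.mul_sum, Finset.sum_mul]
  refine Finset.sum_congr rfl fun b _ => ?_
  rw [mul_smul_comm, smul_mul_assoc, hB.1]

end com

end UniP

open UniP

theorem t_UNI : S_BAS → S_NR1 → S_EIG → S_DET → S_UNI := by
  intro hBAS hNR1 hEIG hDET K _ _ ℓ _ ι _ _ X S χ Pol ρ hX hR p _ hpS v hv σ hσ hord hnear
  have hρ1 : ρ σ⁻¹ * ρ σ = 1 := by rw [← map_mul, inv_mul_cancel, map_one]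
  have hρ2 : ρ σ * ρ σ⁻¹ = 1 := by rw [← map_mul, mul_inv_cancel, map_one]
  obtain ⟨nr1, nr2, nr3⟩ := hNR1 ℓ
  have hl2 : (2 : ℝ) ≤ ℓ := by exact_mod_cast (Fact.out : ℓ.Prime).two_le
  have hs1 : ((ℓ : ℝ) ^ 2)⁻¹ < 1 := by
    apply inv_lt_one_of_one_lt₀
    nlinarith
  have hs0 : (0 : ℝ) ≤ ((ℓ : ℝ) ^ 2)⁻¹ := by positivity
  have hMent : ∀ i j, ‖((ρ σ⁻¹).map (algebraMap ℚ_[ℓ] (PadicAlgCl ℓ)) - 1) i j‖ ≤
      ((ℓ : ℝ) ^ 2)⁻¹ := by
    intro i j
    have h1 : ((ρ σ⁻¹).map (algebraMap ℚ_[ℓ] (PadicAlgCl ℓ)) - 1) i j =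
        algebraMap ℚ_[ℓ] (PadicAlgCl ℓ) ((ρ σ⁻¹ - 1) i j) := by
      rw [Matrix.sub_apply, Matrix.sub_apply, map_sub, Matrix.map_apply, Matrix.one_apply,
        Matrix.one_apply]
      split_ifs <;> simp
    rw [h1]
    have h2 := PadicAlgCl.norm_extends ℓ ((ρ σ⁻¹ - 1) i j)
    rw [show (algebraMap ℚ_[ℓ] (PadicAlgCl ℓ)) ((ρ σ⁻¹ - 1) i j) =
      (((ρ σ⁻¹ - 1) i j : ℚ_[ℓ]) : PadicAlgCl ℓ) from rfl, h2]
    exact hnear.1 i j
  constructor
  · intro B hB
    set M := (ρ σ⁻¹).map (algebraMap ℚ_[ℓ] (PadicAlgCl ℓ)) with hM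
    set M' := (ρ σ).map (algebraMap ℚ_[ℓ] (PadicAlgCl ℓ)) with hM'
    have hMM' : M * M' = 1 := by
      rw [hM, hM', ← Matrix.map_mul, hρ1, Matrix.map_one _ (map_zero _) (map_one _)]
    have hM'M : M' * M = 1 := by
      rw [hM, hM', ← Matrix.map_mul, hρ2, Matrix.map_one _ (map_zero _) (map_one _)]
    have hMn : ‖M - 1‖ ≤ ((ℓ : ℝ) ^ 2)⁻¹ := (Matrix.norm_le_iff hs0).2 hMent
    have hgr : ∀ g, IsGraded X.deg ((ρ g).map (algebraMap ℚ_[ℓ] (PadicAlgCl ℓ))) := by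
      intro g a b hab
      rw [Matrix.map_apply, hR.graded g a b hab, map_zero]
    have hMH := graded_comm X (hgr σ⁻¹)
    have hM'H := graded_comm X (hgr σ)
    rw [← hM] at hMH
    rw [← hM'] at hM'H
    obtain ⟨-, -, bas3, -, bas5, -, -, -, -⟩ := hBAS ι X hX ℚ_[ℓ]
    -- conjugates of the operators of the Lie algebra
    have hcomm : ∀ C : Matrix ι ι (PadicAlgCl ℓ), X.Com (PadicAlgCl ℓ) C → ∀ x,
        C * (M' * (X.δ x).map (algebraMap ℚ (PadicAlgCl ℓ)) * M) =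
          (M' * (X.δ x).map (algebraMap ℚ (PadicAlgCl ℓ)) * M) * C := by
      intro C hC x
      obtain ⟨y, hy, hy2⟩ := bas5 (x.map (algebraMap ℚ ℚ_[ℓ]))
      rw [bas3] at hy2
      have h1 := hR.equivariant σ y hy
      rw [hy2] at h1
      have h2 : M' * (X.δ x).map (algebraMap ℚ (PadicAlgCl ℓ)) * M =
          (X.δF ℚ_[ℓ] (blk X.deg 2 (ρ σ) * y * blk X.deg 2 (ρ σ⁻¹))).map
            (algebraMap ℚ_[ℓ] (PadicAlgCl ℓ)) := by
        have h3 := congrArg (fun Z => Z.map (algebraMap ℚ_[ℓ] (PadicAlgCl ℓ))) h1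
        simp only [Matrix.map_mul] at h3
        rw [map_map'] at h3
        exact h3
      rw [h2]
      exact com_δF X hC _
    have hstab : ∀ C : Matrix ι ι (PadicAlgCl ℓ), X.Com (PadicAlgCl ℓ) C →
        X.Com (PadicAlgCl ℓ) (M * C * M') := by
      intro C hC
      refine ⟨fun x => ?_, ?_⟩
      · set D := (X.δ x).map (algebraMap ℚ (PadicAlgCl ℓ)) with hD
        calc M * C * M' * D = M * C * M' * D * (M * M') := by rw [hMM', mul_one]
          _ = M * (C * (M' * D * M)) * M' := by noncomm_ring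
          _ = M * ((M' * D * M) * C) * M' := by rw [hcomm C hC x]
          _ = (M * M') * D * (M * C * M') := by noncomm_ring
          _ = D * (M * C * M') := by rw [hMM', one_mul]
      · calc M * C * M' * X.H (PadicAlgCl ℓ) = M * C * (M' * X.H (PadicAlgCl ℓ)) := by
              noncomm_ring
          _ = M * (C * X.H (PadicAlgCl ℓ)) * M' := by rw [hM'H]; noncomm_ring
          _ = (M * X.H (PadicAlgCl ℓ)) * C * M' := by rw [hC.2]; noncomm_ring
          _ = X.H (PadicAlgCl ℓ) * (M * C * M') := by rw [hMH]; noncomm_ring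
    let E : Submodule (PadicAlgCl ℓ) (Matrix ι ι (PadicAlgCl ℓ)) :=
      { carrier := {C | X.Com (PadicAlgCl ℓ) C}
        zero_mem' := ⟨fun x => by simp, by simp⟩
        add_mem' := fun {a b} ha hb => ⟨fun x => by rw [add_mul, mul_add, ha.1, hb.1],
          by rw [add_mul, mul_add, ha.2, hb.2]⟩
        smul_mem' := fun c a ha => ⟨fun x => by rw [smul_mul_assoc, mul_smul_comm, ha.1],
          by rw [smul_mul_assoc, mul_smul_comm, ha.2]⟩ }
    have hcj : ∀ C, (cj M M' - 1) C = M * C * M' - C := by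
      intro C
      rw [LinearMap.sub_apply, Module.End.one_apply, cj, LinearMap.comp_apply,
        LinearMap.mulLeft_apply, LinearMap.mulRight_apply, mul_assoc]
    have hfin : Module.finrank (PadicAlgCl ℓ) (Matrix ι ι (PadicAlgCl ℓ)) ≤
        Fintype.card ι ^ 2 := by
      rw [Module.finrank_matrix, Module.finrank_self, mul_one, pow_two]
    have hE := nilp_on (cj M M' - 1) E (fun C hC => by
      rw [hcj]
      exact E.sub_mem (hstab C hC) hC) (fun μ C hC hC0 h => by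
        rw [hcj, sub_eq_iff_eq_add] at h
        have h1 : M * C = (μ + 1) • (C * M) := by
          have h2 : M * C * M' * M = (μ • C + C) * M := congrArg (fun Z => Z * M) h
          rw [mul_assoc, hM'M, mul_one, add_mul, smul_mul_assoc] at h2
          rw [h2, add_smul, one_smul]
        obtain ⟨n, hn, hn1⟩ := hEIG K ℓ ι X S χ Pol ρ hX hR p hpS v hv σ hσ hord M hM (μ + 1) C
          hC hC0 h1
        have h2 := close_of_eig hs1 hMn hC0 (μ + 1) h1
        have h3 := nr1 (μ + 1) h2 n hn hn1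
        exact add_eq_right.1 h3) hfin
    have hmap : ∀ (m : ℕ) (C : Matrix ι ι ℚ_[ℓ]),
        (((cj (ρ σ⁻¹) (ρ σ) - 1) ^ m) C).map (algebraMap ℚ_[ℓ] (PadicAlgCl ℓ)) =
          ((cj M M' - 1) ^ m) (C.map (algebraMap ℚ_[ℓ] (PadicAlgCl ℓ))) := by
      intro m
      induction m with
      | zero => intro C; rfl
      | succ m ih =>
        intro C
        rw [pow_succ, Module.End.mul_apply, ih, pow_succ, Module.End.mul_apply, hcj]
        congr 1
        rw [LinearMap.sub_apply, Module.End.one_apply, cj, LinearMap.comp_apply,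
          LinearMap.mulLeft_apply, LinearMap.mulRight_apply, ← mul_assoc,
          Matrix.map_sub _ (map_sub _), Matrix.map_mul, Matrix.map_mul]
    have h1 := hE (B.map (algebraMap ℚ_[ℓ] (PadicAlgCl ℓ))) (com_map X hB)
    rw [← hmap] at h1
    ext i j
    have h2 := congrFun (congrFun h1 i) j
    rw [Matrix.map_apply, Matrix.zero_apply] at h2
    rw [Matrix.zero_apply]
    exact (map_eq_zero _).1 h2
  · intro M hM e m he hee heM htr
    obtain ⟨n, hn, hdet⟩ := hDET K ℓ ι X S χ Pol ρ hX hR p hpS v hv σ hσ hord M hM e m he hee heM htr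
    have hχ : algebraMap ℚ_[ℓ] (PadicAlgCl ℓ) (χ σ⁻¹) = (p : PadicAlgCl ℓ) := by
      rw [(hR.frobenius p hpS v hv σ hσ).1, map_natCast]
    have hp1 : ‖(p : PadicAlgCl ℓ) - 1‖ ≤ ((ℓ : ℝ) ^ 2)⁻¹ := by
      have h1 : (p : PadicAlgCl ℓ) - 1 = algebraMap ℚ_[ℓ] (PadicAlgCl ℓ) (χ σ⁻¹ - 1) := by
        rw [map_sub, hχ, map_one]
      rw [h1, show (algebraMap ℚ_[ℓ] (PadicAlgCl ℓ)) (χ σ⁻¹ - 1) =
        ((χ σ⁻¹ - 1 : ℚ_[ℓ]) : PadicAlgCl ℓ) from rfl, PadicAlgCl.norm_extends]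
      exact hnear.2
    have hpow : ∀ (x : PadicAlgCl ℓ), ‖x - 1‖ ≤ ((ℓ : ℝ) ^ 2)⁻¹ → ∀ m : ℕ,
        ‖x ^ m - 1‖ ≤ ((ℓ : ℝ) ^ 2)⁻¹ := by
      intro x hx m
      induction m with
      | zero => rw [pow_zero, sub_self, norm_zero]; exact hs0
      | succ m ih =>
        rw [pow_succ]
        exact (nr2 _ _ ih hx).1
    have hd1 : ‖(M * e + (1 - e)).det - 1‖ ≤ ((ℓ : ℝ) ^ 2)⁻¹ := by
      refine (nr3 ι M ?_).2 e hee heM
      rw [hM]
      exact hMent
    have hp0 : (p : PadicAlgCl ℓ) ^ m ≠ 0 :=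
      pow_ne_zero _ (Nat.cast_ne_zero.2 (Fact.out : p.Prime).ne_zero)
    have h1 : ‖(M * e + (1 - e)).det ^ 2 * ((p : PadicAlgCl ℓ) ^ m)⁻¹ - 1‖ ≤ ((ℓ : ℝ) ^ 2)⁻¹ :=
      (nr2 _ _ (hpow _ hd1 2) (nr2 _ _ (hpow _ hp1 m) (hpow _ hp1 m)).2).1
    have h2 := nr1 _ h1 n hn (by
      rw [mul_pow, hdet, inv_pow, mul_inv_cancel₀ (pow_ne_zero _ hp0)])
    rw [hχ]
    exact (mul_inv_eq_one₀ hp0).1 h2

end Pool.Agent.NH56.HY
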