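import Pool.Agent.NH56.HY.Adj
import Pool.Agent.NH56.HY.Maj
import Pool.Agent.NH56.HY.Bas
import Pool.Agent.NH56.HY.Per
import Pool.Agent.NH56.HY.Ndg
import Pool.Agent.NH56.HY.Rig
import Pool.Agent.NH56.HY.Val
import Pool.Agent.NH56.HY.Kro
import Pool.Agent.NH56.HY.Ari
import Pool.Agent.NH66.HY.Nwt
import Pool.Agent.NH56.HY.Nr1
import Pool.Agent.NH56.HY.Log
import Pool.Agent.NH56.HY.Trn
import Pool.Agent.NH56.HY.Phi
import Pool.Agent.NH56.HY.Eig
import Pool.Agent.NH56.HY.Det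
import Pool.Agent.NH56.HY.Dg1
import Pool.Agent.NH56.HY.Ord
import Pool.Agent.NH56.HY.Uni
import Pool.Agent.NH56.HY.Com
import Pool.Agent.NH56.HY.Mtd
import Pool.Agent.NH56.HY.Laa
import Pool.Agent.NH56.HY.Gen2

/-!
# Assembly, with the two parts FUN and TAN as hypotheses
-/

set_option autoImplicit false

namespace Pool.Agent.NH56.HY

theorem mainA (hFUN : S_FUN) (hTAN : S_FUN → S_BAS → S_PER → S_NDG → S_TAN) : S_GEN := by
  have hADJ := t_ADJ hFUN
  have hMAJ := t_MAJ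
  have hBAS := t_BAS
  have hPER := t_PER hBAS
  have hNDG := t_NDG
  have hRIG := t_RIG hFUN
  have hVAL := t_VAL hFUN hADJ hMAJ hBAS hPER hNDG hRIG
  have hKRO := t_KRO
  have hARI := t_ARI
  have hNWT := Pool.Agent.NH66.HY.Nwt.t_NWT hARI
  have hNR1 := t_NR1
  have hLOG := t_LOG
  have hTRN := t_TRN hBAS hARI
  have hPHI := t_PHI hFUN hADJ hBAS hPER hARI hNWT hTRN hVAL
  have hEIG := t_EIG hFUN hADJ hKRO hARI hTRN hPHI
  have hDET := t_DET hFUN hADJ hKRO hARI hTRN hPHI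
  have hDG1 := t_DG1
  have hORD := t_ORD hNR1 hDG1
  have hUNI := t_UNI hBAS hNR1 hEIG hDET
  have hCOM := t_COM hBAS hPER hLOG
  have hTAN' := hTAN hFUN hBAS hPER hNDG
  exact t_GEN hBAS hLOG (t_LAA hORD hUNI hCOM hTAN') t_MTD

end Pool.Agent.NH56.HY
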