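import Mathlib

/-!
Project HY (helper56), part TAN, second file: first order expansions. Written by helper28.
-/

set_option autoImplicit false

namespace Pool.Agent.NH56.HY

open Filter Topology

namespace Tan

variable {R : Type} [Field R] [TopologicalSpace R] [IsTopologicalRing R]

/-- `f k = z.fst + τ k * z.snd + o (τ k)` -/
def J (τ f : ℕ → R) (z : DualNumber R) : Prop :=
  Tendsto (fun k => (τ k)⁻¹ * (f k - z.fst)) atTop (𝓝 z.snd)

variable {τ : ℕ → R}

theorem J.lim (h0 : ∀ k, τ k ≠ 0) (h1 : Tendsto τ atTop (𝓝 0)) {f : ℕ → R} {z : DualNumber R}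
    (h : J τ f z) : Tendsto f atTop (𝓝 z.fst) := by
  have h2 := (h1.mul h).add_const z.fst
  rw [zero_mul, zero_add] at h2
  refine h2.congr fun k => ?_
  rw [← mul_assoc, mul_inv_cancel₀ (h0 k), one_mul, sub_add_cancel]

theorem J.const (c : R) : J τ (fun _ => c) (TrivSqZeroExt.inl c) := by
  unfold J
  rw [TrivSqZeroExt.fst_inl, TrivSqZeroExt.snd_inl]
  simp only [sub_self, mul_zero]
  exact tendsto_const_nhds

theorem J.add {f g : ℕ → R} {z w : DualNumber R} (hf : J τ f z) (hg : J τ g w) :
    J τ (fun k => f k + g k) (z + w) := by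
  unfold J
  rw [TrivSqZeroExt.fst_add, TrivSqZeroExt.snd_add]
  refine (Tendsto.add hf hg).congr fun k => ?_
  ring

theorem J.mul (h0 : ∀ k, τ k ≠ 0) (h1 : Tendsto τ atTop (𝓝 0)) {f g : ℕ → R} {z w : DualNumber R}
    (hf : J τ f z) (hg : J τ g w) : J τ (fun k => f k * g k) (z * w) := by
  unfold J
  rw [TrivSqZeroExt.fst_mul, DualNumber.snd_mul]
  have h2 := (hg.const_mul z.fst).add (Tendsto.mul hf (hg.lim h0 h1))
  refine h2.congr fun k => ?_
  ring

theorem J.sum {α : Type} (s : Finset α) {f : α → ℕ → R} {z : α → DualNumber R}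
    (h : ∀ a ∈ s, J τ (f a) (z a)) : J τ (fun k => ∑ a ∈ s, f a k) (∑ a ∈ s, z a) := by
  classical
  induction s using Finset.induction_on with
  | empty =>
    simp only [Finset.sum_empty]
    exact J.const 0
  | insert a s ha ih =>
    simp only [Finset.sum_insert ha]
    exact (h a (Finset.mem_insert_self _ _)).add (ih fun b hb => h b (Finset.mem_insert_of_mem hb))

theorem J.prod (h0 : ∀ k, τ k ≠ 0) (h1 : Tendsto τ atTop (𝓝 0)) {α : Type} (s : Finset α)
    {f : α → ℕ → R} {z : α → DualNumber R}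
    (h : ∀ a ∈ s, J τ (f a) (z a)) : J τ (fun k => ∏ a ∈ s, f a k) (∏ a ∈ s, z a) := by
  classical
  induction s using Finset.induction_on with
  | empty =>
    simp only [Finset.prod_empty]
    exact J.const 1
  | insert a s ha ih =>
    simp only [Finset.prod_insert ha]
    exact (h a (Finset.mem_insert_self _ _)).mul h0 h1
      (ih fun b hb => h b (Finset.mem_insert_of_mem hb))

theorem J.pow (h0 : ∀ k, τ k ≠ 0) (h1 : Tendsto τ atTop (𝓝 0)) {f : ℕ → R} {z : DualNumber R}
    (h : J τ f z) (n : ℕ) : J τ (fun k => f k ^ n) (z ^ n) := by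
  induction n with
  | zero =>
    simp only [pow_zero]
    exact J.const 1
  | succ n ih =>
    simp only [pow_succ]
    exact ih.mul h0 h1 h

theorem J.det (h0 : ∀ k, τ k ≠ 0) (h1 : Tendsto τ atTop (𝓝 0)) {n : Type} [Fintype n]
    [DecidableEq n] {A : ℕ → Matrix n n R} {B : Matrix n n (DualNumber R)}
    (h : ∀ i j, J τ (fun k => A k i j) (B i j)) : J τ (fun k => (A k).det) B.det := by
  simp only [Matrix.det_apply']
  apply J.sum
  intro σ _
  apply J.mul h0 h1
  · have h2 := J.const (τ := τ) (((Equiv.Perm.sign σ : ℤˣ) : ℤ) : R)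
    convert h2 using 1
    simp
  · exact J.prod h0 h1 _ fun i _ => h _ _

/-- the derivative of the determinant -/
theorem det_lim (h0 : ∀ k, τ k ≠ 0) (h1 : Tendsto τ atTop (𝓝 0)) {n : Type} [Fintype n]
    [DecidableEq n] {A : ℕ → Matrix n n R} {W : Matrix n n R}
    (h : ∀ i j, Tendsto (fun k => (τ k)⁻¹ * (A k i j - (1 : Matrix n n R) i j)) atTop
      (𝓝 (W i j))) : J τ (fun k => (A k).det)
    ((1 : DualNumber R) + W.trace • (DualNumber.eps : DualNumber R)) := by
  have h2 : (1 + (DualNumber.eps : DualNumber R) • (W.map fun x => (TrivSqZeroExt.inl x : DualNumber R)) :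
      Matrix n n (DualNumber R)).det =
      (1 : DualNumber R) + W.trace • (DualNumber.eps : DualNumber R) := by
    rw [Matrix.det_one_add_smul, sq, DualNumber.eps_mul_eps, mul_zero, add_zero]
    congr 1
    have h3 : (W.map fun x => (TrivSqZeroExt.inl x : DualNumber R)).trace =
        TrivSqZeroExt.inl W.trace := by
      unfold Matrix.trace
      simp only [Matrix.diag_apply, Matrix.map_apply]
      exact (map_sum (TrivSqZeroExt.inlHom R R) _ _).symm
    rw [h3]
    ext <;> simp
  rw [← h2]
  apply J.det h0 h1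
  intro i j
  have h4 := h i j
  unfold J
  have h5 : (1 + (DualNumber.eps : DualNumber R) • (W.map fun x => (TrivSqZeroExt.inl x : DualNumber R)) :
      Matrix n n (DualNumber R)) i j =
      (1 : Matrix n n (DualNumber R)) i j + (DualNumber.eps : DualNumber R) * TrivSqZeroExt.inl (W i j) := rfl
  rw [h5]
  have h6 : ((1 : Matrix n n (DualNumber R)) i j + (DualNumber.eps : DualNumber R) * TrivSqZeroExt.inl (W i j)).fst
      = (1 : Matrix n n R) i j := by
    rw [TrivSqZeroExt.fst_add, TrivSqZeroExt.fst_mul, DualNumber.fst_eps, zero_mul, add_zero,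
      Matrix.one_apply, Matrix.one_apply]
    split_ifs <;> simp
  have h7 : ((1 : Matrix n n (DualNumber R)) i j + (DualNumber.eps : DualNumber R) * TrivSqZeroExt.inl (W i j)).snd
      = W i j := by
    rw [TrivSqZeroExt.snd_add, DualNumber.snd_mul, DualNumber.fst_eps, DualNumber.snd_eps,
      Matrix.one_apply]
    split_ifs <;> simp
  rw [h6, h7]
  exact h4

end Tan

end Pool.Agent.NH56.HY
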