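import Pool.Agent.NH56.HY.TanA
import Pool.Agent.NH56.HY.TanB
import Pool.Agent.NH56.HY.Cnv
import Pool.Agent.NH56.HY.Bas

/-!
Project HY (helper56), part TAN, third file: derivatives of the relations. Written by helper28.
-/

set_option autoImplicit false

namespace Pool.Agent.NH56.HY

open Matrix Polynomial Filter Topology NumberField IsDedekindDomain

namespace Tan

open Cnv (blk_mul blk_one blk_smul_sub blk_cont)

variable {ℓ : ℕ} [hℓ : Fact ℓ.Prime]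

theorem l_ne (k : ℕ) : (ℓ : ℚ_[ℓ]) ^ k ≠ 0 :=
  pow_ne_zero _ (Nat.cast_ne_zero.2 hℓ.out.ne_zero)

theorem l_lim : Tendsto (fun k : ℕ => (ℓ : ℚ_[ℓ]) ^ k) atTop (𝓝 0) :=
  tendsto_pow_atTop_nhds_zero_of_norm_lt_one Padic.norm_p_lt_one

/-- `M k = 1 + ℓ ^ k Z + o (ℓ ^ k)` -/
def D {n : Type} [Fintype n] [DecidableEq n] (M : ℕ → Matrix n n ℚ_[ℓ])
    (Z : Matrix n n ℚ_[ℓ]) : Prop :=
  Tendsto (fun k : ℕ => ((ℓ : ℚ_[ℓ]) ^ k)⁻¹ • (M k - 1)) atTop (𝓝 Z)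

variable {n : Type} [Fintype n] [DecidableEq n]

theorem D.lim {M : ℕ → Matrix n n ℚ_[ℓ]} {Z : Matrix n n ℚ_[ℓ]} (h : D M Z) :
    Tendsto M atTop (𝓝 1) := by
  have h1 := (l_lim (ℓ := ℓ)).smul h
  rw [zero_smul] at h1
  have h2 := h1.add_const (1 : Matrix n n ℚ_[ℓ])
  rw [zero_add] at h2
  refine h2.congr fun k => ?_
  rw [smul_smul, mul_inv_cancel₀ (l_ne k), one_smul, sub_add_cancel]

theorem D.inv {M M' : ℕ → Matrix n n ℚ_[ℓ]} {Z : Matrix n n ℚ_[ℓ]} (h : D M Z)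
    (hM : ∀ k, M k * M' k = 1) : Tendsto M' atTop (𝓝 1) ∧ D M' (-Z) := by
  have h1 : Tendsto M' atTop (𝓝 1) := by
    have h2 : ∀ k, M' k = ((M k).det)⁻¹ • (M k).adjugate := by
      intro k
      have h3 : (M k)⁻¹ = M' k := Matrix.inv_eq_right_inv (hM k)
      rw [← h3, Matrix.inv_def, Ring.inverse_eq_inv']
    have h4 : Tendsto (fun k => ((M k).det)⁻¹ • (M k).adjugate) atTop
        (𝓝 (((1 : Matrix n n ℚ_[ℓ]).det)⁻¹ • (1 : Matrix n n ℚ_[ℓ]).adjugate)) := by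
      apply Tendsto.smul
      · apply Tendsto.inv₀
        · exact ((Continuous.matrix_det continuous_id).tendsto _).comp h.lim
        · rw [det_one]; exact one_ne_zero
      · exact ((Continuous.matrix_adjugate continuous_id).tendsto _).comp h.lim
    rw [det_one, inv_one, one_smul, adjugate_one] at h4
    exact h4.congr fun k => (h2 k).symm
  refine ⟨h1, ?_⟩
  have h2 : Tendsto (fun k => (((ℓ : ℚ_[ℓ]) ^ k)⁻¹ • (M k - 1)) * M' k) atTop (𝓝 (Z * 1)) :=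
    Tendsto.mul h h1
  rw [mul_one] at h2
  refine h2.neg.congr fun k => ?_
  rw [smul_mul_assoc, sub_mul, hM k, one_mul, ← smul_neg, neg_sub]

variable {ι : Type} [Fintype ι] [DecidableEq ι]

theorem D.blk {deg : ι → ℕ} (j : ℕ) {M : ℕ → Matrix ι ι ℚ_[ℓ]} {Z : Matrix ι ι ℚ_[ℓ]} (h : D M Z) :
    D (fun k => HY.blk deg j (M k)) (HY.blk deg j Z) := by
  have h1 := ((blk_cont (F := ℚ_[ℓ]) deg j).tendsto Z).comp h
  refine h1.congr fun k => ?_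
  exact blk_smul_sub deg j _ _

theorem dF_cont (X : Coh ι) :
    Continuous fun x : Matrix {a // X.deg a = 2} {a // X.deg a = 2} ℚ_[ℓ] => X.δF ℚ_[ℓ] x := by
  unfold Coh.δF
  refine continuous_finsetSum _ fun a _ => continuous_finsetSum _ fun b _ => ?_
  exact (continuous_id.matrix_elem a b).smul continuous_const

/-- the first order expansions of the similitude equation and of the equivariance -/
theorem ana (hBAS : S_BAS) {K : Type} [Field K] [NumberField K] (X : Coh ι)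
    (S : Finset ℕ) (χ : GK K →* ℚ_[ℓ]) (Pol : HeightOneSpectrum (𝓞 K) → ℕ → ℤ[X])
    (ρ : GK K →* Matrix ι ι ℚ_[ℓ]) (hX : IsHyperKahler X) (hR : IsRealization X S χ Pol ρ)
    (s : ℕ → GK K) (Z : Matrix ι ι ℚ_[ℓ]) (hZ : D (fun k => ρ (s k)) Z) :
    ∃ y : ℚ_[ℓ], Tendsto (fun k => ((ℓ : ℚ_[ℓ]) ^ k)⁻¹ * (χ (s k) ^ 2 - 1)) atTop (𝓝 y) ∧
      (HY.blk X.deg 2 Z)ᵀ * X.qF ℚ_[ℓ] + X.qF ℚ_[ℓ] * HY.blk X.deg 2 Z = y • X.qF ℚ_[ℓ] ∧
      (HY.blk X.deg 2 Z).trace * 2 = y * Fintype.card {a // X.deg a = 2} ∧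
      ∀ x, X.IsSkew ℚ_[ℓ] x → Z * X.δF ℚ_[ℓ] x - X.δF ℚ_[ℓ] x * Z =
        X.δF ℚ_[ℓ] (HY.blk X.deg 2 Z * x - x * HY.blk X.deg 2 Z) := by
  obtain ⟨b1, b2, -, -, -, -, -, -, -⟩ := hBAS ι X hX ℚ_[ℓ]
  set q := X.qF ℚ_[ℓ] with hq
  set Y := HY.blk X.deg 2 Z with hY
  have hqd : IsUnit q.det := BasP.qF_det hX
  have hA : D (fun k => HY.blk X.deg 2 (ρ (s k))) Y := hZ.blk 2
  -- the similitude equation
  have h1 : Tendsto (fun k : ℕ => ((((ℓ : ℚ_[ℓ]) ^ k)⁻¹ • (HY.blk X.deg 2 (ρ (s k)) - 1))ᵀ * q *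
      HY.blk X.deg 2 (ρ (s k)) + q * (((ℓ : ℚ_[ℓ]) ^ k)⁻¹ • (HY.blk X.deg 2 (ρ (s k)) - 1))))
      atTop (𝓝 (Yᵀ * q * 1 + q * Y)) := by
    apply Tendsto.add
    · apply Tendsto.mul _ hA.lim
      apply Tendsto.mul _ tendsto_const_nhds
      exact ((Continuous.matrix_transpose continuous_id).tendsto _).comp hA
    · exact Tendsto.mul tendsto_const_nhds hA
  rw [mul_one] at h1
  have h2 : Tendsto (fun k : ℕ => (((ℓ : ℚ_[ℓ]) ^ k)⁻¹ * (χ (s k) ^ 2 - 1)) • q) atTop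
      (𝓝 (Yᵀ * q + q * Y)) := by
    refine h1.congr fun k => ?_
    have h3 := hR.similitude (s k)
    rw [← hq] at h3
    set A := HY.blk X.deg 2 (ρ (s k)) with hAdef
    set c := ((ℓ : ℚ_[ℓ]) ^ k)⁻¹ with hc
    have h4 : (A - 1)ᵀ * q * A + q * (A - 1) = Aᵀ * q * A - q := by
      rw [transpose_sub, transpose_one, sub_mul, sub_mul, one_mul, mul_sub, mul_one]
      abel
    have h5 : (c • (A - 1))ᵀ * q * A + q * (c • (A - 1)) = c • ((A - 1)ᵀ * q * A + q * (A - 1)) := by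
      rw [transpose_smul, smul_mul_assoc, smul_mul_assoc, mul_smul_comm, smul_add]
    rw [h5, h4, h3, mul_smul, sub_smul, one_smul]
  have hne : ∃ a b, q a b ≠ 0 := by
    by_contra hcon
    push Not at hcon
    have hq0 : q = 0 := by
      ext a b
      exact hcon a b
    have hcard : 0 < Fintype.card {a // X.deg a = 2} := by
      have := hX.betti
      omega
    have : Nonempty {a // X.deg a = 2} := Fintype.card_pos_iff.1 hcard
    rw [hq0, det_zero] at hqd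
    exact not_isUnit_zero hqd
  obtain ⟨a, b, hab⟩ := hne
  have h3 : Tendsto (fun k : ℕ => ((ℓ : ℚ_[ℓ]) ^ k)⁻¹ * (χ (s k) ^ 2 - 1)) atTop
      (𝓝 ((Yᵀ * q + q * Y) a b * (q a b)⁻¹)) := by
    have h4 : Tendsto (fun k : ℕ => ((((ℓ : ℚ_[ℓ]) ^ k)⁻¹ * (χ (s k) ^ 2 - 1)) • q) a b) atTop
        (𝓝 ((Yᵀ * q + q * Y) a b)) := ((continuous_id.matrix_elem a b).tendsto _).comp h2
    refine (h4.mul_const (q a b)⁻¹).congr fun k => ?_
    rw [Matrix.smul_apply, smul_eq_mul, mul_assoc, mul_inv_cancel₀ hab, mul_one]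
  set y := (Yᵀ * q + q * Y) a b * (q a b)⁻¹ with hy
  have h4 : Yᵀ * q + q * Y = y • q := by
    refine tendsto_nhds_unique h2 ?_
    exact h3.smul tendsto_const_nhds
  refine ⟨y, h3, h4, ?_, ?_⟩
  · have h5 := congrArg (fun M => (q⁻¹ * M).trace) h4
    simp only [mul_add, trace_add, mul_smul_comm, trace_smul] at h5
    rw [← mul_assoc, ← mul_assoc, nonsing_inv_mul q hqd, one_mul, trace_one, trace_mul_cycle,
      mul_nonsing_inv q hqd, one_mul, trace_transpose, smul_eq_mul] at h5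
    rw [← h5]
    ring
  · intro x hx
    have hinv : ∀ k, ρ (s k) * ρ (s k)⁻¹ = 1 := fun k => by
      rw [← map_mul, mul_inv_cancel, map_one]
    have hinv' : ∀ k, HY.blk X.deg 2 (ρ (s k)) * HY.blk X.deg 2 (ρ (s k)⁻¹) = 1 := fun k => by
      rw [← blk_mul _ _ _ _ (hR.graded _), hinv, blk_one]
    obtain ⟨e1, e2⟩ := hZ.inv hinv
    obtain ⟨f1, f2⟩ := hA.inv hinv'
    set δ := X.δF ℚ_[ℓ] x with hδ
    have g1 : Tendsto (fun k : ℕ => (((ℓ : ℚ_[ℓ]) ^ k)⁻¹ • (ρ (s k) - 1)) * δ * ρ (s k)⁻¹ +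
        δ * (((ℓ : ℚ_[ℓ]) ^ k)⁻¹ • (ρ (s k)⁻¹ - 1))) atTop (𝓝 (Z * δ * 1 + δ * (-Z))) := by
      apply Tendsto.add
      · exact Tendsto.mul (Tendsto.mul hZ tendsto_const_nhds) e1
      · exact Tendsto.mul tendsto_const_nhds e2
    have g2 : Tendsto (fun k : ℕ => (((ℓ : ℚ_[ℓ]) ^ k)⁻¹ • (HY.blk X.deg 2 (ρ (s k)) - 1)) * x *
        HY.blk X.deg 2 (ρ (s k)⁻¹) +
        x * (((ℓ : ℚ_[ℓ]) ^ k)⁻¹ • (HY.blk X.deg 2 (ρ (s k)⁻¹) - 1))) atTop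
        (𝓝 (Y * x * 1 + x * (-Y))) := by
      apply Tendsto.add
      · exact Tendsto.mul (Tendsto.mul hA tendsto_const_nhds) f1
      · exact Tendsto.mul tendsto_const_nhds f2
    have g3 := ((dF_cont X).tendsto _).comp g2
    have g4 : ∀ k : ℕ, (((ℓ : ℚ_[ℓ]) ^ k)⁻¹ • (ρ (s k) - 1)) * δ * ρ (s k)⁻¹ +
        δ * (((ℓ : ℚ_[ℓ]) ^ k)⁻¹ • (ρ (s k)⁻¹ - 1)) =
        X.δF ℚ_[ℓ] ((((ℓ : ℚ_[ℓ]) ^ k)⁻¹ • (HY.blk X.deg 2 (ρ (s k)) - 1)) * x *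
          HY.blk X.deg 2 (ρ (s k)⁻¹) +
          x * (((ℓ : ℚ_[ℓ]) ^ k)⁻¹ • (HY.blk X.deg 2 (ρ (s k)⁻¹) - 1))) := by
      intro k
      have k1 : ∀ (m : Type) [Fintype m] [DecidableEq m] (c : ℚ_[ℓ]) (A A' B : Matrix m m ℚ_[ℓ]),
          (c • (A - 1)) * B * A' + B * (c • (A' - 1)) = c • (A * B * A' - B) := by
        intro m _ _ c A A' B
        rw [smul_mul_assoc, smul_mul_assoc, mul_smul_comm, ← smul_add, sub_mul, sub_mul, one_mul,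
          mul_sub, mul_one]
        congr 1
        abel
      have k2 : ∀ u v, X.δF ℚ_[ℓ] (u - v) = X.δF ℚ_[ℓ] u - X.δF ℚ_[ℓ] v := by
        intro u v
        rw [sub_eq_add_neg, b1, ← neg_one_smul ℚ_[ℓ] v, b2, neg_one_smul, ← sub_eq_add_neg]
      rw [k1 ι, k1 {a // X.deg a = 2}, b2, k2, ← hR.equivariant (s k) x hx]
    have g5 : Z * δ * 1 + δ * (-Z) = X.δF ℚ_[ℓ] (Y * x * 1 + x * (-Y)) :=
      tendsto_nhds_unique g1 (g3.congr fun k => (g4 k).symm)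
    rw [mul_one, mul_one, mul_neg, mul_neg, ← sub_eq_add_neg, ← sub_eq_add_neg] at g5
    exact g5

end Tan

end Pool.Agent.NH56.HY
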